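import Pool.Agent.Lib.H21T.Defs

/-!
# Chunk B1 (S/M): a ceiling identity
-/

namespace Pool.Agent.Lib.H21T

open Finset Pool.Agent.SZW

/-- `⌈(u - t j) / s⌉` depends only on `⌈u⌉`. -/
theorem b1_red (s : ℕ) (hs : 1 ≤ s) (m : ℤ) (u : ℝ) : ⌈(u - m) / s⌉ = ⌈((⌈u⌉ : ℝ) - m) / s⌉ := by
  have hs0 : (0 : ℝ) < s := by exact_mod_cast hs
  apply eq_of_forall_ge_iff
  intro k
  rw [Int.ceil_le, Int.ceil_le, div_le_iff₀ hs0, div_le_iff₀ hs0, sub_le_iff_le_add, sub_le_iff_le_add]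
  have h1 : (k : ℝ) * s + m = ((k * s + m : ℤ) : ℝ) := by push_cast; ring
  rw [h1, Int.cast_le, Int.ceil_le]

/-- the ceiling of an integer quotient -/
theorem b1_int (s : ℕ) (hs : 1 ≤ s) (n : ℤ) : ⌈(n : ℝ) / s⌉ = -((-n) / (s : ℤ)) := by
  have hs0 : (0 : ℝ) < s := by exact_mod_cast hs
  have hs1 : (0 : ℤ) < s := by exact_mod_cast hs
  apply eq_of_forall_ge_iff
  intro k
  rw [Int.ceil_le, div_le_iff₀ hs0]
  have h1 : (k : ℝ) * s = ((k * s : ℤ) : ℝ) := by push_cast; ring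
  rw [h1, Int.cast_le, neg_le, Int.le_ediv_iff_mul_le hs1, neg_mul, neg_le_neg_iff]

/-- one step -/
theorem b1_step (s : ℕ) (hs : 1 ≤ s) (n : ℤ) :
    ⌈((n + 1 : ℤ) : ℝ) / s⌉ - ⌈(n : ℝ) / s⌉ = if (s : ℤ) ∣ n then 1 else 0 := by
  have hs1 : (0 : ℤ) < s := by exact_mod_cast hs
  rw [b1_int s hs, b1_int s hs]
  split_ifs with h
  · obtain ⟨k, rfl⟩ := h
    have h1 : (-((s : ℤ) * k)) / (s : ℤ) = -k := by
      rw [← mul_neg, Int.mul_ediv_cancel_left _ hs1.ne']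
    have h2 : (-((s : ℤ) * k + 1)) / (s : ℤ) = -k - 1 := by
      have h3 : -((s : ℤ) * k + 1) = (s - 1) + (-k - 1) * s := by ring
      rw [h3, Int.add_mul_ediv_right _ _ hs1.ne', Int.ediv_eq_zero_of_lt (by omega) (by omega), zero_add]
    rw [h1, h2]
    ring
  · have h4 := Int.emod_add_mul_ediv (-n) s
    have h5 := Int.emod_nonneg (-n) hs1.ne'
    have h6 : (-n) % (s : ℤ) ≠ 0 := by
      intro h7
      apply h
      exact (dvd_neg).1 (Int.dvd_of_emod_eq_zero h7)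
    have h8 := Int.emod_lt_of_pos (-n) hs1
    have h2 : (-(n + 1)) / (s : ℤ) = (-n) / s := by
      have h3 : -(n + 1) = ((-n) % s - 1) + ((-n) / s) * s := by linarith [h4, mul_comm (s : ℤ) ((-n) / s)]
      rw [h3, Int.add_mul_ediv_right _ _ hs1.ne', Int.ediv_eq_zero_of_lt (by omega) (by omega), zero_add]
    rw [h2]
    ring

/-- exactly one `j < s` has `s ∣ n - t j` -/
theorem b1_one (s t : ℕ) (hs : 1 ≤ s) (hco : Nat.Coprime s t) (n : ℤ) :
    ∑ j ∈ range s, (if (s : ℤ) ∣ n - t * j then (1 : ℤ) else 0) = 1 := by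
  have hs1 : (0 : ℤ) < s := by exact_mod_cast hs
  rw [Finset.sum_boole]
  have hco' : IsCoprime (t : ℤ) (s : ℤ) := (Nat.isCoprime_iff_coprime.2 hco).symm
  obtain ⟨a, b, hab⟩ := hco'
  have h1 : (range s).filter (fun j : ℕ => (s : ℤ) ∣ n - t * j) = {((n * a) % s).toNat} := by
    have h5 := Int.emod_nonneg (n * a) hs1.ne'
    have h6 := Int.emod_lt_of_pos (n * a) hs1
    ext j
    rw [mem_filter, mem_range, mem_singleton]
    constructor
    · rintro ⟨h2, h3⟩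
      have h4 : (j : ℤ) % s = (n * a) % s := by
        apply Int.emod_emod_of_dvd _ (dvd_refl _) |>.symm.trans
        rw [Int.emod_emod_of_dvd _ (dvd_refl _)]
        apply (Int.emod_emod_of_dvd _ (dvd_refl _)).symm.trans
        rw [Int.emod_emod_of_dvd _ (dvd_refl _)]
        apply Int.ModEq.symm
        rw [Int.modEq_iff_dvd]
        have h7 : (j : ℤ) - n * a = (s : ℤ) * (b * j) - a * (n - t * j) := by
          linear_combination (-(j : ℤ)) * hab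
        rw [h7]
        exact dvd_sub (Dvd.intro _ rfl) (Dvd.dvd.mul_left h3 _)
      have h8 : (j : ℤ) % s = j := Int.emod_eq_of_lt (by omega) (by exact_mod_cast h2)
      omega
    · rintro rfl
      refine ⟨by omega, ?_⟩
      rw [Int.toNat_of_nonneg h5]
      have h9 := Int.emod_add_mul_ediv (n * a) s
      have h10 : n - t * ((n * a) % s) = (s : ℤ) * (n * b + t * ((n * a) / s)) := by
        linear_combination (-n) * hab - t * h9
      rw [h10]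
      exact Dvd.intro _ rfl
  rw [h1, card_singleton]
  rfl

/-- `c = ∑_{j < s} ⌈- t j / s⌉`. For an integer `k`: `s k ≥ u - t j` iff `s k ≥ ⌈u⌉ - t j`, so `⌈(u - t j) / s⌉ = ⌈(⌈u⌉ - t j) / s⌉` and one may assume `u = n ∈ ℤ`.
For integers `⌈(n + 1 - t j) / s⌉ - ⌈(n - t j) / s⌉` is `1` if `s ∣ n - t j` and `0` otherwise, and as `t` is prime to `s` exactly one `j < s` has `s ∣ n - t j`.
Induction (in both directions) from `n = 0`. -/
theorem b1 (s t : ℕ) (hs : 1 ≤ s) (hco : Nat.Coprime s t) :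
    ∃ c : ℤ, ∀ u : ℝ, ∑ j ∈ range s, ⌈(u - t * j) / s⌉ = ⌈u⌉ + c := by
  have hstep : ∀ n : ℤ, ∑ j ∈ range s, ⌈(((n + 1 : ℤ) : ℝ) - ((t * j : ℤ) : ℝ)) / s⌉ =
      ∑ j ∈ range s, ⌈((n : ℝ) - ((t * j : ℤ) : ℝ)) / s⌉ + 1 := by
    intro n
    have h0 : ∑ j ∈ range s, ⌈(((n + 1 : ℤ) : ℝ) - ((t * j : ℤ) : ℝ)) / s⌉ =
        ∑ j ∈ range s, (⌈((n : ℝ) - ((t * j : ℤ) : ℝ)) / s⌉ + (if (s : ℤ) ∣ n - t * j then (1 : ℤ) else 0)) := by
      refine Finset.sum_congr rfl fun j _ => ?_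
      have h1 := b1_step s hs (n - t * j)
      have h2 : ((n - t * j + 1 : ℤ) : ℝ) = ((n + 1 : ℤ) : ℝ) - ((t * j : ℤ) : ℝ) := by push_cast; ring
      have h3 : ((n - t * j : ℤ) : ℝ) = (n : ℝ) - ((t * j : ℤ) : ℝ) := by push_cast; ring
      rw [h2, h3] at h1
      omega
    rw [h0, Finset.sum_add_distrib, b1_one s t hs hco n]
  have hall : ∀ n : ℤ, ∑ j ∈ range s, ⌈((n : ℝ) - ((t * j : ℤ) : ℝ)) / s⌉ =
      n + ∑ j ∈ range s, ⌈(((0 : ℤ) : ℝ) - ((t * j : ℤ) : ℝ)) / s⌉ := by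
    intro n
    induction n using Int.induction_on with
    | zero => rw [zero_add]
    | succ n ih =>
      rw [hstep, ih]
      ring
    | pred n ih =>
      have h1 := hstep (-(n : ℤ) - 1)
      have h2 : (-(n : ℤ) - 1 + 1) = -(n : ℤ) := by ring
      rw [h2, ih] at h1
      linarith
  refine ⟨∑ j ∈ range s, ⌈(((0 : ℤ) : ℝ) - ((t * j : ℤ) : ℝ)) / s⌉, fun u => ?_⟩
  rw [← hall]
  refine Finset.sum_congr rfl fun j _ => ?_
  have h1 := b1_red s hs (t * j) u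
  have h2 : ((t * j : ℤ) : ℝ) = (t : ℝ) * j := by push_cast; ring
  rw [h2] at h1
  rw [h1, h2]

end Pool.Agent.Lib.H21T
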