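import Pool.Agent.Lib.H21T.Defs

/-!
# Chunk B10 (S/M): a complete sum
-/

namespace Pool.Agent.Lib.H21T

open Finset Pool.Agent.SZW

theorem b10_pow (t : ℝ) (n : ℕ) : ee (t * n) = ee t ^ n := by
  induction n with
  | zero => rw [Nat.cast_zero, mul_zero, ee_zero, pow_zero]
  | succ n ih => rw [Nat.cast_succ, mul_add, mul_one, ee_add, ih, pow_succ]

/-- For fixed `r1` the inner sum over `r2` is `q` if `q ∣ p r1` (iff `q ∣ r1` iff `r1 = 0`) and `0` otherwise (geometric sum with ratio `ee (p r1 / q) ≠ 1`,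
`ee (p r1 / q) ^ q = 1`; or `norm_one_sub_ee`). -/
theorem b10 (q : ℕ) (p : ℤ) (hq : 1 ≤ q) (hp : IsCoprime p (q : ℤ)) :
    ∑ r1 ∈ range q, ∑ r2 ∈ range q, ee ((p : ℝ) / q * ((r1 : ℝ) * r2)) = q := by
  have hq0 : (q : ℝ) ≠ 0 := by positivity
  have h1 : ∀ r1 ∈ range q, ∑ r2 ∈ range q, ee ((p : ℝ) / q * ((r1 : ℝ) * r2)) = if r1 = 0 then (q : ℂ) else 0 := by
    intro r1 hr1
    have h2 : ∀ r2 ∈ range q, ee ((p : ℝ) / q * ((r1 : ℝ) * r2)) = ee ((p : ℝ) / q * r1) ^ r2 := by
      intro r2 _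
      rw [← b10_pow, mul_assoc]
    rw [Finset.sum_congr rfl h2]
    split_ifs with h0
    · rw [h0]
      simp [ee_zero]
    · have hz : ee ((p : ℝ) / q * r1) ^ q = 1 := by
        rw [← b10_pow]
        have h3 : (p : ℝ) / q * r1 * q = ((p * r1 : ℤ) : ℝ) := by
          push_cast
          field_simp
        rw [h3, ee_int]
      have hne : ee ((p : ℝ) / q * r1) ≠ 1 := by
        intro h3
        have h4 := norm_one_sub_ee ((p : ℝ) / q * r1)
        rw [h3, sub_self, norm_zero] at h4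
        have h5 : nn ((p : ℝ) / q * r1) = 0 := le_antisymm (by linarith) (abs_nonneg _)
        unfold nn at h5
        rw [abs_eq_zero, sub_eq_zero] at h5
        set k := round ((p : ℝ) / q * r1) with hk
        have h6 : ((p * r1 : ℤ) : ℝ) = ((q * k : ℤ) : ℝ) := by
          push_cast
          rw [← h5]
          field_simp
        have h7 : p * r1 = q * k := by exact_mod_cast h6
        have h8 : (q : ℤ) ∣ p * r1 := ⟨k, h7⟩
        have h9 : (q : ℤ) ∣ r1 := hp.symm.dvd_of_dvd_mul_left h8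
        have h10 : q ∣ r1 := by exact_mod_cast h9
        have h11 := Finset.mem_range.1 hr1
        exact h0 (Nat.eq_zero_of_dvd_of_lt h10 h11)
      have h3 := geom_sum_mul (ee ((p : ℝ) / q * r1)) q
      rw [hz, sub_self] at h3
      exact (mul_eq_zero.1 h3).resolve_right (sub_ne_zero.2 hne)
  rw [Finset.sum_congr rfl h1, Finset.sum_ite_eq', if_pos (Finset.mem_range.2 hq)]

end Pool.Agent.Lib.H21T
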