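import Pool.Agent.Lib.H21T.B9
import Pool.Agent.Lib.H21T.B10

/-!
# Chunk B11 (S/M): the exponential sum at a rational
-/

namespace Pool.Agent.Lib.H21T

open Finset Pool.Agent.SZW

theorem b11_ee (q : ℕ) (p : ℤ) (hq : 1 ≤ q) (a b : ℕ) :
    ee ((p : ℝ) / q * ((a : ℝ) * b)) = ee ((p : ℝ) / q * (((a % q : ℕ) : ℝ) * ((b % q : ℕ) : ℝ))) := by
  have hq0 : (q : ℝ) ≠ 0 := by positivity
  have h1 : (a : ℝ) = q * ((a / q : ℕ) : ℝ) + ((a % q : ℕ) : ℝ) := by exact_mod_cast (Nat.div_add_mod a q).symm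
  have h2 : (b : ℝ) = q * ((b / q : ℕ) : ℝ) + ((b % q : ℕ) : ℝ) := by exact_mod_cast (Nat.div_add_mod b q).symm
  generalize a / q = a' at h1
  generalize b / q = b' at h2
  generalize a % q = ra at h1 ⊢
  generalize b % q = rb at h2 ⊢
  have h3 : (p : ℝ) / q * ((a : ℝ) * b) = (p : ℝ) / q * ((ra : ℝ) * (rb : ℝ)) +
      ((p * (q * a' * b' + a' * rb + ra * b') : ℤ) : ℝ) := by
    push_cast
    rw [h1, h2]
    field_simp
    ring
  rw [h3, ee_add, ee_int, mul_one]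

theorem b11_SR (A1 A2 x H q : ℕ) (p : ℤ) (hq : 1 ≤ q) :
    SR ((p : ℝ) / q) A1 A2 x H = ∑ r1 ∈ range q, ∑ r2 ∈ range q, ee ((p : ℝ) / q * ((r1 : ℝ) * r2)) * (cnt A1 A2 x H q r1 r2 : ℂ) := by
  unfold SR
  have hm : ∀ pp ∈ Rg A1 A2 x H, (pp.1 % q, pp.2 % q) ∈ range q ×ˢ range q := by
    intro pp _
    rw [Finset.mem_product, Finset.mem_range, Finset.mem_range]
    exact ⟨Nat.mod_lt _ hq, Nat.mod_lt _ hq⟩
  rw [← Finset.sum_fiberwise_of_maps_to hm, Finset.sum_product]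
  refine Finset.sum_congr rfl fun r1 _ => Finset.sum_congr rfl fun r2 _ => ?_
  have h1 : ∀ pp ∈ (Rg A1 A2 x H).filter (fun pp => (pp.1 % q, pp.2 % q) = (r1, r2)),
      ee ((p : ℝ) / q * ((pp.1 : ℝ) * pp.2)) = ee ((p : ℝ) / q * ((r1 : ℝ) * r2)) := by
    intro pp hpp
    have h2 := (Finset.mem_filter.1 hpp).2
    rw [Prod.mk.injEq] at h2
    rw [b11_ee q p hq, h2.1, h2.2]
  rw [Finset.sum_congr rfl h1, Finset.sum_const, nsmul_eq_mul, mul_comm]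
  congr 2
  unfold cnt
  congr 1
  ext pp
  simp only [Finset.mem_filter, Prod.mk.injEq]

/-- `ee (p a b / q)` depends only on `a % q`, `b % q` (`ee_int`); so `SR (p / q) = ∑_{r1, r2 < q} ee (p r1 r2 / q) cnt(r1, r2)`. Replace `cnt` by the main term of `b9` (`q ^ 2` errors) and
use `b10`: the main term is `q * (H / q ^ 2) (log A2 - log A1)`. -/
theorem b11 {A x X S Λ A1 A2 : ℕ} (G : Geo A x X S Λ) (h1 : A ≤ A1) (h2 : A1 ≤ A2) (h3 : A2 ≤ 2 * A) {H q s0 : ℕ} {p : ℤ}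
    (hH : H * S ^ 2 ≤ A ^ 2) (hq : 1 ≤ q) (hqA : 2 * q ≤ A) (hp : IsCoprime p (q : ℤ)) (hs0 : 1 ≤ s0) :
    ‖SR ((p : ℝ) / q) A1 A2 x H - (((H : ℝ) / q * (Real.log A2 - Real.log A1) : ℝ) : ℂ)‖ ≤
      (q : ℝ) ^ 2 * (2 * A * (1 / (s0 : ℝ) + 12 / S) + 2 * A * S / Λ + 291 * X * s0 * S * Λ + 2 * H / A) := by
  have hq0 : (q : ℝ) ≠ 0 := by positivity
  set c0 : ℝ := (H : ℝ) / q ^ 2 * (Real.log A2 - Real.log A1) with hc0
  have e1 : (((H : ℝ) / q * (Real.log A2 - Real.log A1) : ℝ) : ℂ) =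
      ∑ r1 ∈ range q, ∑ r2 ∈ range q, ee ((p : ℝ) / q * ((r1 : ℝ) * r2)) * (c0 : ℂ) := by
    have h4 := b10 q p hq hp
    have h5 : ∑ r1 ∈ range q, ∑ r2 ∈ range q, ee ((p : ℝ) / q * ((r1 : ℝ) * r2)) * (c0 : ℂ) =
        (∑ r1 ∈ range q, ∑ r2 ∈ range q, ee ((p : ℝ) / q * ((r1 : ℝ) * r2))) * (c0 : ℂ) := by
      rw [Finset.sum_mul]
      refine Finset.sum_congr rfl fun r1 _ => ?_
      rw [Finset.sum_mul]
    rw [h5, h4]
    have h6 : (H : ℝ) / q * (Real.log A2 - Real.log A1) = q * c0 := by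
      rw [hc0]
      field_simp
    rw [h6]
    push_cast
    rfl
  rw [b11_SR A1 A2 x H q p hq, e1, ← Finset.sum_sub_distrib]
  refine (norm_sum_le _ _).trans ?_
  set bd : ℝ := 2 * A * (1 / (s0 : ℝ) + 12 / S) + 2 * A * S / Λ + 291 * X * s0 * S * Λ + 2 * H / A with hbd
  have h4 : ∀ r1 ∈ range q, ‖∑ r2 ∈ range q, ee ((p : ℝ) / q * ((r1 : ℝ) * r2)) * (cnt A1 A2 x H q r1 r2 : ℂ) -
      ∑ r2 ∈ range q, ee ((p : ℝ) / q * ((r1 : ℝ) * r2)) * (c0 : ℂ)‖ ≤ q * bd := by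
    intro r1 hr1
    rw [← Finset.sum_sub_distrib]
    refine (norm_sum_le _ _).trans ?_
    have h5 : ∀ r2 ∈ range q, ‖ee ((p : ℝ) / q * ((r1 : ℝ) * r2)) * (cnt A1 A2 x H q r1 r2 : ℂ) -
        ee ((p : ℝ) / q * ((r1 : ℝ) * r2)) * (c0 : ℂ)‖ ≤ bd := by
      intro r2 hr2
      rw [← mul_sub, norm_mul, norm_ee, one_mul]
      have h6 := b9 G h1 h2 h3 (r1 := r1) (r2 := r2) hH hq hqA (Finset.mem_range.1 hr1) (Finset.mem_range.1 hr2) hs0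
      have h7 : ((cnt A1 A2 x H q r1 r2 : ℂ) - (c0 : ℂ)) = (((cnt A1 A2 x H q r1 r2 : ℝ) - c0 : ℝ) : ℂ) := by
        push_cast
        rfl
      rw [h7, Complex.norm_real, Real.norm_eq_abs]
      exact h6
    refine (Finset.sum_le_sum h5).trans ?_
    rw [Finset.sum_const, Finset.card_range, nsmul_eq_mul]
  refine (Finset.sum_le_sum h4).trans ?_
  rw [Finset.sum_const, Finset.card_range, nsmul_eq_mul]
  apply le_of_eq
  ring

end Pool.Agent.Lib.H21T
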