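import Pool.Agent.Lib.H21T.B1

/-!
# Chunk B2 (S): one block
-/

namespace Pool.Agent.Lib.H21T

open Finset Pool.Agent.SZW

/-- With `c` of `b1` let `C = c + t (s - 1) / 2`. `y j ≤ y0 + η - t j / s = (s (y0 + η) - t j) / s`, so `∑ ⌈y j⌉ ≤ ⌈s (y0 + η)⌉ + c ≤ s (y0 + η) + 1 + c`, and
`∑ y j ≥ s y0 - t (s - 1) / 2 - s η`. Lower bound: `∑ ⌈y j⌉ ≥ ⌈s (y0 - η)⌉ + c ≥ s (y0 - η) + c`, `∑ y j ≤ s y0 - t (s - 1) / 2 + s η`. -/
theorem b2 (s t : ℕ) (hs : 1 ≤ s) (hco : Nat.Coprime s t) :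
    ∃ C : ℝ, ∀ (y : ℕ → ℝ) (y0 η : ℝ), (∀ j < s, |y j - (y0 - (t : ℝ) * j / s)| ≤ η) →
      C - 2 * s * η ≤ ∑ j ∈ range s, Fr (y j) ∧ ∑ j ∈ range s, Fr (y j) ≤ C + 1 + 2 * s * η := by
  obtain ⟨c, hc⟩ := b1 s t hs hco
  have hs0 : (0:ℝ) < s := by exact_mod_cast hs
  have hsum : ∑ j ∈ range s, ((t : ℝ) * j / s) = t * (s - 1) / 2 := by
    have h1 : ∑ j ∈ range s, ((t : ℝ) * j / s) = (t : ℝ) / s * ∑ j ∈ range s, (j : ℝ) := by
      rw [Finset.mul_sum]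
      refine Finset.sum_congr rfl fun j _ => ?_
      ring
    have h2 : (∑ j ∈ range s, (j : ℝ)) * 2 = s * (s - 1) := by
      have h3 := Finset.sum_range_id_mul_two s
      have h4 : (((∑ j ∈ range s, j) * 2 : ℕ) : ℝ) = ((s * (s - 1) : ℕ) : ℝ) := by rw [h3]
      rw [Nat.cast_mul, Nat.cast_mul, Nat.cast_sub hs, Nat.cast_sum] at h4
      exact_mod_cast h4
    have h3 : ∑ j ∈ range s, (j : ℝ) = s * (s - 1) / 2 := by linarith
    rw [h1, h3]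
    field_simp
  refine ⟨c + t * (s - 1) / 2, fun y y0 η hy => ?_⟩
  have hup : ∑ j ∈ range s, y j ≤ s * y0 - t * (s - 1) / 2 + s * η := by
    have h1 : ∀ j ∈ range s, y j ≤ y0 - (t : ℝ) * j / s + η := by
      intro j hj
      have := (abs_le.1 (hy j (Finset.mem_range.1 hj))).2
      linarith
    refine (Finset.sum_le_sum h1).trans ?_
    rw [Finset.sum_add_distrib, Finset.sum_sub_distrib, hsum, Finset.sum_const, Finset.sum_const, Finset.card_range,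
      nsmul_eq_mul, nsmul_eq_mul]
  have hlo : s * y0 - t * (s - 1) / 2 - s * η ≤ ∑ j ∈ range s, y j := by
    have h1 : ∀ j ∈ range s, y0 - (t : ℝ) * j / s - η ≤ y j := by
      intro j hj
      have := (abs_le.1 (hy j (Finset.mem_range.1 hj))).1
      linarith
    refine le_trans ?_ (Finset.sum_le_sum h1)
    rw [Finset.sum_sub_distrib, Finset.sum_sub_distrib, hsum, Finset.sum_const, Finset.sum_const, Finset.card_range,
      nsmul_eq_mul, nsmul_eq_mul]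
  have hcup : ∑ j ∈ range s, ((⌈y j⌉ : ℤ) : ℝ) ≤ s * (y0 + η) + 1 + c := by
    have h1 : ∑ j ∈ range s, ⌈y j⌉ ≤ ∑ j ∈ range s, ⌈(s * (y0 + η) - t * j) / (s : ℝ)⌉ := by
      refine Finset.sum_le_sum fun j hj => Int.ceil_le_ceil ?_
      have := (abs_le.1 (hy j (Finset.mem_range.1 hj))).2
      have h2 : (s * (y0 + η) - t * j) / (s : ℝ) = y0 - (t : ℝ) * j / s + η := by field_simp; ring
      rw [h2]
      linarith
    rw [hc] at h1
    have h2 : ∑ j ∈ range s, ((⌈y j⌉ : ℤ) : ℝ) ≤ ((⌈(s : ℝ) * (y0 + η)⌉ : ℤ) : ℝ) + c := by exact_mod_cast h1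
    have h3 := Int.ceil_lt_add_one ((s : ℝ) * (y0 + η))
    linarith
  have hclo : s * (y0 - η) + c ≤ ∑ j ∈ range s, ((⌈y j⌉ : ℤ) : ℝ) := by
    have h1 : ∑ j ∈ range s, ⌈(s * (y0 - η) - t * j) / (s : ℝ)⌉ ≤ ∑ j ∈ range s, ⌈y j⌉ := by
      refine Finset.sum_le_sum fun j hj => Int.ceil_le_ceil ?_
      have := (abs_le.1 (hy j (Finset.mem_range.1 hj))).1
      have h2 : (s * (y0 - η) - t * j) / (s : ℝ) = y0 - (t : ℝ) * j / s - η := by field_simp; ring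
      rw [h2]
      linarith
    rw [hc] at h1
    have h2 : ((⌈(s : ℝ) * (y0 - η)⌉ : ℤ) : ℝ) + c ≤ ∑ j ∈ range s, ((⌈y j⌉ : ℤ) : ℝ) := by exact_mod_cast h1
    have h3 := Int.le_ceil ((s : ℝ) * (y0 - η))
    linarith
  have hF : ∑ j ∈ range s, Fr (y j) = ∑ j ∈ range s, ((⌈y j⌉ : ℤ) : ℝ) - ∑ j ∈ range s, y j := by
    rw [← Finset.sum_sub_distrib]
    rfl
  rw [hF]
  constructor <;> nlinarith

end Pool.Agent.Lib.H21T
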