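import Pool.Agent.Lib.H21T.B2

/-!
# Chunk B3 (S/M): a sequence of blocks
-/

namespace Pool.Agent.Lib.H21T

open Finset Pool.Agent.SZW

theorem b3_fr (y z : ℝ) : |Fr z - Fr y| ≤ 1 := by
  unfold Fr
  have h1 := Int.le_ceil y
  have h2 := Int.ceil_lt_add_one y
  have h3 := Int.le_ceil z
  have h4 := Int.ceil_lt_add_one z
  rw [abs_le]
  constructor <;> linarith

theorem b3_blocks (s : ℕ) (f : ℕ → ℝ) (B : ℝ) (n : ℕ) (h : ∀ l < n, |∑ j ∈ range s, f (l * s + j)| ≤ B) :
    |∑ j ∈ range (n * s), f j| ≤ n * B := by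
  induction n with
  | zero => simp
  | succ n ih =>
    have h1 := ih fun l hl => h l (by omega)
    have h2 := h n (by omega)
    rw [Nat.succ_mul, Finset.sum_range_add]
    refine (abs_add_le _ _).trans ?_
    push_cast
    linarith

/-- Cut `range W` into `W / s` blocks of length `s` and a rest of fewer than `s` terms. On a block `b2` holds for `z` and for `y` with the same constant `C`
(`y0 = y (l s)`), so the difference is at most `1 + 4 s η` in absolute value; every single term is at most `1` in absolute value (`0 ≤ Fr < 1`). -/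
theorem b3 (s t W : ℕ) (hs : 1 ≤ s) (hco : Nat.Coprime s t) (y z : ℕ → ℝ) (η : ℝ) (hη : 0 ≤ η)
    (hy : ∀ l j, (l + 1) * s ≤ W → j < s → |y (l * s + j) - (y (l * s) - (t : ℝ) * j / s)| ≤ η)
    (hz : ∀ l j, (l + 1) * s ≤ W → j < s → |z (l * s + j) - (z (l * s) - (t : ℝ) * j / s)| ≤ η) :
    |∑ j ∈ range W, (Fr (z j) - Fr (y j))| ≤ (W : ℝ) / s * (1 + 4 * s * η) + s := by
  obtain ⟨C, hC⟩ := b2 s t hs hco
  have hs' : (0 : ℝ) < s := by exact_mod_cast hs
  have hbl : ∀ l < W / s, |∑ j ∈ range s, (Fr (z (l * s + j)) - Fr (y (l * s + j)))| ≤ 1 + 4 * s * η := by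
    intro l hl
    have hl2 : (l + 1) * s ≤ W := by
      calc (l + 1) * s ≤ (W / s) * s := Nat.mul_le_mul_right s hl
        _ ≤ W := Nat.div_mul_le_self W s
    have h1 := hC (fun j => y (l * s + j)) (y (l * s)) η fun j hj => hy l j hl2 hj
    have h2 := hC (fun j => z (l * s + j)) (z (l * s)) η fun j hj => hz l j hl2 hj
    rw [Finset.sum_sub_distrib, abs_le]
    constructor
    · linarith [h1.1, h1.2, h2.1, h2.2]
    · linarith [h1.1, h1.2, h2.1, h2.2]
  have h3 := b3_blocks s (fun j => Fr (z j) - Fr (y j)) (1 + 4 * s * η) (W / s) hbl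
  have h4 : |∑ j ∈ range (W % s), (Fr (z (W / s * s + j)) - Fr (y (W / s * s + j)))| ≤ s := by
    refine (Finset.abs_sum_le_sum_abs _ _).trans ?_
    have h5 : ∑ j ∈ range (W % s), |Fr (z (W / s * s + j)) - Fr (y (W / s * s + j))| ≤ ∑ _j ∈ range (W % s), (1 : ℝ) :=
      Finset.sum_le_sum fun j _ => b3_fr _ _
    refine h5.trans ?_
    rw [Finset.sum_const, card_range, nsmul_eq_mul, mul_one]
    exact_mod_cast (Nat.mod_lt W hs).le
  have h6 : W = W / s * s + W % s := by
    rw [Nat.mul_comm]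
    exact (Nat.div_add_mod W s).symm
  have h7 : ∑ j ∈ range W, (Fr (z j) - Fr (y j)) = ∑ j ∈ range (W / s * s), (Fr (z j) - Fr (y j)) +
      ∑ j ∈ range (W % s), (Fr (z (W / s * s + j)) - Fr (y (W / s * s + j))) := by
    rw [← Finset.sum_range_add (fun j => Fr (z j) - Fr (y j)), ← h6]
  rw [h7]
  refine (abs_add_le _ _).trans ?_
  have h8 : ((W / s : ℕ) : ℝ) ≤ (W : ℝ) / s := Nat.cast_div_le
  have h9 : (0 : ℝ) ≤ 1 + 4 * s * η := by positivity
  have h10 := mul_le_mul_of_nonneg_right h8 h9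
  linarith

end Pool.Agent.Lib.H21T
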