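import Pool.Agent.Lib.H21T.F2

/-!
# Chunk B4 (S/M): the slope along a progression
-/

namespace Pool.Agent.Lib.H21T

open Finset Pool.Agent.SZW

/-- For `a' = a + q j`: `yv x' q r a' - yv x' q r a = (x' / a' - x' / a) / q = - x' j / (a a')`, so the expression is `(j / s) (t - s x' / (a a'))`, at most
`|t - s x' / (a a')| ≤ |t - s x / a0 ^ 2| + s |x / a0 ^ 2 - x / (a a')| + s (x' - x) / (a a') ≤ 1 / S + S / S ^ 2 + S H / A ^ 2 ≤ 3 / S`
(`Ap`, `f2_var`, `hH`). Here `x' = x` or `x' = x + H`, so `0 ≤ x' - x ≤ H`. -/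
theorem b4 {A x X S Λ : ℕ} (G : Geo A x X S Λ) {a0 s t x' H q r a j : ℕ} (h0 : A ≤ a0) (hs1 : 1 ≤ s) (hsS : s ≤ S) (hap : Ap x S a0 s t)
    (hx1 : x ≤ x') (hx2 : x' ≤ x + H) (hH : H * S ^ 2 ≤ A ^ 2) (hq : 1 ≤ q) (h1 : a0 ≤ a) (h2 : a + q * j ≤ a0 + Λ) (hj : j ≤ s) :
    |yv x' q r (a + q * j) - (yv x' q r a - (t : ℝ) * j / s)| ≤ 3 / S := by
  have hA := G.hA
  have hS := G.hS
  have hq' : (0 : ℝ) < q := by exact_mod_cast hq
  have hs' : (0 : ℝ) < s := by exact_mod_cast hs1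
  have hS' : (0 : ℝ) < S := by exact_mod_cast hS
  have hA' : (0 : ℝ) < A := by exact_mod_cast hA
  have hAa : (A : ℝ) ≤ a := by exact_mod_cast h0.trans h1
  have ha' : (0 : ℝ) < a := lt_of_lt_of_le hA' hAa
  have hsS' : (s : ℝ) ≤ S := by exact_mod_cast hsS
  have hj' : (j : ℝ) ≤ s := by exact_mod_cast hj
  have hj0 : (0 : ℝ) ≤ j := by positivity
  obtain ⟨b, hb⟩ : ∃ b : ℕ, b = a + q * j := ⟨_, rfl⟩
  have hbr : (b : ℝ) = a + q * j := by
    rw [hb]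
    push_cast
    ring
  rw [← hb] at h2 ⊢
  have hab : a ≤ b := by
    rw [hb]
    exact Nat.le_add_right _ _
  have hab' : (a : ℝ) ≤ b := by exact_mod_cast hab
  have hb0 : (0 : ℝ) < b := lt_of_lt_of_le ha' hab'
  have e1 : yv x' q r b - (yv x' q r a - (t : ℝ) * j / s) = (j / s) * (t - s * ((x' : ℝ) / (a * b))) := by
    unfold yv
    have e2 : (x' : ℝ) / b - x' / a = - (x' * (q * j)) / (a * b) := by
      field_simp
      rw [hbr]
      ring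
    have e3 : ((x' : ℝ) / b - r) / q - ((x' / a - r) / q - (t : ℝ) * j / s) = ((x' : ℝ) / b - x' / a) / q + (t : ℝ) * j / s := by
      ring
    rw [e3, e2]
    field_simp
    ring
  have hv := f2_var G h0 h1 (by omega : a ≤ a0 + Λ) (h1.trans hab) h2
  unfold Ap at hap
  have hxx : (0 : ℝ) ≤ (x' : ℝ) - x := by
    have : (x : ℝ) ≤ x' := by exact_mod_cast hx1
    linarith
  have hxH : (x' : ℝ) - x ≤ H := by
    have : (x' : ℝ) ≤ ((x + H : ℕ) : ℝ) := by exact_mod_cast hx2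
    push_cast at this
    linarith
  have hH' : (H : ℝ) * S ^ 2 ≤ A ^ 2 := by exact_mod_cast hH
  have hAA : (A : ℝ) ^ 2 ≤ a * b := by
    have := mul_le_mul hAa (hAa.trans hab') hA'.le ha'.le
    nlinarith
  have h3 : s * (((x' : ℝ) - x) / (a * b)) ≤ 1 / S := by
    have h4 : ((x' : ℝ) - x) / (a * b) ≤ H / A ^ 2 := by
      apply div_le_div₀ (by positivity) hxH (by positivity) hAA
    have h5 : (H : ℝ) / A ^ 2 ≤ 1 / S ^ 2 := by
      rw [div_le_div_iff₀ (by positivity) (by positivity)]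
      linarith
    have h6 : (0 : ℝ) ≤ ((x' : ℝ) - x) / (a * b) := by positivity
    calc s * (((x' : ℝ) - x) / (a * b)) ≤ S * (1 / S ^ 2) := mul_le_mul hsS' (h4.trans h5) h6 hS'.le
      _ = 1 / S := by field_simp
  have h3' : 0 ≤ s * (((x' : ℝ) - x) / (a * b)) := by positivity
  have h7 : |(s : ℝ) * ((x : ℝ) / (a0 : ℝ) ^ 2 - (x : ℝ) / ((a : ℝ) * b))| ≤ 1 / S := by
    rw [abs_mul, abs_of_pos hs']
    calc (s : ℝ) * |(x : ℝ) / (a0 : ℝ) ^ 2 - (x : ℝ) / ((a : ℝ) * b)| ≤ S * (1 / S ^ 2) :=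
          mul_le_mul hsS' hv (abs_nonneg _) hS'.le
      _ = 1 / S := by field_simp
  have e4 : (t : ℝ) - s * ((x' : ℝ) / (a * b)) = - (s * (x / (a0 : ℝ) ^ 2) - t) +
      s * ((x : ℝ) / (a0 : ℝ) ^ 2 - (x : ℝ) / ((a : ℝ) * b)) - s * (((x' : ℝ) - x) / (a * b)) := by
    rw [sub_div]
    ring
  have h8 : |(t : ℝ) - s * ((x' : ℝ) / (a * b))| ≤ 3 / S := by
    have e5 : (3 : ℝ) / S = 1 / S + 1 / S + 1 / S := by ring
    rw [e4, e5]
    rw [abs_le] at hap h7 ⊢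
    constructor
    · linarith [hap.1, hap.2, h7.1, h7.2]
    · linarith [hap.1, hap.2, h7.1, h7.2]
  rw [e1, abs_mul]
  have h9 : |(j : ℝ) / s| ≤ 1 := by
    rw [abs_of_nonneg (by positivity), div_le_one hs']
    exact hj'
  calc |(j : ℝ) / s| * |(t : ℝ) - s * ((x' : ℝ) / (a * b))| ≤ 1 * |(t : ℝ) - s * ((x' : ℝ) / (a * b))| :=
        mul_le_mul_of_nonneg_right h9 (abs_nonneg _)
    _ ≤ 3 / S := by rw [one_mul]; exact h8

end Pool.Agent.Lib.H21T
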