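import Pool.Agent.Lib.H21T.B3
import Pool.Agent.Lib.H21T.B4

/-!
# Chunk B5 (S/M): one piece
-/

namespace Pool.Agent.Lib.H21T

open Finset Pool.Agent.SZW

/-- A residue class in an interval is a progression: if the set is not empty let `a` be its smallest element and `W` its cardinality; it is
the image of `range W` under `j ↦ a + q j`. -/
theorem b5_ap (a0 a1 q r : ℕ) (hq : 1 ≤ q) : ∃ a W : ℕ, a0 ≤ a ∧ (∀ j < W, a + q * j < a1) ∧ W ≤ a1 - a0 ∧
    (Ico a0 a1).filter (fun a => a % q = r) = (range W).image fun j => a + q * j := by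
  rcases Finset.eq_empty_or_nonempty ((Ico a0 a1).filter (fun a => a % q = r)) with h | h
  · refine ⟨a0, 0, le_refl _, ?_, Nat.zero_le _, ?_⟩
    · intro j hj
      omega
    · rw [h]
      simp
  · obtain ⟨a, ha⟩ : ∃ a, a = ((Ico a0 a1).filter (fun a => a % q = r)).min' h := ⟨_, rfl⟩
    have ham : a ∈ (Ico a0 a1).filter (fun a => a % q = r) := by
      rw [ha]
      exact Finset.min'_mem _ h
    have hmin : ∀ b ∈ (Ico a0 a1).filter (fun a => a % q = r), a ≤ b := by
      intro b hb
      rw [ha]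
      exact Finset.min'_le _ b hb
    rw [mem_filter, mem_Ico] at ham
    obtain ⟨⟨h1, h2⟩, h3⟩ := ham
    have hW : ∀ j, j < (a1 - a - 1) / q + 1 → a + q * j < a1 := by
      intro j hj
      have h4 : j ≤ (a1 - a - 1) / q := by omega
      have h5 : j * q ≤ a1 - a - 1 := (Nat.le_div_iff_mul_le (by omega)).1 h4
      have h6 : q * j = j * q := Nat.mul_comm q j
      omega
    refine ⟨a, (a1 - a - 1) / q + 1, h1, hW, ?_, ?_⟩
    · have := Nat.div_le_self (a1 - a - 1) q
      omega
    · ext b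
      rw [mem_image]
      constructor
      · intro hb
        have h4 := hmin b hb
        rw [mem_filter, mem_Ico] at hb
        have h5 : a ≡ b [MOD q] := by
          unfold Nat.ModEq
          rw [h3, hb.2]
        obtain ⟨j, hj⟩ := (Nat.modEq_iff_dvd' h4).1 h5
        refine ⟨j, ?_, by omega⟩
        rw [mem_range]
        have h6 : j * q ≤ a1 - a - 1 := by
          rw [Nat.mul_comm]
          omega
        have h7 := (Nat.le_div_iff_mul_le (by omega : 0 < q)).2 h6
        omega
      · rintro ⟨j, hj, rfl⟩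
        rw [mem_range] at hj
        rw [mem_filter, mem_Ico]
        refine ⟨⟨by omega, hW j hj⟩, ?_⟩
        rw [Nat.add_mul_mod_self_left]
        exact h3

/-- `b5_ap` and `b3` for `y j = yv x q r' (a + q j)`, `z j = yv (x + H) q r' (a + q j)`, `η = 3 / S` (`b4` with `a + q l s` in place of `a`; for `(l + 1) s ≤ W`, `j < s`
the point `a + q (l s + j)` is `< a1 ≤ a0 + Λ`). The map `j ↦ a + q j` is injective. `W ≤ Λ`, so the bound is `W / s + 12 W / S + s ≤ Λ (1 / s + 12 / S) + S`. -/
theorem b5 {A x X S Λ : ℕ} (G : Geo A x X S Λ) {a0 a1 s t H q r r' : ℕ} (h0 : A ≤ a0) (h1 : a1 ≤ a0 + Λ) (hs1 : 1 ≤ s) (hsS : s ≤ S)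
    (hco : Nat.Coprime s t) (hap : Ap x S a0 s t) (hH : H * S ^ 2 ≤ A ^ 2) (hq : 1 ≤ q) :
    |∑ a ∈ (Ico a0 a1).filter (fun a => a % q = r), (Fr (yv (x + H) q r' a) - Fr (yv x q r' a))| ≤ Λ * (1 / (s : ℝ) + 12 / S) + S := by
  obtain ⟨a, W, ha, hW1, hW2, hT⟩ := b5_ap a0 a1 q r hq
  have hS := G.hS
  have hS' : (0 : ℝ) < S := by exact_mod_cast hS
  have hs' : (0 : ℝ) < s := by exact_mod_cast hs1
  rw [hT, Finset.sum_image]
  · have hb : ∀ x' : ℕ, x ≤ x' → x' ≤ x + H → ∀ l j, (l + 1) * s ≤ W → j < s →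
        |yv x' q r' (a + q * (l * s + j)) - (yv x' q r' (a + q * (l * s)) - (t : ℝ) * j / s)| ≤ 3 / S := by
      intro x' hx1 hx2 l j hl hj
      have e1 : a + q * (l * s + j) = a + q * (l * s) + q * j := by ring
      have h2 : l * s + j < W := by
        have : (l + 1) * s = l * s + s := by ring
        omega
      have h3 := hW1 _ h2
      rw [e1] at h3 ⊢
      exact b4 G h0 hs1 hsS hap hx1 hx2 hH hq (by omega) (by omega) hj.le
    have h3 := b3 s t W hs1 hco (fun j => yv x q r' (a + q * j)) (fun j => yv (x + H) q r' (a + q * j)) (3 / S) (by positivity)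
      (hb x (le_refl _) (Nat.le_add_right _ _)) (hb (x + H) (Nat.le_add_right _ _) (le_refl _))
    refine h3.trans ?_
    have hWΛ : (W : ℝ) ≤ Λ := by
      have : W ≤ Λ := by omega
      exact_mod_cast this
    have hsS' : (s : ℝ) ≤ S := by exact_mod_cast hsS
    have e2 : (W : ℝ) / s * (1 + 4 * s * (3 / S)) = W * (1 / (s : ℝ) + 12 / S) := by
      field_simp
      ring
    rw [e2]
    have h4 : (W : ℝ) * (1 / (s : ℝ) + 12 / S) ≤ Λ * (1 / (s : ℝ) + 12 / S) :=
      mul_le_mul_of_nonneg_right hWΛ (by positivity)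
    linarith
  · intro i _ j _ hij
    have h5 : q * i = q * j := by
      have : a + q * i = a + q * j := hij
      omega
    exact Nat.eq_of_mul_eq_mul_left (by omega) h5

end Pool.Agent.Lib.H21T
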