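import Pool.Agent.Lib.H21T.Defs

/-!
# Chunk F3 (S/M): values of a sequence with gaps in a short interval
-/

namespace Pool.Agent.Lib.H21T

open Finset Pool.Agent.SZW

/-- Let `i < j` be the smallest and the largest element of the set (if it has at least two elements). Summing `hf`: `f j + (j - i) g ≤ f i`, and
`f i - f j ≤ 2 r`; so `(j - i) g ≤ 2 r`, and the set is contained in `Icc i j`, of cardinality `j - i + 1`. -/
theorem f3 (f : ℕ → ℝ) (g r c : ℝ) (n : ℕ) (hg : 0 < g) (hr : 0 ≤ r) (hf : ∀ i, i + 1 < n → f (i + 1) + g ≤ f i) :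
    (((range n).filter fun i => |f i - c| ≤ r).card : ℝ) ≤ 2 * r / g + 1 := by
  rcases Finset.eq_empty_or_nonempty ((range n).filter fun i => |f i - c| ≤ r) with he | hne
  · rw [he, card_empty, Nat.cast_zero]
    positivity
  have hsum : ∀ d i : ℕ, i + d < n → f (i + d) + d * g ≤ f i := by
    intro d
    induction d with
    | zero => intro i _; simp
    | succ d ih =>
      intro i hi
      have h1 := ih i (by omega)
      have h2 := hf (i + d) (by omega)
      have h3 : i + (d + 1) = i + d + 1 := by ring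
      rw [h3]
      push_cast
      linarith
  set T := (range n).filter fun i => |f i - c| ≤ r with hT
  obtain ⟨h1, h2⟩ := mem_filter.1 (T.min'_mem hne)
  obtain ⟨h3, h4⟩ := mem_filter.1 (T.max'_mem hne)
  have hle : T.min' hne ≤ T.max' hne := T.min'_le_max' hne
  obtain ⟨d, hd⟩ := Nat.exists_eq_add_of_le hle
  have h5 : f (T.min' hne + d) + d * g ≤ f (T.min' hne) := by
    apply hsum
    rw [← hd]
    exact mem_range.1 h3
  rw [← hd] at h5
  have h6 := (abs_le.1 h2).2
  have h7 := (abs_le.1 h4).1
  have h8 : (d : ℝ) ≤ 2 * r / g := by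
    rw [le_div_iff₀ hg]
    linarith
  have h9 : T ⊆ Icc (T.min' hne) (T.max' hne) := fun i hi => mem_Icc.2 ⟨T.min'_le i hi, T.le_max' i hi⟩
  have h10 : T.card ≤ d + 1 := by
    refine (card_le_card h9).trans ?_
    rw [Nat.card_Icc]
    omega
  have h11 : (T.card : ℝ) ≤ d + 1 := by exact_mod_cast h10
  linarith

end Pool.Agent.Lib.H21T
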