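import Pool.Agent.Lib.H21T.F2
import Pool.Agent.Lib.H21T.F3

/-!
# Chunk F4 (M): how many pieces have a given direction
-/

namespace Pool.Agent.Lib.H21T

open Finset Pool.Agent.SZW

/-- `f3` with `f i = x / (pa A1 Λ i) ^ 2`, `c = t1 / s1`, `r = 1 / (s1 S)`, `g = 1 / (48 S ^ 2)`, `n = nJ A1 A2 Λ`. If `i < n` then `i ≤ (A2 - A1) / Λ`, so
`pa A1 Λ i = A1 + i Λ ≤ A2 ≤ 2 A`; `hf` is `f2_gap` for `a = pa A1 Λ i` (`pa A1 Λ (i + 1) = pa A1 Λ i + Λ`). If `s i = s1`, `t i = t1`, then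
`|f i - t1 / s1| ≤ 1 / (s1 S)` from `Ap`. `2 r / g = 96 S / s1`. -/
theorem f4 {A x X S Λ A1 A2 : ℕ} (G : Geo A x X S Λ) (h1 : A ≤ A1) (h2 : A1 ≤ A2) (h3 : A2 ≤ 2 * A) {s t : ℕ → ℕ}
    (hD : Dir A1 Λ x S (nJ A1 A2 Λ) s t) (s1 t1 : ℕ) (hs1 : 1 ≤ s1) :
    (((range (nJ A1 A2 Λ)).filter fun i => s i = s1 ∧ t i = t1).card : ℝ) ≤ 96 * S / s1 + 1 := by
  have hS0 : (0 : ℝ) < S := by exact_mod_cast G.hS
  have hs0 : (0 : ℝ) < s1 := by exact_mod_cast hs1
  have h := f3 (fun i => (x : ℝ) / ((pa A1 Λ i : ℕ) : ℝ) ^ 2) (1 / (48 * (S : ℝ) ^ 2))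
    (1 / (s1 * S)) ((t1 : ℝ) / s1) (nJ A1 A2 Λ) (by positivity) (by positivity) (fun i hi => by
      have h4 : i + 1 ≤ (A2 - A1) / Λ := by
        unfold nJ at hi
        omega
      have h5 : (i + 1) * Λ ≤ A2 - A1 := (Nat.le_div_iff_mul_le G.hΛ).1 h4
      have h6 : pa A1 Λ i ≤ 2 * A := by
        unfold pa
        have : i * Λ ≤ (i + 1) * Λ := Nat.mul_le_mul_right _ (Nat.le_succ i)
        omega
      have h7 : A ≤ pa A1 Λ i := by
        unfold pa
        omega
      have h8 := f2_gap G h7 h6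
      have e : ((pa A1 Λ (i + 1) : ℕ) : ℝ) = ((pa A1 Λ i : ℕ) : ℝ) + Λ := by
        unfold pa
        push_cast
        ring
      rw [e]
      linarith)
  have e : 2 * (1 / ((s1 : ℝ) * S)) / (1 / (48 * (S : ℝ) ^ 2)) = 96 * S / s1 := by
    field_simp
    ring
  rw [e] at h
  refine le_trans ?_ h
  have hsub : (range (nJ A1 A2 Λ)).filter (fun i => s i = s1 ∧ t i = t1) ⊆
      (range (nJ A1 A2 Λ)).filter
        (fun i => |(x : ℝ) / ((pa A1 Λ i : ℕ) : ℝ) ^ 2 - (t1 : ℝ) / s1| ≤ 1 / (s1 * S)) := by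
    intro i hi
    rw [mem_filter, mem_range] at hi
    refine mem_filter.2 ⟨mem_range.2 hi.1, ?_⟩
    have h4 := hD.ap i hi.1
    unfold Ap at h4
    rw [hi.2.1, hi.2.2] at h4
    have e2 : (x : ℝ) / ((pa A1 Λ i : ℕ) : ℝ) ^ 2 - (t1 : ℝ) / s1 =
        ((s1 : ℝ) * (x / ((pa A1 Λ i : ℕ) : ℝ) ^ 2) - t1) / s1 := by
      rw [sub_div, mul_div_cancel_left₀ _ hs0.ne']
    have e3 : 1 / ((s1 : ℝ) * S) = 1 / S / s1 := by
      rw [div_div, mul_comm]
    rw [e2, abs_div, abs_of_pos hs0, e3]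
    exact div_le_div_of_nonneg_right h4 hs0.le
  exact_mod_cast card_le_card hsub

/-- `t i ≤ s i x / a ^ 2 + 1 / S ≤ s i X + 1` (`a = pa A1 Λ i ≥ A`, `hX`). So for `s i = s1` there are at most `s1 X + 2 ≤ 3 s1 X` values `t1` of `t i`, each
(`f4`) for at most `96 S / s1 + 1` indices: at most `288 X S + 3 s1 X ≤ 291 X S` indices with `s i = s1` (`s1 ≤ S`), and there are fewer than
`s0` values `s1 < s0`. -/
theorem f4_small {A x X S Λ A1 A2 : ℕ} (G : Geo A x X S Λ) (h1 : A ≤ A1) (h2 : A1 ≤ A2) (h3 : A2 ≤ 2 * A) {s t : ℕ → ℕ}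
    (hD : Dir A1 Λ x S (nJ A1 A2 Λ) s t) (s0 : ℕ) :
    (((range (nJ A1 A2 Λ)).filter fun i => s i < s0).card : ℝ) ≤ 291 * X * s0 * S := by
  have hS0 : (0 : ℝ) < S := by exact_mod_cast G.hS
  have hS1 : (1 : ℝ) ≤ S := by exact_mod_cast G.hS
  have hX1 : (1 : ℝ) ≤ X := by exact_mod_cast G.hX1
  have hA0 : (0 : ℝ) < A := by exact_mod_cast G.hA
  have hone : ∀ s1 : ℕ, (((range (nJ A1 A2 Λ)).filter fun i => s i = s1).card : ℝ) ≤
      291 * X * S := by
    intro s1
    by_cases hs : 1 ≤ s1 ∧ s1 ≤ S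
    · have hs0 : (1 : ℝ) ≤ s1 := by exact_mod_cast hs.1
      have hsS : (s1 : ℝ) ≤ S := by exact_mod_cast hs.2
      have h4 := card_eq_sum_card_fiberwise (f := t)
        (s := (range (nJ A1 A2 Λ)).filter fun i => s i = s1) (t := range (s1 * X + 2)) (by
          intro i hi
          rw [mem_coe, mem_filter, mem_range] at hi
          rw [mem_coe, mem_range]
          have h5 := hD.ap i hi.1
          unfold Ap at h5
          rw [hi.2] at h5
          have h6 := (abs_le.1 h5).1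
          have h7 : (1 : ℝ) / S ≤ 1 := by
            rw [div_le_one hS0]
            exact hS1
          have h8 : (A : ℝ) ≤ ((pa A1 Λ i : ℕ) : ℝ) := by
            have : A ≤ pa A1 Λ i := by
              unfold pa
              omega
            exact_mod_cast this
          have h9 : (x : ℝ) / ((pa A1 Λ i : ℕ) : ℝ) ^ 2 ≤ X := by
            rw [div_le_iff₀ (pow_pos (lt_of_lt_of_le hA0 h8) 2)]
            have h10 : (x : ℝ) ≤ X * (A : ℝ) ^ 2 := by exact_mod_cast G.hX
            refine h10.trans ?_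
            exact mul_le_mul_of_nonneg_left (pow_le_pow_left₀ hA0.le h8 2) (by linarith)
          have h11 : (t i : ℝ) ≤ s1 * X + 1 := by
            have := mul_le_mul_of_nonneg_left h9 (by linarith : (0 : ℝ) ≤ s1)
            linarith
          have h12 : t i ≤ s1 * X + 1 := by exact_mod_cast h11
          omega)
      rw [h4]
      push_cast
      have h5 : ∀ t1 ∈ range (s1 * X + 2),
          ((((range (nJ A1 A2 Λ)).filter fun i => s i = s1).filter fun i => t i = t1).card : ℝ) ≤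
            96 * S / s1 + 1 := by
        intro t1 _
        rw [filter_filter]
        exact f4 G h1 h2 h3 hD s1 t1 hs.1
      refine (sum_le_card_nsmul _ _ _ h5).trans ?_
      rw [card_range, nsmul_eq_mul]
      push_cast
      have h6 : (s1 : ℝ) * X + 2 ≤ 3 * (s1 * X) := by nlinarith
      have h7 : 0 ≤ 96 * (S : ℝ) / s1 + 1 := by positivity
      refine (mul_le_mul_of_nonneg_right h6 h7).trans ?_
      have e : 3 * ((s1 : ℝ) * X) * (96 * S / s1 + 1) = 288 * X * S + 3 * s1 * X := by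
        field_simp
        ring
      rw [e]
      nlinarith
    · have h4 : (range (nJ A1 A2 Λ)).filter (fun i => s i = s1) = ∅ := by
        rw [filter_eq_empty_iff]
        intro i hi hi2
        rw [mem_range] at hi
        apply hs
        rw [← hi2]
        exact ⟨hD.s1 i hi, hD.sS i hi⟩
      rw [h4, card_empty]
      push_cast
      positivity
  have h4 := card_eq_sum_card_fiberwise (f := s)
    (s := (range (nJ A1 A2 Λ)).filter fun i => s i < s0) (t := range s0) (by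
      intro i hi
      rw [mem_coe, mem_filter] at hi
      exact mem_coe.2 (mem_range.2 hi.2))
  rw [h4]
  push_cast
  have h5 : ∀ s1 ∈ range s0,
      ((((range (nJ A1 A2 Λ)).filter fun i => s i < s0).filter fun i => s i = s1).card : ℝ) ≤
        291 * X * S := by
    intro s1 _
    refine le_trans ?_ (hone s1)
    have : ((range (nJ A1 A2 Λ)).filter fun i => s i < s0).filter (fun i => s i = s1) ⊆
        (range (nJ A1 A2 Λ)).filter fun i => s i = s1 :=
      filter_subset_filter _ (filter_subset _ _)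
    exact_mod_cast card_le_card this
  refine (sum_le_card_nsmul _ _ _ h5).trans (le_of_eq ?_)
  rw [card_range, nsmul_eq_mul]
  ring

end Pool.Agent.Lib.H21T
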