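import Pool.Agent.Lib.H21T.S5

/-!
# Chunk S6 (M): the exponential sum over all pieces
-/

namespace Pool.Agent.Lib.H21T

open Finset Pool.Agent.SZW

/-- The pieces `Ico (pa A1 Λ i) (pb A1 A2 Λ i)`, `i < nJ A1 A2 Λ`, are a partition of `Ico A1 A2` (`i = (a - A1) / Λ`). -/
theorem s6_part {A1 A2 Λ : ℕ} (hΛ : 1 ≤ Λ) (h : A1 ≤ A2) {M : Type*} [AddCommMonoid M] (f : ℕ → M) :
    ∑ a ∈ Ico A1 A2, f a = ∑ i ∈ range (nJ A1 A2 Λ), ∑ a ∈ Ico (pa A1 Λ i) (pb A1 A2 Λ i), f a := by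
  classical
  have hL : 0 < Λ := hΛ
  rw [← sum_fiberwise_of_maps_to (g := fun a => (a - A1) / Λ) (t := range (nJ A1 A2 Λ))
    (s := Ico A1 A2) (fun a ha => by
      rw [mem_Ico] at ha
      rw [mem_range]
      unfold nJ
      exact Nat.lt_succ_of_le (Nat.div_le_div_right (by omega)))]
  refine sum_congr rfl fun i _ => ?_
  refine sum_congr ?_ fun _ _ => rfl
  ext a
  have e1 : (i + 1) * Λ = i * Λ + Λ := by ring
  rw [mem_filter, mem_Ico, mem_Ico]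
  unfold pa pb
  rw [lt_min_iff]
  constructor
  · rintro ⟨⟨h1, h2⟩, h3⟩
    have h4 : i * Λ ≤ a - A1 := (Nat.le_div_iff_mul_le hL).1 (le_of_eq h3.symm)
    have h5 : a - A1 < (i + 1) * Λ := (Nat.div_lt_iff_lt_mul hL).1 (by omega)
    exact ⟨by omega, h2, by omega⟩
  · rintro ⟨h1, h2, h3⟩
    have h4 : i ≤ (a - A1) / Λ := (Nat.le_div_iff_mul_le hL).2 (by omega)
    have h5 : (a - A1) / Λ < i + 1 := (Nat.div_lt_iff_lt_mul hL).2 (by omega)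
    exact ⟨⟨by omega, h2⟩, by omega⟩

/-- The same for sums over `Rg` (`Rg` is a union of fibres over the first coordinate; `mem_Rg`). -/
theorem s6_Rg {A1 A2 Λ x H : ℕ} (hΛ : 1 ≤ Λ) (hA : 1 ≤ A1) (h : A1 ≤ A2) {M : Type*} [AddCommMonoid M] (f : ℕ × ℕ → M) :
    ∑ p ∈ Rg A1 A2 x H, f p = ∑ i ∈ range (nJ A1 A2 Λ), ∑ p ∈ Rg (pa A1 Λ i) (pb A1 A2 Λ i) x H, f p := by
  unfold Rg
  simp only [sum_filter, sum_product]
  exact s6_part hΛ h (fun a => ∑ b ∈ range (x + H),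
    if x ≤ a * b ∧ a * b < x + H then f (a, b) else 0)

/-- Good pieces (`i ∉ Bs`): `s5`; the other pieces: `‖SR‖ ≤ |Rg| ≤ Λ (H / A + 1)` (`s4_all`; `pb - pa ≤ Λ`; if `pb < pa` the set is empty, here `pa ≤ A2`). Sum over `i`:
`∑ |Rg_i| = |Rg| ≤ A (H / A + 1)` (`A2 - A1 ≤ A`), and the boundary sets add up to the boundary set of `Rg A1 A2 x H`, at most `2 τ D` (`s4_bdry`). -/
theorem s6 {A x X S Λ A1 A2 : ℕ} (G : Geo A x X S Λ) (h1 : A ≤ A1) (h2 : A1 ≤ A2) (h3 : A2 ≤ 2 * A) {s t : ℕ → ℕ}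
    (hDir : Dir A1 Λ x S (nJ A1 A2 Λ) s t) {H K D τ : ℕ} (hK : 1 ≤ K)
    (hτ : ∀ m : ℕ, 1 ≤ m → m < x + H → m.divisors.card ≤ τ)
    (hD : (K : ℝ) * (4 * A / S + S * H / A) + 2 * (K : ℝ) ^ 2 * (S : ℝ) ^ 2 * X ≤ D) (α δ : ℝ) (hδ : 0 ≤ δ) (Bs : Finset ℕ)
    (hgood : ∀ i ∈ range (nJ A1 A2 Λ), i ∉ Bs →
      ∀ β : ℝ, ‖∑ k ∈ range K, ee (β * k + (-(((s i : ℝ) * t i) * α)) * (k : ℝ) ^ 2)‖ ≤ δ * K) :
    ‖SR α A1 A2 x H‖ ≤ Bs.card * (Λ * ((H : ℝ) / A + 1)) + δ * (A * ((H : ℝ) / A + 1)) +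
      2 * (nJ A1 A2 Λ * (K * S * ((H : ℝ) / A + 1))) + 4 * τ * D := by
  classical
  have hA1 : 1 ≤ A := G.hA
  have hA1' : 1 ≤ A1 := by omega
  have hx1 : 1 ≤ x := by
    have h4 := G.hx
    have h5 : 1 ≤ A ^ 2 := Nat.one_le_pow _ _ hA1
    omega
  obtain ⟨W, hW⟩ : ∃ W : ℝ, W = (H : ℝ) / A + 1 := ⟨_, rfl⟩
  have hW0 : 0 ≤ W := by
    rw [hW]
    positivity
  have hpab : ∀ i ∈ range (nJ A1 A2 Λ), pa A1 Λ i ≤ pb A1 A2 Λ i := by
    intro i hi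
    rw [mem_range] at hi
    unfold nJ at hi
    have h4 : i ≤ (A2 - A1) / Λ := by omega
    have h5 : i * Λ ≤ A2 - A1 := (Nat.le_div_iff_mul_le G.hΛ).1 h4
    have e1 : (i + 1) * Λ = i * Λ + Λ := by ring
    unfold pa pb
    refine le_min ?_ ?_
    · omega
    · omega
  have hpbL : ∀ i, pb A1 A2 Λ i ≤ pa A1 Λ i + Λ := by
    intro i
    have e1 : (i + 1) * Λ = i * Λ + Λ := by ring
    unfold pa pb
    exact (min_le_right _ _).trans (by omega)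
  have hpbA : ∀ i, pb A1 A2 Λ i ≤ A2 := fun i => min_le_left _ _
  have hpaA : ∀ i, A ≤ pa A1 Λ i := by
    intro i
    unfold pa
    omega
  obtain ⟨bd, hbd⟩ : ∃ bd : ℕ → ℕ, bd = fun i => ((Rg (pa A1 Λ i) (pb A1 A2 Λ i) x H).filter
    fun p => p.1 * p.2 < x + D ∨ x + H ≤ p.1 * p.2 + D).card := ⟨_, rfl⟩
  have hstep : ∀ i ∈ range (nJ A1 A2 Λ), ‖SR α (pa A1 Λ i) (pb A1 A2 Λ i) x H‖ ≤
      (if i ∈ Bs then (Λ : ℝ) * W else 0) + δ * (Rg (pa A1 Λ i) (pb A1 A2 Λ i) x H).card +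
        2 * (K * S * W) + 2 * (bd i : ℝ) := by
    intro i hi
    have hc0 : (0 : ℝ) ≤ (Rg (pa A1 Λ i) (pb A1 A2 Λ i) x H).card := Nat.cast_nonneg _
    have hb0 : (0 : ℝ) ≤ bd i := Nat.cast_nonneg _
    by_cases hB : i ∈ Bs
    · rw [if_pos hB]
      have h4 : ‖SR α (pa A1 Λ i) (pb A1 A2 Λ i) x H‖ ≤
          (Rg (pa A1 Λ i) (pb A1 A2 Λ i) x H).card := by
        unfold SR
        refine (norm_sum_le _ _).trans (le_of_eq ?_)
        rw [sum_congr rfl fun p _ => norm_ee _, sum_const, nsmul_eq_mul, mul_one]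
      have h5 := s4_all (x := x) (H := H) hA1 (hpaA i) (hpab i hi)
      rw [← hW] at h5
      have h6 : ((pb A1 A2 Λ i : ℕ) : ℝ) - (pa A1 Λ i : ℕ) ≤ Λ := by
        have : ((pb A1 A2 Λ i : ℕ) : ℝ) ≤ ((pa A1 Λ i + Λ : ℕ) : ℝ) := by exact_mod_cast hpbL i
        push_cast at this
        linarith
      have h7 := mul_le_mul_of_nonneg_right h6 hW0
      have h8 := mul_nonneg hδ hc0
      have h9 : (0 : ℝ) ≤ K * S * W := by positivity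
      linarith
    · rw [if_neg hB]
      rw [mem_range] at hi
      have h4 := s5 G (hpaA i) (hpbL i) ((hpbA i).trans h3) (hDir.sS i hi) (hDir.ap i hi) hK hD α δ
        (hgood i (mem_range.2 hi) hB)
      rw [← hW] at h4
      have h5 : (bd i : ℝ) = (((Rg (pa A1 Λ i) (pb A1 A2 Λ i) x H).filter
        fun p => p.1 * p.2 < x + D ∨ x + H ≤ p.1 * p.2 + D).card : ℝ) := by rw [hbd]
      rw [h5]
      linarith
  have hSR : SR α A1 A2 x H = ∑ i ∈ range (nJ A1 A2 Λ), SR α (pa A1 Λ i) (pb A1 A2 Λ i) x H := by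
    unfold SR
    exact s6_Rg G.hΛ hA1' h2 _
  have hcard : ((Rg A1 A2 x H).card : ℝ) =
      ∑ i ∈ range (nJ A1 A2 Λ), ((Rg (pa A1 Λ i) (pb A1 A2 Λ i) x H).card : ℝ) := by
    have h4 := s6_Rg (x := x) (H := H) G.hΛ hA1' h2 (fun _ : ℕ × ℕ => (1 : ℝ))
    simp only [sum_const, nsmul_eq_mul, mul_one] at h4
    exact h4
  have hbdc : (((Rg A1 A2 x H).filter
      fun p => p.1 * p.2 < x + D ∨ x + H ≤ p.1 * p.2 + D).card : ℝ) =
      ∑ i ∈ range (nJ A1 A2 Λ), (bd i : ℝ) := by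
    have h4 := s6_Rg (x := x) (H := H) G.hΛ hA1' h2 (fun p : ℕ × ℕ =>
      if p.1 * p.2 < x + D ∨ x + H ≤ p.1 * p.2 + D then (1 : ℝ) else 0)
    simp only [sum_boole] at h4
    rw [hbd]
    exact h4
  have hc1 := s4_all (x := x) (H := H) hA1 h1 h2
  rw [← hW] at hc1
  have hc2 : ((A2 : ℝ) - A1) * W ≤ A * W := by
    refine mul_le_mul_of_nonneg_right ?_ hW0
    have h4 : (A2 : ℝ) ≤ 2 * A := by exact_mod_cast h3
    have h5 : (A : ℝ) ≤ A1 := by exact_mod_cast h1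
    linarith
  have hb1 : (((Rg A1 A2 x H).filter
      fun p => p.1 * p.2 < x + D ∨ x + H ≤ p.1 * p.2 + D).card : ℝ) ≤ 2 * τ * D := by
    have := s4_bdry (A2 := A2) hA1' hx1 hτ D
    exact_mod_cast this
  have hBs : ∑ i ∈ range (nJ A1 A2 Λ), (if i ∈ Bs then (Λ : ℝ) * W else 0) ≤ Bs.card * (Λ * W) := by
    rw [← sum_filter, sum_const, nsmul_eq_mul]
    refine mul_le_mul_of_nonneg_right ?_ (by positivity)
    have : (range (nJ A1 A2 Λ)).filter (fun i => i ∈ Bs) ⊆ Bs := fun i hi => (mem_filter.1 hi).2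
    exact_mod_cast card_le_card this
  rw [hSR]
  refine (norm_sum_le _ _).trans ((sum_le_sum hstep).trans ?_)
  have hs : ∑ i ∈ range (nJ A1 A2 Λ), ((if i ∈ Bs then (Λ : ℝ) * W else 0) +
      δ * (Rg (pa A1 Λ i) (pb A1 A2 Λ i) x H).card + 2 * (K * S * W) + 2 * (bd i : ℝ)) =
      ∑ i ∈ range (nJ A1 A2 Λ), (if i ∈ Bs then (Λ : ℝ) * W else 0) +
      δ * (∑ i ∈ range (nJ A1 A2 Λ), ((Rg (pa A1 Λ i) (pb A1 A2 Λ i) x H).card : ℝ)) +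
      nJ A1 A2 Λ * (2 * (K * S * W)) + 2 * ∑ i ∈ range (nJ A1 A2 Λ), (bd i : ℝ) := by
    rw [sum_add_distrib, sum_add_distrib, sum_add_distrib, mul_sum, mul_sum, sum_const, card_range,
      nsmul_eq_mul]
  rw [hs, ← hcard, ← hbdc]
  have h6 := mul_le_mul_of_nonneg_left (hc1.trans hc2) hδ
  rw [← hW]
  nlinarith [hBs, hb1, h6]

end Pool.Agent.Lib.H21T
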