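import Pool.Agent.Lib.H21T.F1
import Pool.Agent.Lib.H21T.B5
import Pool.Agent.Lib.H21T.S6
import Pool.Agent.Lib.H21T.F4

/-!
# Chunk B6 (S/M): all pieces
-/

namespace Pool.Agent.Lib.H21T

open Finset Pool.Agent.SZW

/-- `s6_part` (with `f a = if a % q = r then .. else 0`). Pieces with `s i ≥ s0`: `b5`, at most `Λ (1 / s0 + 12 / S) + S`; the other pieces (at most `291 X s0 S`, `f4_small`):
at most `Λ` terms of absolute value at most `1`. `nJ A1 A2 Λ ≤ A / Λ + 1 ≤ 2 A / Λ` (`A2 - A1 ≤ A`, `Λ ≤ A` by `f2_small`). Directions from `exists_dir`.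
Total: `2 A (1 / s0 + 12 / S) + 2 A S / Λ + 291 X s0 S Λ`. -/
theorem b6 {A x X S Λ A1 A2 : ℕ} (G : Geo A x X S Λ) (h1 : A ≤ A1) (h2 : A1 ≤ A2) (h3 : A2 ≤ 2 * A) {H q r r' s0 : ℕ}
    (hH : H * S ^ 2 ≤ A ^ 2) (hq : 1 ≤ q) (hs0 : 1 ≤ s0) :
    |∑ a ∈ (Ico A1 A2).filter (fun a => a % q = r), (Fr (yv (x + H) q r' a) - Fr (yv x q r' a))| ≤
      2 * A * (1 / (s0 : ℝ) + 12 / S) + 2 * A * S / Λ + 291 * X * s0 * S * Λ := by
  obtain ⟨sd, td, hDall⟩ := exists_dir A1 Λ x S G.hS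
  have hD := hDall (nJ A1 A2 Λ)
  have hS' : (0 : ℝ) < S := by exact_mod_cast G.hS
  have hΛ' : (0 : ℝ) < Λ := by exact_mod_cast G.hΛ
  have hs0' : (0 : ℝ) < s0 := by exact_mod_cast hs0
  have hA' : (0 : ℝ) < A := by exact_mod_cast G.hA
  have e0 : ∑ a ∈ (Ico A1 A2).filter (fun a => a % q = r), (Fr (yv (x + H) q r' a) - Fr (yv x q r' a)) =
      ∑ i ∈ range (nJ A1 A2 Λ), ∑ a ∈ (Ico (pa A1 Λ i) (pb A1 A2 Λ i)).filter (fun a => a % q = r),
        (Fr (yv (x + H) q r' a) - Fr (yv x q r' a)) := by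
    rw [Finset.sum_filter, s6_part G.hΛ h2]
    refine Finset.sum_congr rfl fun i _ => ?_
    rw [Finset.sum_filter]
  obtain ⟨B, hB⟩ : ∃ B : ℝ, B = Λ * (1 / (s0 : ℝ) + 12 / S) + S := ⟨_, rfl⟩
  have hB0 : 0 ≤ B := by
    rw [hB]
    positivity
  have hpb : ∀ i, pb A1 A2 Λ i ≤ pa A1 Λ i + Λ := by
    intro i
    unfold pb pa
    have : (i + 1) * Λ = i * Λ + Λ := by ring
    exact (min_le_right _ _).trans (by omega)
  have hterm : ∀ i ∈ range (nJ A1 A2 Λ), |∑ a ∈ (Ico (pa A1 Λ i) (pb A1 A2 Λ i)).filter (fun a => a % q = r),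
        (Fr (yv (x + H) q r' a) - Fr (yv x q r' a))| ≤ B + (if sd i < s0 then (Λ : ℝ) else 0) := by
    intro i hi
    rw [mem_range] at hi
    by_cases hc : sd i < s0
    · rw [if_pos hc]
      have h4 : |∑ a ∈ (Ico (pa A1 Λ i) (pb A1 A2 Λ i)).filter (fun a => a % q = r),
          (Fr (yv (x + H) q r' a) - Fr (yv x q r' a))| ≤ Λ := by
        refine (Finset.abs_sum_le_sum_abs _ _).trans ?_
        have h5 : ∑ a ∈ (Ico (pa A1 Λ i) (pb A1 A2 Λ i)).filter (fun a => a % q = r),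
            |Fr (yv (x + H) q r' a) - Fr (yv x q r' a)| ≤
            ∑ _a ∈ (Ico (pa A1 Λ i) (pb A1 A2 Λ i)).filter (fun a => a % q = r), (1 : ℝ) :=
          Finset.sum_le_sum fun j _ => b3_fr _ _
        refine h5.trans ?_
        rw [Finset.sum_const, nsmul_eq_mul, mul_one]
        have h6 : ((Ico (pa A1 Λ i) (pb A1 A2 Λ i)).filter (fun a => a % q = r)).card ≤ Λ := by
          refine (Finset.card_filter_le _ _).trans ?_
          rw [Nat.card_Ico]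
          have := hpb i
          omega
        exact_mod_cast h6
      linarith
    · rw [if_neg hc, add_zero]
      have hsi : s0 ≤ sd i := not_lt.1 hc
      have h4 := b5 (r := r) (r' := r') G (show A ≤ pa A1 Λ i from h1.trans (Nat.le_add_right _ _)) (hpb i) (hD.s1 i hi) (hD.sS i hi)
        (hD.co i hi) (hD.ap i hi) hH hq
      refine h4.trans ?_
      rw [hB]
      have h5 : (s0 : ℝ) ≤ sd i := by exact_mod_cast hsi
      have h6 : 1 / (sd i : ℝ) ≤ 1 / s0 := one_div_le_one_div_of_le hs0' h5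
      have h7 : (Λ : ℝ) * (1 / (sd i : ℝ) + 12 / S) ≤ Λ * (1 / (s0 : ℝ) + 12 / S) :=
        mul_le_mul_of_nonneg_left (by linarith) hΛ'.le
      linarith
  have hnJ : (nJ A1 A2 Λ : ℝ) * Λ ≤ 2 * A := by
    have h4 : nJ A1 A2 Λ * Λ ≤ 2 * A := by
      unfold nJ
      have h5 := Nat.div_mul_le_self (A2 - A1) Λ
      have h6 : Λ ≤ A := by
        have h7 := f2_small G
        have h8 : 1 ≤ S ^ 2 := Nat.one_le_pow _ _ G.hS
        calc Λ = Λ * 1 := (Nat.mul_one _).symm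
          _ ≤ Λ * S ^ 2 := Nat.mul_le_mul_left _ h8
          _ ≤ A := h7
      rw [Nat.add_mul, Nat.one_mul]
      omega
    exact_mod_cast h4
  have hsmall := f4_small G h1 h2 h3 hD s0
  rw [e0]
  refine (Finset.abs_sum_le_sum_abs _ _).trans ((Finset.sum_le_sum hterm).trans ?_)
  rw [Finset.sum_add_distrib, Finset.sum_const, card_range, nsmul_eq_mul, ← Finset.sum_filter, Finset.sum_const, nsmul_eq_mul]
  have h8 : (nJ A1 A2 Λ : ℝ) * B ≤ 2 * A * (1 / (s0 : ℝ) + 12 / S) + 2 * A * S / Λ := by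
    have h9 : (nJ A1 A2 Λ : ℝ) * B = (nJ A1 A2 Λ * Λ) * (1 / (s0 : ℝ) + 12 / S) + (nJ A1 A2 Λ * Λ) * (S / Λ) := by
      rw [hB]
      field_simp
    have h10 : (nJ A1 A2 Λ * Λ : ℝ) * (1 / (s0 : ℝ) + 12 / S) ≤ 2 * A * (1 / (s0 : ℝ) + 12 / S) :=
      mul_le_mul_of_nonneg_right hnJ (by positivity)
    have h11 : (nJ A1 A2 Λ * Λ : ℝ) * (S / Λ) ≤ 2 * A * (S / Λ) :=
      mul_le_mul_of_nonneg_right hnJ (by positivity)
    have h12 : 2 * (A : ℝ) * S / Λ = 2 * A * (S / Λ) := by ring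
    rw [h9, h12]
    linarith
  have h13 := mul_le_mul_of_nonneg_right hsmall hΛ'.le
  linarith

end Pool.Agent.Lib.H21T
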