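import Pool.Agent.Lib.H21T.Defs

/-!
# Chunk B7 (S/M): counting in a residue class
-/

namespace Pool.Agent.Lib.H21T

open Finset Pool.Agent.SZW

theorem b7_le (x q r a : ℕ) (hq : 1 ≤ q) (ha : 1 ≤ a) (k : ℕ) : yv x q r a ≤ (k : ℝ) ↔ x ≤ a * (q * k + r) := by
  have hq' : (0 : ℝ) < q := by exact_mod_cast hq
  have ha' : (0 : ℝ) < a := by exact_mod_cast ha
  have e : ((k : ℝ) * q + r) * a = ((a * (q * k + r) : ℕ) : ℝ) := by
    push_cast
    ring
  unfold yv
  rw [div_le_iff₀ hq', sub_le_iff_le_add, div_le_iff₀ ha', e]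
  exact Nat.cast_le

theorem b7_lt (x q r a : ℕ) (hq : 1 ≤ q) (ha : 1 ≤ a) (k : ℕ) : (k : ℝ) < yv x q r a ↔ a * (q * k + r) < x := by
  rw [← not_le, b7_le x q r a hq ha k, not_le]

theorem b7_nonneg (x q r a : ℕ) (hr : r < q) (k : ℤ) (hk : yv x q r a ≤ (k : ℝ)) : 0 ≤ k := by
  by_contra hcon
  have h1 : k ≤ -1 := by omega
  have h2 : (k : ℝ) ≤ -1 := by exact_mod_cast h1
  have hq' : (0 : ℝ) < q := by
    have : 0 < q := by omega
    exact_mod_cast this
  unfold yv at hk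
  rw [div_le_iff₀ hq'] at hk
  have h3 : (0 : ℝ) ≤ (x : ℝ) / a := by positivity
  have h4 : (r : ℝ) < q := by exact_mod_cast hr
  nlinarith

/-- `b = r + q k` with `k : ℕ` (`b % q = r < q`); `x ≤ a b < x + H` iff `yv x q r a ≤ k < yv (x + H) q r a`; every integer `k` in this range gives
`b = r + q k ≥ x / a > 0`, so `k ≥ 0` (`r < q`). The number of integers `k` with `y ≤ k < z` is `⌈z⌉ - ⌈y⌉` (`y ≤ z`). -/
theorem b7 (x H q r a : ℕ) (hx : 1 ≤ x) (hq : 1 ≤ q) (hr : r < q) (ha : 1 ≤ a) :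
    ((((range (x + H)).filter fun b => (x ≤ a * b ∧ a * b < x + H) ∧ b % q = r).card : ℕ) : ℝ) =
      ((H : ℝ) / (q * a) + (Fr (yv (x + H) q r a) - Fr (yv x q r a))) := by
  have hq' : (0 : ℝ) < q := by exact_mod_cast hq
  have ha' : (0 : ℝ) < a := by exact_mod_cast ha
  have e1 : yv (x + H) q r a = yv x q r a + (H : ℝ) / (q * a) := by
    unfold yv
    push_cast
    field_simp
    ring
  have e2 : yv x q r a ≤ yv (x + H) q r a := by
    rw [e1]
    have : 0 ≤ (H : ℝ) / (q * a) := by positivity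
    linarith
  have hc : ((range (x + H)).filter fun b => (x ≤ a * b ∧ a * b < x + H) ∧ b % q = r).card =
      (Ico ⌈yv x q r a⌉ ⌈yv (x + H) q r a⌉).card := by
    refine Finset.card_bij (fun b _ => ((b / q : ℕ) : ℤ)) ?_ ?_ ?_
    · intro b hb
      rw [mem_filter] at hb
      obtain ⟨_, ⟨h1, h2⟩, h3⟩ := hb
      have h4 : q * (b / q) + r = b := by
        rw [← h3]
        exact Nat.div_add_mod b q
      rw [mem_Ico, Int.ceil_le, Int.lt_ceil]
      constructor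
      · have := (b7_le x q r a hq ha (b / q)).2 (by rw [h4]; exact h1)
        exact_mod_cast this
      · have := (b7_lt (x + H) q r a hq ha (b / q)).2 (by rw [h4]; exact h2)
        exact_mod_cast this
    · intro b1 hb1 b2 hb2 h
      rw [mem_filter] at hb1 hb2
      have h' : b1 / q = b2 / q := by exact_mod_cast h
      rw [← Nat.div_add_mod b1 q, ← Nat.div_add_mod b2 q, h', hb1.2.2, hb2.2.2]
    · intro k hk
      rw [mem_Ico, Int.ceil_le, Int.lt_ceil] at hk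
      obtain ⟨h1, h2⟩ := hk
      have h3 : 0 ≤ k := b7_nonneg x q r a hr k h1
      obtain ⟨n, rfl⟩ := Int.eq_ofNat_of_zero_le h3
      have h1' : yv x q r a ≤ (n : ℝ) := by exact_mod_cast h1
      have h2' : (n : ℝ) < yv (x + H) q r a := by exact_mod_cast h2
      rw [b7_le x q r a hq ha] at h1'
      rw [b7_lt (x + H) q r a hq ha] at h2'
      refine ⟨q * n + r, ?_, ?_⟩
      · rw [mem_filter, mem_range]
        refine ⟨?_, ⟨h1', h2'⟩, ?_⟩
        · exact lt_of_le_of_lt (Nat.le_mul_of_pos_left _ (by omega)) h2'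
        · rw [Nat.mul_add_mod, Nat.mod_eq_of_lt hr]
      · have : (q * n + r) / q = n := by
          rw [Nat.mul_add_div (by omega), Nat.div_eq_of_lt hr, Nat.add_zero]
        rw [this]
  rw [hc, Int.card_Ico]
  have h5 : ⌈yv x q r a⌉ ≤ ⌈yv (x + H) q r a⌉ := Int.ceil_le_ceil e2
  have h6 : (((⌈yv (x + H) q r a⌉ - ⌈yv x q r a⌉).toNat : ℕ) : ℝ) = (⌈yv (x + H) q r a⌉ : ℝ) - ⌈yv x q r a⌉ := by
    have : (((⌈yv (x + H) q r a⌉ - ⌈yv x q r a⌉).toNat : ℕ) : ℤ) = ⌈yv (x + H) q r a⌉ - ⌈yv x q r a⌉ :=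
      Int.toNat_of_nonneg (by omega)
    exact_mod_cast this
  rw [h6]
  unfold Fr
  have e3 : (H : ℝ) / (q * a) = yv (x + H) q r a - yv x q r a := by
    rw [e1]
    ring
  rw [e3]
  ring

end Pool.Agent.Lib.H21T
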