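import Pool.Agent.Lib.H21T.Defs

/-!
# Chunk B8 (M): sum of 1 / a over a residue class
-/

namespace Pool.Agent.Lib.H21T

open Finset Pool.Agent.SZW

theorem b8_ex (n q r : ℕ) (hq : 1 ≤ q) (hr : r < q) : ∃ c, n ≤ c ∧ c < n + q ∧ c % q = r := by
  refine ⟨q * ((n + q - 1 - r) / q) + r, ?_, ?_, ?_⟩
  · have h1 := Nat.div_add_mod (n + q - 1 - r) q
    have h2 := Nat.mod_lt (n + q - 1 - r) (show q > 0 by omega)
    omega
  · have h1 := Nat.div_add_mod (n + q - 1 - r) q
    omega
  · rw [Nat.mul_add_mod, Nat.mod_eq_of_lt hr]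

/-- the two bounds for one term -/
theorem b8_term (n q : ℕ) (hq : 1 ≤ q) (hn : q < n) :
    (Real.log (n + q) - Real.log n) / q ≤ 1 / (n : ℝ) ∧
      1 / (n : ℝ) ≤ (Real.log n - Real.log (n - q)) / q := by
  have hq0 : (0 : ℝ) < q := by exact_mod_cast hq
  have hn0 : (0 : ℝ) < n := by exact_mod_cast (by omega : 0 < n)
  have hnq : (0 : ℝ) < (n : ℝ) - q := by
    have : (q : ℝ) < n := by exact_mod_cast hn
    linarith
  constructor
  · rw [div_le_iff₀ hq0, ← Real.log_div (by positivity) hn0.ne']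
    have h1 := Real.log_le_sub_one_of_pos (show (0 : ℝ) < (n + q) / n by positivity)
    have h2 : ((n : ℝ) + q) / n - 1 = 1 / n * q := by
      field_simp
      ring
    linarith
  · rw [le_div_iff₀ hq0]
    have h1 := Real.log_le_sub_one_of_pos (show (0 : ℝ) < ((n : ℝ) - q) / n by positivity)
    rw [Real.log_div hnq.ne' hn0.ne'] at h1
    have h2 : ((n : ℝ) - q) / n - 1 = -(1 / n * q) := by
      field_simp
      ring
    linarith

theorem b8_ind (A1 q r : ℕ) (hq : 1 ≤ q) (hr : r < q) (h1 : 2 * q ≤ A1) (c0 : ℕ) (hc0 : A1 ≤ c0) (hc0' : c0 < A1 + q)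
    (hc0r : c0 % q = r) (n : ℕ) (hn : A1 ≤ n) :
    ∃ c, n ≤ c ∧ c < n + q ∧ c % q = r ∧
      (Real.log c - Real.log c0) / q ≤ ∑ a ∈ (Ico A1 n).filter (fun a => a % q = r), 1 / (a : ℝ) ∧
      ∑ a ∈ (Ico A1 n).filter (fun a => a % q = r), 1 / (a : ℝ) ≤
        (Real.log (c - q) - Real.log (c0 - q)) / q := by
  induction n, hn using Nat.le_induction with
  | base => exact ⟨c0, hc0, hc0', hc0r, by simp, by simp⟩
  | succ n hn ih =>
    obtain ⟨c, e1, e2, e3, e4, e5⟩ := ih
    rw [← Finset.insert_Ico_right_eq_Ico_add_one hn, Finset.filter_insert]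
    by_cases h : n % q = r
    · have hcn : c = n := by
        have h6 : (c - n) % q = 0 := Nat.sub_mod_eq_zero_of_mod_eq (e3.trans h.symm)
        rw [Nat.mod_eq_of_lt (by omega)] at h6
        omega
      rw [if_pos h, Finset.sum_insert (by simp)]
      obtain ⟨t1, t2⟩ := b8_term n q hq (by omega)
      subst hcn
      refine ⟨c + q, by omega, by omega, by rw [Nat.add_mod_right]; exact h, ?_, ?_⟩
      · push_cast
        have h7 : (Real.log ((c : ℝ) + q) - Real.log c0) / q =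
            (Real.log (c + q) - Real.log c) / q + (Real.log c - Real.log c0) / q := by ring
        rw [h7]
        linarith
      · push_cast
        have h7 : (Real.log ((c : ℝ) + q - q) - Real.log (c0 - q)) / q =
            (Real.log c - Real.log (c - q)) / q + (Real.log (c - q) - Real.log (c0 - q)) / q := by
          rw [add_sub_cancel_right]
          ring
        rw [h7]
        linarith
    · rw [if_neg h]
      have hcn : c ≠ n := fun h' => h (h' ▸ e3)
      exact ⟨c, by omega, by omega, e3, e4, e5⟩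

/-- If the set is empty then `A2 - A1 < q` (an interval of `q` consecutive integers contains a multiple class), so `log (A2 / A1) ≤ q / A1`, and the claim holds. Otherwise
the elements are `a_0 < .. < a_k`, consecutive differences `q`, `A1 ≤ a_0 < A1 + q`, `A2 ≤ a_k + q`, `a_k < A2`. From `(1 / q) log ((a + q) / a) ≤ 1 / a ≤ (1 / q) log (a / (a - q))`
and telescoping: `(1 / q) log ((a_k + q) / a_0) ≤ ∑ 1 / a ≤ (1 / q) log (a_k / (a_0 - q))`. Lower bound: `≥ (1 / q) log (A2 / (A1 + q)) ≥ (1 / q) log (A2 / A1) - 1 / A1`.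
Upper bound: `≤ (1 / q) log (A2 / (A1 - q)) ≤ (1 / q) log (A2 / A1) + 1 / (A1 - q) ≤ (1 / q) log (A2 / A1) + 2 / A1` (`2 q ≤ A1`). -/
theorem b8 (A1 A2 q r : ℕ) (hq : 1 ≤ q) (hr : r < q) (h1 : 2 * q ≤ A1) (h2 : A1 ≤ A2) :
    |∑ a ∈ (Ico A1 A2).filter (fun a => a % q = r), 1 / (a : ℝ) - (Real.log A2 - Real.log A1) / q| ≤ 2 / A1 := by
  obtain ⟨c0, hc0, hc0', hc0r⟩ := b8_ex A1 q r hq hr
  obtain ⟨c, e1, e2, e3, e4, e5⟩ := b8_ind A1 q r hq hr h1 c0 hc0 hc0' hc0r A2 h2
  have hq0 : (0 : ℝ) < q := by exact_mod_cast hq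
  have hA1 : (0 : ℝ) < A1 := by exact_mod_cast (by omega : 0 < A1)
  have hA12 : (A1 : ℝ) ≤ A2 := by exact_mod_cast h2
  have hA2 : (0 : ℝ) < A2 := by linarith
  have hqA : 2 * (q : ℝ) ≤ A1 := by exact_mod_cast h1
  have k1 : (A2 : ℝ) ≤ c := by exact_mod_cast e1
  have k2 : (c : ℝ) < A2 + q := by exact_mod_cast e2
  have k3 : (A1 : ℝ) ≤ c0 := by exact_mod_cast hc0
  have k4 : (c0 : ℝ) < A1 + q := by exact_mod_cast hc0'
  -- lower bound
  have l1 : Real.log A2 ≤ Real.log c := Real.log_le_log hA2 k1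
  have l2 : Real.log c0 ≤ Real.log (A1 + q) := Real.log_le_log (by linarith) k4.le
  have l3 : Real.log (A1 + q) - Real.log A1 ≤ q / A1 := by
    rw [← Real.log_div (by positivity) hA1.ne']
    have h3 := Real.log_le_sub_one_of_pos (show (0 : ℝ) < ((A1 : ℝ) + q) / A1 by positivity)
    have h4 : ((A1 : ℝ) + q) / A1 - 1 = q / A1 := by
      field_simp
      ring
    linarith
  have l4 : (Real.log A2 - Real.log A1) / q - 1 / A1 ≤ (Real.log c - Real.log c0) / q := by
    rw [le_div_iff₀ hq0, sub_mul, div_mul_cancel₀ _ hq0.ne']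
    have h5 : 1 / (A1 : ℝ) * q = q / A1 := by ring
    rw [h5]
    linarith
  -- upper bound
  have u0 : (0 : ℝ) < (A1 : ℝ) - q := by linarith
  have u1 : Real.log (c - q) ≤ Real.log A2 := Real.log_le_log (by linarith) (by linarith)
  have u2 : Real.log (A1 - q) ≤ Real.log (c0 - q) := Real.log_le_log u0 (by linarith)
  have u3 : Real.log A1 - Real.log (A1 - q) ≤ 2 * q / A1 := by
    rw [← Real.log_div hA1.ne' u0.ne']
    have h3 := Real.log_le_sub_one_of_pos (show (0 : ℝ) < (A1 : ℝ) / (A1 - q) by positivity)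
    have h4 : (A1 : ℝ) / (A1 - q) - 1 = q / (A1 - q) := by
      field_simp
      ring
    have h5 : (q : ℝ) / (A1 - q) ≤ 2 * q / A1 := by
      rw [div_le_div_iff₀ u0 hA1]
      nlinarith
    linarith
  have u4 : (Real.log (c - q) - Real.log (c0 - q)) / q ≤ (Real.log A2 - Real.log A1) / q + 2 / A1 := by
    rw [div_le_iff₀ hq0, add_mul, div_mul_cancel₀ _ hq0.ne']
    have h5 : 2 / (A1 : ℝ) * q = 2 * q / A1 := by ring
    rw [h5]
    linarith
  have h6 : 1 / (A1 : ℝ) ≤ 2 / A1 := by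
    rw [div_le_div_iff_of_pos_right hA1]
    norm_num
  rw [abs_le]
  constructor <;> linarith

end Pool.Agent.Lib.H21T
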