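import Pool.Agent.Lib.H21T.B6
import Pool.Agent.Lib.H21T.B7
import Pool.Agent.Lib.H21T.B8

/-!
# Chunk B9 (S/M): the number of pairs in a residue class
-/

namespace Pool.Agent.Lib.H21T

open Finset Pool.Agent.SZW

theorem b9_cnt (A1 A2 x H q r1 r2 : ℕ) : cnt A1 A2 x H q r1 r2 =
    ∑ a ∈ (Ico A1 A2).filter (fun a => a % q = r1),
      ((range (x + H)).filter fun b => (x ≤ a * b ∧ a * b < x + H) ∧ b % q = r2).card := by
  unfold cnt Rg
  rw [Finset.filter_filter, Finset.card_filter, Finset.sum_product, Finset.sum_filter]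
  refine Finset.sum_congr rfl fun a _ => ?_
  split_ifs with h
  · rw [Finset.card_filter]
    refine Finset.sum_congr rfl fun b _ => ?_
    simp only [h, true_and]
  · refine Finset.sum_eq_zero fun b _ => ?_
    rw [if_neg]
    rintro ⟨-, h1, -⟩
    exact h h1

/-- `cnt = ∑_{a ∈ Ico A1 A2, a % q = r1} #{b : x ≤ a b < x + H, b % q = r2}` (fibres of `Rg`), `b7` for each `a`, then `b8` (times `H / q`) and `b6`. -/
theorem b9 {A x X S Λ A1 A2 : ℕ} (G : Geo A x X S Λ) (h1 : A ≤ A1) (h2 : A1 ≤ A2) (h3 : A2 ≤ 2 * A) {H q r1 r2 s0 : ℕ}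
    (hH : H * S ^ 2 ≤ A ^ 2) (hq : 1 ≤ q) (hqA : 2 * q ≤ A) (hr1 : r1 < q) (hr2 : r2 < q) (hs0 : 1 ≤ s0) :
    |(cnt A1 A2 x H q r1 r2 : ℝ) - (H : ℝ) / q ^ 2 * (Real.log A2 - Real.log A1)| ≤
      2 * A * (1 / (s0 : ℝ) + 12 / S) + 2 * A * S / Λ + 291 * X * s0 * S * Λ + 2 * H / A := by
  have hx : 1 ≤ x := by
    have ha := G.hA
    have hb := G.hx
    by_contra hcon
    have h4 : x = 0 := by omega
    rw [h4, mul_zero] at hb
    have : 1 ≤ A ^ 2 := Nat.one_le_pow _ _ ha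
    omega
  have hq0 : (0:ℝ) < q := by exact_mod_cast hq
  have hA0 : (0:ℝ) < A := by exact_mod_cast G.hA
  have hAA1 : (A:ℝ) ≤ A1 := by exact_mod_cast h1
  have hcnt : (cnt A1 A2 x H q r1 r2 : ℝ) = (H : ℝ) / q * (∑ a ∈ (Ico A1 A2).filter (fun a => a % q = r1), 1 / (a : ℝ)) +
      ∑ a ∈ (Ico A1 A2).filter (fun a => a % q = r1), (Fr (yv (x + H) q r2 a) - Fr (yv x q r2 a)) := by
    rw [b9_cnt, Nat.cast_sum, Finset.mul_sum, ← Finset.sum_add_distrib]
    refine Finset.sum_congr rfl fun a ha => ?_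
    have ha1 : 1 ≤ a := by
      have := (Finset.mem_Ico.1 (Finset.mem_filter.1 ha).1).1
      have := G.hA
      omega
    rw [b7 x H q r2 a hx hq hr2 ha1]
    have ha0 : (a : ℝ) ≠ 0 := by positivity
    congr 1
    field_simp
  have e1 := b6 G h1 h2 h3 (r := r1) (r' := r2) hH hq hs0
  have e2 := b8 A1 A2 q r1 hq hr1 (by omega) h2
  have e3 : (cnt A1 A2 x H q r1 r2 : ℝ) - (H : ℝ) / q ^ 2 * (Real.log A2 - Real.log A1) =
      (H : ℝ) / q * (∑ a ∈ (Ico A1 A2).filter (fun a => a % q = r1), 1 / (a : ℝ) - (Real.log A2 - Real.log A1) / q) +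
      ∑ a ∈ (Ico A1 A2).filter (fun a => a % q = r1), (Fr (yv (x + H) q r2 a) - Fr (yv x q r2 a)) := by
    rw [hcnt]
    field_simp
    ring
  rw [e3]
  refine (abs_add_le _ _).trans ?_
  have e4 : |(H : ℝ) / q * (∑ a ∈ (Ico A1 A2).filter (fun a => a % q = r1), 1 / (a : ℝ) - (Real.log A2 - Real.log A1) / q)| ≤
      2 * H / A := by
    rw [abs_mul, abs_of_nonneg (by positivity : (0:ℝ) ≤ (H : ℝ) / q)]
    have h5 : (H : ℝ) / q ≤ H := div_le_self (by positivity) (by exact_mod_cast hq)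
    have h6 : (2:ℝ) / A1 ≤ 2 / A := by
      apply div_le_div_of_nonneg_left (by norm_num) hA0 hAA1
    calc (H : ℝ) / q * |∑ a ∈ (Ico A1 A2).filter (fun a => a % q = r1), 1 / (a : ℝ) - (Real.log A2 - Real.log A1) / q|
        ≤ H * (2 / A) := mul_le_mul h5 (e2.trans h6) (abs_nonneg _) (by positivity)
      _ = 2 * H / A := by ring
  linarith

end Pool.Agent.Lib.H21T
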