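import Pool.Agent.Lib.SZW.A2
import Pool.Agent.Lib.SZW.A6

/-!
# H21T (MP_443e5f, candidate T, module D, parts D3 + D4): exponential sums over pieces of the divisor function in intervals of length about the square root

`ee x = exp (2 π i x)` and `nn x = |x - round x|` are those of `Lib/SZW/D0.lean` (lemmas `nn_le`, `nn_add`, `nn_sub`, `nn_int_add`, `nn_mul_le`
in `SZW/A1`, `ee_add`, `norm_ee`, `ee_int`, `norm_one_sub_ee`, `geom_bound` in `SZW/A2`, Vinogradov's lemma `recurrence` in `SZW/A6`).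

* `dbox A1 A2 B1 B2 m`: number of pairs `A1 ≤ a < A2`, `B1 ≤ b < B2` with `a b = m`.
* `lbox`: logarithmic length of the interval of the possible `a` (`m / B2 < a ≤ m / B1`, `A1 ≤ a < A2`).
* `lam Q d = ∑_{r ≤ Q / d} μ(r) / r`, `gQ Q m = ∑_{d ∣ m, d ≤ Q} lam Q d`, `Mbox Q A1 A2 B1 B2 m = lbox m * gQ Q m`.
* `Rg A1 A2 x H`: the pairs `(a, b)` with `A1 ≤ a < A2`, `x ≤ a b < x + H`; `SR α` the sum of `ee (α a b)` over it.
* `Geo A x X S Λ`: the conditions on the parameters: `A` size of `a`, `x` position of the interval, `x ≤ X A²`, `S` bound of the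
  directions, `Λ` (about `A³ / (2 x S²)`) length of the pieces of the range of `a`.
* `Dir A1 Λ x S n s t`: for `i < n` the direction `(s i, t i)` of the `i`-th piece: `|s ρ - t| ≤ 1 / S`, `ρ = x / (A1 + i Λ)²`.
-/

namespace Pool.Agent.Lib.H21T

open Finset Pool.Agent.SZW

/-- the number of pairs `A1 ≤ a < A2`, `B1 ≤ b < B2` with `a b = m` -/
def dbox (A1 A2 B1 B2 m : ℕ) : ℕ := (((Ico A1 A2) ×ˢ (Ico B1 B2)).filter fun p => p.1 * p.2 = m).card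

/-- the logarithmic length of the range of `a` -/
noncomputable def lbox (A1 A2 B1 B2 m : ℕ) : ℝ :=
  max 0 (min (Real.log A2) (Real.log m - Real.log B1) - max (Real.log A1) (Real.log m - Real.log B2))

/-- `∑_{r ≤ Q / d} μ(r) / r` -/
noncomputable def lam (Q d : ℕ) : ℝ := ∑ r ∈ Icc 1 (Q / d), (ArithmeticFunction.moebius r : ℝ) / r

/-- `∑_{d ∣ m, d ≤ Q} lam Q d` -/
noncomputable def gQ (Q m : ℕ) : ℝ := ∑ d ∈ (Icc 1 Q).filter (fun d => d ∣ m), lam Q d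

/-- the model of `dbox` -/
noncomputable def Mbox (Q A1 A2 B1 B2 m : ℕ) : ℝ := lbox A1 A2 B1 B2 m * gQ Q m

/-- the pairs `(a, b)` with `A1 ≤ a < A2`, `x ≤ a b < x + H` (used for `1 ≤ A1`, `1 ≤ x`) -/
def Rg (A1 A2 x H : ℕ) : Finset (ℕ × ℕ) :=
  ((Ico A1 A2) ×ˢ (range (x + H))).filter fun p => x ≤ p.1 * p.2 ∧ p.1 * p.2 < x + H

/-- the exponential sum over `Rg` -/
noncomputable def SR (α : ℝ) (A1 A2 x H : ℕ) : ℂ := ∑ p ∈ Rg A1 A2 x H, ee (α * ((p.1 : ℝ) * p.2))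

/-- conditions on the parameters -/
structure Geo (A x X S Λ : ℕ) : Prop where
  hA : 1 ≤ A
  hX1 : 1 ≤ X
  hS : 1 ≤ S
  hΛ : 1 ≤ Λ
  hx : A ^ 2 ≤ 2 * x
  hX : x ≤ X * A ^ 2
  hup : 2 * x * Λ * S ^ 2 ≤ A ^ 3
  hlo : A ^ 3 ≤ 4 * x * Λ * S ^ 2

/-- left end of the `i`-th piece -/
def pa (A1 Λ i : ℕ) : ℕ := A1 + i * Λ

/-- right end of the `i`-th piece -/
def pb (A1 A2 Λ i : ℕ) : ℕ := min A2 (A1 + (i + 1) * Λ)

/-- number of pieces -/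
def nJ (A1 A2 Λ : ℕ) : ℕ := (A2 - A1) / Λ + 1

/-- the direction `(s, t)` is good for the point `a` -/
def Ap (x S a s t : ℕ) : Prop := |(s : ℝ) * (x / (a : ℝ) ^ 2) - t| ≤ 1 / S

/-- directions of the first `n` pieces -/
structure Dir (A1 Λ x S n : ℕ) (s t : ℕ → ℕ) : Prop where
  s1 : ∀ i < n, 1 ≤ s i
  sS : ∀ i < n, s i ≤ S
  co : ∀ i < n, Nat.Coprime (s i) (t i)
  ap : ∀ i < n, Ap x S (pa A1 Λ i) (s i) (t i)

/-- `⌈y⌉ - y` -/
noncomputable def Fr (y : ℝ) : ℝ := (⌈y⌉ : ℝ) - y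

/-- `(x / a - r) / q` -/
noncomputable def yv (x q r a : ℕ) : ℝ := ((x : ℝ) / a - r) / q

/-- `α` is close to a rational with small denominator; `u` is `N ^ (1 / 20000)` -/
def Maj (u α : ℝ) : Prop := ∃ q : ℕ, 1 ≤ q ∧ (q : ℝ) ≤ u ^ 131 ∧ nn (q * α) * u ^ 9754 ≤ 1

/-- the number of pairs of `Rg` in the residue classes `r1`, `r2` modulo `q` -/
def cnt (A1 A2 x H q r1 r2 : ℕ) : ℕ := ((Rg A1 A2 x H).filter fun p => p.1 % q = r1 ∧ p.2 % q = r2).card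

/-- `Rg` as a set of pairs of integers -/
def RZ (A1 A2 x H : ℕ) : Finset (ℤ × ℤ) := (Rg A1 A2 x H).image fun p => ((p.1 : ℤ), (p.2 : ℤ))

theorem mem_Rg {A1 A2 x H : ℕ} (hA : 1 ≤ A1) {p : ℕ × ℕ} :
    p ∈ Rg A1 A2 x H ↔ A1 ≤ p.1 ∧ p.1 < A2 ∧ x ≤ p.1 * p.2 ∧ p.1 * p.2 < x + H := by
  unfold Rg
  rw [mem_filter, mem_product, mem_Ico, mem_range]
  constructor
  · rintro ⟨⟨⟨h1, h2⟩, _⟩, h4, h5⟩
    exact ⟨h1, h2, h4, h5⟩
  · rintro ⟨h1, h2, h3, h4⟩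
    exact ⟨⟨⟨h1, h2⟩, lt_of_le_of_lt (Nat.le_mul_of_pos_left _ (by omega)) h4⟩, h3, h4⟩

theorem mem_RZ {A1 A2 x H : ℕ} (hA : 1 ≤ A1) (hx : 1 ≤ x) {p : ℤ × ℤ} :
    p ∈ RZ A1 A2 x H ↔ (A1 : ℤ) ≤ p.1 ∧ p.1 < A2 ∧ (x : ℤ) ≤ p.1 * p.2 ∧ p.1 * p.2 < x + H := by
  unfold RZ
  rw [mem_image]
  constructor
  · rintro ⟨r, hr, rfl⟩
    obtain ⟨h1, h2, h3, h4⟩ := (mem_Rg hA).1 hr
    simp only
    exact ⟨by exact_mod_cast h1, by exact_mod_cast h2, by exact_mod_cast h3, by exact_mod_cast h4⟩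
  · rintro ⟨h1, h2, h3, h4⟩
    have h5 : 0 < p.1 := by omega
    have h6 : 0 < p.2 := by
      by_contra hcon
      have h7 : p.1 * p.2 ≤ 0 := mul_nonpos_of_nonneg_of_nonpos h5.le (not_lt.1 hcon)
      omega
    obtain ⟨a, ha⟩ := Int.eq_ofNat_of_zero_le h5.le
    obtain ⟨b, hb⟩ := Int.eq_ofNat_of_zero_le h6.le
    refine ⟨(a, b), (mem_Rg hA).2 ⟨?_, ?_, ?_, ?_⟩, ?_⟩
    · rw [ha] at h1; exact_mod_cast h1
    · rw [ha] at h2; exact_mod_cast h2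
    · rw [ha, hb] at h3; exact_mod_cast h3
    · rw [ha, hb] at h4; exact_mod_cast h4
    · exact Prod.ext ha.symm hb.symm

end Pool.Agent.Lib.H21T
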