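import Pool.Agent.Lib.H21T.Defs

/-!
# Chunk F1 (S): Dirichlet directions
-/

namespace Pool.Agent.Lib.H21T

open Finset Pool.Agent.SZW

/-- `Real.exists_nat_abs_mul_sub_round_le` gives `k` with `0 < k ≤ S` and `|k ρ - round (k ρ)| ≤ 1 / (S + 1)`. `round (k ρ) ≥ 0` because `k ρ ≥ 0`.
Divide `k` and `round (k ρ)` by their gcd `g ≥ 1`: `|s ρ - t| ≤ 1 / (g (S + 1)) ≤ 1 / S`. -/
theorem f1 (ρ : ℝ) (hρ : 0 ≤ ρ) (S : ℕ) (hS : 1 ≤ S) :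
    ∃ s t : ℕ, 1 ≤ s ∧ s ≤ S ∧ Nat.Coprime s t ∧ |(s : ℝ) * ρ - t| ≤ 1 / S := by
  obtain ⟨k, hk0, hkS, hk⟩ := Real.exists_nat_abs_mul_sub_round_le ρ (n := S) (by omega)
  have hr : 0 ≤ round ((k : ℝ) * ρ) := by
    rw [round_eq]
    apply Int.floor_nonneg.2
    positivity
  obtain ⟨m, hm⟩ := Int.eq_ofNat_of_zero_le hr
  rw [hm] at hk
  have hg : 0 < Nat.gcd k m := Nat.gcd_pos_of_pos_left _ hk0
  have hSr : (1 : ℝ) ≤ S := by exact_mod_cast hS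
  refine ⟨k / Nat.gcd k m, m / Nat.gcd k m, ?_, ?_, ?_, ?_⟩
  · exact Nat.div_pos (Nat.le_of_dvd hk0 (Nat.gcd_dvd_left k m)) hg
  · exact (Nat.div_le_self _ _).trans hkS
  · exact Nat.coprime_div_gcd_div_gcd hg
  · have hg1 : (1 : ℝ) ≤ (Nat.gcd k m : ℕ) := by exact_mod_cast hg
    have hg0 : (0 : ℝ) < (Nat.gcd k m : ℕ) := by linarith
    rw [Nat.cast_div (Nat.gcd_dvd_left k m) hg0.ne', Nat.cast_div (Nat.gcd_dvd_right k m) hg0.ne']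
    have he : (k : ℝ) / (Nat.gcd k m : ℕ) * ρ - (m : ℝ) / (Nat.gcd k m : ℕ) = (k * ρ - m) / (Nat.gcd k m : ℕ) := by
      field_simp
    rw [he, abs_div, abs_of_pos hg0]
    have hk' : |(k : ℝ) * ρ - m| ≤ 1 / (S + 1) := by
      have h2 : (((m : ℕ) : ℤ) : ℝ) = (m : ℝ) := by push_cast; rfl
      rw [← h2]
      exact hk
    calc |(k : ℝ) * ρ - m| / (Nat.gcd k m : ℕ) ≤ |(k : ℝ) * ρ - m| := div_le_self (abs_nonneg _) hg1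
      _ ≤ 1 / (S + 1) := hk'
      _ ≤ 1 / S := one_div_le_one_div_of_le (by linarith) (by linarith)

theorem exists_dir (A1 Λ x S : ℕ) (hS : 1 ≤ S) : ∃ s t : ℕ → ℕ, ∀ n, Dir A1 Λ x S n s t := by
  have h : ∀ i : ℕ, ∃ p : ℕ × ℕ, 1 ≤ p.1 ∧ p.1 ≤ S ∧ Nat.Coprime p.1 p.2 ∧ Ap x S (pa A1 Λ i) p.1 p.2 := by
    intro i
    obtain ⟨s, t, h1, h2, h3, h4⟩ := f1 ((x : ℝ) / ((pa A1 Λ i : ℕ) : ℝ) ^ 2) (by positivity) S hS
    exact ⟨(s, t), h1, h2, h3, h4⟩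
  choose p hp using h
  exact ⟨fun i => (p i).1, fun i => (p i).2, fun n => ⟨fun i _ => (hp i).1, fun i _ => (hp i).2.1, fun i _ => (hp i).2.2.1,
    fun i _ => (hp i).2.2.2⟩⟩

end Pool.Agent.Lib.H21T
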