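import Pool.Agent.Lib.H21T.Defs

/-!
# Chunk F2 (S/M): variation of the slope x / a^2
-/

namespace Pool.Agent.Lib.H21T

open Finset Pool.Agent.SZW

/-- From `hup` and `hx`: `A ^ 2 Λ S ^ 2 ≤ 2 x Λ S ^ 2 ≤ A ^ 3`, and `A ≥ 1`. -/
theorem f2_small {A x X S Λ : ℕ} (G : Geo A x X S Λ) : Λ * S ^ 2 ≤ A := by
  have h1 := G.hup
  have h2 := G.hx
  have h3 := G.hA
  have h4 : A ^ 2 * (Λ * S ^ 2) ≤ A ^ 2 * A := by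
    calc A ^ 2 * (Λ * S ^ 2) ≤ (2 * x) * (Λ * S ^ 2) := Nat.mul_le_mul_right _ h2
      _ = 2 * x * Λ * S ^ 2 := by ring
      _ ≤ A ^ 3 := h1
      _ = A ^ 2 * A := by ring
  exact Nat.le_of_mul_le_mul_left h4 (by positivity)

theorem f2_real {A x X S Λ : ℕ} (G : Geo A x X S Λ) : (1 : ℝ) ≤ A ∧ (1 : ℝ) ≤ S ∧ (1 : ℝ) ≤ Λ ∧ (Λ : ℝ) ≤ A ∧
    2 * (x : ℝ) * Λ * S ^ 2 ≤ (A : ℝ) ^ 3 ∧ (A : ℝ) ^ 3 ≤ 4 * x * Λ * S ^ 2 := by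
  have hS := G.hS
  have h5 : Λ ≤ A := by
    have h6 := f2_small G
    have h7 : Λ * 1 ≤ Λ * S ^ 2 := Nat.mul_le_mul_left _ (Nat.one_le_pow _ _ hS)
    omega
  have h1 := G.hA
  have h2 := G.hΛ
  have h3 := G.hup
  have h4 := G.hlo
  exact ⟨by exact_mod_cast h1, by exact_mod_cast hS, by exact_mod_cast h2, by exact_mod_cast h5, by exact_mod_cast h3,
    by exact_mod_cast h4⟩

/-- `x / a ^ 2 - x / (a + Λ) ^ 2 = x Λ (2 a + Λ) / (a ^ 2 (a + Λ) ^ 2) ≥ x Λ / (a ^ 2 (a + Λ)) ≥ x Λ / (4 A ^ 2 * 3 A)` (`Λ ≤ A` by `f2_small`)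
`≥ 1 / (48 S ^ 2)` by `hlo`. -/
theorem f2_gap {A x X S Λ : ℕ} (G : Geo A x X S Λ) {a : ℕ} (h1 : A ≤ a) (h2 : a ≤ 2 * A) :
    1 / (48 * (S : ℝ) ^ 2) ≤ (x : ℝ) / (a : ℝ) ^ 2 - (x : ℝ) / ((a : ℝ) + Λ) ^ 2 := by
  obtain ⟨hA, hS, hΛ, hΛA, hup, hlo⟩ := f2_real G
  have h1' : (A : ℝ) ≤ a := by exact_mod_cast h1
  have h2' : (a : ℝ) ≤ 2 * A := by exact_mod_cast h2
  have hx0 : (0 : ℝ) ≤ x := Nat.cast_nonneg x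
  have ha0 : (0 : ℝ) < a := by linarith
  have haΛ : (0 : ℝ) < (a : ℝ) + Λ := by linarith
  have hS0 : (0 : ℝ) < S := by linarith
  have e1 : (x : ℝ) / (a : ℝ) ^ 2 - (x : ℝ) / ((a : ℝ) + Λ) ^ 2 =
      x * Λ * (2 * a + Λ) / ((a : ℝ) ^ 2 * ((a : ℝ) + Λ) ^ 2) := by
    field_simp
    ring
  rw [e1]
  have e2 : (x : ℝ) * Λ / ((a : ℝ) ^ 2 * ((a : ℝ) + Λ)) ≤
      x * Λ * (2 * a + Λ) / ((a : ℝ) ^ 2 * ((a : ℝ) + Λ) ^ 2) := by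
    rw [div_le_div_iff₀ (by positivity) (by positivity)]
    have h3 : (0 : ℝ) ≤ x * Λ * (a : ℝ) ^ 2 * ((a : ℝ) + Λ) * a := by positivity
    nlinarith [h3]
  refine le_trans ?_ e2
  have e3 : (a : ℝ) ^ 2 * ((a : ℝ) + Λ) ≤ 4 * A ^ 2 * (3 * A) := by
    apply mul_le_mul
    · calc (a : ℝ) ^ 2 ≤ (2 * A) ^ 2 := pow_le_pow_left₀ ha0.le h2' 2
        _ = 4 * A ^ 2 := by ring
    · linarith
    · linarith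
    · positivity
  rw [div_le_div_iff₀ (by positivity) (by positivity)]
  have e4 : (4 : ℝ) * A ^ 2 * (3 * A) = 12 * (A : ℝ) ^ 3 := by ring
  have e5 : (x : ℝ) * Λ * (48 * (S : ℝ) ^ 2) = 12 * (4 * (x : ℝ) * Λ * (S : ℝ) ^ 2) := by ring
  rw [e4] at e3
  rw [e5]
  linarith

/-- `x / (a a')` lies between `x / (a0 + Λ) ^ 2` and `x / a0 ^ 2`, whose difference is
`x Λ (2 a0 + Λ) / (a0 ^ 2 (a0 + Λ) ^ 2) ≤ 2 x Λ / (a0 ^ 2 (a0 + Λ)) ≤ 2 x Λ / A ^ 3 ≤ 1 / S ^ 2` (`hup`). -/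
theorem f2_var {A x X S Λ : ℕ} (G : Geo A x X S Λ) {a0 a a' : ℕ} (h1 : A ≤ a0) (h2 : a0 ≤ a) (h3 : a ≤ a0 + Λ) (h4 : a0 ≤ a')
    (h5 : a' ≤ a0 + Λ) : |(x : ℝ) / (a0 : ℝ) ^ 2 - (x : ℝ) / ((a : ℝ) * a')| ≤ 1 / (S : ℝ) ^ 2 := by
  obtain ⟨hA, hS, hΛ, hΛA, hup, hlo⟩ := f2_real G
  have h1' : (A : ℝ) ≤ a0 := by exact_mod_cast h1
  have h2' : (a0 : ℝ) ≤ a := by exact_mod_cast h2
  have h3' : (a : ℝ) ≤ a0 + Λ := by exact_mod_cast h3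
  have h4' : (a0 : ℝ) ≤ a' := by exact_mod_cast h4
  have h5' : (a' : ℝ) ≤ a0 + Λ := by exact_mod_cast h5
  have hx0 : (0 : ℝ) ≤ x := Nat.cast_nonneg x
  have ha0 : (0 : ℝ) < a0 := by linarith
  have ha : (0 : ℝ) < a := by linarith
  have ha' : (0 : ℝ) < a' := by linarith
  have haΛ : (0 : ℝ) < (a0 : ℝ) + Λ := by linarith
  have hS0 : (0 : ℝ) < S := by linarith
  have hA0 : (0 : ℝ) < A := by linarith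
  have u1 : (x : ℝ) / ((a : ℝ) * a') ≤ (x : ℝ) / (a0 : ℝ) ^ 2 := by
    apply div_le_div_of_nonneg_left hx0 (by positivity)
    calc (a0 : ℝ) ^ 2 = a0 * a0 := by ring
      _ ≤ a * a' := mul_le_mul h2' h4' ha0.le ha.le
  have u2 : (x : ℝ) / ((a0 : ℝ) + Λ) ^ 2 ≤ (x : ℝ) / ((a : ℝ) * a') := by
    apply div_le_div_of_nonneg_left hx0 (by positivity)
    calc (a : ℝ) * a' ≤ ((a0 : ℝ) + Λ) * ((a0 : ℝ) + Λ) := mul_le_mul h3' h5' ha'.le haΛ.le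
      _ = ((a0 : ℝ) + Λ) ^ 2 := by ring
  have e1 : (x : ℝ) / (a0 : ℝ) ^ 2 - (x : ℝ) / ((a0 : ℝ) + Λ) ^ 2 =
      x * Λ * (2 * a0 + Λ) / ((a0 : ℝ) ^ 2 * ((a0 : ℝ) + Λ) ^ 2) := by
    field_simp
    ring
  have e2 : x * Λ * (2 * a0 + Λ) / ((a0 : ℝ) ^ 2 * ((a0 : ℝ) + Λ) ^ 2) ≤
      2 * (x : ℝ) * Λ / ((a0 : ℝ) ^ 2 * ((a0 : ℝ) + Λ)) := by
    rw [div_le_div_iff₀ (by positivity) (by positivity)]
    have h3 : (0 : ℝ) ≤ x * Λ * (a0 : ℝ) ^ 2 * ((a0 : ℝ) + Λ) * Λ := by positivity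
    nlinarith [h3]
  have e3 : 2 * (x : ℝ) * Λ / ((a0 : ℝ) ^ 2 * ((a0 : ℝ) + Λ)) ≤ 1 / (S : ℝ) ^ 2 := by
    rw [div_le_div_iff₀ (by positivity) (by positivity)]
    calc 2 * (x : ℝ) * Λ * S ^ 2 ≤ A ^ 3 := hup
      _ = A ^ 2 * A := by ring
      _ ≤ (a0 : ℝ) ^ 2 * ((a0 : ℝ) + Λ) := by
          apply mul_le_mul
          · exact pow_le_pow_left₀ hA0.le h1' 2
          · linarith
          · exact hA0.le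
          · positivity
      _ = 1 * ((a0 : ℝ) ^ 2 * ((a0 : ℝ) + Λ)) := by ring
  rw [abs_of_nonneg (by linarith)]
  linarith

end Pool.Agent.Lib.H21T
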