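import Pool.Agent.Lib.H21T.Defs

/-!
# Chunk G1 (S/M): the geometric parameters
-/

namespace Pool.Agent.Lib.H21T

open Finset Pool.Agent.SZW

/-- `X = ⌈4 u ^ 2⌉₊`, `S = ⌊u ^ 2500⌋₊` (at least `u ^ 2500 / 2`), `Λ = A ^ 3 / (2 * x * S ^ 2)` (natural division). `2 x S ^ 2 ≤ 8 u ^ 5002 A ^ 2 ≤ A ^ 3` as `A ≥ u ^ 9999`, so `Λ ≥ 1`, and
`⌊y⌋ ≥ y / 2` for `y ≥ 1` gives `hlo`. `Λ ≤ A ^ 3 / (2 x S ^ 2) ≤ A / S ^ 2 ≤ 4 u ^ 5000`; `hlo` gives `A ^ 3 ≤ 4 x Λ S ^ 2 ≤ 16 u ^ 2 A ^ 2 Λ u ^ 5000`. (Never unfold the powers;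
products with `← pow_add`, comparisons with `pow_le_pow_right₀`.) -/
theorem g1 (u : ℝ) (hu : 10 ≤ u) (A x : ℕ) (h1 : u ^ 9999 ≤ A) (h2 : (A : ℝ) ≤ u ^ 10000) (h3 : A ^ 2 ≤ 2 * x)
    (h4 : (x : ℝ) ≤ 4 * u ^ 2 * (A : ℝ) ^ 2) :
    ∃ X S Λ : ℕ, Geo A x X S Λ ∧ 4 * u ^ 2 ≤ X ∧ (X : ℝ) ≤ 5 * u ^ 2 ∧ (S : ℝ) ≤ u ^ 2500 ∧ u ^ 2500 ≤ 2 * S ∧
      (Λ : ℝ) ≤ 4 * u ^ 5000 ∧ (A : ℝ) ≤ 16 * u ^ 5002 * Λ := by
  have hu0 : (0 : ℝ) < u := by linarith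
  have hu1 : (1 : ℝ) ≤ u := by linarith
  obtain ⟨v, hv⟩ : ∃ v : ℝ, v = u ^ 2500 := ⟨_, rfl⟩
  have hv1 : 1 ≤ v := by rw [hv]; exact one_le_pow₀ hu1
  have hv0 : 0 < v := by linarith
  have hvv : v ^ 2 = u ^ 5000 := by rw [hv, ← pow_mul]
  obtain ⟨X, hXd⟩ : ∃ X : ℕ, X = ⌈4 * u ^ 2⌉₊ := ⟨_, rfl⟩
  obtain ⟨S, hSd⟩ : ∃ S : ℕ, S = ⌊v⌋₊ := ⟨_, rfl⟩
  have hX1 : 4 * u ^ 2 ≤ X := by rw [hXd]; exact Nat.le_ceil _
  have hX2 : (X : ℝ) ≤ 5 * u ^ 2 := by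
    have h := (Nat.ceil_lt_add_one (show 0 ≤ 4 * u ^ 2 by positivity)).le
    rw [← hXd] at h
    nlinarith
  have hS1 : (S : ℝ) ≤ v := by rw [hSd]; exact Nat.floor_le hv0.le
  have hS2 : v < S + 1 := by rw [hSd]; exact Nat.lt_floor_add_one v
  have hSn : 1 ≤ S := by
    have : (0 : ℝ) < S := by linarith
    have h2 : 0 < S := by exact_mod_cast this
    omega
  have hSr : (1 : ℝ) ≤ S := by exact_mod_cast hSn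
  have hS3 : v ≤ 2 * S := by linarith
  have hA0 : (0 : ℝ) < A := lt_of_lt_of_le (by positivity) h1
  have hAn : 1 ≤ A := by
    have h2 : 0 < A := by exact_mod_cast hA0
    omega
  have h3' : (A : ℝ) ^ 2 ≤ 2 * x := by exact_mod_cast h3
  have hx0 : (0 : ℝ) < x := by
    have : (0 : ℝ) < (A : ℝ) ^ 2 := by positivity
    linarith
  have hxn : 0 < x := by exact_mod_cast hx0
  have hM0 : 0 < 2 * x * S ^ 2 := by positivity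
  have key : 2 * (x : ℝ) * (S : ℝ) ^ 2 ≤ (A : ℝ) ^ 3 := by
    have k1 : (S : ℝ) ^ 2 ≤ u ^ 5000 := by
      rw [← hvv]
      exact pow_le_pow_left₀ (by linarith) hS1 2
    have k2 : 2 * (x : ℝ) * (S : ℝ) ^ 2 ≤ 2 * (4 * u ^ 2 * (A : ℝ) ^ 2) * u ^ 5000 := by
      apply mul_le_mul _ k1 (by positivity) (by positivity)
      linarith
    have k3 : 8 * u ^ 5002 ≤ (A : ℝ) := by
      have k4 : (8 : ℝ) * u ^ 5002 ≤ u * u ^ 5002 := by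
        apply mul_le_mul_of_nonneg_right (by linarith) (by positivity)
      have k5 : u * u ^ 5002 = u ^ 5003 := by rw [← pow_succ']
      have k6 : u ^ 5003 ≤ u ^ 9999 := pow_le_pow_right₀ hu1 (by norm_num)
      linarith
    have k7 : 2 * (4 * u ^ 2 * (A : ℝ) ^ 2) * u ^ 5000 = 8 * u ^ 5002 * (A : ℝ) ^ 2 := by
      have : u ^ 5002 = u ^ 2 * u ^ 5000 := by rw [← pow_add]
      rw [this]
      ring
    have k8 : 8 * u ^ 5002 * (A : ℝ) ^ 2 ≤ (A : ℝ) * (A : ℝ) ^ 2 :=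
      mul_le_mul_of_nonneg_right k3 (by positivity)
    calc 2 * (x : ℝ) * (S : ℝ) ^ 2 ≤ 2 * (4 * u ^ 2 * (A : ℝ) ^ 2) * u ^ 5000 := k2
      _ = 8 * u ^ 5002 * (A : ℝ) ^ 2 := k7
      _ ≤ (A : ℝ) * (A : ℝ) ^ 2 := k8
      _ = (A : ℝ) ^ 3 := by ring
  have keyn : 2 * x * S ^ 2 ≤ A ^ 3 := by exact_mod_cast key
  obtain ⟨L, hLd⟩ : ∃ L : ℕ, L = A ^ 3 / (2 * x * S ^ 2) := ⟨_, rfl⟩
  have hL1 : 1 ≤ L := by
    rw [hLd]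
    exact Nat.div_pos keyn hM0
  have hL2 : L * (2 * x * S ^ 2) ≤ A ^ 3 := by
    rw [hLd]
    exact Nat.div_mul_le_self _ _
  have hL3 : A ^ 3 < (L + 1) * (2 * x * S ^ 2) := by
    rw [hLd, mul_comm]
    exact Nat.lt_mul_div_succ _ hM0
  have hL4 : A ^ 3 ≤ 4 * x * L * S ^ 2 := by
    have h5 : (L + 1) * (2 * x * S ^ 2) ≤ (2 * L) * (2 * x * S ^ 2) := Nat.mul_le_mul_right _ (by omega)
    have h6 : (2 * L) * (2 * x * S ^ 2) = 4 * x * L * S ^ 2 := by ring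
    omega
  have hL2r : (L : ℝ) * (2 * x * S ^ 2) ≤ (A : ℝ) ^ 3 := by exact_mod_cast hL2
  have hL4r : (A : ℝ) ^ 3 ≤ 4 * x * L * S ^ 2 := by exact_mod_cast hL4
  have hLr : (1 : ℝ) ≤ L := by exact_mod_cast hL1
  refine ⟨X, S, L, ⟨hAn, ?_, hSn, hL1, h3, ?_, ?_, hL4⟩, hX1, hX2, ?_, ?_, ?_, ?_⟩
  · have : (0 : ℝ) < X := lt_of_lt_of_le (by positivity) hX1
    have h2 : 0 < X := by exact_mod_cast this
    omega
  · have : (x : ℝ) ≤ X * (A : ℝ) ^ 2 := h4.trans (mul_le_mul_of_nonneg_right hX1 (by positivity))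
    exact_mod_cast this
  · calc 2 * x * L * S ^ 2 = L * (2 * x * S ^ 2) := by ring
      _ ≤ A ^ 3 := hL2
  · rw [← hv]; exact hS1
  · rw [← hv]; exact hS3
  · -- L ≤ 4 u ^ 5000
    have m1 : (L : ℝ) * (S : ℝ) ^ 2 * (A : ℝ) ^ 2 ≤ (A : ℝ) * (A : ℝ) ^ 2 := by
      calc (L : ℝ) * (S : ℝ) ^ 2 * (A : ℝ) ^ 2 ≤ (L : ℝ) * (S : ℝ) ^ 2 * (2 * x) :=
            mul_le_mul_of_nonneg_left h3' (by positivity)
        _ = L * (2 * x * S ^ 2) := by ring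
        _ ≤ (A : ℝ) ^ 3 := hL2r
        _ = (A : ℝ) * (A : ℝ) ^ 2 := by ring
    have m2 : (L : ℝ) * (S : ℝ) ^ 2 ≤ A := le_of_mul_le_mul_right m1 (by positivity)
    have m3 : v ^ 2 ≤ 4 * (S : ℝ) ^ 2 := by
      calc v ^ 2 ≤ (2 * (S : ℝ)) ^ 2 := pow_le_pow_left₀ hv0.le hS3 2
        _ = 4 * (S : ℝ) ^ 2 := by ring
    have m4 : (L : ℝ) * v ^ 2 ≤ 4 * u ^ 5000 * v ^ 2 := by
      calc (L : ℝ) * v ^ 2 ≤ L * (4 * (S : ℝ) ^ 2) := mul_le_mul_of_nonneg_left m3 (by linarith)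
        _ = 4 * (L * (S : ℝ) ^ 2) := by ring
        _ ≤ 4 * u ^ 10000 := by linarith
        _ = 4 * u ^ 5000 * v ^ 2 := by
            rw [hvv, mul_assoc, ← pow_add]
    exact le_of_mul_le_mul_right m4 (by positivity)
  · -- A ≤ 16 u ^ 5002 L
    have k1 : (S : ℝ) ^ 2 ≤ u ^ 5000 := by
      rw [← hvv]
      exact pow_le_pow_left₀ (by linarith) hS1 2
    have m1 : (A : ℝ) * (A : ℝ) ^ 2 ≤ 16 * u ^ 5002 * L * (A : ℝ) ^ 2 := by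
      have m0 : (A : ℝ) * (A : ℝ) ^ 2 = (A : ℝ) ^ 3 := by ring
      rw [m0]
      calc (A : ℝ) ^ (3 : ℕ) ≤ 4 * (x : ℝ) * L * (S : ℝ) ^ (2 : ℕ) := hL4r
        _ ≤ 4 * (x : ℝ) * L * u ^ (5000 : ℕ) := mul_le_mul_of_nonneg_left k1 (by positivity)
        _ = (x : ℝ) * (4 * L * u ^ (5000 : ℕ)) := by ring
        _ ≤ 4 * u ^ 2 * (A : ℝ) ^ 2 * (4 * L * u ^ 5000) := mul_le_mul_of_nonneg_right h4 (by positivity)
        _ = 16 * (u ^ 2 * u ^ 5000) * L * (A : ℝ) ^ 2 := by ring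
        _ = 16 * u ^ 5002 * L * (A : ℝ) ^ 2 := by rw [← pow_add]
    exact le_of_mul_le_mul_right m1 (by positivity)

end Pool.Agent.Lib.H21T
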