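import Pool.Agent.Lib.H21T.Defs

/-!
# Chunk M1 (S/M): the coefficients of the model
-/

namespace Pool.Agent.Lib.H21T

open Finset Pool.Agent.SZW

/-- `|μ| ≤ 1` and the harmonic sum up to `Q / d ≤ Q`. -/
theorem m1 (Q d : ℕ) (hQ : 1 ≤ Q) : |lam Q d| ≤ 1 + Real.log Q := by
  have h1 : |lam Q d| ≤ ∑ r ∈ Icc 1 (Q / d), 1 / (r : ℝ) := by
    refine (Finset.abs_sum_le_sum_abs _ _).trans (Finset.sum_le_sum fun r hr => ?_)
    have hr0 : (0 : ℝ) < r := by exact_mod_cast (mem_Icc.1 hr).1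
    rw [abs_div, abs_of_pos hr0]
    have h2 : |((ArithmeticFunction.moebius r : ℤ) : ℝ)| ≤ 1 := by
      have h3 : |ArithmeticFunction.moebius r| ≤ 1 := ArithmeticFunction.abs_moebius_le_one
      exact_mod_cast h3
    gcongr
  have h2 : ∑ r ∈ Icc 1 (Q / d), 1 / (r : ℝ) ≤ ∑ r ∈ Icc 1 Q, 1 / (r : ℝ) := by
    apply Finset.sum_le_sum_of_subset_of_nonneg
    · exact Finset.Icc_subset_Icc_right (Nat.div_le_self _ _)
    · intro i _ _
      positivity
  have h3 : ∑ r ∈ Icc 1 Q, 1 / (r : ℝ) ≤ 1 + Real.log Q := by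
    have h4 := harmonic_le_one_add_log Q
    rw [harmonic_eq_sum_Icc] at h4
    push_cast at h4
    simpa only [one_div] using h4
  linarith

/-- `|gQ Q m| ≤ (number of divisors of m) (1 + log Q)`. -/
theorem m1_g (Q m : ℕ) (hQ : 1 ≤ Q) (hm : 1 ≤ m) : |gQ Q m| ≤ m.divisors.card * (1 + Real.log Q) := by
  unfold gQ
  refine (Finset.abs_sum_le_sum_abs _ _).trans ?_
  refine (Finset.sum_le_sum fun d _ => m1 Q d hQ).trans ?_
  rw [Finset.sum_const, nsmul_eq_mul]
  have hlog : 0 ≤ 1 + Real.log Q := by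
    have : 0 ≤ Real.log Q := Real.log_natCast_nonneg Q
    linarith
  refine mul_le_mul_of_nonneg_right ?_ hlog
  exact_mod_cast Finset.card_le_card (fun d hd => by
    rw [mem_filter] at hd
    exact Nat.mem_divisors.2 ⟨hd.2, by omega⟩)

/-- `∑_{d ≤ Q, q ∣ d} (1 / d) ∑_{r ≤ Q / d} μ(r) / r = ∑_{n ≤ Q, q ∣ n} (1 / n) ∑_{r ∣ n / q} μ(r)` (`n = d r`; `q ∣ d` means that `r` divides `n / q`), and the inner sum is
`1` if `n = q` and `0` otherwise. -/
theorem m2 (Q q : ℕ) (hq : 1 ≤ q) :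
    ∑ d ∈ (Icc 1 Q).filter (fun d => q ∣ d), lam Q d / d = if q ≤ Q then 1 / (q : ℝ) else 0 := by
  have h1 : ∑ d ∈ (Icc 1 Q).filter (fun d => q ∣ d), lam Q d / d =
      ∑ p ∈ ((Icc 1 Q).filter (fun d => q ∣ d)).sigma (fun d => Icc 1 (Q / d)),
        (ArithmeticFunction.moebius p.2 : ℝ) / (p.1 * p.2) := by
    rw [Finset.sum_sigma]
    refine Finset.sum_congr rfl fun d _ => ?_
    unfold lam
    rw [Finset.sum_div]
    refine Finset.sum_congr rfl fun r _ => ?_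
    rw [div_div, mul_comm (r : ℝ)]
  have h2 : ∑ n ∈ (Icc 1 Q).filter (fun n => q ∣ n), (1 / (n : ℝ)) * ∑ r ∈ (n / q).divisors, (ArithmeticFunction.moebius r : ℝ) =
      ∑ p ∈ ((Icc 1 Q).filter (fun n => q ∣ n)).sigma (fun n => (n / q).divisors),
        (ArithmeticFunction.moebius p.2 : ℝ) / p.1 := by
    rw [Finset.sum_sigma]
    refine Finset.sum_congr rfl fun n _ => ?_
    rw [Finset.mul_sum]
    refine Finset.sum_congr rfl fun r _ => ?_
    ring
  have h3 : ∑ p ∈ ((Icc 1 Q).filter (fun d => q ∣ d)).sigma (fun d => Icc 1 (Q / d)),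
        (ArithmeticFunction.moebius p.2 : ℝ) / (p.1 * p.2) =
      ∑ p ∈ ((Icc 1 Q).filter (fun n => q ∣ n)).sigma (fun n => (n / q).divisors),
        (ArithmeticFunction.moebius p.2 : ℝ) / p.1 := by
    refine Finset.sum_bij' (fun p _ => (⟨p.1 * p.2, p.2⟩ : Σ _ : ℕ, ℕ)) (fun p _ => (⟨p.1 / p.2, p.2⟩ : Σ _ : ℕ, ℕ)) ?_ ?_ ?_ ?_ ?_
    · rintro ⟨d, r⟩ hp
      simp only [mem_sigma, mem_filter, mem_Icc] at hp ⊢
      obtain ⟨⟨⟨h4, h5⟩, h6⟩, h7, h8⟩ := hp
      have h9 : d * r ≤ Q := by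
        rw [mul_comm]
        exact (Nat.le_div_iff_mul_le (by omega)).1 h8
      refine ⟨⟨⟨Nat.mul_pos h4 h7, h9⟩, Dvd.dvd.mul_right h6 r⟩, ?_⟩
      obtain ⟨k, rfl⟩ := h6
      have hk : 0 < k := Nat.pos_of_ne_zero (by rintro rfl; simp at h4)
      rw [mul_assoc, Nat.mul_div_cancel_left _ hq]
      exact Nat.mem_divisors.2 ⟨Dvd.intro_left k rfl, (Nat.mul_pos hk h7).ne'⟩
    · rintro ⟨n, r⟩ hp
      simp only [mem_sigma, mem_filter, mem_Icc] at hp ⊢
      obtain ⟨⟨⟨h4, h5⟩, h6⟩, h7⟩ := hp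
      obtain ⟨k, rfl⟩ := h6
      rw [Nat.mul_div_cancel_left _ hq, Nat.mem_divisors] at h7
      obtain ⟨⟨l, rfl⟩, h8⟩ := h7
      have hr : 0 < r := Nat.pos_of_ne_zero (by rintro rfl; simp at h8)
      have hl : 0 < l := Nat.pos_of_ne_zero (by rintro rfl; simp at h8)
      have h9 : q * (r * l) / r = q * l := by
        rw [show q * (r * l) = r * (q * l) by ring, Nat.mul_div_cancel_left _ hr]
      rw [h9]
      have h10 : q * l * r ≤ Q := by
        rw [show q * l * r = q * (r * l) by ring]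
        exact h5
      have h11 : 0 < q * l := Nat.mul_pos hq hl
      refine ⟨⟨⟨h11, (Nat.le_mul_of_pos_right _ hr).trans h10⟩, Dvd.intro l rfl⟩, hr, ?_⟩
      rw [Nat.le_div_iff_mul_le h11, mul_comm]
      exact h10
    · rintro ⟨d, r⟩ hp
      simp only [mem_sigma, mem_filter, mem_Icc] at hp
      have hr : 0 < r := hp.2.1
      simp only [Nat.mul_div_cancel _ hr]
    · rintro ⟨n, r⟩ hp
      simp only [mem_sigma, mem_filter, mem_Icc, Nat.mem_divisors] at hp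
      obtain ⟨⟨_, h6⟩, h7, _⟩ := hp
      have h8 : r ∣ n := h7.trans (Nat.div_dvd_of_dvd h6)
      simp only [Nat.div_mul_cancel h8]
    · rintro ⟨d, r⟩ _
      simp only
      push_cast
      rfl
  rw [h1, h3, ← h2]
  have h4 : ∀ n ∈ (Icc 1 Q).filter (fun n => q ∣ n), (1 / (n : ℝ)) * ∑ r ∈ (n / q).divisors, (ArithmeticFunction.moebius r : ℝ) =
      if n = q then 1 / (n : ℝ) else 0 := by
    intro n hn
    rw [mem_filter, mem_Icc] at hn
    obtain ⟨⟨h5, h6⟩, k, rfl⟩ := hn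
    have hk : 0 < k := Nat.pos_of_ne_zero (by rintro rfl; simp at h5)
    rw [Nat.mul_div_cancel_left _ hq]
    have h7 : ∑ r ∈ k.divisors, (ArithmeticFunction.moebius r : ℝ) = if k = 1 then 1 else 0 := by
      have h8 : ∑ r ∈ k.divisors, ArithmeticFunction.moebius r = if k = 1 then 1 else 0 := by
        have h9 := congrArg (fun f => f k) ArithmeticFunction.coe_zeta_mul_moebius
        simp only [ArithmeticFunction.coe_zeta_mul_apply, ArithmeticFunction.one_apply] at h9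
        exact h9
      have h10 := congrArg (fun z : ℤ => (z : ℝ)) h8
      push_cast at h10
      exact h10
    rw [h7]
    by_cases hk1 : k = 1
    · subst hk1
      simp
    · rw [if_neg hk1, mul_zero, if_neg]
      intro h
      apply hk1
      have : q * k = q * 1 := by rw [h, mul_one]
      exact Nat.eq_of_mul_eq_mul_left hq this
  rw [Finset.sum_congr rfl h4, Finset.sum_ite_eq']
  by_cases hqQ : q ≤ Q
  · rw [if_pos hqQ, if_pos]
    exact mem_filter.2 ⟨mem_Icc.2 ⟨hq, hqQ⟩, dvd_refl _⟩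
  · rw [if_neg hqQ, if_neg]
    intro h
    exact hqQ (mem_Icc.1 (mem_filter.1 h).1).2

end Pool.Agent.Lib.H21T
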