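import Pool.Agent.Lib.H21T.M1

/-!
# Chunk M3 (S/M): the model at a rational
-/

namespace Pool.Agent.Lib.H21T

open Finset Pool.Agent.SZW

theorem m3_ceil (x d : ℕ) (hd : 1 ≤ d) : ∃ a : ℕ, x ≤ a * d ∧ a * d < x + d ∧ ∀ j, x ≤ j * d ↔ a ≤ j := by
  refine ⟨(x + d - 1) / d, ?_, ?_, fun j => ?_⟩
  · have h1 := Nat.lt_div_mul_add (a := x + d - 1) hd
    omega
  · have h1 := Nat.div_mul_le_self (x + d - 1) d
    omega
  · have e1 : (x + d - 1) / d ≤ j ↔ (x + d - 1) / d < j + 1 := Nat.lt_succ_iff.symm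
    rw [e1, Nat.div_lt_iff_lt_mul hd, Nat.succ_mul]
    omega

theorem m3_nn (d q : ℕ) (p : ℤ) (hq : 1 ≤ q) (hp : IsCoprime p (q : ℤ)) (h : ¬ q ∣ d) :
    1 / (q : ℝ) ≤ nn ((p : ℝ) / q * d) := by
  have hq0 : (0 : ℝ) < q := by exact_mod_cast hq
  unfold nn
  generalize round ((p : ℝ) / q * d) = k
  have e1 : (p : ℝ) / q * d - k = ((p * d - k * q : ℤ) : ℝ) / q := by
    push_cast
    field_simp
  rw [e1, abs_div, abs_of_pos hq0]
  refine div_le_div_of_nonneg_right ?_ hq0.le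
  have h1 : p * d - k * q ≠ 0 := by
    intro h0
    apply h
    have h2 : (q : ℤ) ∣ p * d := ⟨k, by linarith⟩
    have h3 := hp.symm.dvd_of_dvd_mul_left h2
    exact_mod_cast h3
  have h2 := Int.one_le_abs h1
  exact_mod_cast h2

theorem m3_par (x H d : ℕ) (hd : 1 ≤ d) : ∃ a c : ℕ, a ≤ c ∧ |((c : ℝ) - a) - (H : ℝ) / d| ≤ 1 ∧
    ∀ f : ℕ → ℂ, ∑ m ∈ (Ico x (x + H)).filter (fun m => d ∣ m), f m = ∑ j ∈ Ico a c, f (j * d) := by
  obtain ⟨a, ha1, ha2, ha3⟩ := m3_ceil x d hd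
  obtain ⟨c, hc1, hc2, hc3⟩ := m3_ceil (x + H) d hd
  have hac : a ≤ c := (ha3 c).1 (by omega)
  refine ⟨a, c, hac, ?_, fun f => ?_⟩
  · have hd0 : (0 : ℝ) < d := by exact_mod_cast hd
    have h1 : (x : ℝ) ≤ a * d := by exact_mod_cast ha1
    have h2 : (a : ℝ) * d < x + d := by exact_mod_cast ha2
    have h3 : (x : ℝ) + H ≤ c * d := by exact_mod_cast hc1
    have h4 : (c : ℝ) * d < x + H + d := by exact_mod_cast hc2
    have e1 : ((c : ℝ) - a) - (H : ℝ) / d = (c * d - a * d - H) / d := by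
      field_simp
    rw [e1, abs_div, abs_of_pos hd0, div_le_one hd0, abs_le]
    constructor <;> linarith
  · have e1 : (Ico x (x + H)).filter (fun m => d ∣ m) = (Ico a c).image (fun j => j * d) := by
      ext m
      rw [mem_filter, mem_Ico, mem_image]
      constructor
      · rintro ⟨⟨h1, h2⟩, j, rfl⟩
        refine ⟨j, ?_, Nat.mul_comm _ _⟩
        rw [mem_Ico]
        refine ⟨(ha3 j).1 (by rwa [Nat.mul_comm]), ?_⟩
        by_contra hcon
        have h3 := (hc3 j).2 (not_lt.1 hcon)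
        rw [Nat.mul_comm] at h3
        omega
      · rintro ⟨j, hj, rfl⟩
        rw [mem_Ico] at hj
        refine ⟨⟨(ha3 j).2 hj.1, ?_⟩, Dvd.intro_left _ rfl⟩
        by_contra hcon
        have h3 := (hc3 j).1 (not_lt.1 hcon)
        omega
    rw [e1, sum_image]
    intro j _ k _ hjk
    exact Nat.eq_of_mul_eq_mul_right hd hjk

/-- If `q ∣ d` all terms are `1` (`ee_int`: `p m / q` is an integer) and the number of multiples of `d` in the interval is `H / d` up to `1`. If not: `m = d j`,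
`j` in an interval of integers, geometric sum with `nn (p d / q) ≥ 1 / q` (`geom_bound`): norm at most `q / 2`. -/
theorem m3 (x H d q : ℕ) (p : ℤ) (hd : 1 ≤ d) (hq : 1 ≤ q) (hp : IsCoprime p (q : ℤ)) :
    ‖∑ m ∈ (Ico x (x + H)).filter (fun m => d ∣ m), ee ((p : ℝ) / q * m) - (((if q ∣ d then (H : ℝ) / d else 0) : ℝ) : ℂ)‖ ≤ q := by
  have hq0 : (0 : ℝ) < q := by exact_mod_cast hq
  have hq1 : (1 : ℝ) ≤ q := by exact_mod_cast hq
  obtain ⟨a, c, hac, hcount, hpar⟩ := m3_par x H d hd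
  rw [hpar]
  by_cases hqd : q ∣ d
  · rw [if_pos hqd]
    have h1 : ∀ j ∈ Ico a c, ee ((p : ℝ) / q * ((j * d : ℕ) : ℝ)) = 1 := by
      intro j _
      obtain ⟨k, hk⟩ := hqd
      have e1 : (p : ℝ) / q * ((j * d : ℕ) : ℝ) = ((p * (j * k : ℕ) : ℤ) : ℝ) := by
        rw [hk]
        push_cast
        field_simp
      rw [e1, ee_int]
    rw [sum_congr rfl h1, sum_const, Nat.card_Ico, nsmul_eq_mul, mul_one]
    have e2 : ((c - a : ℕ) : ℂ) - (((H : ℝ) / d : ℝ) : ℂ) = ((((c : ℝ) - a) - (H : ℝ) / d : ℝ) : ℂ) := by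
      rw [Nat.cast_sub hac]
      push_cast
      ring
    rw [e2, Complex.norm_real, Real.norm_eq_abs]
    linarith
  · rw [if_neg hqd]
    have e1 : ∑ j ∈ Ico a c, ee ((p : ℝ) / q * ((j * d : ℕ) : ℝ)) =
        ∑ n ∈ Ico (a : ℤ) (c : ℤ), ee ((n : ℝ) * ((p : ℝ) / q * d)) := by
      have e9 : Ico (a : ℤ) (c : ℤ) = (Ico a c).image (fun j : ℕ => (j : ℤ)) := by
        ext n
        rw [mem_Ico, mem_image]
        constructor
        · rintro ⟨h1, h2⟩
          obtain ⟨k, hk⟩ := Int.eq_ofNat_of_zero_le (le_trans (Int.natCast_nonneg a) h1)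
          refine ⟨k, ?_, hk.symm⟩
          rw [mem_Ico]
          omega
        · rintro ⟨k, hk, rfl⟩
          rw [mem_Ico] at hk
          omega
      rw [e9, sum_image]
      · refine sum_congr rfl fun j _ => ?_
        congr 1
        push_cast
        ring
      · intro j _ k _ hjk
        have h8 : (j : ℤ) = (k : ℤ) := hjk
        exact_mod_cast h8
    rw [e1, Complex.ofReal_zero, sub_zero]
    have h1 := geom_bound (a : ℤ) (c : ℤ) ((p : ℝ) / q * d)
    have h2 := m3_nn d q p hq hp hqd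
    generalize ‖∑ n ∈ Ico (a : ℤ) (c : ℤ), ee ((n : ℝ) * ((p : ℝ) / q * d))‖ = M at h1 ⊢
    by_contra hcon
    have h3 : (q : ℝ) < M := not_le.1 hcon
    have h4 : (q : ℝ) * (2 * (1 / q)) ≤ M * (2 * nn ((p : ℝ) / q * d)) := by
      refine mul_le_mul h3.le (by linarith) (by positivity) (by linarith)
    have h5 : (q : ℝ) * (2 * (1 / q)) = 2 := by
      field_simp
    linarith

/-- Exchange the sums over `m` and `d`, `m3` for each `d`, `m1` for the coefficients, `m2` for the main term. -/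
theorem m4 (x H Q q : ℕ) (p : ℤ) (hQ : 1 ≤ Q) (hq : 1 ≤ q) (hp : IsCoprime p (q : ℤ)) :
    ‖∑ m ∈ Ico x (x + H), (gQ Q m : ℂ) * ee ((p : ℝ) / q * m) - (((if q ≤ Q then (H : ℝ) / q else 0) : ℝ) : ℂ)‖ ≤
      Q * (1 + Real.log Q) * q := by
  have e1 : ∑ m ∈ Ico x (x + H), (gQ Q m : ℂ) * ee ((p : ℝ) / q * m) =
      ∑ d ∈ Icc 1 Q, (lam Q d : ℂ) * ∑ m ∈ (Ico x (x + H)).filter (fun m => d ∣ m), ee ((p : ℝ) / q * m) := by
    have e2 : ∀ m ∈ Ico x (x + H), (gQ Q m : ℂ) * ee ((p : ℝ) / q * m) =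
        ∑ d ∈ Icc 1 Q, (if d ∣ m then (lam Q d : ℂ) * ee ((p : ℝ) / q * m) else 0) := by
      intro m _
      unfold gQ
      rw [← sum_filter, ← sum_mul, Complex.ofReal_sum]
    rw [sum_congr rfl e2, sum_comm]
    refine sum_congr rfl fun d _ => ?_
    rw [mul_sum, sum_filter]
  have e3 : (((if q ≤ Q then (H : ℝ) / q else 0) : ℝ) : ℂ) =
      ∑ d ∈ Icc 1 Q, (lam Q d : ℂ) * (((if q ∣ d then (H : ℝ) / d else 0) : ℝ) : ℂ) := by
    have e4 : (if q ≤ Q then (H : ℝ) / q else 0) = ∑ d ∈ Icc 1 Q, lam Q d * (if q ∣ d then (H : ℝ) / d else 0) := by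
      have e5 := m2 Q q hq
      have e6 : ∑ d ∈ Icc 1 Q, lam Q d * (if q ∣ d then (H : ℝ) / d else 0) =
          H * ∑ d ∈ (Icc 1 Q).filter (fun d => q ∣ d), lam Q d / d := by
        rw [mul_sum, sum_filter]
        refine sum_congr rfl fun d _ => ?_
        split_ifs
        · ring
        · ring
      rw [e6, e5]
      split_ifs
      · ring
      · ring
    rw [e4, Complex.ofReal_sum]
    refine sum_congr rfl fun d _ => ?_
    rw [Complex.ofReal_mul]
  rw [e1, e3, ← sum_sub_distrib]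
  have h1 : ∀ d ∈ Icc 1 Q, ‖(lam Q d : ℂ) * ∑ m ∈ (Ico x (x + H)).filter (fun m => d ∣ m), ee ((p : ℝ) / q * m) -
      (lam Q d : ℂ) * (((if q ∣ d then (H : ℝ) / d else 0) : ℝ) : ℂ)‖ ≤ (1 + Real.log Q) * q := by
    intro d hd
    rw [← mul_sub, norm_mul, Complex.norm_real, Real.norm_eq_abs]
    exact mul_le_mul (m1 Q d hQ) (m3 x H d q p (mem_Icc.1 hd).1 hq hp) (norm_nonneg _)
      (add_nonneg zero_le_one (Real.log_nonneg (by exact_mod_cast hQ)))
  refine (norm_sum_le _ _).trans ((sum_le_sum h1).trans (le_of_eq ?_))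
  rw [sum_const, nsmul_eq_mul, Nat.card_Icc, Nat.add_sub_cancel]
  ring

end Pool.Agent.Lib.H21T
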