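import Pool.Agent.Lib.H21T.Defs

/-!
# Chunk M6 (S): freezing
-/

namespace Pool.Agent.Lib.H21T

open Finset Pool.Agent.SZW

theorem m6_ee (s t : ℝ) : ‖ee s - ee t‖ ≤ 2 * Real.pi * |s - t| := by
  have h1 : ee s - ee t = ee t * (ee (s - t) - 1) := by
    rw [mul_sub, ← ee_add, mul_one]
    congr 2
    ring
  rw [h1, norm_mul, norm_ee, one_mul]
  have h2 : ee (s - t) = Complex.exp (Complex.I * ((2 * Real.pi * (s - t) : ℝ) : ℂ)) := by
    unfold ee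
    congr 1
    push_cast
    ring
  rw [h2]
  refine Real.norm_exp_I_mul_ofReal_sub_one_le.trans (le_of_eq ?_)
  rw [Real.norm_eq_abs, abs_mul, abs_of_pos (by positivity : (0 : ℝ) < 2 * Real.pi)]

theorem m6_freeze (x H : ℕ) (θ : ℝ) (m : ℕ) (h1 : x ≤ m) (h2 : m < x + H) :
    ‖ee (θ * m) - ee (θ * x)‖ ≤ 2 * Real.pi * |θ| * H := by
  refine (m6_ee _ _).trans ?_
  have e1 : θ * (m : ℝ) - θ * x = θ * ((m : ℝ) - x) := by ring
  rw [e1, abs_mul]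
  have h3 : |(m : ℝ) - x| ≤ H := by
    have h4 : (x : ℝ) ≤ m := by exact_mod_cast h1
    have h5 : (m : ℝ) < x + H := by exact_mod_cast h2
    rw [abs_le]
    constructor <;> linarith [Nat.cast_nonneg (α := ℝ) H]
  have h4 : |θ| * |(m : ℝ) - x| ≤ |θ| * H := mul_le_mul_of_nonneg_left h3 (abs_nonneg _)
  calc 2 * Real.pi * (|θ| * |(m : ℝ) - x|) ≤ 2 * Real.pi * (|θ| * H) :=
        mul_le_mul_of_nonneg_left h4 (by positivity)
    _ = 2 * Real.pi * |θ| * H := by ring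

/-- `‖ee (θ m) - ee (θ x)‖ ≤ 2 π |θ| H` for `x ≤ m < x + H`; `ee ((β + θ) m) = ee (β m) ee (θ m)`; `|l m - L| ≤ ε`, `|g m| ≤ B`, `|L| ≤ 1`. -/
theorem m6 (x H : ℕ) (β θ L ε B : ℝ) (l g : ℕ → ℝ) (hL : |L| ≤ 1) (hε : 0 ≤ ε) (hB : 0 ≤ B)
    (hl : ∀ m, x ≤ m → m < x + H → |l m - L| ≤ ε) (hg : ∀ m, x ≤ m → m < x + H → |g m| ≤ B) :
    ‖∑ m ∈ Ico x (x + H), ((l m * g m : ℝ) : ℂ) * ee ((β + θ) * m) -
      (L : ℂ) * ee (θ * x) * ∑ m ∈ Ico x (x + H), (g m : ℂ) * ee (β * m)‖ ≤ H * B * (ε + 2 * Real.pi * |θ| * H) := by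
  rw [mul_sum, ← sum_sub_distrib]
  have h1 : ∀ m ∈ Ico x (x + H), ‖((l m * g m : ℝ) : ℂ) * ee ((β + θ) * m) -
      (L : ℂ) * ee (θ * x) * ((g m : ℂ) * ee (β * m))‖ ≤ B * (ε + 2 * Real.pi * |θ| * H) := by
    intro m hm
    rw [mem_Ico] at hm
    have e1 : ((l m * g m : ℝ) : ℂ) * ee ((β + θ) * m) - (L : ℂ) * ee (θ * x) * ((g m : ℂ) * ee (β * m)) =
        (g m : ℂ) * ee (β * m) * (((l m - L : ℝ) : ℂ) * ee (θ * m) + (L : ℂ) * (ee (θ * m) - ee (θ * x))) := by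
      have e2 : ee ((β + θ) * m) = ee (β * m) * ee (θ * m) := by
        rw [← ee_add]
        congr 1
        ring
      rw [e2]
      push_cast
      ring
    rw [e1, norm_mul, norm_mul, norm_ee, mul_one, Complex.norm_real, Real.norm_eq_abs]
    have h2 : ‖((l m - L : ℝ) : ℂ) * ee (θ * m) + (L : ℂ) * (ee (θ * m) - ee (θ * x))‖ ≤
        ε + 2 * Real.pi * |θ| * H := by
      refine (norm_add_le _ _).trans (add_le_add ?_ ?_)
      · rw [norm_mul, norm_ee, mul_one, Complex.norm_real, Real.norm_eq_abs]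
        exact hl m hm.1 hm.2
      · rw [norm_mul, Complex.norm_real, Real.norm_eq_abs]
        calc |L| * ‖ee (θ * m) - ee (θ * x)‖ ≤ 1 * (2 * Real.pi * |θ| * H) :=
              mul_le_mul hL (m6_freeze x H θ m hm.1 hm.2) (norm_nonneg _) zero_le_one
          _ = 2 * Real.pi * |θ| * H := one_mul _
    exact mul_le_mul (hg m hm.1 hm.2) h2 (norm_nonneg _) hB
  refine (norm_sum_le _ _).trans ((sum_le_sum h1).trans (le_of_eq ?_))
  rw [sum_const, nsmul_eq_mul, Nat.card_Ico, Nat.add_sub_cancel_left]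
  ring

/-- The same for the pairs: `‖ee (θ a b) - ee (θ x)‖ ≤ 2 π |θ| H`. -/
theorem m6_SR (A1 A2 x H : ℕ) (hA : 1 ≤ A1) (β θ : ℝ) :
    ‖SR (β + θ) A1 A2 x H - ee (θ * x) * SR β A1 A2 x H‖ ≤ (Rg A1 A2 x H).card * (2 * Real.pi * |θ| * H) := by
  unfold SR
  rw [mul_sum, ← sum_sub_distrib]
  have h1 : ∀ p ∈ Rg A1 A2 x H, ‖ee ((β + θ) * ((p.1 : ℝ) * p.2)) - ee (θ * x) * ee (β * ((p.1 : ℝ) * p.2))‖ ≤
      2 * Real.pi * |θ| * H := by
    intro p hp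
    obtain ⟨_, _, h3, h4⟩ := (mem_Rg hA).1 hp
    have e1 : ee ((β + θ) * ((p.1 : ℝ) * p.2)) - ee (θ * x) * ee (β * ((p.1 : ℝ) * p.2)) =
        ee (β * ((p.1 : ℝ) * p.2)) * (ee (θ * ((p.1 * p.2 : ℕ) : ℝ)) - ee (θ * x)) := by
      have e2 : ee ((β + θ) * ((p.1 : ℝ) * p.2)) = ee (β * ((p.1 : ℝ) * p.2)) * ee (θ * ((p.1 * p.2 : ℕ) : ℝ)) := by
        rw [← ee_add]
        congr 1
        push_cast
        ring
      rw [e2]
      ring
    rw [e1, norm_mul, norm_ee, one_mul]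
    exact m6_freeze x H θ _ h3 h4
  refine (norm_sum_le _ _).trans ((sum_le_sum h1).trans (le_of_eq ?_))
  rw [sum_const, nsmul_eq_mul]

end Pool.Agent.Lib.H21T
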