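import Pool.Agent.Lib.H21T.M1

/-!
# Chunk M7 (S/M): the model away from rationals
-/

namespace Pool.Agent.Lib.H21T

open Finset Pool.Agent.SZW

/-- the sum over the multiples of `d` in an interval -/
theorem m7_mult (x H d : ℕ) (α : ℝ) (hd : 1 ≤ d) :
    ∃ a c : ℤ, ∑ m ∈ (Ico x (x + H)).filter (fun m => d ∣ m), ee (α * m) = ∑ n ∈ Finset.Ico a c, ee (n * (d * α)) := by
  refine ⟨((x + d - 1) / d : ℕ), ((x + H + d - 1) / d : ℕ), ?_⟩
  symm
  refine Finset.sum_bij (fun (n : ℤ) _ => (d * n).toNat) ?_ ?_ ?_ ?_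
  · intro n hn
    rw [Finset.mem_Ico] at hn
    obtain ⟨k, hk⟩ := Int.eq_ofNat_of_zero_le (le_trans (Nat.cast_nonneg _) hn.1)
    subst hk
    have h1 : (x + d - 1) / d ≤ k := by exact_mod_cast hn.1
    have h2 : k < (x + H + d - 1) / d := by exact_mod_cast hn.2
    have h3 : ((d : ℤ) * (k : ℤ)).toNat = d * k := by
      rw [← Nat.cast_mul]
      exact Int.toNat_natCast _
    show ((d : ℤ) * (k : ℤ)).toNat ∈ _
    rw [h3, mem_filter, mem_Ico]
    refine ⟨⟨?_, ?_⟩, Dvd.intro k rfl⟩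
    · have h4 : x + d - 1 < d * (k + 1) := by
        have h5 : (x + d - 1) / d < k + 1 := by omega
        rw [mul_comm]
        exact (Nat.div_lt_iff_lt_mul (by omega)).1 h5
      rw [mul_add, mul_one] at h4
      omega
    · have h4 : (k + 1) * d ≤ x + H + d - 1 := (Nat.le_div_iff_mul_le (by omega)).1 h2
      rw [add_mul, one_mul, mul_comm] at h4
      omega
  · intro n hn n' hn' h
    rw [Finset.mem_Ico] at hn hn'
    have h0 : 0 ≤ n := le_trans (Nat.cast_nonneg _) hn.1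
    have h0' : 0 ≤ n' := le_trans (Nat.cast_nonneg _) hn'.1
    have hd0 : (0 : ℤ) < d := by exact_mod_cast hd
    have h1 : (d : ℤ) * n = d * n' := by
      have h2 : (((d * n).toNat : ℕ) : ℤ) = (((d * n').toNat : ℕ) : ℤ) := congrArg (fun z : ℕ => (z : ℤ)) h
      rwa [Int.toNat_of_nonneg (by positivity), Int.toNat_of_nonneg (by positivity)] at h2
    exact mul_left_cancel₀ hd0.ne' h1
  · intro m hm
    rw [mem_filter, mem_Ico] at hm
    obtain ⟨⟨h1, h2⟩, k, rfl⟩ := hm
    refine ⟨(k : ℤ), ?_, ?_⟩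
    · rw [Finset.mem_Ico]
      constructor
      · have h3 : (x + d - 1) / d < k + 1 := by
          rw [Nat.div_lt_iff_lt_mul (by omega)]
          rw [add_mul, one_mul, mul_comm]
          omega
        exact_mod_cast Nat.lt_succ_iff.1 h3
      · have h3 : k + 1 ≤ (x + H + d - 1) / d := by
          rw [Nat.le_div_iff_mul_le (by omega), add_mul, one_mul, mul_comm]
          omega
        exact_mod_cast h3
    · rw [← Nat.cast_mul]
      exact Int.toNat_natCast _
  · intro n hn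
    rw [Finset.mem_Ico] at hn
    have h0 : 0 ≤ n := le_trans (Nat.cast_nonneg _) hn.1
    have h1 : (((d * n).toNat : ℕ) : ℝ) = (d : ℝ) * n := by
      have h2 : (((d * n).toNat : ℕ) : ℤ) = d * n := Int.toNat_of_nonneg (by positivity)
      exact_mod_cast congrArg (fun z : ℤ => (z : ℝ)) h2
    rw [h1]
    congr 1
    ring

/-- `m = d j` with `j` in an interval of integers; `geom_bound` for `d α`; `m1`. -/
theorem m7 (x H Q : ℕ) (α c : ℝ) (hQ : 1 ≤ Q) (hc : 0 < c) (hα : ∀ d : ℕ, 1 ≤ d → d ≤ Q → c ≤ nn (d * α)) :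
    ‖∑ m ∈ Ico x (x + H), (gQ Q m : ℂ) * ee (α * m)‖ ≤ Q * (1 + Real.log Q) / (2 * c) := by
  have h1 : ∑ m ∈ Ico x (x + H), (gQ Q m : ℂ) * ee (α * m) =
      ∑ d ∈ Icc 1 Q, (lam Q d : ℂ) * ∑ m ∈ (Ico x (x + H)).filter (fun m => d ∣ m), ee (α * m) := by
    simp only [gQ, Finset.sum_filter, Complex.ofReal_sum, Finset.sum_mul, Finset.mul_sum]
    rw [Finset.sum_comm]
    refine Finset.sum_congr rfl fun d _ => Finset.sum_congr rfl fun m _ => ?_
    by_cases h : d ∣ m
    · rw [if_pos h, if_pos h]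
    · rw [if_neg h, if_neg h, Complex.ofReal_zero, zero_mul, mul_zero]
  rw [h1]
  have hlog : 0 ≤ 1 + Real.log Q := by
    have : 0 ≤ Real.log Q := Real.log_natCast_nonneg Q
    linarith
  have h2 : ∀ d ∈ Icc 1 Q, ‖(lam Q d : ℂ) * ∑ m ∈ (Ico x (x + H)).filter (fun m => d ∣ m), ee (α * m)‖ ≤
      (1 + Real.log Q) * (1 / (2 * c)) := by
    intro d hd
    rw [mem_Icc] at hd
    rw [norm_mul]
    refine mul_le_mul ?_ ?_ (norm_nonneg _) hlog
    · rw [Complex.norm_real, Real.norm_eq_abs]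
      exact m1 Q d hQ
    · obtain ⟨a, b, hab⟩ := m7_mult x H d α hd.1
      rw [hab]
      have h3 := geom_bound a b (d * α)
      have h4 := hα d hd.1 hd.2
      rw [le_div_iff₀ (by positivity)]
      refine le_trans ?_ h3
      exact mul_le_mul_of_nonneg_left (by linarith) (norm_nonneg _)
  refine (norm_sum_le _ _).trans ((Finset.sum_le_sum h2).trans ?_)
  rw [Finset.sum_const, Nat.card_Icc, nsmul_eq_mul]
  apply le_of_eq
  push_cast [Nat.add_sub_cancel]
  ring

end Pool.Agent.Lib.H21T
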