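import Pool.Agent.Lib.H21T.S4

/-!
# Chunk Z1 (M): the condition on b becomes a condition on a
-/

namespace Pool.Agent.Lib.H21T

open Finset Pool.Agent.SZW

/-- Both sides are sums of `ee (α a b)`: over `X = {A1 ≤ a < A2, B1 ≤ b < B2, x ≤ a b < x + H}` (`∑_m dbox m ee (α m)`, fibres over `m = a b`) and over `Y = Rg A1' A2' x H`.
`X \ Y`: for `(a, b) ∈ X`, `a B2 > a b ≥ x`, so `a ≥ x / B2 + 1` (natural division); so `a ≥ x / B1 + 1`, i.e. `a B1 > x`, and `a B1 ≤ a b < x + H`: at most `H / B1 + 1` values of `a`, each (`a ≥ A1`) for at most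
`H / A1 + 1` values of `b`. `Y \ X`: `b < B1` is impossible (`a ≤ x / B1` gives `a B1 ≤ x ≤ a b`), so `b ≥ B2`, and `x < a B2 ≤ a b < x + H`: again at most `H / B2 + 1 ≤ H / B1 + 1` values of `a`. -/
theorem z1 (A1 A2 B1 B2 x H : ℕ) (α : ℝ) (hA : 1 ≤ A1) (hB : 1 ≤ B1) (hB2 : B1 ≤ B2) (hx : 1 ≤ x) :
    ‖∑ m ∈ Ico x (x + H), (dbox A1 A2 B1 B2 m : ℂ) * ee (α * m) - SR α (max A1 (x / B2 + 1)) (min A2 (x / B1 + 1)) x H‖ ≤
      2 * (((H : ℝ) / B1 + 1) * ((H : ℝ) / A1 + 1)) := by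
  classical
  set f : ℕ × ℕ → ℂ := fun p => ee (α * ((p.1 : ℝ) * p.2)) with hf
  set X : Finset (ℕ × ℕ) := ((Ico A1 A2) ×ˢ (Ico B1 B2)).filter fun p => x ≤ p.1 * p.2 ∧ p.1 * p.2 < x + H with hX
  set A1' := max A1 (x / B2 + 1) with hA1'
  set A2' := min A2 (x / B1 + 1) with hA2'
  have hB2' : 0 < B2 := by omega
  have hmX : ∀ p : ℕ × ℕ, p ∈ X ↔ A1 ≤ p.1 ∧ p.1 < A2 ∧ B1 ≤ p.2 ∧ p.2 < B2 ∧ x ≤ p.1 * p.2 ∧ p.1 * p.2 < x + H := by
    intro p
    rw [hX, mem_filter, mem_product, mem_Ico, mem_Ico]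
    tauto
  have hA1pos : 1 ≤ A1' := by omega
  have h1 : ∑ m ∈ Ico x (x + H), (dbox A1 A2 B1 B2 m : ℂ) * ee (α * m) = ∑ p ∈ X, f p := by
    rw [← Finset.sum_fiberwise_of_maps_to (s := X) (t := Ico x (x + H)) (g := fun p : ℕ × ℕ => p.1 * p.2)
      (fun p hp => by
        have := (hmX p).1 hp
        rw [mem_Ico]
        exact ⟨this.2.2.2.2.1, this.2.2.2.2.2⟩)]
    refine Finset.sum_congr rfl fun m hm => ?_
    rw [mem_Ico] at hm
    have h2 : (X.filter fun p => p.1 * p.2 = m) = ((Ico A1 A2) ×ˢ (Ico B1 B2)).filter fun p => p.1 * p.2 = m := by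
      rw [hX, Finset.filter_filter]
      refine Finset.filter_congr fun p _ => ?_
      constructor
      · rintro ⟨_, h⟩
        exact h
      · intro h
        rw [h]
        exact ⟨hm, rfl⟩
    rw [h2]
    have h3 : ∀ p ∈ ((Ico A1 A2) ×ˢ (Ico B1 B2)).filter fun p => p.1 * p.2 = m, f p = ee (α * m) := by
      intro p hp
      rw [mem_filter] at hp
      show ee (α * ((p.1 : ℝ) * p.2)) = _
      rw [← hp.2]
      push_cast
      rfl
    rw [Finset.sum_congr rfl h3, Finset.sum_const, nsmul_eq_mul]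
    rfl
  have hSR : SR α A1' A2' x H = ∑ p ∈ Rg A1' A2' x H, f p := rfl
  rw [h1, hSR, ← Finset.sum_sdiff_sub_sum_sdiff]
  have hcard : ∀ (B : ℕ) (U : Finset (ℕ × ℕ)), B1 ≤ B → 1 ≤ B →
      (∀ p ∈ U, p ∈ Rg A1 A2 x H ∧ x ≤ B * p.1 ∧ B * p.1 < x + H) →
      (U.card : ℝ) ≤ ((H : ℝ) / B1 + 1) * ((H : ℝ) / A1 + 1) := by
    intro B U hB1 hBpos hU
    set T := (range (x + H)).filter fun a => x ≤ B * a ∧ B * a < x + H with hT
    have h2 := s4_card (A := A1) (A1 := A1) (A2 := A2) (x := x) (H := H) hA le_rfl T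
    have h3 : U ⊆ (Rg A1 A2 x H).filter fun p => p.1 ∈ T := by
      intro p hp
      obtain ⟨h4, h5, h6⟩ := hU p hp
      rw [mem_filter]
      refine ⟨h4, ?_⟩
      rw [hT, mem_filter, mem_range]
      refine ⟨?_, h5, h6⟩
      have : p.1 ≤ B * p.1 := Nat.le_mul_of_pos_left _ (by omega)
      omega
    have h4 : (T.card : ℝ) ≤ (H : ℝ) / B + 1 := s4_fib x H B hBpos
    have h5 : (H : ℝ) / B ≤ (H : ℝ) / B1 := by
      have hb1 : (0 : ℝ) < B1 := by exact_mod_cast hB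
      have hb2 : (B1 : ℝ) ≤ B := by exact_mod_cast hB1
      exact div_le_div_of_nonneg_left (Nat.cast_nonneg H) hb1 hb2
    have h6 : (U.card : ℝ) ≤ (((Rg A1 A2 x H).filter fun p => p.1 ∈ T).card : ℝ) := by
      exact_mod_cast Finset.card_le_card h3
    have h7 : (0 : ℝ) ≤ (H : ℝ) / A1 + 1 := by positivity
    calc (U.card : ℝ) ≤ T.card * ((H : ℝ) / A1 + 1) := h6.trans h2
      _ ≤ ((H : ℝ) / B1 + 1) * ((H : ℝ) / A1 + 1) := mul_le_mul_of_nonneg_right (by linarith) h7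
  have hnorm : ∀ U : Finset (ℕ × ℕ), ‖∑ p ∈ U, f p‖ ≤ U.card := by
    intro U
    refine (norm_sum_le _ _).trans ?_
    have h2 : ∀ p ∈ U, ‖f p‖ ≤ 1 := fun p _ => (norm_ee _).le
    refine (Finset.sum_le_sum h2).trans ?_
    rw [Finset.sum_const, nsmul_eq_mul, mul_one]
  have hXY : ((X \ Rg A1' A2' x H).card : ℝ) ≤ ((H : ℝ) / B1 + 1) * ((H : ℝ) / A1 + 1) := by
    refine hcard B1 _ le_rfl hB fun p hp => ?_
    rw [mem_sdiff, hmX, mem_Rg hA1pos] at hp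
    obtain ⟨⟨h2, h3, h4, h5, h6, h7⟩, h8⟩ := hp
    have h9 : p.1 * B1 ≤ p.1 * p.2 := Nat.mul_le_mul_left _ h4
    have h10 : p.1 * p.2 < p.1 * B2 := Nat.mul_lt_mul_of_pos_left h5 (by omega)
    have h11 : x / B2 < p.1 := (Nat.div_lt_iff_lt_mul hB2').2 (by omega)
    have h12 : x / B1 < p.1 := by
      by_contra hcon
      apply h8
      refine ⟨?_, ?_, h6, h7⟩ <;> omega
    have h13 : x < p.1 * B1 := (Nat.div_lt_iff_lt_mul (by omega)).1 h12
    refine ⟨(mem_Rg hA).2 ⟨h2, h3, h6, h7⟩, ?_, ?_⟩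
    · rw [mul_comm]
      omega
    · rw [mul_comm]
      omega
  have hYX : ((Rg A1' A2' x H \ X).card : ℝ) ≤ ((H : ℝ) / B1 + 1) * ((H : ℝ) / A1 + 1) := by
    refine hcard B2 _ hB2 hB2' fun p hp => ?_
    rw [mem_sdiff, hmX, mem_Rg hA1pos] at hp
    obtain ⟨⟨h2, h3, h6, h7⟩, h8⟩ := hp
    have h4 : A1 ≤ p.1 := by omega
    have h5 : p.1 < A2 := by omega
    have h9 : p.1 ≤ x / B1 := by omega
    have h10 : p.1 * B1 ≤ x := (Nat.le_div_iff_mul_le (by omega)).1 h9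
    have h11 : x / B2 < p.1 := by omega
    have h12 : x < p.1 * B2 := (Nat.div_lt_iff_lt_mul hB2').1 h11
    have h13 : B1 ≤ p.2 := by
      by_contra hcon
      have h14 : p.1 * p.2 < p.1 * B1 := Nat.mul_lt_mul_of_pos_left (not_le.1 hcon) (by omega)
      omega
    have h14 : B2 ≤ p.2 := by
      by_contra hcon
      exact h8 ⟨h4, h5, h13, not_le.1 hcon, h6, h7⟩
    have h15 : p.1 * B2 ≤ p.1 * p.2 := Nat.mul_le_mul_left _ h14
    refine ⟨(mem_Rg hA).2 ⟨h4, h5, h6, h7⟩, ?_, ?_⟩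
    · rw [mul_comm]
      omega
    · rw [mul_comm]
      omega
  refine (norm_sub_le _ _).trans ?_
  have h2 := hnorm (X \ Rg A1' A2' x H)
  have h3 := hnorm (Rg A1' A2' x H \ X)
  linarith

end Pool.Agent.Lib.H21T
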