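import Pool.Agent.Lib.H21T.S8
import Pool.Agent.Lib.H21T.G1

/-!
# Chunk S9 (M): choice of the parameters
-/

namespace Pool.Agent.Lib.H21T

open Finset Pool.Agent.SZW

theorem s9_pw (u : ℝ) {a b c : ℕ} (h : a + b = c) : u ^ a * u ^ b = u ^ c := by
  rw [← pow_add, h]

theorem s9_inv {u : ℝ} (hu : 0 < u) {a b c : ℕ} (h : a + c = b) : u⁻¹ ^ a * u ^ b = u ^ c := by
  subst h
  rw [pow_add, ← mul_assoc, ← mul_pow, inv_mul_cancel₀ hu.ne', one_pow, one_mul]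

theorem s9_floor {y : ℝ} (hy : 1 ≤ y) : y ≤ 2 * (⌊y⌋₊ : ℝ) := by
  have h1 : y < (⌊y⌋₊ : ℝ) + 1 := Nat.lt_floor_add_one y
  have h2 : (1 : ℝ) ≤ (⌊y⌋₊ : ℝ) := by
    have : 1 ≤ ⌊y⌋₊ := by
      rw [Nat.one_le_floor_iff]
      exact hy
    exact_mod_cast this
  linarith

theorem s9_one {u : ℝ} (hu : 1 ≤ u) (n : ℕ) : 1 ≤ u ^ n := one_le_pow₀ hu

/-- `hD` -/
theorem s9_hD {u A S H K X D : ℝ} (hu : 100 ≤ u) (hA0 : 0 < A) (hS0 : 0 < S) (hH0 : 0 ≤ H) (hK0 : 0 ≤ K) (hX0 : 0 ≤ X)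
    (hA2 : A ≤ u ^ 10000) (hHA : H ≤ 3 * A) (hS1 : S ≤ u ^ 2500) (hS2 : u ^ 2500 ≤ 2 * S) (hX2 : X ≤ 5 * u ^ 2)
    (hK1 : K ≤ u ^ 2495) (hD : 9 * u ^ 9995 ≤ D) :
    K * (4 * A / S + S * H / A) + 2 * K ^ 2 * S ^ 2 * X ≤ D := by
  have hu0 : (0 : ℝ) ≤ u := by linarith
  have e1 : 4 * A / S ≤ 8 * u ^ 7500 := by
    rw [div_le_iff₀ hS0]
    have e : u ^ 7500 * u ^ 2500 = u ^ 10000 := s9_pw u (by norm_num)
    have e' : u ^ 7500 * u ^ 2500 ≤ u ^ 7500 * (2 * S) := mul_le_mul_of_nonneg_left hS2 (pow_nonneg hu0 _)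
    rw [e] at e'
    nlinarith [e', hA2]
  have e2 : S * H / A ≤ 3 * u ^ 2500 := by
    rw [div_le_iff₀ hA0]
    calc S * H ≤ u ^ 2500 * (3 * A) := mul_le_mul hS1 hHA hH0 (pow_nonneg hu0 _)
      _ = 3 * u ^ 2500 * A := by ring
  have e3 : K * (4 * A / S + S * H / A) ≤ u ^ 2495 * (8 * u ^ 7500 + 3 * u ^ 2500) :=
    mul_le_mul hK1 (add_le_add e1 e2) (by positivity) (pow_nonneg hu0 _)
  have e4 : K ^ 2 ≤ u ^ 4990 := by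
    calc K ^ 2 ≤ (u ^ 2495) ^ 2 := pow_le_pow_left₀ hK0 hK1 2
      _ = u ^ 4990 := by rw [← pow_mul]
  have e5 : S ^ 2 ≤ u ^ 5000 := by
    calc S ^ 2 ≤ (u ^ 2500) ^ 2 := pow_le_pow_left₀ hS0.le hS1 2
      _ = u ^ 5000 := by rw [← pow_mul]
  have e6 : K ^ 2 * S ^ 2 * X ≤ u ^ 4990 * u ^ 5000 * (5 * u ^ 2) :=
    mul_le_mul (mul_le_mul e4 e5 (by positivity) (pow_nonneg hu0 _)) hX2 hX0 (by positivity)
  have p1 : u ^ 2495 * u ^ 7500 = u ^ 9995 := s9_pw u (by norm_num)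
  have p2 : u ^ 2495 * u ^ 2500 = u ^ 4995 := s9_pw u (by norm_num)
  have p3 : u ^ 4990 * u ^ 5000 = u ^ 9990 := s9_pw u (by norm_num)
  have p4 : u ^ 9990 * u ^ 2 = u ^ 9992 := s9_pw u (by norm_num)
  have p5 : u ^ 9992 * u ^ 3 = u ^ 9995 := s9_pw u (by norm_num)
  have p6 : u ^ 4995 ≤ u ^ 9992 := pow_le_pow_right₀ (by linarith) (by norm_num)
  have p7 : (13 : ℝ) ≤ u ^ 3 := by
    calc (13 : ℝ) ≤ 100 ^ 3 := by norm_num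
      _ ≤ u ^ 3 := pow_le_pow_left₀ (by norm_num) hu 3
  have p8 : 13 * u ^ 9992 ≤ u ^ 9995 := by
    rw [← p5, mul_comm (u ^ 9992)]
    exact mul_le_mul_of_nonneg_right p7 (pow_nonneg hu0 _)
  have e7 : u ^ 2495 * (8 * u ^ 7500 + 3 * u ^ 2500) = 8 * u ^ 9995 + 3 * u ^ 4995 := by
    rw [← p1, ← p2]; ring
  have e8 : u ^ 4990 * u ^ 5000 * (5 * u ^ 2) = 5 * u ^ 9992 := by
    rw [p3, ← p4]; ring
  rw [e7] at e3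
  rw [e8] at e6
  have e9 : 2 * K ^ 2 * S ^ 2 * X = 2 * (K ^ 2 * S ^ 2 * X) := by ring
  rw [e9]
  linarith

/-- `n1` -/
theorem s9_n1 {u δ A R Λ K S τ D h : ℝ} (hu : 2880 ≤ u) (hR0 : 0 ≤ R) (hR : R ≤ 4) (hA2 : A ≤ u ^ 10000)
    (hδ : δ = u⁻¹ ^ 3) (hΛ0 : 0 < Λ) (hΛ : A ≤ 16 * u ^ 5002 * Λ) (hK0 : 0 ≤ K) (hS0 : 0 ≤ S) (hK1 : K ≤ u ^ 2495)
    (hS1 : S ≤ u ^ 2500) (hτ : τ ≤ u) (hD0 : 0 ≤ D) (hD : D ≤ 10 * u ^ 9995) (hh : u ^ 9998 / 16 ≤ h) :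
    δ * (A * R) + 2 * ((A / Λ + 1) * (K * S * R)) + 4 * τ * D ≤ h := by
  have hu0 : (0 : ℝ) < u := by linarith
  have e1 : δ * (A * R) ≤ 4 * u ^ 9997 := by
    have : δ * (A * R) ≤ u⁻¹ ^ 3 * (u ^ 10000 * 4) := by
      rw [hδ]
      exact mul_le_mul_of_nonneg_left (mul_le_mul hA2 hR hR0 (by positivity)) (by positivity)
    have e : u⁻¹ ^ 3 * u ^ 10000 = u ^ 9997 := s9_inv hu0 (by norm_num)
    calc _ ≤ _ := this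
      _ = (u⁻¹ ^ 3 * u ^ 10000) * 4 := by ring
      _ = 4 * u ^ 9997 := by rw [e]; ring
  have e2 : A / Λ + 1 ≤ 17 * u ^ 5002 := by
    have : A / Λ ≤ 16 * u ^ 5002 := by
      rw [div_le_iff₀ hΛ0]; exact hΛ
    have h1 : 1 ≤ u ^ 5002 := s9_one (by linarith) _
    linarith
  have e3 : K * S * R ≤ u ^ 2495 * u ^ 2500 * 4 :=
    mul_le_mul (mul_le_mul hK1 hS1 hS0 (by positivity)) hR hR0 (by positivity)
  have e4 : (A / Λ + 1) * (K * S * R) ≤ 17 * u ^ 5002 * (u ^ 2495 * u ^ 2500 * 4) :=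
    mul_le_mul e2 e3 (by positivity) (by positivity)
  have p1 : u ^ 2495 * u ^ 2500 = u ^ 4995 := s9_pw u (by norm_num)
  have p2 : u ^ 5002 * u ^ 4995 = u ^ 9997 := s9_pw u (by norm_num)
  have e5 : 17 * u ^ 5002 * (u ^ 2495 * u ^ 2500 * 4) = 68 * u ^ 9997 := by
    rw [p1, ← p2]; ring
  have p3 : u ^ 1 * u ^ 9995 = u ^ 9996 := s9_pw u (by norm_num)
  have e6 : 4 * τ * D ≤ 40 * u ^ 9996 := by
    calc 4 * τ * D ≤ 4 * u * (10 * u ^ 9995) := mul_le_mul (by linarith) hD hD0 (by positivity)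
      _ = 40 * (u ^ 1 * u ^ 9995) := by ring
      _ = 40 * u ^ 9996 := by rw [p3]
  have p4 : u ^ 9996 ≤ u ^ 9997 := pow_le_pow_right₀ (by linarith) (by norm_num)
  have p5 : u ^ 1 * u ^ 9997 = u ^ 9998 := s9_pw u (by norm_num)
  have p6 : 2880 * u ^ 9997 ≤ u ^ 9998 := by
    rw [← p5, pow_one]
    exact mul_le_mul_of_nonneg_right hu (by positivity)
  rw [e5] at e4
  linarith

/-- `n2` -/
theorem s9_n2 {u R Λ X s0 S h : ℝ} (hu : 744960 ≤ u) (hR0 : 0 ≤ R) (hR : R ≤ 4) (hΛ0 : 0 < Λ) (hΛ : Λ ≤ 4 * u ^ 5000)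
    (hX : X ≤ 5 * u ^ 2) (hs0 : 0 ≤ s0) (hs1 : s0 ≤ u ^ 2495) (hS0 : 0 ≤ S) (hS1 : S ≤ u ^ 2500)
    (hh : u ^ 9998 / 16 ≤ h) :
    582 * X * s0 * S * (Λ * R) ≤ h := by
  have hu0 : (0 : ℝ) < u := by linarith
  have e1 : 582 * X * s0 * S * (Λ * R) ≤ 582 * (5 * u ^ 2) * u ^ 2495 * u ^ 2500 * (4 * u ^ 5000 * 4) :=
    mul_le_mul (mul_le_mul (mul_le_mul (by linarith) hs1 hs0 (by positivity)) hS1 hS0 (by positivity))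
      (mul_le_mul hΛ hR hR0 (by positivity)) (by positivity) (by positivity)
  have p1 : u ^ 2 * u ^ 2495 = u ^ 2497 := s9_pw u (by norm_num)
  have p2 : u ^ 2497 * u ^ 2500 = u ^ 4997 := s9_pw u (by norm_num)
  have p3 : u ^ 4997 * u ^ 5000 = u ^ 9997 := s9_pw u (by norm_num)
  have e2 : 582 * (5 * u ^ 2) * u ^ 2495 * u ^ 2500 * (4 * u ^ 5000 * 4) = 46560 * u ^ 9997 := by
    rw [← p3, ← p2, ← p1]; ring
  have p5 : u ^ 1 * u ^ 9997 = u ^ 9998 := s9_pw u (by norm_num)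
  have p6 : 744960 * u ^ 9997 ≤ u ^ 9998 := by
    rw [← p5, pow_one]
    exact mul_le_mul_of_nonneg_right hu (by positivity)
  rw [e2] at e1
  linarith

/-- `n3` -/
theorem s9_n3 {u η R Λ X s0 S h : ℝ} (hu : 988160 ≤ u) (hη : η = u⁻¹ ^ 10) (hR0 : 0 ≤ R) (hR : R ≤ 4) (hΛ0 : 0 < Λ)
    (hΛ : Λ ≤ 4 * u ^ 5000)
    (hX0 : 0 ≤ X) (hX : X ≤ 5 * u ^ 2) (hs0 : 0 < s0) (hs1 : u ^ 2495 ≤ 2 * s0) (hS0 : 0 ≤ S) (hS1 : S ≤ u ^ 2500)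
    (hh : u ^ 9998 / 16 ≤ h) :
    η * (S * (2 * X * S)) * (2 * (96 * S / s0 + 1)) * (Λ * R) ≤ h := by
  have hu0 : (0 : ℝ) < u := by linarith
  have hη0 : 0 < η := by rw [hη]; positivity
  have e1 : S * (2 * X * S) ≤ u ^ 2500 * (2 * (5 * u ^ 2) * u ^ 2500) :=
    mul_le_mul hS1 (mul_le_mul (by linarith) hS1 hS0 (by positivity)) (by positivity) (by positivity)
  have q1 : u ^ 5 * u ^ 2495 = u ^ 2500 := s9_pw u (by norm_num)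
  have e2 : 96 * S / s0 ≤ 192 * u ^ 5 := by
    rw [div_le_iff₀ hs0]
    have : u ^ 5 * u ^ 2495 ≤ u ^ 5 * (2 * s0) := mul_le_mul_of_nonneg_left hs1 (by positivity)
    rw [q1] at this
    linarith
  have e3 : 2 * (96 * S / s0 + 1) ≤ 386 * u ^ 5 := by
    have : 1 ≤ u ^ 5 := s9_one (by linarith) _
    linarith
  have e4 : η * (S * (2 * X * S)) ≤ η * (u ^ 2500 * (2 * (5 * u ^ 2) * u ^ 2500)) :=
    mul_le_mul_of_nonneg_left e1 hη0.le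
  have e5 : η * (S * (2 * X * S)) * (2 * (96 * S / s0 + 1)) * (Λ * R) ≤
      η * (u ^ 2500 * (2 * (5 * u ^ 2) * u ^ 2500)) * (386 * u ^ 5) * (4 * u ^ 5000 * 4) :=
    mul_le_mul (mul_le_mul e4 e3 (by positivity) (by positivity))
      (mul_le_mul hΛ hR hR0 (by positivity)) (by positivity) (by positivity)
  have p1 : u ^ 2 * u ^ 2500 = u ^ 2502 := s9_pw u (by norm_num)
  have p2 : u ^ 2502 * u ^ 2500 = u ^ 5002 := s9_pw u (by norm_num)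
  have p3 : u ^ 5002 * u ^ 5 = u ^ 5007 := s9_pw u (by norm_num)
  have p4 : u ^ 5007 * u ^ 5000 = u ^ 10007 := s9_pw u (by norm_num)
  have p7 : u⁻¹ ^ 10 * u ^ 10007 = u ^ 9997 := s9_inv hu0 (by norm_num)
  have e6 : η * (u ^ 2500 * (2 * (5 * u ^ 2) * u ^ 2500)) * (386 * u ^ 5) * (4 * u ^ 5000 * 4) = 61760 * u ^ 9997 := by
    rw [← p7, ← p4, ← p3, ← p2, ← p1, hη]; ring
  have p5 : u ^ 1 * u ^ 9997 = u ^ 9998 := s9_pw u (by norm_num)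
  have p6 : 988160 * u ^ 9997 ≤ u ^ 9998 := by
    rw [← p5, pow_one]
    exact mul_le_mul_of_nonneg_right hu (by positivity)
  rw [e6] at e5
  linarith

/-- the bound for `C / (δ ^ 8 K ^ 2)` -/
theorem s9_E {u C δ K : ℝ} (hu : 1 ≤ u) (hC : 1 ≤ C) (hδ : δ = u⁻¹ ^ 3) (hK0 : 0 < K) (hK : u ^ 2495 ≤ 2 * K) :
    C / (δ ^ 8 * K ^ 2) * u ^ 4966 ≤ 4 * C := by
  have hu0 : (0 : ℝ) < u := by linarith
  have hδ0 : 0 < δ := by rw [hδ]; positivity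
  rw [div_mul_eq_mul_div, div_le_iff₀ (by positivity)]
  have e1 : u ^ 4990 ≤ 4 * K ^ 2 := by
    calc u ^ 4990 = (u ^ 2495) ^ 2 := by rw [← pow_mul]
      _ ≤ (2 * K) ^ 2 := pow_le_pow_left₀ (by positivity) hK 2
      _ = 4 * K ^ 2 := by ring
  have e2 : u⁻¹ ^ 24 * u ^ 4990 = u ^ 4966 := s9_inv hu0 (by norm_num)
  have e3 : δ ^ 8 = u⁻¹ ^ 24 := by rw [hδ, ← pow_mul]
  rw [e3, ← e2]
  have : u⁻¹ ^ 24 * u ^ 4990 ≤ u⁻¹ ^ 24 * (4 * K ^ 2) := mul_le_mul_of_nonneg_left e1 (by positivity)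
  calc C * (u⁻¹ ^ 24 * u ^ 4990) ≤ C * (u⁻¹ ^ 24 * (4 * K ^ 2)) := mul_le_mul_of_nonneg_left this (by linarith)
    _ = 4 * C * (u⁻¹ ^ 24 * K ^ 2) := by ring

/-- `n5` -/
theorem s9_n5 {u η Q1 S : ℝ} (hu : 10 ^ 8 ≤ u) (hη : η = u⁻¹ ^ 10) (hQ0 : 0 ≤ Q1) (hQ : Q1 ≤ u ^ 25) (hS : u ^ 2500 ≤ 2 * S) :
    2 ^ 13 * Q1 ^ 4 / η ^ 4 ≤ S := by
  have hu0 : (0 : ℝ) < u := by linarith
  have hη0 : 0 < η := by rw [hη]; positivity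
  have e1 : Q1 ^ 4 ≤ u ^ 100 := by
    calc Q1 ^ 4 ≤ (u ^ 25) ^ 4 := pow_le_pow_left₀ hQ0 hQ 4
      _ = u ^ 100 := by rw [← pow_mul]
  have e2 : η ^ 4 = u⁻¹ ^ 40 := by rw [hη, ← pow_mul]
  have e3 : u⁻¹ ^ 40 * u ^ 140 = u ^ 100 := s9_inv hu0 (by norm_num)
  have e4 : u ^ 141 ≤ u ^ 2500 := pow_le_pow_right₀ (by linarith) (by norm_num)
  have e5 : u ^ 1 * u ^ 140 = u ^ 141 := s9_pw u (by norm_num)
  have e6 : 10 ^ 8 * u ^ 140 ≤ u ^ 141 := by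
    rw [← e5, pow_one]
    exact mul_le_mul_of_nonneg_right hu (by positivity)
  have e7 : 2 ^ 13 * u ^ 140 ≤ S := by
    have : 0 ≤ u ^ 140 := by positivity
    linarith
  rw [div_le_iff₀ (by positivity), e2]
  calc 2 ^ 13 * Q1 ^ 4 ≤ 2 ^ 13 * u ^ 100 := by linarith
    _ = 2 ^ 13 * u ^ 140 * u⁻¹ ^ 40 := by rw [← e3]; ring
    _ ≤ S * u⁻¹ ^ 40 := mul_le_mul_of_nonneg_right e7 (by positivity)

/-- `n6` -/
theorem s9_n6 {u C η Q1 S X E : ℝ} (hC : 1 ≤ C) (hu : 10 ^ 8 * C ≤ u) (hη : η = u⁻¹ ^ 10) (hQ0 : 0 ≤ Q1) (hQ : Q1 ≤ u ^ 25)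
    (hS : u ^ 2500 ≤ 2 * S) (hX : 4 * u ^ 2 ≤ X) (hE0 : 0 ≤ E) (hE : E * u ^ 4966 ≤ 4 * C) :
    2 ^ 18 * Q1 ^ 4 * E ≤ η ^ 4 * (2 * X * S) := by
  have hu0 : (0 : ℝ) < u := by linarith
  have hu1 : (1 : ℝ) ≤ u := by linarith
  have hη0 : 0 < η := by rw [hη]; positivity
  have e1 : Q1 ^ 4 ≤ u ^ 100 := by
    calc Q1 ^ 4 ≤ (u ^ 25) ^ 4 := pow_le_pow_left₀ hQ0 hQ 4
      _ = u ^ 100 := by rw [← pow_mul]
  have e2 : η ^ 4 = u⁻¹ ^ 40 := by rw [hη, ← pow_mul]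
  have e3 : u⁻¹ ^ 40 * u ^ 140 = u ^ 100 := s9_inv hu0 (by norm_num)
  have hX0 : 0 ≤ X := le_trans (by positivity) hX
  have e4 : 4 * u ^ 2 * u ^ 2500 ≤ X * (2 * S) := mul_le_mul hX hS (by positivity) hX0
  have e5 : u ^ 140 * u ^ 4826 = u ^ 4966 := s9_pw u (by norm_num)
  have hb : u ^ 1 ≤ u ^ 4826 := pow_le_pow_right₀ hu1 (by norm_num)
  rw [pow_one] at hb
  -- `E * u ^ 140 ≤ 1`
  have e6 : 2 ^ 18 * (E * u ^ 140) ≤ 1 := by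
    have h1 : E * u ^ 140 * u ≤ 4 * C := by
      calc E * u ^ 140 * u ≤ E * u ^ 140 * u ^ 4826 := mul_le_mul_of_nonneg_left hb (by positivity)
        _ = E * (u ^ 140 * u ^ 4826) := by ring
        _ = E * u ^ 4966 := by rw [e5]
        _ ≤ 4 * C := hE
    have h2 : E * u ^ 140 * (10 ^ 8 * C) ≤ 4 * C :=
      le_trans (mul_le_mul_of_nonneg_left hu (by positivity)) h1
    have h3 : (E * u ^ 140 * 10 ^ 8) * C ≤ 4 * C := by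
      calc _ = E * u ^ 140 * (10 ^ 8 * C) := by ring
        _ ≤ _ := h2
    have h4 : E * u ^ 140 * 10 ^ 8 ≤ 4 := le_of_mul_le_mul_right h3 (by linarith)
    linarith
  have e7 : (1 : ℝ) ≤ X * (2 * S) := by
    refine le_trans ?_ e4
    have h1 : 1 ≤ u ^ 2 := s9_one hu1 _
    have h2 : 1 ≤ u ^ 2500 := s9_one hu1 _
    have h3 : (1 : ℝ) * 1 ≤ 4 * u ^ 2 * u ^ 2500 := mul_le_mul (by linarith) h2 (by norm_num) (by positivity)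
    linarith
  rw [e2]
  calc 2 ^ 18 * Q1 ^ 4 * E ≤ 2 ^ 18 * u ^ 100 * E := mul_le_mul_of_nonneg_right (by linarith) hE0
    _ = u⁻¹ ^ 40 * (2 ^ 18 * (E * u ^ 140)) := by rw [← e3]; ring
    _ ≤ u⁻¹ ^ 40 * (X * (2 * S)) := mul_le_mul_of_nonneg_left (le_trans e6 e7) (by positivity)
    _ = u⁻¹ ^ 40 * (2 * X * S) := by ring

/-- `n7` -/
theorem s9_n7 {u C η Q1 E : ℝ} (hC : 1 ≤ C) (hu : 10 ^ 8 * C ≤ u) (hη : η = u⁻¹ ^ 10) (hQ : Q1 ≤ u ^ 25)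
    (hE0 : 0 ≤ E) (hE : E * u ^ 4966 ≤ 4 * C) :
    128 * Q1 * E ≤ η := by
  have hu0 : (0 : ℝ) < u := by linarith
  have hu1 : (1 : ℝ) ≤ u := by linarith
  have e3 : u⁻¹ ^ 10 * u ^ 35 = u ^ 25 := s9_inv hu0 (by norm_num)
  have e5 : u ^ 35 * u ^ 4931 = u ^ 4966 := s9_pw u (by norm_num)
  have hb : u ^ 1 ≤ u ^ 4931 := pow_le_pow_right₀ hu1 (by norm_num)
  rw [pow_one] at hb
  have e6 : 128 * (E * u ^ 35) ≤ 1 := by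
    have h1 : E * u ^ 35 * u ≤ 4 * C := by
      calc E * u ^ 35 * u ≤ E * u ^ 35 * u ^ 4931 := mul_le_mul_of_nonneg_left hb (by positivity)
        _ = E * (u ^ 35 * u ^ 4931) := by ring
        _ = E * u ^ 4966 := by rw [e5]
        _ ≤ 4 * C := hE
    have h2 : E * u ^ 35 * (10 ^ 8 * C) ≤ 4 * C :=
      le_trans (mul_le_mul_of_nonneg_left hu (by positivity)) h1
    have h3 : (E * u ^ 35 * 10 ^ 8) * C ≤ 4 * C := by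
      calc _ = E * u ^ 35 * (10 ^ 8 * C) := by ring
        _ ≤ _ := h2
    have h4 : E * u ^ 35 * 10 ^ 8 ≤ 4 := le_of_mul_le_mul_right h3 (by linarith)
    linarith
  rw [hη]
  calc 128 * Q1 * E ≤ 128 * u ^ 25 * E := mul_le_mul_of_nonneg_right (by linarith) hE0
    _ = u⁻¹ ^ 10 * (128 * (E * u ^ 35)) := by rw [← e3]; ring
    _ ≤ u⁻¹ ^ 10 * 1 := mul_le_mul_of_nonneg_left e6 (by positivity)
    _ = u⁻¹ ^ 10 := mul_one _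

/-- `n8` -/
theorem s9_n8 {u η Q1 : ℝ} (hu : 512 ≤ u) (hη : η = u⁻¹ ^ 10) (hQ0 : 0 ≤ Q1) (hQ : Q1 ≤ u ^ 25) :
    512 * Q1 ^ 4 / η ^ 3 ≤ u ^ 131 := by
  have hu0 : (0 : ℝ) < u := by linarith
  have hη0 : 0 < η := by rw [hη]; positivity
  have e1 : Q1 ^ 4 ≤ u ^ 100 := by
    calc Q1 ^ 4 ≤ (u ^ 25) ^ 4 := pow_le_pow_left₀ hQ0 hQ 4
      _ = u ^ 100 := by rw [← pow_mul]
  have e2 : η ^ 3 = u⁻¹ ^ 30 := by rw [hη, ← pow_mul]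
  have e3 : u⁻¹ ^ 30 * u ^ 130 = u ^ 100 := s9_inv hu0 (by norm_num)
  have e5 : u ^ 1 * u ^ 130 = u ^ 131 := s9_pw u (by norm_num)
  have e6 : 512 * u ^ 130 ≤ u ^ 131 := by
    rw [← e5, pow_one]
    exact mul_le_mul_of_nonneg_right hu (by positivity)
  rw [div_le_iff₀ (by positivity), e2]
  calc 512 * Q1 ^ 4 ≤ 512 * u ^ 100 := by linarith
    _ = 512 * u ^ 130 * u⁻¹ ^ 30 := by rw [← e3]; ring
    _ ≤ u ^ 131 * u⁻¹ ^ 30 := mul_le_mul_of_nonneg_right e6 (by positivity)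

/-- `n9` -/
theorem s9_n9 {u C η Q1 S X E : ℝ} (hC : 1 ≤ C) (hu : 10 ^ 8 * C ≤ u) (hη : η = u⁻¹ ^ 10) (hQ0 : 0 ≤ Q1) (hQ : Q1 ≤ u ^ 25)
    (hS0 : 0 < S) (hS : u ^ 2500 ≤ 2 * S) (hX : 4 * u ^ 2 ≤ X) (hE0 : 0 ≤ E) (hE : E * u ^ 4966 ≤ 4 * C) :
    2 ^ 22 * Q1 ^ 6 * E / (η ^ 6 * S * (2 * X * S)) * u ^ 9754 ≤ 1 := by
  have hu0 : (0 : ℝ) < u := by linarith
  have hu1 : (1 : ℝ) ≤ u := by linarith
  have hη0 : 0 < η := by rw [hη]; positivity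
  have hX0 : 0 < X := lt_of_lt_of_le (by positivity) hX
  have e1 : Q1 ^ 6 ≤ u ^ 150 := by
    calc Q1 ^ 6 ≤ (u ^ 25) ^ 6 := pow_le_pow_left₀ hQ0 hQ 6
      _ = u ^ 150 := by rw [← pow_mul]
  have e2 : η ^ 6 = u⁻¹ ^ 60 := by rw [hη, ← pow_mul]
  have e3 : u⁻¹ ^ 60 * u ^ 210 = u ^ 150 := s9_inv hu0 (by norm_num)
  -- `S * (2 X S) ≥ 2 u ^ 5002`
  have e4 : u ^ 2500 * (4 * u ^ 2 * u ^ 2500) ≤ 2 * S * (X * (2 * S)) :=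
    mul_le_mul hS (mul_le_mul hX hS (by positivity) hX0.le) (by positivity) (by positivity)
  have p1 : u ^ 2500 * u ^ 2500 = u ^ 5000 := s9_pw u (by norm_num)
  have p2 : u ^ 5000 * u ^ 2 = u ^ 5002 := s9_pw u (by norm_num)
  have e5 : 2 * u ^ 5002 ≤ S * (2 * X * S) := by
    have h1 : u ^ 2500 * (4 * u ^ 2 * u ^ 2500) = 4 * u ^ 5002 := by rw [← p2, ← p1]; ring
    rw [h1] at e4
    have h2 : 2 * S * (X * (2 * S)) = 2 * (S * (2 * X * S)) := by ring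
    rw [h2] at e4
    linarith
  have p3 : u ^ 210 * u ^ 9754 = u ^ 9964 := s9_pw u (by norm_num)
  have p4 : u ^ 4966 * u ^ 4998 = u ^ 9964 := s9_pw u (by norm_num)
  have p5 : u ^ 4 * u ^ 4998 = u ^ 5002 := s9_pw u (by norm_num)
  have p6 : u ≤ u ^ 4 := by
    calc u = u ^ 1 := (pow_one u).symm
      _ ≤ u ^ 4 := pow_le_pow_right₀ hu1 (by norm_num)
  have e6 : 2 ^ 22 * (E * u ^ 9964) ≤ 2 * u ^ 5002 := by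
    have h1 : E * u ^ 9964 ≤ 4 * C * u ^ 4998 := by
      rw [← p4, ← mul_assoc]
      exact mul_le_mul_of_nonneg_right hE (by positivity)
    have h2 : 10 ^ 8 * C * u ^ 4998 ≤ u ^ 5002 := by
      rw [← p5]
      exact mul_le_mul_of_nonneg_right (le_trans hu p6) (by positivity)
    have h3 : 0 ≤ C * u ^ 4998 := by positivity
    linarith
  have h0 : 0 < η ^ 6 * S * (2 * X * S) := by positivity
  rw [div_mul_eq_mul_div, div_le_one h0, e2]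
  calc 2 ^ 22 * Q1 ^ 6 * E * u ^ 9754 ≤ 2 ^ 22 * u ^ 150 * E * u ^ 9754 := by
        apply mul_le_mul_of_nonneg_right _ (by positivity)
        apply mul_le_mul_of_nonneg_right _ hE0
        linarith
    _ = u⁻¹ ^ 60 * (2 ^ 22 * (E * u ^ 9964)) := by rw [← e3, ← p3]; ring
    _ ≤ u⁻¹ ^ 60 * (2 * u ^ 5002) := mul_le_mul_of_nonneg_left e6 (by positivity)
    _ ≤ u⁻¹ ^ 60 * (S * (2 * X * S)) := mul_le_mul_of_nonneg_left e5 (by positivity)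
    _ = u⁻¹ ^ 60 * S * (2 * X * S) := by ring

/-- `X`, `S`, `Λ` from `g1`; `K = ⌊u ^ 2495⌋₊`, `D = ⌈9 u ^ 9995⌉₊`, `s0 = ⌊u ^ 2495⌋₊`, `Q1 = ⌊u ^ 25⌋₊`, `δ = u⁻¹ ^ 3`, `η = u⁻¹ ^ 10`, `τ = ⌊u⌋₊`; `u ≥ U0` large in terms of `C`
(for instance `U0 = 10 ^ 8 * C`). All floors are at least one half of the number. `u ^ 9999 ≤ A ≤ u ^ 10000`, `u ^ 9999 ≤ H ≤ 3 u ^ 9999`, so `H / A + 1 ≤ 4`, and `H / (16 u) ≥ u ^ 9998 / 16`.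
`hD`: `4 A K / S ≤ 4 u ^ 10000 u ^ 2495 / (u ^ 2500 / 2) = 8 u ^ 9995`, `K S H / A ≤ 3 u ^ 4995`, `2 K ^ 2 S ^ 2 X ≤ 10 u ^ 9992`.
`n1`: `δ A 4 ≤ 4 u ^ 9997`; `A / Λ + 1 ≤ 16 u ^ 5002 + 1 ≤ 17 u ^ 5002`, so the second term is `≤ 2 * 17 u ^ 5002 * u ^ 4995 * 4 = 136 u ^ 9997`; `4 τ D ≤ 40 u ^ 9996`.
`n2`: `582 * 5 u ^ 2 * u ^ 4995 * 16 u ^ 5000` is a constant times `u ^ 9997`. `n3`: `96 S / s0 + 1 ≤ 193 u ^ 5`, so the left side is `≤ u ^ (-10) * 10 u ^ 5002 * 386 u ^ 5 * 16 u ^ 5000`, a constant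
times `u ^ 9997`. `n4`: `C u ^ 24 ≤ u ^ 25 / 2`. `n5`: `2 ^ 13 u ^ 140 ≤ u ^ 2500 / 2`. `C / (δ ^ 8 K ^ 2) ≤ 4 C u ^ 24 / u ^ 4990`. `n6`, `n7` are clear. `n8`: `512 u ^ 130 ≤ u ^ 131`.
`n9`: `2 ^ 22 u ^ 150 * (4 C u ^ 24 / u ^ 4990) * u ^ 60 / (S * 2 X S) * u ^ 9754` with `S * 2 X S ≥ 2 u ^ 5002` is a constant times `C u ^ (-4)`. (All checked numerically. Never unfold the powers; prove each
inequality as a separate lemma s9_.. about real numbers; products with `← pow_add`, comparisons with `pow_le_pow_right₀`, negative powers by multiplying out.) -/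
theorem s9 (C : ℝ) (hC : 1 ≤ C) : ∃ U0 : ℝ, 1 ≤ U0 ∧ ∀ u : ℝ, U0 ≤ u → ∀ A x H : ℕ, u ^ 9999 ≤ A → (A : ℝ) ≤ u ^ 10000 →
    A ^ 2 ≤ 2 * x → (x : ℝ) ≤ 4 * u ^ 2 * (A : ℝ) ^ 2 → u ^ 9999 ≤ H → (H : ℝ) ≤ 3 * u ^ 9999 →
    ∃ (X S Λ K D s0 Q1 τ : ℕ) (δ η : ℝ), Geo A x X S Λ ∧ τ = ⌊u⌋₊ ∧
      (K : ℝ) * (4 * A / S + S * H / A) + 2 * (K : ℝ) ^ 2 * (S : ℝ) ^ 2 * X ≤ D ∧ Num u δ η C H A X S Λ K D s0 Q1 τ := by
  refine ⟨10 ^ 8 * C, by linarith, ?_⟩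
  intro u hu A x H hA1 hA2 hx1 hx2 hH1 hH2
  have hu8 : 10 ^ 8 ≤ u := by linarith
  have hu0 : (0 : ℝ) < u := by linarith
  have hu1 : (1 : ℝ) ≤ u := by linarith
  obtain ⟨X, S, Λ, G, hX1, hX2, hS1, hS2, hL1, hL2⟩ := g1 u (by linarith) A x hA1 hA2 hx1 hx2
  have hK1 : ((⌊u ^ 2495⌋₊ : ℕ) : ℝ) ≤ u ^ 2495 := Nat.floor_le (by positivity)
  have hK2 : u ^ 2495 ≤ 2 * ((⌊u ^ 2495⌋₊ : ℕ) : ℝ) := s9_floor (s9_one hu1 _)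
  have hQ1 : ((⌊u ^ 25⌋₊ : ℕ) : ℝ) ≤ u ^ 25 := Nat.floor_le (by positivity)
  have hQ2 : u ^ 25 ≤ 2 * ((⌊u ^ 25⌋₊ : ℕ) : ℝ) := s9_floor (s9_one hu1 _)
  have hτ : ((⌊u⌋₊ : ℕ) : ℝ) ≤ u := Nat.floor_le hu0.le
  have hD1 : 9 * u ^ 9995 ≤ ((⌈9 * u ^ 9995⌉₊ : ℕ) : ℝ) := Nat.le_ceil _
  have hD2 : ((⌈9 * u ^ 9995⌉₊ : ℕ) : ℝ) ≤ 10 * u ^ 9995 := by
    have h1 : ((⌈9 * u ^ 9995⌉₊ : ℕ) : ℝ) < 9 * u ^ 9995 + 1 := Nat.ceil_lt_add_one (by positivity)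
    have h2 : 1 ≤ u ^ 9995 := s9_one hu1 _
    linarith
  have hA0 : (0 : ℝ) < A := lt_of_lt_of_le (by positivity) hA1
  have hH0 : (0 : ℝ) < H := lt_of_lt_of_le (by positivity) hH1
  have hS0 : (0 : ℝ) < S := by
    have : 0 < u ^ 2500 := by positivity
    linarith
  have hX0 : (0 : ℝ) < X := lt_of_lt_of_le (by positivity) hX1
  have hΛ0 : (0 : ℝ) < Λ := by exact_mod_cast G.hΛ
  have hHA : (H : ℝ) ≤ 3 * A := by linarith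
  have hR0 : (0 : ℝ) ≤ H / A + 1 := by positivity
  have hR : (H : ℝ) / A + 1 ≤ 4 := by
    have : (H : ℝ) / A ≤ 3 := by
      rw [div_le_iff₀ hA0]; exact hHA
    linarith
  have hK0 : (0 : ℝ) < ((⌊u ^ 2495⌋₊ : ℕ) : ℝ) := by
    have : 0 < u ^ 2495 := by positivity
    linarith
  have hh : u ^ 9998 / 16 ≤ (H : ℝ) / (16 * u) := by
    rw [div_le_div_iff₀ (by norm_num) (by positivity)]
    have e : u ^ 1 * u ^ 9998 = u ^ 9999 := s9_pw u (by norm_num)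
    rw [pow_one] at e
    calc u ^ 9998 * (16 * u) = 16 * (u * u ^ 9998) := by ring
      _ = 16 * u ^ 9999 := by rw [e]
      _ ≤ H * 16 := by linarith
  have hE := s9_E (u := u) (C := C) (δ := u⁻¹ ^ 3) (K := ((⌊u ^ 2495⌋₊ : ℕ) : ℝ)) hu1 hC rfl hK0 hK2
  have hE0 : 0 ≤ C / ((u⁻¹ ^ 3) ^ 8 * ((⌊u ^ 2495⌋₊ : ℕ) : ℝ) ^ 2) := by positivity
  have hui : u⁻¹ ≤ 1 := inv_le_one_of_one_le₀ hu1
  refine ⟨X, S, Λ, ⌊u ^ 2495⌋₊, ⌈9 * u ^ 9995⌉₊, ⌊u ^ 2495⌋₊, ⌊u ^ 25⌋₊, ⌊u⌋₊, u⁻¹ ^ 3, u⁻¹ ^ 10, G, rfl, ?_, ?_⟩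
  · exact s9_hD (by linarith) hA0 hS0 hH0.le hK0.le hX0.le hA2 hHA hS1 hS2 hX2 hK1 hD1
  · refine ⟨hu1, by positivity, pow_le_one₀ (by positivity) hui, by positivity, pow_le_one₀ (by positivity) hui, hH0, ?_, ?_, ?_,
      ?_, ?_, ?_, ?_, ?_, ?_, ?_, ?_, ?_⟩
    · rw [Nat.one_le_floor_iff]; exact s9_one hu1 _
    · rw [Nat.le_floor_iff (by positivity)]
      calc ((9 : ℕ) : ℝ) ≤ u := by push_cast; linarith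
        _ = u ^ 1 := (pow_one u).symm
        _ ≤ u ^ 2495 := pow_le_pow_right₀ hu1 (by norm_num)
    · rw [Nat.one_le_floor_iff]; exact s9_one hu1 _
    · exact s9_n1 (by linarith) hR0 hR hA2 rfl hΛ0 hL2 hK0.le hS0.le hK1 hS1 hτ (Nat.cast_nonneg _) hD2 hh
    · exact s9_n2 (by linarith) hR0 hR hΛ0 hL1 hX2 (Nat.cast_nonneg _) hK1 hS0.le hS1 hh
    · exact s9_n3 (by linarith) rfl hR0 hR hΛ0 hL1 hX0.le hX2 hK0 hK2 hS0.le hS1 hh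
    · have e1 : (u⁻¹ ^ 3) ^ 8 = u⁻¹ ^ 24 := by rw [← pow_mul]
      have e2 : u⁻¹ ^ 24 * u ^ 25 = u ^ 1 := s9_inv hu0 (by norm_num)
      rw [pow_one] at e2
      rw [e1, div_le_iff₀ (by positivity)]
      have e3 : u⁻¹ ^ 24 * u ^ 25 ≤ u⁻¹ ^ 24 * (2 * ((⌊u ^ 25⌋₊ : ℕ) : ℝ)) :=
        mul_le_mul_of_nonneg_left hQ2 (by positivity)
      rw [e2] at e3
      calc C ≤ u / 2 := by linarith
        _ ≤ (u⁻¹ ^ 24 * (2 * ((⌊u ^ 25⌋₊ : ℕ) : ℝ))) / 2 := by linarith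
        _ = ((⌊u ^ 25⌋₊ : ℕ) : ℝ) * u⁻¹ ^ 24 := by ring
    · exact s9_n5 hu8 rfl (Nat.cast_nonneg _) hQ1 hS2
    · exact s9_n6 hC hu rfl (Nat.cast_nonneg _) hQ1 hS2 hX1 hE0 hE
    · exact s9_n7 hC hu rfl hQ1 hE0 hE
    · exact s9_n8 (by linarith) rfl (Nat.cast_nonneg _) hQ1
    · exact s9_n9 hC hu rfl (Nat.cast_nonneg _) hQ1 hS0 hS2 hX1 hE0 hE

end Pool.Agent.Lib.H21T
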