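import Pool.Agent.Lib.H21T.W1
import Pool.Agent.Lib.H21T.S9
import Pool.Agent.Lib.H21AP.DivisorBound

/-!
# Chunk Z3 (S/M): divisor bound, minor arcs for the pairs
-/

namespace Pool.Agent.Lib.H21T

open Finset Pool.Agent.SZW

/-- `Pool.Agent.Lib.H21AP.divisor_bound` with `ε = 1 / 40006`: at most `C m ^ ε ≤ C (u ^ 20003) ^ ε = C u ^ (1 / 2) ≤ u - 1` for large `u`. -/
theorem z3_div : ∃ U0 : ℝ, 1 ≤ U0 ∧ ∀ u : ℝ, U0 ≤ u → ∀ m : ℕ, 1 ≤ m → (m : ℝ) ≤ u ^ 20003 → m.divisors.card ≤ ⌊u⌋₊ := by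
  obtain ⟨C, hC, h⟩ := Pool.Agent.Lib.H21AP.divisor_bound (ε := 1 / 40006) (by norm_num)
  refine ⟨(C + 2) ^ 2, ?_, fun u hu m hm hmu => ?_⟩
  · nlinarith
  · have hu0 : 0 < u := lt_of_lt_of_le (by positivity) hu
    have h1 := h m hm
    have h2 : (m : ℝ) ^ (1 / 40006 : ℝ) ≤ (u ^ 20003) ^ (1 / 40006 : ℝ) :=
      Real.rpow_le_rpow (Nat.cast_nonneg m) hmu (by norm_num)
    have h3 : (u ^ 20003) ^ (1 / 40006 : ℝ) = Real.sqrt u := by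
      rw [← Real.rpow_natCast u 20003, ← Real.rpow_mul hu0.le, Real.sqrt_eq_rpow]
      congr 1
      norm_num
    rw [h3] at h2
    have h4 : C + 2 ≤ Real.sqrt u := Real.le_sqrt_of_sq_le hu
    have h5 : Real.sqrt u * Real.sqrt u = u := Real.mul_self_sqrt hu0.le
    apply Nat.le_floor
    have h6 : C * (m : ℝ) ^ (1 / 40006 : ℝ) ≤ C * Real.sqrt u := mul_le_mul_of_nonneg_left h2 hC.le
    have h7 : C * Real.sqrt u ≤ Real.sqrt u * Real.sqrt u :=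
      mul_le_mul_of_nonneg_right (by linarith) (Real.sqrt_nonneg u)
    linarith

/-- `w1`, `s9`, `z3_div` (`x + H ≤ 4 u ^ 2 u ^ 20000 + 3 u ^ 9999 ≤ u ^ 20003`), `s8`. -/
theorem z3 : ∃ U0 : ℝ, 1 ≤ U0 ∧ ∀ u : ℝ, U0 ≤ u → ∀ (A A1 A2 x H : ℕ) (α : ℝ), u ^ 9999 ≤ A → (A : ℝ) ≤ u ^ 10000 →
    A ≤ A1 → A2 ≤ 2 * A → A ^ 2 ≤ 2 * x → (x : ℝ) ≤ 4 * u ^ 2 * (A : ℝ) ^ 2 → u ^ 9999 ≤ H → (H : ℝ) ≤ 3 * u ^ 9999 →
    ¬ Maj u α → ‖SR α A1 A2 x H‖ ≤ H / (8 * u) := by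
  obtain ⟨C, hC, hW⟩ := w1
  obtain ⟨U1, hU1, h9⟩ := s9 C hC
  obtain ⟨U2, hU2, h2⟩ := z3_div
  refine ⟨max (max U1 U2) 7, le_trans (by norm_num) (le_max_right _ _), ?_⟩
  intro u hu A A1 A2 x H α hA1 hA2 hAA1 hAA2 hx1 hx2 hH1 hH2 hmaj
  have hu1 : U1 ≤ u := ((le_max_left _ _).trans (le_max_left _ _)).trans hu
  have hu2 : U2 ≤ u := ((le_max_right _ _).trans (le_max_left _ _)).trans hu
  have hu7 : 7 ≤ u := (le_max_right _ _).trans hu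
  have hu0 : 0 < u := by linarith
  by_contra hcon
  have hα : (H : ℝ) / (8 * u) < ‖SR α A1 A2 x H‖ := not_le.1 hcon
  by_cases h12 : A1 ≤ A2
  · obtain ⟨X, S, Λ, K, D, s0, Q1, τ, δ, η, G, hτ, hD, N⟩ := h9 u hu1 A x H hA1 hA2 hx1 hx2 hH1 hH2
    apply hmaj
    refine s8 G hC hW hAA1 h12 hAA2 ?_ hD N α hα
    intro m hm hmx
    rw [hτ]
    refine h2 u hu2 m hm ?_
    have h3 : (m : ℝ) ≤ x + H := by exact_mod_cast hmx.le
    have h4 : (A : ℝ) ^ 2 ≤ (u ^ 10000) ^ 2 := pow_le_pow_left₀ (Nat.cast_nonneg A) hA2 2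
    have h5 : (x : ℝ) ≤ 4 * u ^ 20002 := by
      refine hx2.trans ?_
      have e1 : 4 * u ^ 20002 = 4 * u ^ 2 * (u ^ 10000) ^ 2 := by
        rw [← pow_mul, mul_assoc, ← pow_add]
      rw [e1]
      exact mul_le_mul_of_nonneg_left h4 (by positivity)
    have h6 : u ^ 9999 ≤ u ^ 20002 := pow_le_pow_right₀ (by linarith) (by norm_num)
    have h7 : u ^ 20003 = u ^ 20002 * u := pow_succ u 20002
    have h8 : 7 * u ^ 20002 ≤ u ^ 20002 * u := by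
      rw [mul_comm]
      exact mul_le_mul_of_nonneg_left hu7 (by positivity)
    rw [h7]
    linarith
  · have h3 : Rg A1 A2 x H = ∅ := by
      unfold Rg
      rw [Ico_eq_empty (fun h => h12 h.le), empty_product, filter_empty]
    unfold SR at hα
    rw [h3, sum_empty, norm_zero] at hα
    have h4 : 0 ≤ (H : ℝ) / (8 * u) := by positivity
    linarith

end Pool.Agent.Lib.H21T
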