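import Pool.Agent.Lib.H21T.G1

/-!
# Chunk Z5A (S/M): numbers for the major arcs
-/

namespace Pool.Agent.Lib.H21T

open Finset Pool.Agent.SZW

/-- `X`, `S`, `Λ` from `g1`, `s0 = ⌊u ^ 1250⌋₊`. `H S ^ 2 ≤ 3 u ^ 14740 ≤ u ^ 19998 ≤ A ^ 2`. The sum is at most
`4 u ^ 8750 + 48 u ^ 7500 + 32 u ^ 7502 + 291 * 5 u ^ 2 u ^ 1250 u ^ 2500 4 u ^ 5000 + 6 ≤ u ^ 8753`. -/
theorem z5_num : ∃ U0 : ℝ, 1 ≤ U0 ∧ ∀ u : ℝ, U0 ≤ u → ∀ A x H : ℕ, u ^ 9999 ≤ A → (A : ℝ) ≤ u ^ 10000 →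
    A ^ 2 ≤ 2 * x → (x : ℝ) ≤ 4 * u ^ 2 * (A : ℝ) ^ 2 → (H : ℝ) ≤ 3 * u ^ 9740 →
    ∃ X S Λ s0 : ℕ, Geo A x X S Λ ∧ H * S ^ 2 ≤ A ^ 2 ∧ 1 ≤ s0 ∧
      2 * A * (1 / (s0 : ℝ) + 12 / S) + 2 * A * S / Λ + 291 * X * s0 * S * Λ + 2 * H / A ≤ u ^ 8753 := by
  refine ⟨10000, by norm_num, ?_⟩
  intro u hu A x H hA1 hA2 hAx hxA hH
  have hu1 : (1 : ℝ) ≤ u := by linarith
  have hu0 : (0 : ℝ) < u := by linarith
  obtain ⟨X, S, Λ, hG, hX1, hX2, hS1, hS2, hL1, hL2⟩ := g1 u (by linarith) A x hA1 hA2 hAx hxA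
  have hP1250 : 1 ≤ u ^ 1250 := one_le_pow₀ hu1
  have hP2500 : 1 ≤ u ^ 2500 := one_le_pow₀ hu1
  have hP5000 : 1 ≤ u ^ 5000 := one_le_pow₀ hu1
  have hs0a : ((⌊u ^ 1250⌋₊ : ℕ) : ℝ) ≤ u ^ 1250 := Nat.floor_le (by positivity)
  have hs0b : u ^ 1250 < (⌊u ^ 1250⌋₊ : ℕ) + 1 := Nat.lt_floor_add_one _
  have hs0c : 1 ≤ ⌊u ^ 1250⌋₊ := by
    rw [Nat.one_le_floor_iff]
    exact hP1250
  obtain ⟨s0, hs0⟩ : ∃ s0 : ℕ, s0 = ⌊u ^ 1250⌋₊ := ⟨_, rfl⟩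
  rw [← hs0] at hs0a hs0b hs0c
  have hs0r : (1 : ℝ) ≤ s0 := by exact_mod_cast hs0c
  have hs0d : u ^ 1250 ≤ 2 * s0 := by linarith
  have hSr : (1 : ℝ) ≤ S := by exact_mod_cast hG.hS
  have hLr : (1 : ℝ) ≤ Λ := by exact_mod_cast hG.hΛ
  have hXr : (1 : ℝ) ≤ X := by exact_mod_cast hG.hX1
  have hA0 : (1 : ℝ) ≤ A := le_trans (one_le_pow₀ hu1) hA1
  have hpos : 0 < u ^ 8752 := pow_pos hu0 _
  have hp1 : u ^ 8750 ≤ u ^ 8752 := pow_le_pow_right₀ hu1 (by norm_num)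
  have hp2 : u ^ 7500 ≤ u ^ 8752 := pow_le_pow_right₀ hu1 (by norm_num)
  have hp3 : u ^ 7502 ≤ u ^ 8752 := pow_le_pow_right₀ hu1 (by norm_num)
  have hp4 : 1 ≤ u ^ 8752 := one_le_pow₀ hu1
  have hp5 : u ^ 8753 = u * u ^ 8752 := by rw [← pow_succ']
  refine ⟨X, S, Λ, s0, hG, ?_, hs0c, ?_⟩
  · have h1 : (H : ℝ) * (S : ℝ) ^ 2 ≤ (A : ℝ) ^ 2 := by
      calc (H : ℝ) * (S : ℝ) ^ 2 ≤ (3 * u ^ 9740) * (u ^ 2500) ^ 2 := by
            apply mul_le_mul hH _ (by positivity) (by positivity)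
            exact pow_le_pow_left₀ (by linarith) hS1 2
        _ = 3 * u ^ 14740 := by
            rw [← pow_mul, mul_assoc, ← pow_add]
        _ ≤ u * u ^ 14740 := by
            apply mul_le_mul_of_nonneg_right (by linarith) (by positivity)
        _ = u ^ 14741 := by rw [← pow_succ']
        _ ≤ u ^ 19998 := pow_le_pow_right₀ hu1 (by norm_num)
        _ = (u ^ 9999) ^ 2 := by rw [← pow_mul]
        _ ≤ (A : ℝ) ^ 2 := pow_le_pow_left₀ (by positivity) hA1 2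
    exact_mod_cast h1
  · have t1 : 2 * (A : ℝ) * (1 / (s0 : ℝ)) ≤ 4 * u ^ 8750 := by
      rw [mul_one_div, div_le_iff₀ (by linarith)]
      calc 2 * (A : ℝ) ≤ 2 * u ^ 10000 := by linarith
        _ = 2 * u ^ 8750 * u ^ 1250 := by rw [mul_assoc, ← pow_add]
        _ ≤ 2 * u ^ 8750 * (2 * s0) := by
            apply mul_le_mul_of_nonneg_left hs0d (by positivity)
        _ = 4 * u ^ 8750 * s0 := by ring
    have t2 : 2 * (A : ℝ) * (12 / (S : ℝ)) ≤ 48 * u ^ 7500 := by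
      rw [← mul_div_assoc, div_le_iff₀ (by linarith)]
      calc 2 * (A : ℝ) * 12 ≤ 2 * u ^ 10000 * 12 := by linarith
        _ = 24 * u ^ 7500 * u ^ 2500 := by
            have : u ^ 10000 = u ^ 7500 * u ^ 2500 := by rw [← pow_add]
            rw [this]; ring
        _ ≤ 24 * u ^ 7500 * (2 * S) := by
            apply mul_le_mul_of_nonneg_left hS2 (by positivity)
        _ = 48 * u ^ 7500 * S := by ring
    have t3 : 2 * (A : ℝ) * S / Λ ≤ 32 * u ^ 7502 := by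
      rw [div_le_iff₀ (by linarith)]
      calc 2 * (A : ℝ) * S ≤ 2 * (16 * u ^ 5002 * Λ) * u ^ 2500 := by
            apply mul_le_mul (by linarith) hS1 (by linarith) (by positivity)
        _ = 32 * u ^ 7502 * Λ := by
            have : u ^ 7502 = u ^ 5002 * u ^ 2500 := by rw [← pow_add]
            rw [this]; ring
    have t4 : 291 * (X : ℝ) * s0 * S * Λ ≤ 5820 * u ^ 8752 := by
      calc 291 * (X : ℝ) * s0 * S * Λ ≤ 291 * (5 * u ^ 2) * u ^ 1250 * u ^ 2500 * (4 * u ^ 5000) := by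
            have a1 : 291 * (X : ℝ) ≤ 291 * (5 * u ^ 2) := by linarith
            have a2 : 291 * (X : ℝ) * s0 ≤ 291 * (5 * u ^ 2) * u ^ 1250 :=
              mul_le_mul a1 hs0a (by linarith) (by positivity)
            have a3 : 291 * (X : ℝ) * s0 * S ≤ 291 * (5 * u ^ 2) * u ^ 1250 * u ^ 2500 :=
              mul_le_mul a2 hS1 (by linarith) (by positivity)
            exact mul_le_mul a3 hL1 (by linarith) (by positivity)
        _ = 5820 * u ^ 8752 := by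
            have : u ^ 8752 = u ^ 2 * u ^ 1250 * u ^ 2500 * u ^ 5000 := by
              rw [← pow_add, ← pow_add, ← pow_add]
            rw [this]; ring
    have t5 : 2 * (H : ℝ) / A ≤ 6 := by
      rw [div_le_iff₀ (by linarith)]
      have : u ^ 9740 ≤ u ^ 9999 := pow_le_pow_right₀ hu1 (by norm_num)
      linarith
    have hfin : 5910 * u ^ 8752 ≤ u ^ 8753 := by
      rw [hp5]
      exact mul_le_mul_of_nonneg_right (by linarith) hpos.le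
    have hsplit : 2 * (A : ℝ) * (1 / (s0 : ℝ) + 12 / S) = 2 * (A : ℝ) * (1 / (s0 : ℝ)) + 2 * (A : ℝ) * (12 / (S : ℝ)) := by
      ring
    rw [hsplit]
    linarith

end Pool.Agent.Lib.H21T
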