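import Pool.Agent.Lib.H21T.B11
import Pool.Agent.Lib.H21T.M6
import Pool.Agent.Lib.H21T.Z3
import Pool.Agent.Lib.H21T.Z5A

/-!
# Chunk Z5 (M): major arcs for the pairs
-/

namespace Pool.Agent.Lib.H21T

open Finset Pool.Agent.SZW

/-- If `A1 ≥ A2` both terms vanish. Otherwise `b11` with `z5_num` (`q ^ 2 u ^ 8753 ≤ u ^ 9015`) and `m6_SR` (`|Rg| ≤ τ H ≤ u H` by `s4_div` with `U = Ico x (x + H)` and `z3_div`; `2 π |θ| H ≤ 6 π u ^ (-14)`). -/
theorem z5 : ∃ U0 : ℝ, 1 ≤ U0 ∧ ∀ u : ℝ, U0 ≤ u → ∀ (A A1 A2 x H q : ℕ) (p : ℤ) (θ : ℝ), u ^ 9999 ≤ A → (A : ℝ) ≤ u ^ 10000 →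
    A ≤ A1 → A2 ≤ 2 * A → A ^ 2 ≤ 2 * x → (x : ℝ) ≤ 4 * u ^ 2 * (A : ℝ) ^ 2 → u ^ 9740 ≤ H → (H : ℝ) ≤ 3 * u ^ 9740 →
    1 ≤ q → (q : ℝ) ≤ u ^ 131 → IsCoprime p (q : ℤ) → |θ| * u ^ 9754 ≤ 1 → A2 ≠ 0 →
    ‖SR ((p : ℝ) / q + θ) A1 A2 x H -
      (((H : ℝ) / q * max 0 (Real.log A2 - Real.log A1) : ℝ) : ℂ) * ee (θ * x)‖ ≤ H / (8 * u) := by
  obtain ⟨U1, hU1, hn⟩ := z5_num
  obtain ⟨U2, hU2, hd⟩ := z3_div
  refine ⟨max (max U1 U2) 100, le_trans (by norm_num) (le_max_right _ _), ?_⟩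
  intro u hu A A1 A2 x H q p θ hA1 hA2 h1 h2 h3 h4 h5 h6 hq hq2 hp hθ hne
  have hu1 : U1 ≤ u := le_trans (le_trans (le_max_left _ _) (le_max_left _ _)) hu
  have hu2 : U2 ≤ u := le_trans (le_trans (le_max_right _ _) (le_max_left _ _)) hu
  have hu3 : (100 : ℝ) ≤ u := le_trans (le_max_right _ _) hu
  have hu0 : 0 < u := by linarith
  have hu4 : 1 ≤ u := by linarith
  rcases le_or_gt A2 A1 with hc | hc
  · have e1 : SR ((p : ℝ) / q + θ) A1 A2 x H = 0 := by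
      unfold SR Rg
      rw [Ico_eq_empty (by omega)]
      simp
    have e2 : max 0 (Real.log A2 - Real.log A1) = 0 := by
      refine max_eq_left (sub_nonpos.2 (Real.log_le_log ?_ (by exact_mod_cast hc)))
      exact_mod_cast Nat.pos_of_ne_zero hne
    rw [e1, e2, mul_zero, Complex.ofReal_zero, zero_mul, sub_zero, norm_zero]
    exact div_nonneg (Nat.cast_nonneg _) (by linarith)
  · have e2 : max 0 (Real.log A2 - Real.log A1) = Real.log A2 - Real.log A1 := by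
      refine max_eq_right (sub_nonneg.2 (Real.log_le_log ?_ (by exact_mod_cast hc.le)))
      have : (0 : ℝ) < A := lt_of_lt_of_le (pow_pos hu0 9999) hA1
      have h7 : (A : ℝ) ≤ A1 := by exact_mod_cast h1
      linarith
    have hApos : 0 < A := by
      have : (0 : ℝ) < A := lt_of_lt_of_le (pow_pos hu0 9999) hA1
      exact_mod_cast this
    have hA1pos : 1 ≤ A1 := by omega
    have hxpos : 1 ≤ x := by
      by_contra hx
      have hx0 : x = 0 := by omega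
      rw [hx0, mul_zero] at h3
      have := pow_pos hApos 2
      omega
    obtain ⟨X, S, Λ, s0, hG, hHS, hs0, hB⟩ := hn u hu1 A x H hA1 hA2 h3 h4 h6
    have hqA : 2 * q ≤ A := by
      have h8 : (2 : ℝ) * q ≤ A := by
        have h9 : u ^ 132 ≤ u ^ 9999 := pow_le_pow_right₀ hu4 (by norm_num)
        have h10 : u ^ 132 = u * u ^ 131 := by rw [← pow_succ']
        have h11 : 2 * u ^ 131 ≤ u * u ^ 131 := mul_le_mul_of_nonneg_right (by linarith) (pow_pos hu0 131).le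
        linarith
      exact_mod_cast h8
    have hb := b11 hG h1 hc.le h2 hHS hq hqA hp hs0
    have hb2 : ‖SR ((p : ℝ) / q) A1 A2 x H - (((H : ℝ) / q * (Real.log A2 - Real.log A1) : ℝ) : ℂ)‖ ≤ u ^ 9015 := by
      refine hb.trans ?_
      calc (q : ℝ) ^ 2 * (2 * A * (1 / (s0 : ℝ) + 12 / S) + 2 * A * S / Λ + 291 * X * s0 * S * Λ + 2 * H / A)
          ≤ (q : ℝ) ^ 2 * u ^ 8753 := mul_le_mul_of_nonneg_left hB (sq_nonneg _)
        _ ≤ (u ^ 131) ^ 2 * u ^ 8753 :=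
            mul_le_mul_of_nonneg_right (pow_le_pow_left₀ (Nat.cast_nonneg _) hq2 2) (pow_pos hu0 8753).le
        _ = u ^ 9015 := by rw [← pow_mul, ← pow_add]
    have hcard : ((Rg A1 A2 x H).card : ℝ) ≤ u * H := by
      have hτ : ∀ m : ℕ, 1 ≤ m → m < x + H → m.divisors.card ≤ ⌊u⌋₊ := by
        intro m hm1 hm2
        refine hd u hu2 m hm1 ?_
        have g1 : (m : ℝ) ≤ x + H := by exact_mod_cast hm2.le
        have g2 : (A : ℝ) ^ 2 ≤ u ^ 20000 := by
          calc (A : ℝ) ^ 2 ≤ (u ^ 10000) ^ 2 := pow_le_pow_left₀ (Nat.cast_nonneg _) hA2 2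
            _ = u ^ 20000 := by rw [← pow_mul]
        have g3 : 4 * u ^ 2 * (A : ℝ) ^ 2 ≤ 4 * u ^ 2 * u ^ 20000 := mul_le_mul_of_nonneg_left g2 (by positivity)
        have g4 : u ^ 2 * u ^ 20000 = u ^ 20002 := by rw [← pow_add]
        have g5 : u ^ 9740 ≤ u ^ 20002 := pow_le_pow_right₀ hu4 (by norm_num)
        have g6 : u ^ 20003 = u * u ^ 20002 := by rw [← pow_succ']
        have g7 : 7 * u ^ 20002 ≤ u * u ^ 20002 := mul_le_mul_of_nonneg_right (by linarith) (pow_pos hu0 20002).le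
        have g8 : 4 * u ^ 2 * u ^ 20000 = 4 * u ^ 20002 := by rw [mul_assoc, g4]
        linarith
      have h12 := s4_div (A2 := A2) hA1pos hxpos hτ (Ico x (x + H))
      have h13 : (Rg A1 A2 x H).filter (fun p => p.1 * p.2 ∈ Ico x (x + H)) = Rg A1 A2 x H := by
        refine filter_true_of_mem fun r hr => ?_
        obtain ⟨-, -, h14, h15⟩ := (mem_Rg hA1pos).1 hr
        exact mem_Ico.2 ⟨h14, h15⟩
      rw [h13, Nat.card_Ico, Nat.add_sub_cancel_left] at h12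
      calc ((Rg A1 A2 x H).card : ℝ) ≤ ((⌊u⌋₊ * H : ℕ) : ℝ) := by exact_mod_cast h12
        _ = (⌊u⌋₊ : ℝ) * H := by push_cast; rfl
        _ ≤ u * H := mul_le_mul_of_nonneg_right (Nat.floor_le hu0.le) (Nat.cast_nonneg _)
    have hm := m6_SR A1 A2 x H hA1pos ((p : ℝ) / q) θ
    have hH0 : (0 : ℝ) ≤ H := Nat.cast_nonneg _
    have hth : 2 * Real.pi * |θ| * H ≤ 1 / (16 * u ^ 2) := by
      have t1 : u ^ 9754 = u ^ 9740 * u ^ 14 := by rw [← pow_add]
      obtain ⟨y, hy⟩ : ∃ y : ℝ, y = |θ| * u ^ 9740 := ⟨_, rfl⟩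
      have hy0 : 0 ≤ y := by
        rw [hy]
        exact mul_nonneg (abs_nonneg _) (pow_pos hu0 9740).le
      have t2 : y * u ^ 14 ≤ 1 := by
        rw [hy, mul_assoc, ← t1]
        exact hθ
      have t3 : |θ| * H ≤ 3 * y := by
        rw [hy]
        calc |θ| * H ≤ |θ| * (3 * u ^ 9740) := mul_le_mul_of_nonneg_left h6 (abs_nonneg _)
          _ = _ := by ring
      have t4 : (320 : ℝ) * u ^ 2 ≤ u ^ 14 := by
        have t5 : u ^ 14 = u ^ 12 * u ^ 2 := by rw [← pow_add]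
        have t6 : (320 : ℝ) ≤ u ^ 12 := by
          calc (320 : ℝ) ≤ 100 ^ 12 := by norm_num
            _ ≤ u ^ 12 := pow_le_pow_left₀ (by norm_num) hu3 12
        rw [t5]
        exact mul_le_mul_of_nonneg_right t6 (by positivity)
      have t7 : Real.pi ≤ 3.15 := Real.pi_lt_d2.le
      have t8 : 0 < Real.pi := Real.pi_pos
      rw [le_div_iff₀ (by positivity)]
      have t9 : 2 * Real.pi * |θ| * H * (16 * u ^ 2) ≤ 2 * 3.15 * (3 * y) * (16 * u ^ 2) := by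
        refine mul_le_mul_of_nonneg_right ?_ (by positivity)
        calc 2 * Real.pi * |θ| * H = 2 * Real.pi * (|θ| * H) := by ring
          _ ≤ 2 * 3.15 * (3 * y) := mul_le_mul (by linarith) t3 (mul_nonneg (abs_nonneg _) hH0) (by norm_num)
      refine t9.trans ?_
      calc 2 * 3.15 * (3 * y) * (16 * u ^ 2) = y * (302.4 * u ^ 2) := by ring
        _ ≤ y * u ^ 14 := mul_le_mul_of_nonneg_left (by nlinarith [sq_nonneg u]) hy0
        _ ≤ 1 := t2
    have hm2 : ‖SR ((p : ℝ) / q + θ) A1 A2 x H - ee (θ * x) * SR ((p : ℝ) / q) A1 A2 x H‖ ≤ H / (16 * u) := by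
      refine hm.trans ?_
      calc ((Rg A1 A2 x H).card : ℝ) * (2 * Real.pi * |θ| * H) ≤ (u * H) * (1 / (16 * u ^ 2)) :=
            mul_le_mul hcard hth (by positivity) (mul_nonneg hu0.le hH0)
        _ = H / (16 * u) := by
            field_simp
    have hlast : u ^ 9015 ≤ H / (16 * u) := by
      rw [le_div_iff₀ (by positivity)]
      calc u ^ 9015 * (16 * u) = 16 * u ^ 9016 := by
            rw [show u ^ 9016 = u ^ 9015 * u from pow_succ u 9015]
            ring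
        _ ≤ u * u ^ 9016 := mul_le_mul_of_nonneg_right (by linarith) (pow_pos hu0 9016).le
        _ = u ^ 9017 := by rw [← pow_succ']
        _ ≤ u ^ 9740 := pow_le_pow_right₀ hu4 (by norm_num)
        _ ≤ H := h5
    rw [e2]
    have e3 : SR ((p : ℝ) / q + θ) A1 A2 x H - (((H : ℝ) / q * (Real.log A2 - Real.log A1) : ℝ) : ℂ) * ee (θ * x) =
        (SR ((p : ℝ) / q + θ) A1 A2 x H - ee (θ * x) * SR ((p : ℝ) / q) A1 A2 x H) +
        ee (θ * x) * (SR ((p : ℝ) / q) A1 A2 x H - (((H : ℝ) / q * (Real.log A2 - Real.log A1) : ℝ) : ℂ)) := by ring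
    rw [e3]
    refine (norm_add_le _ _).trans ?_
    rw [norm_mul, norm_ee, one_mul]
    have e4 : (H : ℝ) / (8 * u) = H / (16 * u) + H / (16 * u) := by
      rw [← add_div, div_eq_div_iff (by positivity) (by positivity)]
      ring
    rw [e4]
    exact add_le_add hm2 (hb2.trans hlast)

end Pool.Agent.Lib.H21T
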