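import Pool.Agent.Lib.H21T.Z2
import Pool.Agent.Lib.H21T.Z3
import Pool.Agent.Lib.H21T.M3
import Pool.Agent.Lib.H21T.M6

/-!
# Chunk Z6A (M): the model on the major arcs
-/

namespace Pool.Agent.Lib.H21T

open Finset Pool.Agent.SZW

/-- `p0 = round (q0 α)` for the `q0` of `Maj`; divide `p0`, `q0` by their gcd; `θ = α - p / q = (q0 α - p0) / q0`. -/
theorem z6_maj {u α : ℝ} (hu : 1 ≤ u) (h : Maj u α) : ∃ (q : ℕ) (p : ℤ) (θ : ℝ), 1 ≤ q ∧ (q : ℝ) ≤ u ^ 131 ∧ IsCoprime p (q : ℤ) ∧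
    α = (p : ℝ) / q + θ ∧ |θ| * u ^ 9754 ≤ 1 := by
  obtain ⟨q0, hq1, hq2, hq3⟩ := h
  have hu0 : (0 : ℝ) < u := by linarith
  have hq0 : (0 : ℝ) < q0 := by exact_mod_cast hq1
  have hq0' : (1 : ℝ) ≤ q0 := by exact_mod_cast hq1
  set p0 : ℤ := round ((q0 : ℝ) * α) with hp0
  obtain ⟨g, p, q, hg, hcop, hpe, hqe⟩ : ∃ (g : ℕ) (p : ℤ) (q : ℕ), 1 ≤ g ∧ IsCoprime p (q : ℤ) ∧
      p0 = p * g ∧ q0 = q * g := by
    have hgpos : 0 < Int.gcd p0 (q0 : ℤ) := Int.gcd_pos_of_ne_zero_right _ (by omega)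
    obtain ⟨a, b, hab, ha, hb⟩ := Int.exists_gcd_one hgpos
    have hgZ : (0 : ℤ) < ((Int.gcd p0 (q0 : ℤ) : ℕ) : ℤ) := by exact_mod_cast hgpos
    have hb0 : 0 < b := by
      by_contra hcon
      have h1 : b * ((Int.gcd p0 (q0 : ℤ) : ℕ) : ℤ) ≤ 0 :=
        mul_nonpos_of_nonpos_of_nonneg (not_lt.1 hcon) hgZ.le
      have h2 : (0 : ℤ) < q0 := by omega
      rw [← hb] at h1
      omega
    obtain ⟨b', hb'⟩ := Int.eq_ofNat_of_zero_le hb0.le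
    refine ⟨Int.gcd p0 (q0 : ℤ), a, b', hgpos, ?_, ha, ?_⟩
    · rw [Int.isCoprime_iff_gcd_eq_one, ← hb']
      exact hab
    · rw [hb'] at hb
      exact_mod_cast hb
  have hqpos : 1 ≤ q := by
    rcases Nat.eq_zero_or_pos q with h0 | h0
    · rw [h0, zero_mul] at hqe
      omega
    · exact h0
  have hqR : (0 : ℝ) < q := by exact_mod_cast hqpos
  have hgR : (0 : ℝ) < g := by exact_mod_cast hg
  have hqeR : (q0 : ℝ) = q * g := by exact_mod_cast hqe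
  have hpeR : (p0 : ℝ) = p * g := by exact_mod_cast hpe
  refine ⟨q, p, α - (p : ℝ) / q, hqpos, ?_, hcop, by ring, ?_⟩
  · have h1 : (q : ℝ) ≤ q0 := by
      have h2 : q ≤ q0 := by
        rw [hqe]
        exact Nat.le_mul_of_pos_right _ hg
      exact_mod_cast h2
    linarith
  · have h1 : α - (p : ℝ) / q = ((q0 : ℝ) * α - p0) / q0 := by
      rw [hqeR, hpeR]
      field_simp
    have h2 : |α - (p : ℝ) / q| ≤ nn ((q0 : ℝ) * α) := by
      rw [h1, abs_div, abs_of_pos hq0]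
      unfold nn
      rw [← hp0]
      exact div_le_self (abs_nonneg _) hq0'
    exact (mul_le_mul_of_nonneg_right h2 (by positivity)).trans hq3

/-- `m6` with `β = p / q`, `L = max 0 (..)` of `z2`, `ε = 24 / A1`, `B = u ^ 2` (`m1_g`, `z3_div`: `x + H ≤ u ^ 20003`; `1 + log Q ≤ u`), then `m4`: error at most
`H * u ^ 2 (24 u ^ (-9999) + 6 π u ^ (-14)) + u * u * u ^ 131 ≤ H / (8 u)`. -/
theorem z6_model : ∃ U0 : ℝ, 1 ≤ U0 ∧ ∀ u : ℝ, U0 ≤ u → ∀ (Q A1 A2 B1 B2 x H q : ℕ) (p : ℤ) (θ : ℝ), 1 ≤ Q → (Q : ℝ) ≤ u → u ^ 9999 ≤ A1 →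
    A1 ≤ B1 → A1 ≤ A2 → A2 ≤ 2 * A1 → B1 ≤ B2 → B2 ≤ 2 * B1 → ((A1 * B1 : ℕ) : ℝ) ≤ u ^ 20000 → A1 * B1 ≤ 2 * x → x ≤ 4 * (A1 * B1) →
    u ^ 9740 ≤ H → (H : ℝ) ≤ 3 * u ^ 9740 → 1 ≤ q → (q : ℝ) ≤ u ^ 131 → IsCoprime p (q : ℤ) → |θ| * u ^ 9754 ≤ 1 →
    ‖∑ m ∈ Ico x (x + H), (Mbox Q A1 A2 B1 B2 m : ℂ) * ee (((p : ℝ) / q + θ) * m) -
      (((if q ≤ Q then (H : ℝ) / q else 0) *
        max 0 (Real.log (min A2 (x / B1 + 1) : ℕ) - Real.log (max A1 (x / B2 + 1) : ℕ)) : ℝ) : ℂ) * ee (θ * x)‖ ≤ H / (8 * u) := by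
  obtain ⟨U1, hU1, hdiv⟩ := z3_div
  refine ⟨max U1 16, le_trans hU1 (le_max_left _ _), ?_⟩
  intro u hu Q A1 A2 B1 B2 x H q p θ hQ hQu hA1 hAB hA2 hA2' hB2 hB2' hABu hx1 hx2 hH1 hH2 hq1 hq2
    hpq hθ
  have hu1 : U1 ≤ u := (le_max_left _ _).trans hu
  have hu16 : (16 : ℝ) ≤ u := (le_max_right _ _).trans hu
  have hu0 : (0 : ℝ) < u := by linarith
  have hone : (1 : ℝ) ≤ u := by linarith
  have hpw : ∀ {i j : ℕ}, i ≤ j → u ^ i ≤ u ^ j := fun hij => pow_le_pow_right₀ hone hij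
  have hpp : ∀ i : ℕ, (0 : ℝ) < u ^ i := fun i => pow_pos hu0 i
  have hA16 : (16 : ℝ) ≤ A1 := by
    have h1 : u ^ 1 ≤ u ^ 9999 := hpw (by norm_num)
    rw [pow_one] at h1
    linarith
  have hA8 : 8 ≤ A1 := by
    have h1 : (8 : ℝ) ≤ A1 := by linarith
    exact_mod_cast h1
  have hA0 : (0 : ℝ) < A1 := by linarith
  have hH3 : H ≤ 3 * A1 := by
    have h1 : u ^ 9740 ≤ u ^ 9999 := hpw (by norm_num)
    have h2 : (H : ℝ) ≤ 3 * A1 := by linarith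
    exact_mod_cast h2
  have hxpos : 1 ≤ x := by
    have h1 : 1 ≤ A1 * B1 := Nat.one_le_iff_ne_zero.mpr (by
      have : 0 < A1 * B1 := Nat.mul_pos (by omega) (by omega)
      omega)
    omega
  set L : ℝ := max 0 (Real.log (min A2 (x / B1 + 1) : ℕ) - Real.log (max A1 (x / B2 + 1) : ℕ))
    with hLdef
  have hL0 : 0 ≤ L := le_max_left _ _
  have hL1 : L ≤ 1 := by
    rw [hLdef]
    refine max_le (by norm_num) ?_
    have h1 : Real.log ((min A2 (x / B1 + 1) : ℕ) : ℝ) ≤ Real.log (2 * A1) := by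
      refine Real.log_le_log ?_ ?_
      · have h2 : 0 < min A2 (x / B1 + 1) := lt_min (by omega) (Nat.succ_pos _)
        exact_mod_cast h2
      · have h2 : min A2 (x / B1 + 1) ≤ 2 * A1 := (min_le_left _ _).trans hA2'
        exact_mod_cast h2
    have h3 : Real.log A1 ≤ Real.log ((max A1 (x / B2 + 1) : ℕ) : ℝ) := by
      refine Real.log_le_log hA0 ?_
      have h4 : A1 ≤ max A1 (x / B2 + 1) := le_max_left _ _
      exact_mod_cast h4
    have h5 : Real.log (2 * (A1 : ℝ)) = Real.log 2 + Real.log A1 :=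
      Real.log_mul (by norm_num) (by linarith)
    have h6 : Real.log 2 ≤ 1 := by
      have := Real.log_two_lt_d9
      linarith
    linarith
  have hLabs : |L| ≤ 1 := by rw [abs_of_nonneg hL0]; exact hL1
  have hlog : 1 + Real.log Q ≤ u := by
    have hQ0 : (0 : ℝ) < Q := by exact_mod_cast hQ
    have h1 := Real.log_le_sub_one_of_pos hQ0
    linarith
  have hlog0 : 0 ≤ 1 + Real.log Q := by
    have hQ1 : (1 : ℝ) ≤ Q := by exact_mod_cast hQ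
    have := Real.log_nonneg hQ1
    linarith
  have hl : ∀ m, x ≤ m → m < x + H → |lbox A1 A2 B1 B2 m - L| ≤ 24 / (A1 : ℝ) := fun m h1 h2 =>
    z2 A1 A2 B1 B2 x H m hA8 hAB hA2 hB2 hB2' hx1 hH3 h1 h2
  have hg : ∀ m, x ≤ m → m < x + H → |gQ Q m| ≤ u ^ 2 := by
    intro m h1 h2
    have hm1 : 1 ≤ m := by omega
    have h3 := m1_g Q m hQ hm1
    have h4 : (m : ℝ) ≤ u ^ 20003 := by
      have h5 : (m : ℝ) ≤ x + H := by exact_mod_cast h2.le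
      have h6 : (x : ℝ) ≤ 4 * u ^ 20000 := by
        have h7 : (x : ℝ) ≤ 4 * ((A1 * B1 : ℕ) : ℝ) := by exact_mod_cast hx2
        linarith
      have h8 : u ^ 9740 ≤ u ^ 20000 := hpw (by norm_num)
      have h9 : u ^ 20003 = u ^ 20000 * u ^ 3 := by rw [← pow_add]
      have h10 : (7 : ℝ) ≤ u ^ 3 := by
        have h11 : u ^ 1 ≤ u ^ 3 := hpw (by norm_num)
        rw [pow_one] at h11
        linarith
      have h12 : u ^ 20000 * 7 ≤ u ^ 20000 * u ^ 3 := mul_le_mul_of_nonneg_left h10 (hpp _).le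
      rw [h9]
      linarith
    have h5 := hdiv u hu1 m hm1 h4
    have h6 : (m.divisors.card : ℝ) ≤ u := by
      have h7 : (m.divisors.card : ℝ) ≤ ((⌊u⌋₊ : ℕ) : ℝ) := by exact_mod_cast h5
      exact h7.trans (Nat.floor_le hu0.le)
    calc |gQ Q m| ≤ m.divisors.card * (1 + Real.log Q) := h3
      _ ≤ u * u := mul_le_mul h6 hlog hlog0 hu0.le
      _ = u ^ 2 := by ring
  have hm6 := m6 x H ((p : ℝ) / q) θ L (24 / (A1 : ℝ)) (u ^ 2) (lbox A1 A2 B1 B2) (gQ Q) hLabs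
    (by positivity) (by positivity) hl hg
  have hm4 := m4 x H Q q p hQ hq1 hpq
  set S1 : ℂ := ∑ m ∈ Ico x (x + H), (Mbox Q A1 A2 B1 B2 m : ℂ) * ee (((p : ℝ) / q + θ) * m)
    with hS1
  set S2 : ℂ := ∑ m ∈ Ico x (x + H), (gQ Q m : ℂ) * ee ((p : ℝ) / q * m) with hS2
  set m0 : ℝ := if q ≤ Q then (H : ℝ) / q else 0 with hm0
  have hm6' : ‖S1 - (L : ℂ) * ee (θ * x) * S2‖ ≤
      H * u ^ 2 * (24 / (A1 : ℝ) + 2 * Real.pi * |θ| * H) := hm6
  have hsplit : S1 - ((m0 * L : ℝ) : ℂ) * ee (θ * x) =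
      (S1 - (L : ℂ) * ee (θ * x) * S2) + (L : ℂ) * ee (θ * x) * (S2 - (m0 : ℂ)) := by
    push_cast
    ring
  have hQ1 : (1 : ℝ) ≤ Q := by exact_mod_cast hQ
  have h133 : (Q : ℝ) * (1 + Real.log Q) * q ≤ u ^ 133 := by
    have h1 : (Q : ℝ) * (1 + Real.log Q) ≤ u * u := mul_le_mul hQu hlog hlog0 hu0.le
    calc (Q : ℝ) * (1 + Real.log Q) * q ≤ (u * u) * u ^ 131 :=
          mul_le_mul h1 hq2 (Nat.cast_nonneg _) (by positivity)
      _ = u ^ 133 := by ring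
  have hsec : ‖(L : ℂ) * ee (θ * x) * (S2 - (m0 : ℂ))‖ ≤ u ^ 133 := by
    rw [norm_mul, norm_mul, norm_ee, mul_one, Complex.norm_real, Real.norm_eq_abs]
    calc |L| * ‖S2 - (m0 : ℂ)‖ ≤ 1 * u ^ 133 :=
          mul_le_mul hLabs (hm4.trans h133) (norm_nonneg _) (by norm_num)
      _ = u ^ 133 := one_mul _
  have hA14 : 24 / (A1 : ℝ) ≤ 24 / u ^ 14 := by
    have h1 : u ^ 14 ≤ u ^ 9999 := hpw (by norm_num)
    exact div_le_div_of_nonneg_left (by norm_num) (hpp 14) (h1.trans hA1)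
  have hθH : |θ| * u ^ 9740 ≤ 1 / u ^ 14 := by
    rw [le_div_iff₀ (hpp 14), mul_assoc, ← pow_add]
    exact hθ
  have hπ : 2 * Real.pi * |θ| * H ≤ 20 / u ^ 14 := by
    have hpi : Real.pi ≤ 3.15 := Real.pi_lt_d2.le
    have h1 : |θ| * H ≤ 3 * (1 / u ^ 14) := by
      have h2 : |θ| * H ≤ |θ| * (3 * u ^ 9740) := mul_le_mul_of_nonneg_left hH2 (abs_nonneg _)
      have h3 : |θ| * (3 * u ^ 9740) = 3 * (|θ| * u ^ 9740) := by ring
      rw [h3] at h2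
      linarith
    have h0 : 0 ≤ |θ| * (H : ℝ) := by positivity
    have h4 : 0 ≤ 1 / u ^ 14 := by positivity
    calc 2 * Real.pi * |θ| * H = (2 * Real.pi) * (|θ| * H) := by ring
      _ ≤ 6.3 * (3 * (1 / u ^ 14)) := mul_le_mul (by linarith) h1 h0 (by norm_num)
      _ = 18.9 * (1 / u ^ 14) := by ring
      _ ≤ 20 * (1 / u ^ 14) := by
          exact mul_le_mul_of_nonneg_right (by norm_num) h4
      _ = 20 / u ^ 14 := by ring
  have hHpos : (0 : ℝ) < H := lt_of_lt_of_le (hpp 9740) hH1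
  have hfirst : (H : ℝ) * u ^ 2 * (24 / (A1 : ℝ) + 2 * Real.pi * |θ| * H) ≤ H / (16 * u) := by
    have h1 : 24 / (A1 : ℝ) + 2 * Real.pi * |θ| * H ≤ 44 / u ^ 14 := by
      have h2 : 24 / u ^ 14 + 20 / u ^ 14 = 44 / u ^ 14 := by ring
      linarith
    have h3 : (H : ℝ) * u ^ 2 * (24 / (A1 : ℝ) + 2 * Real.pi * |θ| * H) ≤
        H * u ^ 2 * (44 / u ^ 14) := mul_le_mul_of_nonneg_left h1 (by positivity)
    refine h3.trans ?_
    rw [div_eq_mul_one_div (H : ℝ) (16 * u), mul_assoc]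
    refine mul_le_mul_of_nonneg_left ?_ hHpos.le
    have h4 : u ^ 2 * (44 / u ^ 14) = 44 / u ^ 12 := by
      field_simp
    rw [h4, div_le_div_iff₀ (hpp 12) (by positivity)]
    have h5 : u ^ 12 = u * u ^ 11 := by ring
    have h6 : (704 : ℝ) ≤ u ^ 11 := by
      have h7 : (16 : ℝ) ^ 11 ≤ u ^ 11 := pow_le_pow_left₀ (by norm_num) hu16 11
      have h8 : (704 : ℝ) ≤ 16 ^ 11 := by norm_num
      linarith
    have h9 : u * 704 ≤ u * u ^ 11 := mul_le_mul_of_nonneg_left h6 hu0.le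
    rw [h5]
    linarith
  have hsecond : u ^ 133 ≤ H / (16 * u) := by
    rw [le_div_iff₀ (by positivity)]
    have h1 : u ^ 133 * (16 * u) = 16 * u ^ 134 := by ring
    have h2 : 16 * u ^ 134 ≤ u * u ^ 134 := mul_le_mul_of_nonneg_right hu16 (hpp 134).le
    have h3 : u * u ^ 134 = u ^ 135 := by ring
    have h4 : u ^ 135 ≤ u ^ 9740 := hpw (by norm_num)
    linarith
  rw [hsplit]
  refine (norm_add_le _ _).trans ?_
  have hfin : (H : ℝ) / (16 * u) + H / (16 * u) = H / (8 * u) := by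
    field_simp
    norm_num
  have h1 := hm6'.trans hfirst
  have h2 := hsec.trans hsecond
  linarith

end Pool.Agent.Lib.H21T
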