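import Pool.Agent.Lib.H21T.Defs

/-!
# Chunk Z7 (S): long intervals
-/

namespace Pool.Agent.Lib.H21T

open Finset Pool.Agent.SZW

/-- Strong induction on `H`: if `H ≤ 3 h0` it is the hypothesis; otherwise split off an interval of length `⌈h0⌉₊` (`h0 ≤ ⌈h0⌉₊ ≤ h0 + 1 ≤ 2 h0`), the rest has length
`> 3 h0 - 2 h0`. -/
theorem z7 (F : ℕ → ℂ) (h0 c : ℝ) (h1 : 1 ≤ h0) (hc : 0 ≤ c)
    (h : ∀ y k : ℕ, h0 ≤ k → (k : ℝ) ≤ 3 * h0 → ‖∑ m ∈ Ico y (y + k), F m‖ ≤ c * k) (x H : ℕ) (hH : h0 ≤ H) :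
    ‖∑ m ∈ Ico x (x + H), F m‖ ≤ c * H := by
  induction H using Nat.strong_induction_on generalizing x with
  | _ H ih =>
    by_cases h3 : (H : ℝ) ≤ 3 * h0
    · exact h x H hH h3
    · push Not at h3
      set k := ⌈h0⌉₊ with hk
      have hk0 : h0 ≤ k := Nat.le_ceil h0
      have hk1 : (k : ℝ) < h0 + 1 := Nat.ceil_lt_add_one (by linarith)
      have hkH : k ≤ H := by
        have : (k : ℝ) ≤ H := by linarith
        exact_mod_cast this
      have hkpos : 1 ≤ k := by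
        have : (1 : ℝ) ≤ k := by linarith
        exact_mod_cast this
      obtain ⟨j, hj⟩ := Nat.exists_eq_add_of_le hkH
      have hjr : (H : ℝ) = k + j := by rw [hj]; push_cast; ring
      have hj1 : h0 ≤ (j : ℝ) := by linarith
      have hjH : j < H := by omega
      have hsum : ∑ m ∈ Ico x (x + H), F m
          = ∑ m ∈ Ico x (x + k), F m + ∑ m ∈ Ico (x + k) (x + k + j), F m := by
        rw [hj, ← Nat.add_assoc]
        exact (Finset.sum_Ico_consecutive F (by omega) (by omega)).symm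
      rw [hsum]
      calc ‖∑ m ∈ Ico x (x + k), F m + ∑ m ∈ Ico (x + k) (x + k + j), F m‖
          ≤ ‖∑ m ∈ Ico x (x + k), F m‖ + ‖∑ m ∈ Ico (x + k) (x + k + j), F m‖ := norm_add_le _ _
        _ ≤ c * k + c * j := add_le_add (h x k hk0 (by linarith)) (ih j hjH (x + k) hj1)
        _ = c * H := by rw [hjr]; ring

end Pool.Agent.Lib.H21T
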