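import Pool.Agent.Lib.H21T.Z4
import Pool.Agent.Lib.H21T.Z6
import Pool.Agent.Lib.H21T.Z7

/-!
# The main theorem (parts D3 + D4)
-/

namespace Pool.Agent.Lib.H21T

open Finset Pool.Agent.SZW

theorem main_u : ∃ U0 : ℝ, 1 ≤ U0 ∧ ∀ u : ℝ, U0 ≤ u → ∀ (Q A1 A2 B1 B2 x H : ℕ) (α : ℝ), 1 ≤ Q → (Q : ℝ) ≤ u → u ^ 9999 ≤ A1 → u ^ 9999 ≤ B1 →
    A1 ≤ A2 → A2 ≤ 2 * A1 → B1 ≤ B2 → B2 ≤ 2 * B1 → ((A1 * B1 : ℕ) : ℝ) ≤ u ^ 20000 → u ^ 9999 ≤ H →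
    ‖∑ m ∈ Ico x (x + H), ((dbox A1 A2 B1 B2 m : ℂ) - (Mbox Q A1 A2 B1 B2 m : ℂ)) * ee (α * m)‖ ≤ H * (1 / Q + 1 / u) := by
  obtain ⟨U1, hU1, h1⟩ := z4
  obtain ⟨U2, hU2, h2⟩ := z6
  refine ⟨max U1 U2, le_max_of_le_left hU1, fun u hu => ?_⟩
  have hu1 : U1 ≤ u := (le_max_left _ _).trans hu
  have hu2 : U2 ≤ u := (le_max_right _ _).trans hu
  have hu0 : 1 ≤ u := hU1.trans hu1
  have hu' : 0 < u := by linarith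
  have key : ∀ (Q A1 A2 B1 B2 x H : ℕ) (α : ℝ), 1 ≤ Q → (Q : ℝ) ≤ u → u ^ 9999 ≤ A1 →
      A1 ≤ B1 → A1 ≤ A2 → A2 ≤ 2 * A1 → B1 ≤ B2 → B2 ≤ 2 * B1 → ((A1 * B1 : ℕ) : ℝ) ≤ u ^ 20000 → u ^ 9999 ≤ H →
      ‖∑ m ∈ Ico x (x + H), ((dbox A1 A2 B1 B2 m : ℂ) - (Mbox Q A1 A2 B1 B2 m : ℂ)) * ee (α * m)‖ ≤ H * (1 / Q + 1 / u) := by
    intro Q A1 A2 B1 B2 x H α hQ1 hQu hA hAB hA1 hA2 hB1 hB2 hN hH
    have hQ0 : (0 : ℝ) < Q := by exact_mod_cast hQ1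
    have hc : 0 ≤ 1 / (Q : ℝ) + 1 / u := by positivity
    have hpow : ∀ n : ℕ, 1 ≤ u ^ n := fun n => one_le_pow₀ hu0
    by_cases hM : Maj u α
    · have h3 := z7 (fun m => ((dbox A1 A2 B1 B2 m : ℂ) - (Mbox Q A1 A2 B1 B2 m : ℂ)) * ee (α * m)) (u ^ 9740) (1 / (Q : ℝ) + 1 / u)
        (hpow _) hc (fun y k hk1 hk2 => by
          have h4 := h2 u hu2 Q A1 A2 B1 B2 y k α hQ1 hQu hA hAB hA1 hA2 hB1 hB2 hN hk1 hk2 hM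
          rwa [mul_comm] at h4) x H ((pow_le_pow_right₀ hu0 (by norm_num)).trans hH)
      rwa [mul_comm] at h3
    · have h3 := z7 (fun m => ((dbox A1 A2 B1 B2 m : ℂ) - (Mbox Q A1 A2 B1 B2 m : ℂ)) * ee (α * m)) (u ^ 9999) (1 / u)
        (hpow _) (by positivity) (fun y k hk1 hk2 => by
          have h4 := h1 u hu1 Q A1 A2 B1 B2 y k α hQ1 hQu hA hAB hA1 hA2 hB1 hB2 hN hk1 hk2 hM
          have h5 : (k : ℝ) / u = 1 / u * k := by ring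
          rwa [h5] at h4) x H hH
      refine h3.trans ?_
      rw [mul_comm]
      exact mul_le_mul_of_nonneg_left (by linarith [show (0 : ℝ) ≤ 1 / Q by positivity]) (Nat.cast_nonneg _)
  intro Q A1 A2 B1 B2 x H α hQ1 hQu hA hB hA1 hA2 hB1 hB2 hN hH
  rcases le_total A1 B1 with hAB | hAB
  · exact key Q A1 A2 B1 B2 x H α hQ1 hQu hA hAB hA1 hA2 hB1 hB2 hN hH
  · have h3 := key Q B1 B2 A1 A2 x H α hQ1 hQu hB hAB hB1 hB2 hA1 hA2 (by rwa [mul_comm]) hH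
    refine le_trans (le_of_eq ?_) h3
    congr 1
    refine Finset.sum_congr rfl fun m _ => ?_
    rw [dbox_symm, Mbox_symm]

/-- **D3 + D4.** The divisor function of a box minus its model has no large exponential sums on intervals of length at least `N ^ (1 / 2 - κ)`. -/
theorem D34 : ∃ κ : ℝ, 0 < κ ∧ κ ≤ 1 / 2 ∧ ∀ ε : ℝ, 0 < ε → ε ≤ κ → ∃ N0 : ℕ, ∀ N : ℕ, N0 ≤ N → ∀ A1 A2 B1 B2 : ℕ,
    (N : ℝ) ^ (1 / 2 - κ) ≤ A1 → (N : ℝ) ^ (1 / 2 - κ) ≤ B1 → A1 ≤ A2 → A2 ≤ 2 * A1 → B1 ≤ B2 → B2 ≤ 2 * B1 → A1 * B1 ≤ N →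
    ∀ (x H : ℕ) (α : ℝ), (N : ℝ) ^ (1 / 2 - κ) ≤ H →
    ‖∑ m ∈ Ico x (x + H), ((dbox A1 A2 B1 B2 m : ℂ) - (Mbox ⌊(N : ℝ) ^ ε⌋₊ A1 A2 B1 B2 m : ℂ)) * ee (α * m)‖ ≤
      H * (N : ℝ) ^ (-(ε / 2)) := by
  obtain ⟨U0, hU0, h⟩ := main_u
  refine ⟨1 / 20000, by norm_num, by norm_num, fun ε hε hεκ => ?_⟩
  obtain ⟨N1, hN1⟩ := exists_nat_ge (U0 ^ 20000)
  obtain ⟨N2, hN2⟩ := exists_nat_ge ((3 : ℝ) ^ (2 / ε))
  refine ⟨max (max N1 N2) 1, fun N hN A1 A2 B1 B2 hA hB hA1 hA2 hB1 hB2 hAB x H α hH => ?_⟩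
  have hNN1 : N1 ≤ N := (le_max_left _ _).trans ((le_max_left _ _).trans hN)
  have hNN2 : N2 ≤ N := (le_max_right _ _).trans ((le_max_left _ _).trans hN)
  have hNge : 1 ≤ N := (le_max_right _ _).trans hN
  have hNr : (1 : ℝ) ≤ N := by exact_mod_cast hNge
  have hN0 : (0 : ℝ) < N := by linarith
  set u : ℝ := (N : ℝ) ^ (1 / 20000 : ℝ) with hu
  have hu1 : 1 ≤ u := Real.one_le_rpow hNr (by norm_num)
  have hu0 : 0 < u := by linarith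
  have hpow : ∀ k : ℕ, u ^ k = (N : ℝ) ^ ((k : ℝ) / 20000) := by
    intro k
    rw [hu, ← Real.rpow_natCast, ← Real.rpow_mul hN0.le]
    congr 1
    ring
  have h9999 : u ^ 9999 = (N : ℝ) ^ ((1 : ℝ) / 2 - 1 / 20000) := by
    rw [hpow]
    congr 1
    norm_num
  have h20000 : u ^ 20000 = (N : ℝ) := by
    rw [hpow]
    norm_num
  have hUu : U0 ≤ u := by
    have h5 : U0 ^ 20000 ≤ u ^ 20000 := by
      rw [h20000]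
      exact hN1.trans (by exact_mod_cast hNN1)
    exact le_of_pow_le_pow_left₀ (by norm_num) hu0.le h5
  have hε1 : (N : ℝ) ^ ε ≤ u := Real.rpow_le_rpow_of_exponent_le hNr hεκ
  have hε2 : 1 ≤ (N : ℝ) ^ ε := Real.one_le_rpow hNr hε.le
  set Q : ℕ := ⌊(N : ℝ) ^ ε⌋₊ with hQ
  have hQ1 : 1 ≤ Q := Nat.le_floor (by simpa using hε2)
  have hQu : (Q : ℝ) ≤ u := (Nat.floor_le (by positivity)).trans hε1
  have hQ0 : (0 : ℝ) < Q := by exact_mod_cast hQ1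
  have h6 := h u hUu Q A1 A2 B1 B2 x H α hQ1 hQu (by rw [h9999]; exact hA) (by rw [h9999]; exact hB) hA1 hA2 hB1 hB2
    (by rw [h20000]; exact_mod_cast hAB) (by rw [h9999]; exact hH)
  refine h6.trans (mul_le_mul_of_nonneg_left ?_ (Nat.cast_nonneg _))
  have h7 : (N : ℝ) ^ ε ≤ 2 * Q := by
    have h8 : (N : ℝ) ^ ε < Q + 1 := Nat.lt_floor_add_one _
    have h9 : (1 : ℝ) ≤ Q := by exact_mod_cast hQ1
    linarith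
  have hε0 : 0 < (N : ℝ) ^ ε := by positivity
  have h8 : 1 / (Q : ℝ) ≤ 2 / (N : ℝ) ^ ε := by
    rw [div_le_div_iff₀ hQ0 hε0]
    linarith
  have h9 : 1 / u ≤ 1 / (N : ℝ) ^ ε := one_div_le_one_div_of_le hε0 hε1
  have h10 : 3 ≤ (N : ℝ) ^ (ε / 2) := by
    have h11 : (3 : ℝ) ^ (2 / ε) ≤ N := hN2.trans (by exact_mod_cast hNN2)
    have h12 := Real.rpow_le_rpow (by positivity) h11 (by positivity : 0 ≤ ε / 2)
    rw [← Real.rpow_mul (by norm_num)] at h12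
    have h13 : 2 / ε * (ε / 2) = 1 := by field_simp
    rwa [h13, Real.rpow_one] at h12
  have h14 : (N : ℝ) ^ ε = (N : ℝ) ^ (ε / 2) * (N : ℝ) ^ (ε / 2) := by
    rw [← Real.rpow_add hN0]
    congr 1
    ring
  have h15 : (N : ℝ) ^ (-(ε / 2)) = 1 / (N : ℝ) ^ (ε / 2) := by
    rw [Real.rpow_neg hN0.le, one_div]
  have h16 : 0 < (N : ℝ) ^ (ε / 2) := by positivity
  calc 1 / (Q : ℝ) + 1 / u ≤ 2 / (N : ℝ) ^ ε + 1 / (N : ℝ) ^ ε := add_le_add h8 h9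
    _ = 3 / (N : ℝ) ^ ε := by ring
    _ ≤ (N : ℝ) ^ (-(ε / 2)) := by
      rw [h15, h14, div_le_div_iff₀ (by positivity) h16]
      nlinarith

end Pool.Agent.Lib.H21T
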