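import Pool.Agent.Lib.H21T.Defs

/-!
# Chunk S1 (M): averaging over shifts
-/

namespace Pool.Agent.Lib.H21T

open Finset Pool.Agent.SZW

theorem s1_one (R : Finset (ℤ × ℤ)) (φ : ℤ × ℤ → ℂ) (hφ : ∀ p, ‖φ p‖ ≤ 1) (τ : (ℤ × ℤ) ≃ (ℤ × ℤ)) (E : ℝ)
    (h1 : ((R.filter fun p => τ p ∉ R).card : ℝ) ≤ E)
    (h2 : ((R.filter fun p => τ.symm p ∉ R).card : ℝ) ≤ E) :
    ‖∑ p ∈ R, φ p - ∑ p ∈ R, φ (τ p)‖ ≤ 2 * E := by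
  have e1 : ∑ p ∈ R, φ (τ p) = ∑ p ∈ R.map τ.toEmbedding, φ p := by
    rw [Finset.sum_map]
    rfl
  have e2 : (R.map τ.toEmbedding \ R).card = (R.filter fun p => τ p ∉ R).card := by
    have h3 : R.map τ.toEmbedding \ R = (R.filter fun p => τ p ∉ R).map τ.toEmbedding := by
      ext p
      simp only [Finset.mem_sdiff, Finset.mem_map, Finset.mem_filter, Equiv.coe_toEmbedding]
      constructor
      · rintro ⟨⟨a, ha, rfl⟩, h⟩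
        exact ⟨a, ⟨ha, h⟩, rfl⟩
      · rintro ⟨a, ⟨ha, h⟩, rfl⟩
        exact ⟨⟨a, ha, rfl⟩, h⟩
    rw [h3, Finset.card_map]
  have e3 : R \ R.map τ.toEmbedding = R.filter fun p => τ.symm p ∉ R := by
    ext p
    rw [Finset.mem_sdiff, Finset.mem_filter, Finset.mem_map_equiv]
  have hb : ∀ T : Finset (ℤ × ℤ), ‖∑ p ∈ T, φ p‖ ≤ T.card := by
    intro T
    calc ‖∑ p ∈ T, φ p‖ ≤ ∑ p ∈ T, ‖φ p‖ := norm_sum_le _ _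
      _ ≤ ∑ p ∈ T, (1 : ℝ) := Finset.sum_le_sum fun p _ => hφ p
      _ = T.card := by simp
  rw [e1, ← Finset.sum_sdiff_sub_sum_sdiff]
  have h5 := norm_sub_le (∑ p ∈ R \ R.map τ.toEmbedding, φ p) (∑ p ∈ R.map τ.toEmbedding \ R, φ p)
  have h6 := hb (R \ R.map τ.toEmbedding)
  have h7 := hb (R.map τ.toEmbedding \ R)
  rw [e2] at h7
  rw [e3] at h6 h5 ⊢
  linarith

/-- For fixed `k < K` let `τ p = (p.1 + k s, p.2 - k t)` (a bijection of `ℤ × ℤ`). `∑_{p ∈ R} φ (τ p) = ∑_{p ∈ τ R} φ p`, and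
`∑_{p ∈ R} φ p - ∑_{p ∈ τ R} φ p = ∑_{R \ τ R} φ - ∑_{τ R \ R} φ`, where `|R \ τ R| = |{p ∈ R : τ⁻¹ p ∉ R}| ≤ E` (`h2`) and
`|τ R \ R| = |{p ∈ R : τ p ∉ R}| ≤ E` (`h1`). So `‖∑_R φ p - ∑_R φ (τ p)‖ ≤ 2 E`; sum over `k < K`, exchange the two sums. -/
theorem s1 (R : Finset (ℤ × ℤ)) (φ : ℤ × ℤ → ℂ) (hφ : ∀ p, ‖φ p‖ ≤ 1) (s t : ℤ) (K : ℕ) (E : ℝ)
    (h1 : ∀ k : ℕ, k < K → ((R.filter fun p => (p.1 + (k : ℤ) * s, p.2 - (k : ℤ) * t) ∉ R).card : ℝ) ≤ E)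
    (h2 : ∀ k : ℕ, k < K → ((R.filter fun p => (p.1 - (k : ℤ) * s, p.2 + (k : ℤ) * t) ∉ R).card : ℝ) ≤ E) :
    (K : ℝ) * ‖∑ p ∈ R, φ p‖ ≤
      ∑ p ∈ R, ‖∑ k ∈ range K, φ (p.1 + (k : ℤ) * s, p.2 - (k : ℤ) * t)‖ + 2 * K * E := by
  have key : ∀ k ∈ range K, ‖∑ p ∈ R, φ p - ∑ p ∈ R, φ (p.1 + (k : ℤ) * s, p.2 - (k : ℤ) * t)‖ ≤ 2 * E := by
    intro k hk
    rw [Finset.mem_range] at hk
    let τ : (ℤ × ℤ) ≃ (ℤ × ℤ) :=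
      { toFun := fun p => (p.1 + (k : ℤ) * s, p.2 - (k : ℤ) * t)
        invFun := fun p => (p.1 - (k : ℤ) * s, p.2 + (k : ℤ) * t)
        left_inv := fun p => by simp
        right_inv := fun p => by simp }
    exact s1_one R φ hφ τ E (h1 k hk) (h2 k hk)
  have e1 : (K : ℂ) * ∑ p ∈ R, φ p = ∑ k ∈ range K, (∑ p ∈ R, φ p - ∑ p ∈ R, φ (p.1 + (k : ℤ) * s, p.2 - (k : ℤ) * t)) +
      ∑ p ∈ R, ∑ k ∈ range K, φ (p.1 + (k : ℤ) * s, p.2 - (k : ℤ) * t) := by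
    rw [Finset.sum_sub_distrib, Finset.sum_comm (s := R), Finset.sum_const, Finset.card_range, nsmul_eq_mul]
    ring
  have e2 : (K : ℝ) * ‖∑ p ∈ R, φ p‖ = ‖(K : ℂ) * ∑ p ∈ R, φ p‖ := by
    rw [norm_mul, Complex.norm_natCast]
  rw [e2, e1]
  have h3 := norm_add_le (∑ k ∈ range K, (∑ p ∈ R, φ p - ∑ p ∈ R, φ (p.1 + (k : ℤ) * s, p.2 - (k : ℤ) * t)))
    (∑ p ∈ R, ∑ k ∈ range K, φ (p.1 + (k : ℤ) * s, p.2 - (k : ℤ) * t))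
  have h4 : ‖∑ k ∈ range K, (∑ p ∈ R, φ p - ∑ p ∈ R, φ (p.1 + (k : ℤ) * s, p.2 - (k : ℤ) * t))‖ ≤ K * (2 * E) := by
    refine (norm_sum_le _ _).trans ((Finset.sum_le_sum key).trans (le_of_eq ?_))
    rw [Finset.sum_const, Finset.card_range, nsmul_eq_mul]
  have h5 := norm_sum_le R (fun p => ∑ k ∈ range K, φ (p.1 + (k : ℤ) * s, p.2 - (k : ℤ) * t))
  linarith

end Pool.Agent.Lib.H21T
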