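import Pool.Agent.Lib.H21T.F2

/-!
# Chunk S2 (S/M): the size of s b - t a
-/

namespace Pool.Agent.Lib.H21T

open Finset Pool.Agent.SZW

/-- `s b - t a = s (b - x / a) + a (s x / a ^ 2 - t)`, `0 ≤ b - x / a ≤ H / a ≤ H / A`, `a ≤ 2 A` and
`|s x / a ^ 2 - t| ≤ 1 / S + s |x / a0 ^ 2 - x / a ^ 2| ≤ 1 / S + S / S ^ 2 = 2 / S` (`Ap`, `f2_var` with `a = a'`). -/
theorem s2 {A x X S Λ : ℕ} (G : Geo A x X S Λ) {a0 s t a b H : ℕ} (h0 : A ≤ a0) (hsS : s ≤ S) (hap : Ap x S a0 s t)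
    (h1 : a0 ≤ a) (h2 : a ≤ a0 + Λ) (h3 : a ≤ 2 * A) (h4 : x ≤ a * b) (h5 : a * b ≤ x + H) :
    |(s : ℝ) * b - t * a| ≤ 4 * A / S + S * H / A := by
  have hA : (1 : ℝ) ≤ A := by exact_mod_cast G.hA
  have hS : (1 : ℝ) ≤ S := by exact_mod_cast G.hS
  have hA0 : (0 : ℝ) < A := by linarith
  have hS0 : (0 : ℝ) < S := by linarith
  have hAa : (A : ℝ) ≤ a := by exact_mod_cast h0.trans h1
  have ha0 : (0 : ℝ) < a := by linarith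
  have haA : (a : ℝ) ≤ 2 * A := by exact_mod_cast h3
  have hs0 : (0 : ℝ) ≤ s := Nat.cast_nonneg s
  have hsS' : (s : ℝ) ≤ S := by exact_mod_cast hsS
  have hH0 : (0 : ℝ) ≤ H := Nat.cast_nonneg H
  have h4' : (x : ℝ) ≤ a * b := by exact_mod_cast h4
  have h5' : (a : ℝ) * b ≤ x + H := by exact_mod_cast h5
  have e : (s : ℝ) * b - t * a = s * (b - x / a) + a * (s * (x / ((a : ℝ) * a)) - t) := by
    field_simp
    ring
  have k1 : (0 : ℝ) ≤ b - x / a := by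
    rw [sub_nonneg, div_le_iff₀ ha0]
    linarith [mul_comm (a : ℝ) b]
  have k2 : (b : ℝ) - x / a ≤ H / A := by
    have k3 : (b : ℝ) - x / a ≤ H / a := by
      rw [sub_le_iff_le_add, ← add_div, le_div_iff₀ ha0]
      linarith [mul_comm (a : ℝ) b]
    exact k3.trans (div_le_div_of_nonneg_left hH0 hA0 hAa)
  have k4 : |(s : ℝ) * (b - x / a)| ≤ S * H / A := by
    rw [abs_of_nonneg (mul_nonneg hs0 k1), mul_div_assoc]
    exact mul_le_mul hsS' k2 k1 hS0.le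
  have k5 := f2_var G h0 h1 h2 h1 h2
  have k6 : |(s : ℝ) * (x / ((a : ℝ) * a)) - t| ≤ 2 / S := by
    have k7 : (s : ℝ) * (x / ((a : ℝ) * a)) - t = (s * (x / (a0 : ℝ) ^ 2) - t) - s * (x / (a0 : ℝ) ^ 2 - x / ((a : ℝ) * a)) := by
      ring
    rw [k7]
    refine (abs_sub _ _).trans ?_
    have k8 : |(s : ℝ) * (x / (a0 : ℝ) ^ 2 - x / ((a : ℝ) * a))| ≤ 1 / S := by
      rw [abs_mul, abs_of_nonneg hs0]
      refine (mul_le_mul hsS' k5 (abs_nonneg _) hS0.le).trans (le_of_eq ?_)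
      field_simp
    have k9 : |(s : ℝ) * (x / (a0 : ℝ) ^ 2) - t| ≤ 1 / S := hap
    have k10 : (2 : ℝ) / S = 1 / S + 1 / S := by ring
    rw [k10]
    exact add_le_add k9 k8
  have k11 : |(a : ℝ) * (s * (x / ((a : ℝ) * a)) - t)| ≤ 4 * A / S := by
    rw [abs_mul, abs_of_pos ha0]
    refine (mul_le_mul haA k6 (abs_nonneg _) (by linarith)).trans (le_of_eq ?_)
    ring
  rw [e, add_comm (4 * (A : ℝ) / S)]
  exact (abs_add_le _ _).trans (add_le_add k4 k11)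

/-- `t ≤ s x / a0 ^ 2 + 1 / S ≤ S X + 1 ≤ 2 X S` (`hX`, `A ≤ a0`). -/
theorem s2_t {A x X S Λ : ℕ} (G : Geo A x X S Λ) {a0 s t : ℕ} (h0 : A ≤ a0) (hsS : s ≤ S) (hap : Ap x S a0 s t) :
    t ≤ 2 * X * S := by
  have hA : (1 : ℝ) ≤ A := by exact_mod_cast G.hA
  have hS : (1 : ℝ) ≤ S := by exact_mod_cast G.hS
  have hX1 : (1 : ℝ) ≤ X := by exact_mod_cast G.hX1
  have hX : (x : ℝ) ≤ X * (A : ℝ) ^ 2 := by exact_mod_cast G.hX
  have hAa : (A : ℝ) ≤ a0 := by exact_mod_cast h0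
  have hs0 : (0 : ℝ) ≤ s := Nat.cast_nonneg s
  have hsS' : (s : ℝ) ≤ S := by exact_mod_cast hsS
  have ha0 : (0 : ℝ) < (a0 : ℝ) ^ 2 := by
    have : (0 : ℝ) < a0 := by linarith
    positivity
  have k1 : (x : ℝ) / (a0 : ℝ) ^ 2 ≤ X := by
    rw [div_le_iff₀ ha0]
    have k2 : (A : ℝ) ^ 2 ≤ (a0 : ℝ) ^ 2 := pow_le_pow_left₀ (by linarith) hAa 2
    nlinarith
  have k2 : |(s : ℝ) * (x / (a0 : ℝ) ^ 2) - t| ≤ 1 / S := hap
  have k3 := (abs_le.1 k2).1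
  have k4 : 1 / (S : ℝ) ≤ 1 := by
    rw [div_le_one (by linarith)]
    exact hS
  have k5 : (s : ℝ) * (x / (a0 : ℝ) ^ 2) ≤ S * X :=
    mul_le_mul hsS' k1 (by positivity) (by linarith)
  have k6 : (t : ℝ) ≤ 2 * X * S := by nlinarith
  exact_mod_cast k6

/-- `x / a0 ^ 2 ≥ x / (4 A ^ 2) ≥ 1 / 8` (`hx`), so `t ≥ s / 8 - 1 / S > 0` for `s ≥ 9`. -/
theorem s2_t1 {A x X S Λ : ℕ} (G : Geo A x X S Λ) {a0 s t : ℕ} (h0 : A ≤ a0) (h1 : a0 ≤ 2 * A) (hs : 9 ≤ s) (hap : Ap x S a0 s t) :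
    1 ≤ t := by
  have hA : (1 : ℝ) ≤ A := by exact_mod_cast G.hA
  have hS : (1 : ℝ) ≤ S := by exact_mod_cast G.hS
  have hx : (A : ℝ) ^ 2 ≤ 2 * x := by exact_mod_cast G.hx
  have hAa : (A : ℝ) ≤ a0 := by exact_mod_cast h0
  have haA : (a0 : ℝ) ≤ 2 * A := by exact_mod_cast h1
  have hs9 : (9 : ℝ) ≤ s := by exact_mod_cast hs
  have ha0 : (0 : ℝ) < (a0 : ℝ) ^ 2 := by
    have : (0 : ℝ) < a0 := by linarith
    positivity
  have k1 : 1 / 8 ≤ (x : ℝ) / (a0 : ℝ) ^ 2 := by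
    rw [le_div_iff₀ ha0]
    have k2 : (a0 : ℝ) ^ 2 ≤ (2 * A) ^ 2 := pow_le_pow_left₀ (by linarith) haA 2
    nlinarith
  have k2 : |(s : ℝ) * (x / (a0 : ℝ) ^ 2) - t| ≤ 1 / S := hap
  have k3 := (abs_le.1 k2).2
  have k4 : 1 / (S : ℝ) ≤ 1 := by
    rw [div_le_one (by linarith)]
    exact hS
  have k5 : 9 * (1 / 8) ≤ (s : ℝ) * (x / (a0 : ℝ) ^ 2) :=
    mul_le_mul hs9 k1 (by norm_num) (by linarith)
  have k6 : (0 : ℝ) < t := by linarith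
  exact_mod_cast k6

end Pool.Agent.Lib.H21T
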