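import Pool.Agent.Lib.H21T.Defs

/-!
# Chunk S4 (S/M): counting pairs
-/

namespace Pool.Agent.Lib.H21T

open Finset Pool.Agent.SZW

/-- The `b` are the integers of the half open interval from `x / a` to `(x + H) / a`, of length `H / a`. -/
theorem s4_fib (x H a : ℕ) (ha : 1 ≤ a) :
    (((range (x + H)).filter fun b => x ≤ a * b ∧ a * b < x + H).card : ℝ) ≤ (H : ℝ) / a + 1 := by
  classical
  set S := (range (x + H)).filter fun b => x ≤ a * b ∧ a * b < x + H with hS
  have ha' : (0 : ℝ) < a := by exact_mod_cast ha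
  rcases S.eq_empty_or_nonempty with h | h
  · rw [h, card_empty, Nat.cast_zero]
    positivity
  · have h0 := S.min'_mem h
    have h1 := S.max'_mem h
    set b0 := S.min' h with hb0
    set b1 := S.max' h with hb1
    have hle : b0 ≤ b1 := S.min'_le_max' h
    have hsub : S ⊆ Icc b0 b1 := fun b hb => mem_Icc.2 ⟨S.min'_le b hb, S.le_max' b hb⟩
    have hc : S.card ≤ b1 + 1 - b0 := by
      have := card_le_card hsub
      rwa [Nat.card_Icc] at this
    rw [hS, mem_filter] at h0 h1
    have h2 : a * b1 < a * b0 + H := by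
      have := h1.2.2
      have := h0.2.1
      omega
    have h3 : (a : ℝ) * b1 < a * b0 + H := by exact_mod_cast h2
    have h4 : (b1 : ℝ) - b0 < H / a := by
      rw [lt_div_iff₀ ha']
      nlinarith
    have h5 : (S.card : ℝ) ≤ (b1 : ℝ) + 1 - b0 := by
      have : S.card + b0 ≤ b1 + 1 := by omega
      have h6 : ((S.card : ℝ)) + b0 ≤ b1 + 1 := by exact_mod_cast this
      linarith
    linarith

/-- Fibres over the first coordinate: for each `a ∈ T` with `A ≤ A1 ≤ a` at most `H / a + 1 ≤ H / A + 1` values of `b` (`s4_fib`). -/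
theorem s4_card {A A1 A2 x H : ℕ} (hA : 1 ≤ A) (h1 : A ≤ A1) (T : Finset ℕ) :
    (((Rg A1 A2 x H).filter fun p => p.1 ∈ T).card : ℝ) ≤ T.card * ((H : ℝ) / A + 1) := by
  classical
  have hA' : (0 : ℝ) < A := by exact_mod_cast hA
  have h2 : ((Rg A1 A2 x H).filter fun p => p.1 ∈ T).card =
      ∑ a ∈ T, (((Rg A1 A2 x H).filter fun p => p.1 ∈ T).filter fun p => p.1 = a).card :=
    card_eq_sum_card_fiberwise (fun p hp => (mem_filter.1 hp).2)
  rw [h2, Nat.cast_sum, ← nsmul_eq_mul]
  refine sum_le_card_nsmul _ _ _ fun a haT => ?_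
  by_cases ha : A1 ≤ a
  · have h3 : (((Rg A1 A2 x H).filter fun p => p.1 ∈ T).filter fun p => p.1 = a).card ≤
        ((range (x + H)).filter fun b => x ≤ a * b ∧ a * b < x + H).card := by
      refine card_le_card_of_injOn (fun p => p.2) ?_ ?_
      · intro p hp
        have hp' := mem_filter.1 (mem_coe.1 hp)
        have hp'' := mem_filter.1 hp'.1
        have h4 := hp''.1
        rw [Rg, mem_filter, mem_product] at h4
        rw [mem_coe, mem_filter]
        have h5 := hp'.2
        subst h5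
        exact ⟨h4.1.2, h4.2⟩
      · intro p hp q hq hpq
        have hp' := (mem_filter.1 (mem_coe.1 hp)).2
        have hq' := (mem_filter.1 (mem_coe.1 hq)).2
        exact Prod.ext (hp'.trans hq'.symm) hpq
    have h4 : ((((Rg A1 A2 x H).filter fun p => p.1 ∈ T).filter fun p => p.1 = a).card : ℝ) ≤
        (H : ℝ) / a + 1 := le_trans (by exact_mod_cast h3) (s4_fib x H a (by omega))
    refine h4.trans ?_
    have h5 : (H : ℝ) / a ≤ H / A := by
      apply div_le_div_of_nonneg_left (by positivity) hA'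
      exact_mod_cast h1.trans ha
    linarith
  · have h3 : (((Rg A1 A2 x H).filter fun p => p.1 ∈ T).filter fun p => p.1 = a) = ∅ := by
      rw [filter_eq_empty_iff]
      intro p hp hpa
      have h4 := (mem_filter.1 hp).1
      rw [Rg, mem_filter, mem_product, mem_Ico] at h4
      have h5 := h4.1.1.1
      omega
    rw [h3, card_empty, Nat.cast_zero]
    positivity

/-- The case `T = Ico A1 A2`. -/
theorem s4_all {A A1 A2 x H : ℕ} (hA : 1 ≤ A) (h1 : A ≤ A1) (h2 : A1 ≤ A2) :
    ((Rg A1 A2 x H).card : ℝ) ≤ ((A2 : ℝ) - A1) * ((H : ℝ) / A + 1) := by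
  classical
  have h := s4_card (A2 := A2) (x := x) (H := H) hA h1 (Ico A1 A2)
  rw [Nat.card_Ico, Nat.cast_sub h2] at h
  have h3 : (Rg A1 A2 x H).filter (fun p => p.1 ∈ Ico A1 A2) = Rg A1 A2 x H := by
    rw [filter_eq_self]
    intro p hp
    rw [Rg, mem_filter, mem_product] at hp
    exact hp.1.1
  rwa [h3] at h

/-- Fibres over the product: for `m ∈ U` (with `x ≤ m < x + H`) the pairs with `a b = m` inject into the divisors of `m` by `(a, b) ↦ a`. -/
theorem s4_div {A1 A2 x H τ : ℕ} (hA : 1 ≤ A1) (hx : 1 ≤ x) (hτ : ∀ m : ℕ, 1 ≤ m → m < x + H → m.divisors.card ≤ τ) (U : Finset ℕ) :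
    ((Rg A1 A2 x H).filter fun p => p.1 * p.2 ∈ U).card ≤ τ * U.card := by
  classical
  have h2 : ((Rg A1 A2 x H).filter fun p => p.1 * p.2 ∈ U).card =
      ∑ m ∈ U, (((Rg A1 A2 x H).filter fun p => p.1 * p.2 ∈ U).filter fun p => p.1 * p.2 = m).card :=
    card_eq_sum_card_fiberwise (fun p hp => (mem_filter.1 hp).2)
  rw [h2, mul_comm, ← smul_eq_mul]
  refine sum_le_card_nsmul _ _ _ fun m hmU => ?_
  by_cases hm : x ≤ m ∧ m < x + H
  · refine le_trans ?_ (hτ m (hx.trans hm.1) hm.2)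
    refine card_le_card_of_injOn (fun p => p.1) ?_ ?_
    · intro p hp
      have h3 := (mem_filter.1 (mem_coe.1 hp)).2
      rw [mem_coe, Nat.mem_divisors]
      exact ⟨⟨p.2, h3.symm⟩, by omega⟩
    · intro p hp q hq hpq
      have h3 := (mem_filter.1 (mem_coe.1 hp)).2
      have h4 := (mem_filter.1 (mem_coe.1 hq)).2
      have h5 := (mem_filter.1 (mem_filter.1 (mem_coe.1 hp)).1).1
      rw [Rg, mem_filter, mem_product, mem_Ico] at h5
      have h6 : 0 < p.1 := by have := h5.1.1.1; omega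
      have hpq' : p.1 = q.1 := hpq
      refine Prod.ext hpq' ?_
      rw [← hpq'] at h4
      exact Nat.eq_of_mul_eq_mul_left h6 (h3.trans h4.symm)
  · have h3 : (((Rg A1 A2 x H).filter fun p => p.1 * p.2 ∈ U).filter fun p => p.1 * p.2 = m) = ∅ := by
      rw [filter_eq_empty_iff]
      intro p hp hpm
      have h4 := (mem_filter.1 hp).1
      rw [Rg, mem_filter] at h4
      exact hm (hpm ▸ h4.2)
    rw [h3, card_empty]
    exact Nat.zero_le _

/-- `s4_div` with `U = Ico x (x + D) ∪ Ico (x + H - D) (x + H)`, `|U| ≤ 2 D`. -/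
theorem s4_bdry {A1 A2 x H τ : ℕ} (hA : 1 ≤ A1) (hx : 1 ≤ x) (hτ : ∀ m : ℕ, 1 ≤ m → m < x + H → m.divisors.card ≤ τ) (D : ℕ) :
    ((Rg A1 A2 x H).filter fun p => p.1 * p.2 < x + D ∨ x + H ≤ p.1 * p.2 + D).card ≤ 2 * τ * D := by
  classical
  have h1 := s4_div (A2 := A2) hA hx hτ (Ico x (x + D) ∪ Ico (x + H - D) (x + H))
  have h2 : (Ico x (x + D) ∪ Ico (x + H - D) (x + H)).card ≤ 2 * D := by
    refine (card_union_le _ _).trans ?_
    rw [Nat.card_Ico, Nat.card_Ico]
    omega
  refine le_trans (card_le_card ?_) (h1.trans ?_)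
  · intro p hp
    rw [mem_filter] at hp ⊢
    have h3 := hp.1
    rw [Rg, mem_filter] at h3
    refine ⟨hp.1, ?_⟩
    rw [mem_union, mem_Ico, mem_Ico]
    rcases hp.2 with h | h
    · exact Or.inl ⟨h3.2.1, h⟩
    · exact Or.inr ⟨by omega, h3.2.2⟩
  · calc τ * (Ico x (x + D) ∪ Ico (x + H - D) (x + H)).card ≤ τ * (2 * D) := Nat.mul_le_mul_left _ h2
      _ = 2 * τ * D := by ring

end Pool.Agent.Lib.H21T
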