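import Pool.Agent.Lib.H21T.S2
import Pool.Agent.Lib.H21T.S4

/-!
# Chunk S3 (M): the pairs which leave the region
-/

namespace Pool.Agent.Lib.H21T

open Finset Pool.Agent.SZW

/-- The change of the product. -/
theorem s3_dev {A x X S Λ : ℕ} (G : Geo A x X S Λ) {a0 a1 s t H K D k a b : ℕ} (h0 : A ≤ a0) (h1 : a1 ≤ a0 + Λ)
    (h2 : a1 ≤ 2 * A) (hsS : s ≤ S) (hap : Ap x S a0 s t)
    (hD : (K : ℝ) * (4 * A / S + S * H / A) + 2 * (K : ℝ) ^ 2 * (S : ℝ) ^ 2 * X ≤ D) (hk : k < K)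
    (ha0 : a0 ≤ a) (ha1 : a < a1) (hx1 : x ≤ a * b) (hx2 : a * b < x + H) :
    |(k : ℤ) * ((s : ℤ) * b - t * a)| + (k : ℤ) ^ 2 * s * t ≤ D := by
  have r1 := s2 G h0 hsS hap ha0 (by omega) (by omega) hx1 hx2.le
  have r2 := s2_t G h0 hsS hap
  have hkK : (k : ℝ) ≤ K := by exact_mod_cast hk.le
  have hk0 : (0 : ℝ) ≤ k := Nat.cast_nonneg _
  have hs : (s : ℝ) ≤ S := by exact_mod_cast hsS
  have hs0 : (0 : ℝ) ≤ s := Nat.cast_nonneg _
  have ht : (t : ℝ) ≤ 2 * X * S := by exact_mod_cast r2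
  have ht0 : (0 : ℝ) ≤ t := Nat.cast_nonneg _
  have r3 : |(k : ℝ) * ((s : ℝ) * b - t * a)| ≤ K * (4 * A / S + S * H / A) := by
    rw [abs_mul, abs_of_nonneg hk0]
    exact mul_le_mul hkK r1 (abs_nonneg _) (Nat.cast_nonneg _)
  have r4 : (k : ℝ) ^ 2 * s * t ≤ 2 * (K : ℝ) ^ 2 * (S : ℝ) ^ 2 * X := by
    calc (k : ℝ) ^ 2 * s * t ≤ (K : ℝ) ^ 2 * S * (2 * X * S) := by gcongr
      _ = 2 * (K : ℝ) ^ 2 * (S : ℝ) ^ 2 * X := by ring
  have r5 : |(k : ℝ) * ((s : ℝ) * b - t * a)| + (k : ℝ) ^ 2 * s * t ≤ D := by linarith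
  have r6 : ((|(k : ℤ) * ((s : ℤ) * b - t * a)| + (k : ℤ) ^ 2 * s * t : ℤ) : ℝ) ≤ ((D : ℤ) : ℝ) := by
    push_cast
    exact r5
  exact_mod_cast r6

/-- `RZ` as an image: number of the pairs with a property. -/
theorem s3_card {a0 a1 x H : ℕ} (P : ℤ × ℤ → Prop) [DecidablePred P] :
    ((RZ a0 a1 x H).filter P).card = ((Rg a0 a1 x H).filter fun p => P ((p.1 : ℤ), (p.2 : ℤ))).card := by
  unfold RZ
  rw [Finset.filter_image, Finset.card_image_of_injective]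
  rintro ⟨a, b⟩ ⟨c, d⟩ h
  rw [Prod.mk.injEq] at h
  simp only [Nat.cast_inj] at h
  rw [h.1, h.2]

/-- `(a + k s) (b - k t) = a b + k (s b - t a) - k ^ 2 s t`, and `|k (s b - t a) - k ^ 2 s t| ≤ K (4 A / S + S H / A) + K ^ 2 S (2 X S) ≤ D` by `s2`, `s2_t`
and `hD`. If `(a, b) ∈ RZ a0 a1 x H` (`mem_RZ`), `a + k s < a1`, `x + D ≤ a b` and `a b + D < x + H`, then the shifted pair is in `RZ`. So a pair which leaves
has `a1 - k s ≤ a < a1` (at most `k s ≤ K S` values of `a`: `s4_card`) or is in the boundary set. (`RZ` is the image of `Rg` under the injective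
map to `ℤ × ℤ`.) -/
theorem s3p {A x X S Λ : ℕ} (G : Geo A x X S Λ) {a0 a1 s t H K D k : ℕ} (h0 : A ≤ a0) (h1 : a1 ≤ a0 + Λ) (h2 : a1 ≤ 2 * A)
    (hsS : s ≤ S) (hap : Ap x S a0 s t)
    (hD : (K : ℝ) * (4 * A / S + S * H / A) + 2 * (K : ℝ) ^ 2 * (S : ℝ) ^ 2 * X ≤ D) (hk : k < K) :
    (((RZ a0 a1 x H).filter fun p => (p.1 + (k : ℤ) * s, p.2 - (k : ℤ) * t) ∉ RZ a0 a1 x H).card : ℝ) ≤
      K * S * ((H : ℝ) / A + 1) + ((Rg a0 a1 x H).filter fun p => p.1 * p.2 < x + D ∨ x + H ≤ p.1 * p.2 + D).card := by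
  classical
  have hx : 1 ≤ x := by
    have := G.hx
    have h3 : 1 ≤ A ^ 2 := Nat.one_le_pow _ _ G.hA
    omega
  have ha01 : 1 ≤ a0 := G.hA.trans h0
  rw [s3_card]
  have hsub : (Rg a0 a1 x H).filter (fun p => (((p.1 : ℤ) + (k : ℤ) * s, (p.2 : ℤ) - (k : ℤ) * t) : ℤ × ℤ) ∉ RZ a0 a1 x H) ⊆
      ((Rg a0 a1 x H).filter fun p => p.1 ∈ Ico (a1 - k * s) a1) ∪
        ((Rg a0 a1 x H).filter fun p => p.1 * p.2 < x + D ∨ x + H ≤ p.1 * p.2 + D) := by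
    rintro ⟨a, b⟩ hp
    rw [mem_filter] at hp
    obtain ⟨hp1, hp2⟩ := hp
    have hp3 := (mem_Rg ha01).1 hp1
    simp only at hp2 hp3
    obtain ⟨g1, g2, g3, g4⟩ := hp3
    rw [mem_union, mem_filter, mem_filter]
    by_contra hcon
    rw [not_or] at hcon
    obtain ⟨c1, c2⟩ := hcon
    have c3 : a + k * s < a1 := by
      by_contra hc
      apply c1
      refine ⟨hp1, ?_⟩
      simp only [mem_Ico]
      omega
    have c4 : x + D ≤ a * b ∧ a * b + D < x + H := by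
      by_contra hc
      apply c2
      refine ⟨hp1, ?_⟩
      simp only
      by_contra hc2
      exact hc (by omega)
    have hdev := s3_dev G h0 h1 h2 hsS hap hD hk g1 g2 g3 g4
    apply hp2
    rw [mem_RZ ha01 hx]
    simp only
    have e1 : ((a : ℤ) + (k : ℤ) * s) * ((b : ℤ) - (k : ℤ) * t) =
        (a : ℤ) * b + (k : ℤ) * ((s : ℤ) * b - t * a) - (k : ℤ) ^ 2 * s * t := by ring
    have e2 := neg_abs_le ((k : ℤ) * ((s : ℤ) * b - t * a))
    have e3 := le_abs_self ((k : ℤ) * ((s : ℤ) * b - t * a))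
    have e4 : (0 : ℤ) ≤ (k : ℤ) ^ 2 * s * t := by positivity
    have c5 : (x : ℤ) + D ≤ (a : ℤ) * b := by exact_mod_cast c4.1
    have c6 : (a : ℤ) * b + D < (x : ℤ) + H := by exact_mod_cast c4.2
    have c7 : (a : ℤ) + (k : ℤ) * s < a1 := by exact_mod_cast c3
    have c8 : (0 : ℤ) ≤ (k : ℤ) * s := by positivity
    have c9 : (a0 : ℤ) ≤ a := by exact_mod_cast g1
    rw [e1]
    refine ⟨by linarith, c7, by linarith, by linarith⟩
  have hc := (card_le_card hsub).trans (card_union_le _ _)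
  have hc2 : ((((Rg a0 a1 x H).filter fun p => p.1 ∈ Ico (a1 - k * s) a1).card : ℕ) : ℝ) ≤ K * S * ((H : ℝ) / A + 1) := by
    refine (s4_card G.hA h0 _).trans ?_
    refine mul_le_mul_of_nonneg_right ?_ (by positivity)
    rw [Nat.card_Ico]
    have h3 : a1 - (a1 - k * s) ≤ K * S := by
      have h4 : k * s ≤ K * S := Nat.mul_le_mul hk.le hsS
      omega
    exact_mod_cast h3
  have hc3 : ((((Rg a0 a1 x H).filter (fun p => (((p.1 : ℤ) + (k : ℤ) * s, (p.2 : ℤ) - (k : ℤ) * t) : ℤ × ℤ) ∉ RZ a0 a1 x H)).card : ℕ) : ℝ) ≤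
      (((Rg a0 a1 x H).filter fun p => p.1 ∈ Ico (a1 - k * s) a1).card : ℝ) +
        (((Rg a0 a1 x H).filter fun p => p.1 * p.2 < x + D ∨ x + H ≤ p.1 * p.2 + D).card : ℝ) := by
    exact_mod_cast hc
  linarith

/-- The same for the inverse shift: a pair which leaves has `a0 ≤ a < a0 + k s` or is in the boundary set. -/
theorem s3m {A x X S Λ : ℕ} (G : Geo A x X S Λ) {a0 a1 s t H K D k : ℕ} (h0 : A ≤ a0) (h1 : a1 ≤ a0 + Λ) (h2 : a1 ≤ 2 * A)
    (hsS : s ≤ S) (hap : Ap x S a0 s t)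
    (hD : (K : ℝ) * (4 * A / S + S * H / A) + 2 * (K : ℝ) ^ 2 * (S : ℝ) ^ 2 * X ≤ D) (hk : k < K) :
    (((RZ a0 a1 x H).filter fun p => (p.1 - (k : ℤ) * s, p.2 + (k : ℤ) * t) ∉ RZ a0 a1 x H).card : ℝ) ≤
      K * S * ((H : ℝ) / A + 1) + ((Rg a0 a1 x H).filter fun p => p.1 * p.2 < x + D ∨ x + H ≤ p.1 * p.2 + D).card := by
  classical
  have hx : 1 ≤ x := by
    have := G.hx
    have h3 : 1 ≤ A ^ 2 := Nat.one_le_pow _ _ G.hA
    omega
  have ha01 : 1 ≤ a0 := G.hA.trans h0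
  rw [s3_card]
  have hsub : (Rg a0 a1 x H).filter (fun p => (((p.1 : ℤ) - (k : ℤ) * s, (p.2 : ℤ) + (k : ℤ) * t) : ℤ × ℤ) ∉ RZ a0 a1 x H) ⊆
      ((Rg a0 a1 x H).filter fun p => p.1 ∈ Ico a0 (a0 + k * s)) ∪
        ((Rg a0 a1 x H).filter fun p => p.1 * p.2 < x + D ∨ x + H ≤ p.1 * p.2 + D) := by
    rintro ⟨a, b⟩ hp
    rw [mem_filter] at hp
    obtain ⟨hp1, hp2⟩ := hp
    have hp3 := (mem_Rg ha01).1 hp1
    simp only at hp2 hp3
    obtain ⟨g1, g2, g3, g4⟩ := hp3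
    rw [mem_union, mem_filter, mem_filter]
    by_contra hcon
    rw [not_or] at hcon
    obtain ⟨c1, c2⟩ := hcon
    have c3 : a0 + k * s ≤ a := by
      by_contra hc
      apply c1
      refine ⟨hp1, ?_⟩
      simp only [mem_Ico]
      omega
    have c4 : x + D ≤ a * b ∧ a * b + D < x + H := by
      by_contra hc
      apply c2
      refine ⟨hp1, ?_⟩
      simp only
      by_contra hc2
      exact hc (by omega)
    have hdev := s3_dev G h0 h1 h2 hsS hap hD hk g1 g2 g3 g4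
    apply hp2
    rw [mem_RZ ha01 hx]
    simp only
    have e1 : ((a : ℤ) - (k : ℤ) * s) * ((b : ℤ) + (k : ℤ) * t) =
        (a : ℤ) * b - (k : ℤ) * ((s : ℤ) * b - t * a) - (k : ℤ) ^ 2 * s * t := by ring
    have e2 := neg_abs_le ((k : ℤ) * ((s : ℤ) * b - t * a))
    have e3 := le_abs_self ((k : ℤ) * ((s : ℤ) * b - t * a))
    have e4 : (0 : ℤ) ≤ (k : ℤ) ^ 2 * s * t := by positivity
    have c5 : (x : ℤ) + D ≤ (a : ℤ) * b := by exact_mod_cast c4.1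
    have c6 : (a : ℤ) * b + D < (x : ℤ) + H := by exact_mod_cast c4.2
    have c7 : (a0 : ℤ) + (k : ℤ) * s ≤ a := by exact_mod_cast c3
    have c8 : (0 : ℤ) ≤ (k : ℤ) * s := by positivity
    have c9 : (a : ℤ) < a1 := by exact_mod_cast g2
    rw [e1]
    refine ⟨by linarith, by linarith, by linarith, by linarith⟩
  have hc := (card_le_card hsub).trans (card_union_le _ _)
  have hc2 : ((((Rg a0 a1 x H).filter fun p => p.1 ∈ Ico a0 (a0 + k * s)).card : ℕ) : ℝ) ≤ K * S * ((H : ℝ) / A + 1) := by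
    refine (s4_card G.hA h0 _).trans ?_
    refine mul_le_mul_of_nonneg_right ?_ (by positivity)
    rw [Nat.card_Ico]
    have h3 : a0 + k * s - a0 ≤ K * S := by
      have h4 : k * s ≤ K * S := Nat.mul_le_mul hk.le hsS
      omega
    exact_mod_cast h3
  have hc3 : ((((Rg a0 a1 x H).filter (fun p => (((p.1 : ℤ) - (k : ℤ) * s, (p.2 : ℤ) + (k : ℤ) * t) : ℤ × ℤ) ∉ RZ a0 a1 x H)).card : ℕ) : ℝ) ≤
      (((Rg a0 a1 x H).filter fun p => p.1 ∈ Ico a0 (a0 + k * s)).card : ℝ) +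
        (((Rg a0 a1 x H).filter fun p => p.1 * p.2 < x + D ∨ x + H ≤ p.1 * p.2 + D).card : ℝ) := by
    exact_mod_cast hc
  linarith

end Pool.Agent.Lib.H21T
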