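import Pool.Agent.Lib.H21T.S1
import Pool.Agent.Lib.H21T.S3

/-!
# Chunk S5 (S/M): the exponential sum over one piece
-/

namespace Pool.Agent.Lib.H21T

open Finset Pool.Agent.SZW

/-- `SR α a0 a1 x H = ∑_{p ∈ RZ a0 a1 x H} φ p`, `φ p = ee (α p.1 p.2)`. `s1` with `E` = the right side of `s3p`, `s3m`; for `p = (a, b)`:
`φ (a + k s, b - k t) = ee (α a b) ee (α (s b - t a) k - α s t k ^ 2)`, so by `hgood` (`β = α (s b - t a)`) the inner sum has norm `≤ δ K`. Divide by `K`. -/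
theorem s5 {A x X S Λ : ℕ} (G : Geo A x X S Λ) {a0 a1 s t H K D : ℕ} (h0 : A ≤ a0) (h1 : a1 ≤ a0 + Λ) (h2 : a1 ≤ 2 * A)
    (hsS : s ≤ S) (hap : Ap x S a0 s t) (hK : 1 ≤ K)
    (hD : (K : ℝ) * (4 * A / S + S * H / A) + 2 * (K : ℝ) ^ 2 * (S : ℝ) ^ 2 * X ≤ D) (α δ : ℝ)
    (hgood : ∀ β : ℝ, ‖∑ k ∈ range K, ee (β * k + (-(((s : ℝ) * t) * α)) * (k : ℝ) ^ 2)‖ ≤ δ * K) :
    ‖SR α a0 a1 x H‖ ≤ δ * (Rg a0 a1 x H).card + 2 * (K * S * ((H : ℝ) / A + 1) +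
      ((Rg a0 a1 x H).filter fun p => p.1 * p.2 < x + D ∨ x + H ≤ p.1 * p.2 + D).card) := by
  classical
  have hinj : Function.Injective (fun p : ℕ × ℕ => (((p.1 : ℤ), (p.2 : ℤ)) : ℤ × ℤ)) := by
    rintro ⟨a, b⟩ ⟨c, d⟩ h
    rw [Prod.mk.injEq] at h
    simp only [Nat.cast_inj] at h
    rw [h.1, h.2]
  have hcard : (RZ a0 a1 x H).card = (Rg a0 a1 x H).card := by
    unfold RZ
    exact Finset.card_image_of_injective _ hinj
  have hSR : SR α a0 a1 x H = ∑ p ∈ RZ a0 a1 x H, ee (α * ((p.1 : ℝ) * p.2)) := by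
    unfold SR RZ
    rw [Finset.sum_image fun a _ b _ h => hinj h]
    refine Finset.sum_congr rfl fun p _ => ?_
    push_cast
    rfl
  have hK0 : (0 : ℝ) < K := by exact_mod_cast hK
  have hmain := s1 (RZ a0 a1 x H) (fun p => ee (α * ((p.1 : ℝ) * p.2))) (fun p => (norm_ee _).le) (s : ℤ) (t : ℤ) K
    (K * S * ((H : ℝ) / A + 1) + ((Rg a0 a1 x H).filter fun p => p.1 * p.2 < x + D ∨ x + H ≤ p.1 * p.2 + D).card)
    (fun k hk => s3p G h0 h1 h2 hsS hap hD hk) (fun k hk => s3m G h0 h1 h2 hsS hap hD hk)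
  have hin : ∀ p ∈ RZ a0 a1 x H, ‖∑ k ∈ range K,
      (fun p : ℤ × ℤ => ee (α * ((p.1 : ℝ) * p.2))) (p.1 + (k : ℤ) * s, p.2 - (k : ℤ) * t)‖ ≤ δ * K := by
    intro p _
    have e1 : ∑ k ∈ range K, (fun p : ℤ × ℤ => ee (α * ((p.1 : ℝ) * p.2))) (p.1 + (k : ℤ) * s, p.2 - (k : ℤ) * t) =
        ee (α * ((p.1 : ℝ) * p.2)) * ∑ k ∈ range K,
          ee ((α * ((s : ℝ) * p.2 - t * p.1)) * k + (-(((s : ℝ) * t) * α)) * (k : ℝ) ^ 2) := by
      rw [Finset.mul_sum]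
      refine Finset.sum_congr rfl fun k _ => ?_
      rw [← ee_add]
      change ee (α * (((p.1 + (k : ℤ) * s : ℤ) : ℝ) * ((p.2 - (k : ℤ) * t : ℤ) : ℝ))) = _
      congr 1
      push_cast
      ring
    rw [e1, norm_mul, norm_ee, one_mul]
    exact hgood _
  have h5 := Finset.sum_le_sum hin
  rw [Finset.sum_const, nsmul_eq_mul, hcard] at h5
  rw [hSR]
  have h6 := hmain.trans (add_le_add h5 le_rfl)
  refine le_of_mul_le_mul_left ?_ hK0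
  refine h6.trans (le_of_eq ?_)
  ring

end Pool.Agent.Lib.H21T
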