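import Pool.Agent.Lib.H21T.F4
import Pool.Agent.Lib.H21T.S2

/-!
# Chunk S7 (S/M): the bad directions
-/

namespace Pool.Agent.Lib.H21T

open Finset Pool.Agent.SZW

/-- `Bd` = image of `{i ∈ Bs : s0 ≤ s i}` under `i ↦ (s i, t i)`. `1 ≤ s i ≤ S`; `1 ≤ t i ≤ 2 X S` by `s2_t`, `s2_t1` (`pa A1 Λ i ≤ A2 ≤ 2 A` for `i < nJ`). At most
`291 X s0 S ≤ |Bs| / 2` of the `i` have `s i < s0` (`f4_small`), each pair `(s1, t1)` with `s1 ≥ s0` comes from at most `96 S / s1 + 1 ≤ 96 S / s0 + 1` indices (`f4`). -/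
theorem s7 {A x X S Λ A1 A2 : ℕ} (G : Geo A x X S Λ) (h1 : A ≤ A1) (h2 : A1 ≤ A2) (h3 : A2 ≤ 2 * A) {s t : ℕ → ℕ}
    (hDir : Dir A1 Λ x S (nJ A1 A2 Λ) s t) {s0 : ℕ} (hs0 : 9 ≤ s0) (Bs : Finset ℕ) (hBs : Bs ⊆ range (nJ A1 A2 Λ))
    (hbig : 582 * (X : ℝ) * s0 * S ≤ Bs.card) :
    ∃ Bd : Finset (ℕ × ℕ), (∀ p ∈ Bd, 1 ≤ p.1 ∧ p.1 ≤ S ∧ 1 ≤ p.2 ∧ p.2 ≤ 2 * X * S) ∧
      (∀ p ∈ Bd, ∃ i ∈ Bs, p = (s i, t i)) ∧ (Bs.card : ℝ) ≤ 2 * (96 * S / s0 + 1) * Bd.card := by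
  classical
  have hA : ∀ i, A ≤ pa A1 Λ i := fun i => by
    unfold pa
    exact h1.trans (Nat.le_add_right _ _)
  have hpa : ∀ i < nJ A1 A2 Λ, pa A1 Λ i ≤ 2 * A := by
    intro i hi
    unfold nJ at hi
    have h4 : i ≤ (A2 - A1) / Λ := by omega
    have h5 : i * Λ ≤ A2 - A1 := (Nat.le_div_iff_mul_le G.hΛ).1 h4
    unfold pa
    omega
  have hlt : ∀ i ∈ Bs, i < nJ A1 A2 Λ := fun i hi => mem_range.1 (hBs hi)
  have hcard1 : (Bs.card : ℝ) ≤ 2 * (Bs.filter fun i => s0 ≤ s i).card := by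
    have h4 : (Bs.filter fun i => s0 ≤ s i).card + (Bs.filter fun i => ¬ s0 ≤ s i).card = Bs.card :=
      card_filter_add_card_filter_not _
    have h5 : (Bs.filter fun i => ¬ s0 ≤ s i).card ≤ ((range (nJ A1 A2 Λ)).filter fun i => s i < s0).card := by
      refine card_le_card fun i hi => ?_
      rw [mem_filter] at hi ⊢
      exact ⟨hBs hi.1, not_le.1 hi.2⟩
    have h6 := f4_small G h1 h2 h3 hDir s0
    have h7 : (((Bs.filter fun i => ¬ s0 ≤ s i).card : ℕ) : ℝ) ≤ 291 * X * s0 * S :=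
      le_trans (by exact_mod_cast h5) h6
    have h8 : (((Bs.filter fun i => s0 ≤ s i).card : ℕ) : ℝ) + ((Bs.filter fun i => ¬ s0 ≤ s i).card : ℕ) = Bs.card := by
      exact_mod_cast h4
    linarith
  refine ⟨(Bs.filter fun i => s0 ≤ s i).image fun i => (s i, t i), ?_, ?_, ?_⟩
  · intro p hp
    rw [mem_image] at hp
    obtain ⟨i, hi, rfl⟩ := hp
    rw [mem_filter] at hi
    have hin := hlt i hi.1
    exact ⟨hDir.s1 i hin, hDir.sS i hin, s2_t1 G (hA i) (hpa i hin) (hs0.trans hi.2) (hDir.ap i hin),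
      s2_t G (hA i) (hDir.sS i hin) (hDir.ap i hin)⟩
  · intro p hp
    rw [mem_image] at hp
    obtain ⟨i, hi, rfl⟩ := hp
    exact ⟨i, (mem_filter.1 hi).1, rfl⟩
  · have hs00 : (0 : ℝ) < s0 := by
      have : (9 : ℝ) ≤ s0 := by exact_mod_cast hs0
      linarith
    have h4 : (((Bs.filter fun i => s0 ≤ s i).card : ℕ) : ℝ) ≤
        (96 * S / s0 + 1) * ((Bs.filter fun i => s0 ≤ s i).image fun i => (s i, t i)).card := by
      rw [card_eq_sum_card_image (fun i => (s i, t i)) (Bs.filter fun i => s0 ≤ s i)]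
      rw [Nat.cast_sum, mul_comm, ← nsmul_eq_mul, ← sum_const]
      refine sum_le_sum fun p hp => ?_
      rw [mem_image] at hp
      obtain ⟨i, hi, rfl⟩ := hp
      rw [mem_filter] at hi
      have hin := hlt i hi.1
      have h5 : ((Bs.filter fun i => s0 ≤ s i).filter fun j => (s j, t j) = (s i, t i)).card ≤
          ((range (nJ A1 A2 Λ)).filter fun j => s j = s i ∧ t j = t i).card := by
        refine card_le_card fun j hj => ?_
        rw [mem_filter, mem_filter] at hj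
        rw [mem_filter]
        exact ⟨hBs hj.1.1, (Prod.mk.injEq _ _ _ _ ▸ hj.2 : s j = s i ∧ t j = t i)⟩
      have h6 := f4 G h1 h2 h3 hDir (s i) (t i) (hDir.s1 i hin)
      refine le_trans (by exact_mod_cast h5) (h6.trans ?_)
      have h7 : (s0 : ℝ) ≤ s i := by exact_mod_cast hi.2
      have h8 : 96 * (S : ℝ) / s i ≤ 96 * S / s0 := div_le_div_of_nonneg_left (by positivity) hs00 h7
      linarith
    linarith

end Pool.Agent.Lib.H21T
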