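import Pool.Agent.Lib.H21T.V1

/-!
# Chunk V2 (M): Vinogradov lemma in two variables
-/

namespace Pool.Agent.Lib.H21T

open Finset Pool.Agent.SZW

/-- For `s ≤ S` let `Bd_s = {t : (s, t) ∈ Bd}` and `S' = {s : |Bd_s| ≥ (η / 2) T}`. As `η S T ≤ |Bd| = ∑_{s} |Bd_s| ≤ |S'| T + S (η / 2) T`,
`|S'| ≥ (η / 2) S`. For `s ∈ S'` apply `v1` to `Bd_s`, `η / 2`, `δ1` and `s α` in place of `α` (`q * ((s * t) * α) = q * (t * (s * α))`;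
conditions: `32 Q1 ^ 2 / (η / 2) ^ 2 = 128 Q1 ^ 2 / η ^ 2 ≤ 2 ^ 13 Q1 ^ 4 / η ^ 4 ≤ T`; `64 Q1 δ1 ≤ η / 2` is `h7`): there is `r` with `1 ≤ r`,
`r ≤ 8 Q1 ^ 2 / η`, so `r ≤ Q2 := ⌊8 Q1 ^ 2 / η⌋₊`, and `nn (r * (s * α)) ≤ δ2 := 256 Q1 ^ 2 δ1 / (η ^ 2 T)`. Apply `v1` to `S'`, `Q2`, `S`, `η / 2`, `δ2`:
`32 Q2 ^ 2 / (η / 2) ^ 2 ≤ 128 * 64 Q1 ^ 4 / η ^ 4 ≤ S`; `64 Q2 δ2 ≤ 2 ^ 17 Q1 ^ 4 δ1 / (η ^ 3 T) ≤ η / 2` by `h18`. The result is `r'` with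
`r' ≤ 4 Q2 ^ 2 / (η / 2) ≤ 512 Q1 ^ 4 / η ^ 3` and `nn (r' * α) ≤ 64 Q2 ^ 2 δ2 / ((η / 2) ^ 2 S) ≤ 2 ^ 22 Q1 ^ 6 δ1 / (η ^ 6 S T)`. -/
theorem v2 (Q1 S T : ℕ) (η δ1 α : ℝ) (Bd : Finset (ℕ × ℕ)) (hQ : 1 ≤ Q1) (hS1 : 1 ≤ S) (hT1 : 1 ≤ T) (hη : 0 < η) (hη1 : η ≤ 1)
    (hδ : 0 ≤ δ1) (hS : 2 ^ 13 * (Q1 : ℝ) ^ 4 / η ^ 4 ≤ S) (hT : 2 ^ 13 * (Q1 : ℝ) ^ 4 / η ^ 4 ≤ T) (h7 : 128 * (Q1 : ℝ) * δ1 ≤ η)
    (h18 : 2 ^ 18 * (Q1 : ℝ) ^ 4 * δ1 ≤ η ^ 4 * T) (hB : ∀ p ∈ Bd, 1 ≤ p.1 ∧ p.1 ≤ S ∧ 1 ≤ p.2 ∧ p.2 ≤ T)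
    (hc : η * (S * T) ≤ Bd.card) (hq : ∀ p ∈ Bd, ∃ q : ℕ, 1 ≤ q ∧ q ≤ Q1 ∧ nn (q * (((p.1 : ℝ) * p.2) * α)) ≤ δ1) :
    ∃ r : ℕ, 1 ≤ r ∧ (r : ℝ) ≤ 512 * (Q1 : ℝ) ^ 4 / η ^ 3 ∧ nn (r * α) ≤ 2 ^ 22 * (Q1 : ℝ) ^ 6 * δ1 / (η ^ 6 * S * T) := by
  classical
  have hQ1 : (1 : ℝ) ≤ Q1 := by exact_mod_cast hQ
  have hSr : (1 : ℝ) ≤ S := by exact_mod_cast hS1
  have hTr : (1 : ℝ) ≤ T := by exact_mod_cast hT1
  obtain ⟨F, hF⟩ : ∃ F : ℕ → Finset ℕ, F = fun s => (Bd.filter fun p => p.1 = s).image Prod.snd :=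
    ⟨_, rfl⟩
  have hmemF : ∀ s t, t ∈ F s ↔ (s, t) ∈ Bd := by
    intro s t
    rw [hF]
    simp only [mem_image, mem_filter]
    constructor
    · rintro ⟨p, ⟨hp, rfl⟩, rfl⟩
      exact hp
    · intro h
      exact ⟨(s, t), ⟨h, rfl⟩, rfl⟩
  have hFc : ∀ s, (F s).card = (Bd.filter fun p => p.1 = s).card := by
    intro s
    rw [hF]
    refine card_image_of_injOn ?_
    intro p hp p' hp' h
    rw [mem_coe, mem_filter] at hp hp'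
    exact Prod.ext (hp.2.trans hp'.2.symm) h
  have hFT : ∀ s, ((F s).card : ℝ) ≤ T := by
    intro s
    have h1 : F s ⊆ Icc 1 T := by
      intro t ht
      have := hB _ ((hmemF s t).1 ht)
      exact mem_Icc.2 ⟨this.2.2.1, this.2.2.2⟩
    have h2 := card_le_card h1
    rw [Nat.card_Icc, Nat.add_sub_cancel] at h2
    exact_mod_cast h2
  have hsum : (Bd.card : ℝ) = ∑ s ∈ Icc 1 S, ((F s).card : ℝ) := by
    have h1 := card_eq_sum_card_fiberwise (f := Prod.fst) (s := Bd) (t := Icc 1 S) fun p hp => by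
      have := hB p hp
      exact mem_coe.2 (mem_Icc.2 ⟨this.1, this.2.1⟩)
    rw [h1]
    push_cast
    refine sum_congr rfl fun s _ => ?_
    rw [hFc]
  obtain ⟨S', hS'⟩ : ∃ S', S' = (Icc 1 S).filter fun s => η / 2 * T ≤ (F s).card := ⟨_, rfl⟩
  have hS'c : η / 2 * S ≤ S'.card := by
    have h1 : (Bd.card : ℝ) ≤ S'.card * T + S * (η / 2 * T) := by
      rw [hsum, ← sum_filter_add_sum_filter_not (Icc 1 S) (fun s => η / 2 * T ≤ (F s).card),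
        ← hS']
      refine add_le_add ?_ ?_
      · rw [← nsmul_eq_mul]
        exact sum_le_card_nsmul _ _ _ fun s _ => hFT s
      · have h2 : ∑ s ∈ (Icc 1 S).filter (fun s => ¬ η / 2 * T ≤ (F s).card), ((F s).card : ℝ) ≤
            ((Icc 1 S).filter (fun s => ¬ η / 2 * T ≤ (F s).card)).card • (η / 2 * T) :=
          sum_le_card_nsmul _ _ _ fun s hs => (not_le.1 (mem_filter.1 hs).2).le
        refine h2.trans ?_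
        rw [nsmul_eq_mul]
        refine mul_le_mul_of_nonneg_right ?_ (by positivity)
        have h3 := card_filter_le (Icc 1 S) (fun s => ¬ η / 2 * T ≤ (F s).card)
        rw [Nat.card_Icc, Nat.add_sub_cancel] at h3
        exact_mod_cast h3
    have h2 : η / 2 * S * T ≤ S'.card * T := by nlinarith
    exact le_of_mul_le_mul_right h2 (by linarith)
  obtain ⟨Q2, hQ2⟩ : ∃ Q2 : ℕ, Q2 = ⌊8 * (Q1 : ℝ) ^ 2 / η⌋₊ := ⟨_, rfl⟩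
  have hQ2r : (Q2 : ℝ) ≤ 8 * (Q1 : ℝ) ^ 2 / η := by
    rw [hQ2]
    exact Nat.floor_le (by positivity)
  have h8 : (1 : ℝ) ≤ 8 * (Q1 : ℝ) ^ 2 / η := by
    rw [le_div_iff₀ hη]
    nlinarith
  have hQ21 : 1 ≤ Q2 := by
    rw [hQ2]
    exact Nat.le_floor (by exact_mod_cast h8)
  have hQ2r1 : (1 : ℝ) ≤ Q2 := by exact_mod_cast hQ21
  obtain ⟨δ2, hδ2⟩ : ∃ δ2, δ2 = 256 * (Q1 : ℝ) ^ 2 * δ1 / (η ^ 2 * T) := ⟨_, rfl⟩
  have hδ20 : 0 ≤ δ2 := by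
    rw [hδ2]
    positivity
  have hQ4 : (Q1 : ℝ) ^ 2 ≤ (Q1 : ℝ) ^ 4 := pow_le_pow_right₀ hQ1 (by norm_num)
  have hη4 : η ^ 4 ≤ η ^ 2 := pow_le_pow_of_le_one hη.le hη1 (by norm_num)
  have step : ∀ s ∈ S', ∃ r : ℕ, 1 ≤ r ∧ r ≤ Q2 ∧ nn (r * (s * α)) ≤ δ2 := by
    intro s hs
    rw [hS', mem_filter] at hs
    obtain ⟨r, h1, h2, h3⟩ := v1 Q1 T (η / 2) δ1 (s * α) (F s) hQ hT1 (by positivity) (by linarith) hδ
      (by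
        refine le_trans ?_ hT
        have e : 32 * (Q1 : ℝ) ^ 2 / (η / 2) ^ 2 = 128 * (Q1 : ℝ) ^ 2 / η ^ 2 := by
          field_simp
          ring
        rw [e, div_le_div_iff₀ (by positivity) (by positivity)]
        have h4 : 128 * (Q1 : ℝ) ^ 2 ≤ 2 ^ 13 * (Q1 : ℝ) ^ 4 := by nlinarith
        exact mul_le_mul h4 hη4 (by positivity) (by positivity))
      (by linarith)
      (fun t ht => by
        have := hB _ ((hmemF s t).1 ht)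
        exact ⟨this.2.2.1, this.2.2.2⟩)
      hs.2
      (fun t ht => by
        obtain ⟨q, h5, h6, h7⟩ := hq _ ((hmemF s t).1 ht)
        refine ⟨q, h5, h6, ?_⟩
        have e : (q : ℝ) * ((t : ℝ) * ((s : ℝ) * α)) = q * (((s : ℝ) * t) * α) := by ring
        rw [e]
        exact h7)
    refine ⟨r, h1, ?_, h3.trans (le_of_eq ?_)⟩
    · rw [hQ2]
      refine Nat.le_floor (h2.trans (le_of_eq ?_))
      field_simp
      ring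
    · rw [hδ2]
      field_simp
      ring
  have hQ2sq : (Q2 : ℝ) ^ 2 ≤ 64 * (Q1 : ℝ) ^ 4 / η ^ 2 := by
    have h1 := pow_le_pow_left₀ (by linarith) hQ2r 2
    have e : (8 * (Q1 : ℝ) ^ 2 / η) ^ 2 = 64 * (Q1 : ℝ) ^ 4 / η ^ 2 := by
      field_simp
      ring
    rwa [e] at h1
  obtain ⟨r, h1, h2, h3⟩ := v1 Q2 S (η / 2) δ2 α S' hQ21 hS1 (by positivity) (by linarith) hδ20
    (by
      refine le_trans ?_ hS
      have e : 32 * (Q2 : ℝ) ^ 2 / (η / 2) ^ 2 = 128 / η ^ 2 * (Q2 : ℝ) ^ 2 := by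
        field_simp
        ring
      rw [e]
      refine (mul_le_mul_of_nonneg_left hQ2sq (by positivity)).trans (le_of_eq ?_)
      field_simp
      ring)
    (by
      have h4 : 64 * (Q2 : ℝ) * δ2 ≤ 64 * (8 * (Q1 : ℝ) ^ 2 / η) * δ2 :=
        mul_le_mul_of_nonneg_right (mul_le_mul_of_nonneg_left hQ2r (by norm_num)) hδ20
      refine h4.trans ?_
      have e : 64 * (8 * (Q1 : ℝ) ^ 2 / η) * δ2 = 2 ^ 17 * (Q1 : ℝ) ^ 4 * δ1 / (η ^ 3 * T) := by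
        rw [hδ2]
        field_simp
        ring
      rw [e, div_le_div_iff₀ (by positivity) (by norm_num)]
      have e2 : η * (η ^ 3 * T) = η ^ 4 * T := by ring
      rw [e2]
      nlinarith)
    (fun s hs => by
      rw [hS', mem_filter, mem_Icc] at hs
      exact hs.1)
    (by linarith) step
  refine ⟨r, h1, h2.trans ?_, h3.trans ?_⟩
  · have e : 4 * (Q2 : ℝ) ^ 2 / (η / 2) = 8 / η * (Q2 : ℝ) ^ 2 := by
      field_simp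
      ring
    rw [e]
    refine (mul_le_mul_of_nonneg_left hQ2sq (by positivity)).trans (le_of_eq ?_)
    field_simp
    ring
  · have e : 64 * (Q2 : ℝ) ^ 2 * δ2 / ((η / 2) ^ 2 * S) = 256 * δ2 / (η ^ 2 * S) * (Q2 : ℝ) ^ 2 := by
      field_simp
      ring
    rw [e]
    refine (mul_le_mul_of_nonneg_left hQ2sq (by positivity)).trans (le_of_eq ?_)
    rw [hδ2]
    field_simp
    ring

end Pool.Agent.Lib.H21T
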