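import Pool.Agent.Lib.H21T.F1
import Pool.Agent.Lib.H21T.S6
import Pool.Agent.Lib.H21T.S7
import Pool.Agent.Lib.H21T.V2

/-!
# Chunk S8 (M): large exponential sum implies major arc, explicit form
-/

namespace Pool.Agent.Lib.H21T

open Finset Pool.Agent.SZW

/-- The numerical conditions of `s8` -/
structure Num (u δ η C h : ℝ) (A X S Λ K D s0 Q1 τ : ℕ) : Prop where
  hu : 1 ≤ u
  hδ : 0 < δ
  hδ1 : δ ≤ 1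
  hη : 0 < η
  hη1 : η ≤ 1
  hh : 0 < h
  hK : 1 ≤ K
  hs0 : 9 ≤ s0
  hQ1 : 1 ≤ Q1
  n1 : δ * (A * (h / A + 1)) + 2 * (((A : ℝ) / Λ + 1) * (K * S * (h / A + 1))) + 4 * τ * D ≤ h / (16 * u)
  n2 : 582 * (X : ℝ) * s0 * S * (Λ * (h / A + 1)) ≤ h / (16 * u)
  n3 : η * ((S : ℝ) * (2 * X * S)) * (2 * (96 * S / s0 + 1)) * (Λ * (h / A + 1)) ≤ h / (16 * u)
  n4 : C / δ ^ 8 ≤ Q1
  n5 : 2 ^ 13 * (Q1 : ℝ) ^ 4 / η ^ 4 ≤ S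
  n6 : 2 ^ 18 * (Q1 : ℝ) ^ 4 * (C / (δ ^ 8 * (K : ℝ) ^ 2)) ≤ η ^ 4 * (2 * X * S)
  n7 : 128 * (Q1 : ℝ) * (C / (δ ^ 8 * (K : ℝ) ^ 2)) ≤ η
  n8 : 512 * (Q1 : ℝ) ^ 4 / η ^ 3 ≤ u ^ 131
  n9 : 2 ^ 22 * (Q1 : ℝ) ^ 6 * (C / (δ ^ 8 * (K : ℝ) ^ 2)) / (η ^ 6 * S * (2 * X * S)) * u ^ 9754 ≤ 1

/-- Suppose `‖SR‖ > h / (8 u)`. Directions from `exists_dir`; `Bs` = the set of the `i < nJ` for which some `β` has
`‖∑_{k < K} ee (β k - s t α k ^ 2)‖ > δ K`. `s6`, `nJ ≤ A / Λ + 1` and `n1`: `|Bs| Λ (H / A + 1) ≥ h / (16 u)`. By `n2` then `|Bs| ≥ 582 X s0 S`; `s7` gives `Bd`, and `n3`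
gives `|Bd| ≥ η S (2 X S)`. By `hW` (the property of `w1`) every `(s, t) ∈ Bd` has `q ≥ 1`, `q ≤ C / δ ^ 8 ≤ Q1` with
`nn (q * (-(s t α))) ≤ δ1 := C / (δ ^ 8 K ^ 2)`, and `nn (-x) = nn x` (`nn_neg`). `v2` with `T = 2 X S ≥ S` (`n5`, `n6`, `n7`) gives `r`, and `n8`, `n9` say `Maj u α`. -/
theorem s8 {u δ η C : ℝ} {A x X S Λ A1 A2 H K D s0 Q1 τ : ℕ} (G : Geo A x X S Λ) (hC : 1 ≤ C)
    (hW : ∀ (K : ℕ) (β γ δ : ℝ), 1 ≤ K → 0 < δ → δ ≤ 1 → δ * K ≤ ‖∑ k ∈ range K, ee (β * k + γ * (k : ℝ) ^ 2)‖ →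
      ∃ q : ℕ, 1 ≤ q ∧ (q : ℝ) ≤ C / δ ^ 8 ∧ nn (q * γ) * (K : ℝ) ^ 2 ≤ C / δ ^ 8)
    (h1 : A ≤ A1) (h2 : A1 ≤ A2) (h3 : A2 ≤ 2 * A) (hτ : ∀ m : ℕ, 1 ≤ m → m < x + H → m.divisors.card ≤ τ)
    (hD : (K : ℝ) * (4 * A / S + S * H / A) + 2 * (K : ℝ) ^ 2 * (S : ℝ) ^ 2 * X ≤ D)
    (N : Num u δ η C H A X S Λ K D s0 Q1 τ) (α : ℝ) (hα : (H : ℝ) / (8 * u) < ‖SR α A1 A2 x H‖) : Maj u α := by
  have hH0 : (0 : ℝ) < H := N.hh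
  have hu0 : (0 : ℝ) < u := lt_of_lt_of_le one_pos N.hu
  have hA0 : (0 : ℝ) < A := by exact_mod_cast G.hA
  have hΛ0 : (0 : ℝ) < Λ := by exact_mod_cast G.hΛ
  have hX0 : (0 : ℝ) < X := by exact_mod_cast G.hX1
  have hS0 : (0 : ℝ) < S := by exact_mod_cast G.hS
  have hK0 : (0 : ℝ) < K := by exact_mod_cast N.hK
  have hs00 : (0 : ℝ) < s0 := by
    have := N.hs0
    exact_mod_cast (by omega : 0 < s0)
  have hHA : (0 : ℝ) < (H : ℝ) / A + 1 := by positivity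
  obtain ⟨s, t, hD0⟩ := exists_dir A1 Λ x S G.hS
  have hDir := hD0 (nJ A1 A2 Λ)
  classical
  let Bs : Finset ℕ := (range (nJ A1 A2 Λ)).filter fun i =>
    ∃ β : ℝ, δ * K < ‖∑ k ∈ range K, ee (β * k + (-(((s i : ℝ) * t i) * α)) * (k : ℝ) ^ 2)‖
  have hBs : Bs ⊆ range (nJ A1 A2 Λ) := filter_subset _ _
  have hgood : ∀ i ∈ range (nJ A1 A2 Λ), i ∉ Bs →
      ∀ β : ℝ, ‖∑ k ∈ range K, ee (β * k + (-(((s i : ℝ) * t i) * α)) * (k : ℝ) ^ 2)‖ ≤ δ * K := by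
    intro i hi hiB β
    by_contra hcon
    exact hiB (mem_filter.2 ⟨hi, β, not_le.1 hcon⟩)
  have e6 := s6 G h1 h2 h3 hDir N.hK hτ hD α δ N.hδ.le Bs hgood
  have hnJ : (nJ A1 A2 Λ : ℝ) ≤ (A : ℝ) / Λ + 1 := by
    unfold nJ
    push_cast
    have h4 : (((A2 - A1) / Λ : ℕ) : ℝ) ≤ ((A2 - A1 : ℕ) : ℝ) / Λ := Nat.cast_div_le
    have h5 : ((A2 - A1 : ℕ) : ℝ) ≤ A := by exact_mod_cast (by omega : A2 - A1 ≤ A)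
    have h6 : ((A2 - A1 : ℕ) : ℝ) / Λ ≤ (A : ℝ) / Λ := div_le_div_of_nonneg_right h5 hΛ0.le
    linarith
  have hL0 : (0 : ℝ) < Λ * ((H : ℝ) / A + 1) := by positivity
  have e7 : (nJ A1 A2 Λ : ℝ) * (K * S * ((H : ℝ) / A + 1)) ≤ ((A : ℝ) / Λ + 1) * (K * S * ((H : ℝ) / A + 1)) :=
    mul_le_mul_of_nonneg_right hnJ (by positivity)
  have e8 := N.n1
  have e9 : (H : ℝ) / (8 * u) = (H : ℝ) / (16 * u) + (H : ℝ) / (16 * u) := by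
    field_simp
    ring
  have e10 : (H : ℝ) / (16 * u) ≤ Bs.card * (Λ * ((H : ℝ) / A + 1)) := by
    rw [e9] at hα
    linarith
  have hbig : 582 * (X : ℝ) * s0 * S ≤ Bs.card := by
    have h4 : 582 * (X : ℝ) * s0 * S * (Λ * ((H : ℝ) / A + 1)) ≤ Bs.card * (Λ * ((H : ℝ) / A + 1)) := N.n2.trans e10
    exact le_of_mul_le_mul_right h4 hL0
  obtain ⟨Bd, b1, b2, b3⟩ := s7 G h1 h2 h3 hDir N.hs0 Bs hBs hbig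
  have hM0 : (0 : ℝ) < 2 * (96 * S / s0 + 1) := by positivity
  have hc : η * ((S : ℝ) * (2 * X * S)) ≤ Bd.card := by
    have h4 : η * ((S : ℝ) * (2 * X * S)) * (2 * (96 * S / s0 + 1)) * (Λ * ((H : ℝ) / A + 1)) ≤
        (Bd.card : ℝ) * (2 * (96 * S / s0 + 1)) * (Λ * ((H : ℝ) / A + 1)) := by
      refine (N.n3.trans e10).trans (mul_le_mul_of_nonneg_right ?_ hL0.le)
      linarith
    have h5 := le_of_mul_le_mul_right h4 hL0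
    exact le_of_mul_le_mul_right h5 hM0
  have hT : ((2 * X * S : ℕ) : ℝ) = 2 * X * S := by push_cast; ring
  have hST : (S : ℝ) ≤ 2 * X * S := by
    have h4 : (1 : ℝ) ≤ X := by exact_mod_cast G.hX1
    nlinarith
  have hδ8 : (0 : ℝ) < δ ^ 8 := pow_pos N.hδ 8
  have hδ1 : 0 ≤ C / (δ ^ 8 * (K : ℝ) ^ 2) := by positivity
  have hq : ∀ p ∈ Bd, ∃ q : ℕ, 1 ≤ q ∧ q ≤ Q1 ∧ nn (q * (((p.1 : ℝ) * p.2) * α)) ≤ C / (δ ^ 8 * (K : ℝ) ^ 2) := by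
    intro p hp
    obtain ⟨i, hi, rfl⟩ := b2 p hp
    obtain ⟨_, β, hβ⟩ := mem_filter.1 hi
    obtain ⟨q, q1, q2, q3⟩ := hW K β (-(((s i : ℝ) * t i) * α)) δ N.hK N.hδ N.hδ1 hβ.le
    refine ⟨q, q1, ?_, ?_⟩
    · exact_mod_cast q2.trans N.n4
    · have h4 : nn (q * (((s i : ℝ) * t i) * α)) = nn (q * (-(((s i : ℝ) * t i) * α))) := by
        rw [mul_neg, nn_neg]
      show nn (q * (((s i : ℝ) * t i) * α)) ≤ _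
      rw [h4, le_div_iff₀ (by positivity)]
      rw [le_div_iff₀ hδ8] at q3
      nlinarith
  have hn5 := N.n5
  have hn6 := N.n6
  have hn9 := N.n9
  obtain ⟨r, r1, r2, r3⟩ := v2 Q1 S (2 * X * S) η (C / (δ ^ 8 * (K : ℝ) ^ 2)) α Bd N.hQ1 G.hS
    (Nat.mul_pos (Nat.mul_pos two_pos G.hX1) G.hS) N.hη N.hη1 hδ1 hn5 (by rw [hT]; exact hn5.trans hST) N.n7
    (by rw [hT]; exact hn6) b1 (by rw [hT]; exact hc) hq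
  refine ⟨r, r1, r2.trans N.n8, ?_⟩
  rw [hT] at r3
  refine (mul_le_mul_of_nonneg_right r3 (pow_nonneg hu0.le 9754)).trans ?_
  exact hn9

end Pool.Agent.Lib.H21T
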