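import Pool.Agent.Lib.H21T.Defs

/-!
# Chunk V1 (M): Vinogradov lemma in one variable, with a varying denominator
-/

namespace Pool.Agent.Lib.H21T

open Finset Pool.Agent.SZW

/-- Pigeonhole: some `q ≤ Q1` serves at least `η T / Q1` elements `t` of `Bd`; let `G` be the set of these `t`. Apply
`Pool.Agent.SZW.recurrence` (with `κ = Unit`, `β = 0`) to `A = G`, `N = T + 1`, `ρ = η / (2 Q1)` (`ρ (T + 1) ≤ η T / Q1` as `T ≥ 1`), `ε = δ1` and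
`α j = q α` (for `t ∈ G`: `nn (t * (q * α)) ≤ δ1` by commutativity). `8 / ρ ^ 2 = 32 Q1 ^ 2 / η ^ 2 ≤ T`, `32 δ1 ≤ ρ`. It gives `q'` with
`1 ≤ q' ≤ 2 / ρ = 4 Q1 / η` and `nn (q' * (q * α)) ≤ 16 δ1 / (ρ ^ 2 (T + 1)) ≤ 64 Q1 ^ 2 δ1 / (η ^ 2 T)`; take `r = q' q`. -/
theorem v1 (Q1 T : ℕ) (η δ1 α : ℝ) (Bd : Finset ℕ) (hQ : 1 ≤ Q1) (hT : 1 ≤ T) (hη : 0 < η) (hη1 : η ≤ 1) (hδ : 0 ≤ δ1)
    (h8 : 32 * (Q1 : ℝ) ^ 2 / η ^ 2 ≤ T) (h32 : 64 * (Q1 : ℝ) * δ1 ≤ η) (hB : ∀ t ∈ Bd, 1 ≤ t ∧ t ≤ T)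
    (hc : η * T ≤ Bd.card) (hq : ∀ t ∈ Bd, ∃ q : ℕ, 1 ≤ q ∧ q ≤ Q1 ∧ nn (q * (t * α)) ≤ δ1) :
    ∃ r : ℕ, 1 ≤ r ∧ (r : ℝ) ≤ 4 * (Q1 : ℝ) ^ 2 / η ∧ nn (r * α) ≤ 64 * (Q1 : ℝ) ^ 2 * δ1 / (η ^ 2 * T) := by
  classical
  have hQ0 : (0 : ℝ) < Q1 := by exact_mod_cast hQ
  have hQ1 : (1 : ℝ) ≤ Q1 := by exact_mod_cast hQ
  have hT1 : (1 : ℝ) ≤ T := by exact_mod_cast hT
  choose! q hq1 hq2 hq3 using hq
  obtain ⟨y, hy, hyc⟩ := Finset.exists_le_card_fiber_of_nsmul_le_card_of_maps_to (M := ℝ)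
    (s := Bd) (t := Icc 1 Q1) (f := q) (b := η * T / Q1)
    (fun t ht => mem_Icc.2 ⟨hq1 t ht, hq2 t ht⟩) (nonempty_Icc.2 hQ) (by
      rw [Nat.card_Icc, Nat.add_sub_cancel, nsmul_eq_mul, mul_div_cancel₀ _ hQ0.ne']
      exact hc)
  rw [mem_Icc] at hy
  have hy0 : (1 : ℝ) ≤ y := by exact_mod_cast hy.1
  have hyQ : (y : ℝ) ≤ Q1 := by exact_mod_cast hy.2
  obtain ⟨ρ, hρ⟩ : ∃ ρ, ρ = η / (2 * Q1) := ⟨_, rfl⟩
  have hρ0 : 0 < ρ := by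
    rw [hρ]
    positivity
  have hρQ : ρ * (2 * Q1) = η := by
    rw [hρ]
    field_simp
  have hρ1 : ρ ≤ 1 := by
    rw [hρ, div_le_one (by positivity)]
    linarith
  obtain ⟨q', h1, h2, h3⟩ := recurrence (κ := Unit) (A := Bd.filter fun t => q t = y) (N := T + 1)
    (ρ := ρ) (ε := δ1) (α := fun _ => y * α) (β := fun _ => 0) hρ0 hρ1 (by
      have e : 8 / ρ ^ 2 = 32 * (Q1 : ℝ) ^ 2 / η ^ 2 := by
        rw [hρ]
        field_simp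
        ring
      rw [e]
      push_cast
      linarith) hδ (by
      nlinarith) (fun n hn => by
      have := hB n (mem_filter.1 hn).1
      omega) (by
      refine le_trans ?_ hyc
      rw [le_div_iff₀ hQ0]
      push_cast
      have : ρ * (T + 1) * Q1 = η * (T + 1) / 2 := by
        rw [← hρQ]
        ring
      rw [this]
      nlinarith) (fun n hn _ => by
      rw [mem_filter] at hn
      have := hq3 n hn.1
      rw [hn.2] at this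
      have e : (n : ℝ) * (y * α) + 0 = y * (n * α) := by ring
      rw [e]
      exact this)
  have h4 := h3 ()
  refine ⟨q' * y, Nat.mul_pos h1 hy.1, ?_, ?_⟩
  · push_cast
    have e : 2 / ρ * Q1 = 4 * (Q1 : ℝ) ^ 2 / η := by
      rw [hρ]
      field_simp
      ring
    rw [← e]
    exact mul_le_mul h2 hyQ (by linarith) (by positivity)
  · push_cast
    rw [mul_assoc]
    refine h4.trans ?_
    have e : 64 * (Q1 : ℝ) ^ 2 * δ1 / (η ^ 2 * T) = 16 * δ1 / (ρ ^ 2 * T) := by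
      rw [hρ]
      field_simp
      ring
    rw [e]
    refine div_le_div_of_nonneg_left (by positivity) (by positivity) ?_
    push_cast
    exact mul_le_mul_of_nonneg_left (by linarith) (by positivity)

end Pool.Agent.Lib.H21T
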