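import Pool.Agent.Lib.H21T.Defs
import Pool.Agent.Lib.SZW.C2

/-!
# Chunk W1 (S/M): inverse theorem for quadratic Weyl sums (instance of SZW.weyl_two_aux)
-/

namespace Pool.Agent.Lib.H21T

open Finset Pool.Agent.SZW

/-- `Pool.Agent.SZW.weyl_two_aux` for `R = ℤ`, the basis `Module.Basis.singleton Unit ℤ` (`E b x = x ()`), `P = K`, the box `0 ≤ x () < K`
(`Side` holds), the additive map `θ : ℤ →+ ℝ`, `θ m = m γ`, and the affine form with coefficient `β` and constant term `0`: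
the phase at `x` is `γ x ^ 2 + β x`. The sum `sm` over functions `Unit → ℤ` is the sum over `Ico 0 K` in `ℤ` (bijection `x ↦ x ()`), that is the sum over
`range K`. The result for `j = ()` is `nn (θ (q * 1)) * K ^ 2 ≤ C / δ ^ 8`, and `θ (q * 1) = q * γ`. -/
theorem w1 : ∃ C : ℝ, 1 ≤ C ∧ ∀ (K : ℕ) (β γ δ : ℝ), 1 ≤ K → 0 < δ → δ ≤ 1 →
    δ * K ≤ ‖∑ k ∈ range K, ee (β * k + γ * (k : ℝ) ^ 2)‖ →
    ∃ q : ℕ, 1 ≤ q ∧ (q : ℝ) ≤ C / δ ^ 8 ∧ nn (q * γ) * (K : ℝ) ^ 2 ≤ C / δ ^ 8 := by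
  obtain ⟨C, hC, h⟩ := weyl_two_aux (Module.Basis.singleton Unit ℤ)
  refine ⟨C, hC, fun K β γ δ hK hδ hδ1 hS => ?_⟩
  have hE : ∀ x : Unit → ℤ, E (Module.Basis.singleton Unit ℤ) x = x () := by
    intro x
    unfold E
    simp
  have hbox : Pool.Agent.SZW.box (fun _ : Unit => (0 : ℤ)) (fun _ : Unit => (K : ℤ)) =
      (range K).image (fun (k : ℕ) (_ : Unit) => (k : ℤ)) := by
    ext x
    unfold Pool.Agent.SZW.box
    rw [Fintype.mem_piFinset, mem_image]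
    constructor
    · intro hx
      have h1 : (0 : ℤ) ≤ x () ∧ x () < (K : ℤ) := mem_Ico.1 (hx ())
      refine ⟨(x ()).toNat, mem_range.2 ?_, ?_⟩
      · have := Int.toNat_of_nonneg h1.1
        omega
      · funext u
        exact Int.toNat_of_nonneg h1.1
    · rintro ⟨k, hk, rfl⟩ u
      rw [mem_range] at hk
      have h2 : (0 : ℤ) ≤ (k : ℤ) ∧ (k : ℤ) < (K : ℤ) := ⟨Int.natCast_nonneg k, by exact_mod_cast hk⟩
      exact mem_Ico.2 h2
  let θ : ℤ →+ ℝ := { toFun := fun m => (m : ℝ) * γ, map_zero' := by simp, map_add' := fun a b => by push_cast; ring }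
  have hsm : sm (fun _ : Unit => (0 : ℤ)) (fun _ : Unit => (K : ℤ))
      (fun x => θ (E (Module.Basis.singleton Unit ℤ) x ^ 2) + aff (fun _ : Unit => β) 0 x) =
      ∑ k ∈ range K, ee (β * k + γ * (k : ℝ) ^ 2) := by
    unfold sm
    rw [hbox, sum_image (by
      intro a _ b _ hab
      have h5 : (a : ℤ) = (b : ℤ) := congrFun hab ()
      exact_mod_cast h5)]
    refine sum_congr rfl fun k _ => ?_
    congr 1
    change θ (E (Module.Basis.singleton Unit ℤ) (fun _ => (k : ℤ)) ^ 2) + aff (fun _ : Unit => β) 0 (fun _ => (k : ℤ)) = _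
    rw [hE]
    unfold aff
    have e1 : θ (((k : ℤ)) ^ 2) = (((k : ℤ) ^ 2 : ℤ) : ℝ) * γ := rfl
    rw [e1]
    simp
    ring
  obtain ⟨q, h1, h2, h3⟩ := h K (fun _ => 0) (fun _ => (K : ℤ)) θ (fun _ => β) 0 δ hK (by intro i; simp) hδ hδ1 (by
    rw [hsm, Fintype.card_unit, pow_one]
    exact hS)
  refine ⟨q, h1, h2, ?_⟩
  have h4 := h3 ()
  have e2 : θ ((q : ℤ) * (Module.Basis.singleton Unit ℤ) ()) = (q : ℝ) * γ := by
    have e3 : (Module.Basis.singleton Unit ℤ) () = (1 : ℤ) := by simp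
    rw [e3, mul_one]
    change ((q : ℤ) : ℝ) * γ = _
    push_cast
    rfl
  rw [← e2]
  exact h4

end Pool.Agent.Lib.H21T
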