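import Pool.Agent.Lib.H21T.Defs

/-!
# Chunk Z0 (S): symmetry and vanishing outside
-/

namespace Pool.Agent.Lib.H21T

open Finset Pool.Agent.SZW

theorem dbox_symm (A1 A2 B1 B2 m : ℕ) : dbox A1 A2 B1 B2 m = dbox B1 B2 A1 A2 m := by
  unfold dbox
  refine Finset.card_bij (fun p _ => p.swap) ?_ ?_ ?_
  · intro p hp
    rw [mem_filter, mem_product] at hp ⊢
    refine ⟨⟨hp.1.2, hp.1.1⟩, ?_⟩
    rw [← hp.2]
    exact Nat.mul_comm _ _
  · intro p _ q _ h
    exact Prod.swap_injective h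
  · intro p hp
    refine ⟨p.swap, ?_, Prod.swap_swap p⟩
    rw [mem_filter, mem_product] at hp ⊢
    refine ⟨⟨hp.1.2, hp.1.1⟩, ?_⟩
    rw [← hp.2]
    exact Nat.mul_comm _ _

theorem z0_aux (a a' b b' t : ℝ) : min a (t - b) - max a' (t - b') = min b' (t - a') - max b (t - a) := by
  rw [min_def, max_def, min_def, max_def]
  split_ifs <;> linarith

theorem z0_pos {A B m : ℕ} (hA : 1 ≤ A) (hB : 1 ≤ B) (h : m < A * B) : Real.log m ≤ Real.log A + Real.log B := by
  have hA0 : (A : ℝ) ≠ 0 := by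
    have : (1 : ℝ) ≤ A := by exact_mod_cast hA
    positivity
  have hB0 : (B : ℝ) ≠ 0 := by
    have : (1 : ℝ) ≤ B := by exact_mod_cast hB
    positivity
  rw [← Real.log_mul hA0 hB0]
  rcases Nat.eq_zero_or_pos m with hm | hm
  · rw [hm, Nat.cast_zero, Real.log_zero]
    refine Real.log_nonneg ?_
    have : 1 ≤ A * B := Nat.mul_pos hA hB
    exact_mod_cast this
  · refine Real.log_le_log (by exact_mod_cast hm) ?_
    exact_mod_cast h.le

/-- `min (log A2) (t - log B1) = t - max (t - log A2) (log B1)`, and so on (`t = log m`). -/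
theorem lbox_symm (A1 A2 B1 B2 m : ℕ) : lbox A1 A2 B1 B2 m = lbox B1 B2 A1 A2 m := by
  unfold lbox
  rw [z0_aux]

theorem Mbox_symm (Q A1 A2 B1 B2 m : ℕ) : Mbox Q A1 A2 B1 B2 m = Mbox Q B1 B2 A1 A2 m := by
  unfold Mbox
  rw [lbox_symm]

/-- If `m < A1 B1` there are no pairs, and `min (..) - max (..) ≤ (log m - log B1) - log A1 ≤ 0` (also for `m = 0`, `log 0 = 0`). -/
theorem z0_low {A1 A2 B1 B2 m : ℕ} (hA : 1 ≤ A1) (hB : 1 ≤ B1) (h : m < A1 * B1) : dbox A1 A2 B1 B2 m = 0 ∧ lbox A1 A2 B1 B2 m = 0 := by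
  constructor
  · unfold dbox
    rw [card_eq_zero, filter_eq_empty_iff]
    intro p hp hpm
    rw [mem_product, mem_Ico, mem_Ico] at hp
    have h1 : A1 * B1 ≤ p.1 * p.2 := Nat.mul_le_mul hp.1.1 hp.2.1
    omega
  · unfold lbox
    refine max_eq_left ?_
    have h1 := z0_pos hA hB h
    have h2 := min_le_right (Real.log A2) (Real.log m - Real.log B1)
    have h3 := le_max_left (Real.log A1) (Real.log m - Real.log B2)
    linarith

/-- If `m ≥ A2 B2` there are no pairs, and `min (..) - max (..) ≤ log A2 - (log m - log B2) ≤ 0`. -/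
theorem z0_high {A1 A2 B1 B2 m : ℕ} (hA : 1 ≤ A2) (hB : 1 ≤ B2) (h : A2 * B2 ≤ m) : dbox A1 A2 B1 B2 m = 0 ∧ lbox A1 A2 B1 B2 m = 0 := by
  constructor
  · unfold dbox
    rw [card_eq_zero, filter_eq_empty_iff]
    intro p hp hpm
    rw [mem_product, mem_Ico, mem_Ico] at hp
    have h1 : p.1 * p.2 < A2 * B2 := Nat.mul_lt_mul'' hp.1.2 hp.2.2
    omega
  · unfold lbox
    refine max_eq_left ?_
    have hA0 : (0 : ℝ) < A2 := by exact_mod_cast hA
    have hB0 : (0 : ℝ) < B2 := by exact_mod_cast hB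
    have h1 : Real.log A2 + Real.log B2 ≤ Real.log m := by
      rw [← Real.log_mul hA0.ne' hB0.ne']
      refine Real.log_le_log (mul_pos hA0 hB0) ?_
      exact_mod_cast h
    have h2 := min_le_left (Real.log A2) (Real.log m - Real.log B1)
    have h3 := le_max_right (Real.log A1) (Real.log m - Real.log B2)
    linarith

end Pool.Agent.Lib.H21T
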