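import Pool.Agent.Lib.H21T.Defs

/-!
# Chunk Z2 (S/M): the logarithmic length is almost constant
-/

namespace Pool.Agent.Lib.H21T

open Finset Pool.Agent.SZW

theorem z2_add {x h : ℝ} (hx : 0 < x) (hh : 0 ≤ h) : Real.log (x + h) ≤ Real.log x + h / x := by
  have h1 : x + h = x * (1 + h / x) := by field_simp
  have h2 : 0 ≤ h / x := by positivity
  rw [h1, Real.log_mul hx.ne' (by positivity)]
  have h3 := Real.log_le_sub_one_of_pos (show 0 < 1 + h / x by positivity)
  linarith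

theorem z2_log {x m B H : ℕ} (hB : 1 ≤ B) (hx : 1 ≤ x) (h1 : x ≤ m) (h2 : m < x + H) :
    |(Real.log m - Real.log B) - Real.log ((x / B + 1 : ℕ) : ℝ)| ≤ (B : ℝ) / x + H / x := by
  have hBr : (0 : ℝ) < B := by exact_mod_cast hB
  have hxr : (0 : ℝ) < x := by exact_mod_cast hx
  have hf : (0 : ℝ) < ((x / B + 1 : ℕ) : ℝ) := by positivity
  have a1 : (x : ℝ) ≤ ((x / B + 1 : ℕ) : ℝ) * B := by
    have := (Nat.div_lt_iff_lt_mul hB).1 (Nat.lt_succ_self (x / B))
    exact_mod_cast this.le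
  have a2 : ((x / B + 1 : ℕ) : ℝ) * B ≤ x + B := by
    have h3 : x / B * B ≤ x := Nat.div_mul_le_self x B
    have h4 : (x / B + 1) * B ≤ x + B := by
      rw [add_mul, one_mul]
      omega
    exact_mod_cast h4
  have a3 : Real.log x ≤ Real.log ((x / B + 1 : ℕ) : ℝ) + Real.log B := by
    rw [← Real.log_mul hf.ne' hBr.ne']
    exact Real.log_le_log hxr a1
  have a4 : Real.log ((x / B + 1 : ℕ) : ℝ) + Real.log B ≤ Real.log x + B / x := by
    rw [← Real.log_mul hf.ne' hBr.ne']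
    exact (Real.log_le_log (by positivity) a2).trans (z2_add hxr hBr.le)
  have a5 : Real.log x ≤ Real.log m := Real.log_le_log hxr (by exact_mod_cast h1)
  have a6 : Real.log m ≤ Real.log x + H / x := by
    refine (Real.log_le_log (by exact_mod_cast (lt_of_lt_of_le hx h1)) ?_).trans (z2_add hxr (Nat.cast_nonneg H))
    exact_mod_cast h2.le
  have a7 : 0 ≤ (B : ℝ) / x := by positivity
  have a8 : 0 ≤ (H : ℝ) / x := by positivity
  rw [abs_le]
  constructor <;> linarith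

/-- `log` is monotone, so `log (max A1 (x / B2 + 1)) = max (log A1) (log (⌊x / B2⌋ + 1))`, the same for `min`; `max 0`, `min`, `max` are 1-Lipschitz. For `y = x / B2 ≥ A1 / 4`:
`0 ≤ log (⌊y⌋ + 1) - log y ≤ 1 / y ≤ 4 / A1`; for `y = x / B1 ≥ A1 / 2`: `≤ 2 / A1`; `0 ≤ log m - log x ≤ H / x ≤ 6 / A1` (`x ≥ A1 B1 / 2`, `A1 ≤ B1`, `H ≤ 3 A1`). Total at most
`(4 + 6 + 2 + 6) / A1`. -/
theorem z2 (A1 A2 B1 B2 x H m : ℕ) (hA : 8 ≤ A1) (hAB : A1 ≤ B1) (hA2 : A1 ≤ A2) (hB2 : B1 ≤ B2) (hB2' : B2 ≤ 2 * B1) (hx : A1 * B1 ≤ 2 * x)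
    (hH : H ≤ 3 * A1) (h1 : x ≤ m) (h2 : m < x + H) :
    |lbox A1 A2 B1 B2 m - max 0 (Real.log (min A2 (x / B1 + 1) : ℕ) - Real.log (max A1 (x / B2 + 1) : ℕ))| ≤ 24 / A1 := by
  have hxpos : 1 ≤ x := by
    have h3 : 1 * 1 ≤ A1 * B1 := Nat.mul_le_mul (by omega) (by omega)
    omega
  have hxr : (0 : ℝ) < x := by exact_mod_cast hxpos
  have hAr : (0 : ℝ) < A1 := by
    have : 0 < A1 := by omega
    exact_mod_cast this
  have hmax : Real.log ((max A1 (x / B2 + 1) : ℕ) : ℝ) = max (Real.log A1) (Real.log ((x / B2 + 1 : ℕ) : ℝ)) := by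
    rcases le_total A1 (x / B2 + 1) with h | h
    · rw [max_eq_right h, max_eq_right]
      exact Real.log_le_log hAr (by exact_mod_cast h)
    · rw [max_eq_left h, max_eq_left]
      exact Real.log_le_log (by positivity) (by exact_mod_cast h)
  have hA2r : (0 : ℝ) < A2 := by
    have : 0 < A2 := by omega
    exact_mod_cast this
  have hmin : Real.log ((min A2 (x / B1 + 1) : ℕ) : ℝ) = min (Real.log A2) (Real.log ((x / B1 + 1 : ℕ) : ℝ)) := by
    rcases le_total A2 (x / B1 + 1) with h | h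
    · rw [min_eq_left h, min_eq_left]
      exact Real.log_le_log hA2r (by exact_mod_cast h)
    · rw [min_eq_right h, min_eq_right]
      exact Real.log_le_log (by positivity) (by exact_mod_cast h)
  rw [hmax, hmin]
  have e1 := z2_log (B := B1) (by omega) hxpos h1 h2
  have e2 := z2_log (B := B2) (by omega) hxpos h1 h2
  have hxAB : (A1 : ℝ) * B1 ≤ 2 * x := by exact_mod_cast hx
  have hABr : (A1 : ℝ) ≤ B1 := by exact_mod_cast hAB
  have hB2r : (B2 : ℝ) ≤ 2 * B1 := by exact_mod_cast hB2'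
  have hHr : (H : ℝ) ≤ 3 * A1 := by exact_mod_cast hH
  have f1 : (B1 : ℝ) / x ≤ 2 / A1 := by
    rw [div_le_div_iff₀ hxr hAr]
    linarith
  have f2 : (B2 : ℝ) / x ≤ 4 / A1 := by
    rw [div_le_div_iff₀ hxr hAr]
    nlinarith
  have f3 : (H : ℝ) / x ≤ 6 / A1 := by
    rw [div_le_div_iff₀ hxr hAr]
    have h3 : (H : ℝ) * A1 ≤ 3 * A1 * B1 := mul_le_mul hHr hABr hAr.le (by positivity)
    linarith
  have g1 : |min (Real.log A2) (Real.log m - Real.log B1) - min (Real.log A2) (Real.log ((x / B1 + 1 : ℕ) : ℝ))| ≤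
      |(Real.log m - Real.log B1) - Real.log ((x / B1 + 1 : ℕ) : ℝ)| := by
    have h3 := abs_min_sub_min_le_max (Real.log A2) (Real.log m - Real.log B1) (Real.log A2) (Real.log ((x / B1 + 1 : ℕ) : ℝ))
    rw [sub_self, abs_zero, max_eq_right (abs_nonneg _)] at h3
    exact h3
  have g2 : |max (Real.log A1) (Real.log m - Real.log B2) - max (Real.log A1) (Real.log ((x / B2 + 1 : ℕ) : ℝ))| ≤
      |(Real.log m - Real.log B2) - Real.log ((x / B2 + 1 : ℕ) : ℝ)| := by
    have h3 := abs_max_sub_max_le_max (Real.log A1) (Real.log m - Real.log B2) (Real.log A1) (Real.log ((x / B2 + 1 : ℕ) : ℝ))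
    refine h3.trans (max_le ?_ le_rfl)
    rw [sub_self, abs_zero]
    exact abs_nonneg _
  unfold lbox
  set a := min (Real.log A2) (Real.log m - Real.log B1) with ha
  set a' := min (Real.log A2) (Real.log ((x / B1 + 1 : ℕ) : ℝ)) with ha'
  set b := max (Real.log A1) (Real.log m - Real.log B2) with hb
  set b' := max (Real.log A1) (Real.log ((x / B2 + 1 : ℕ) : ℝ)) with hb'
  have g3 : |max 0 (a - b) - max 0 (a' - b')| ≤ |(a - b) - (a' - b')| := by
    refine (abs_max_sub_max_le_max 0 (a - b) 0 (a' - b')).trans (max_le ?_ le_rfl)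
    rw [sub_self, abs_zero]
    exact abs_nonneg _
  have g4 : |(a - b) - (a' - b')| ≤ |a - a'| + |b - b'| := by
    have h3 : (a - b) - (a' - b') = (a - a') - (b - b') := by ring
    rw [h3]
    exact abs_sub _ _
  have f4 : (2 : ℝ) / A1 + 6 / A1 + (4 / A1 + 6 / A1) ≤ 24 / A1 := by
    rw [← add_div, ← add_div, ← add_div, div_le_div_iff_of_pos_right hAr]
    norm_num
  linarith

end Pool.Agent.Lib.H21T
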