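import Pool.Agent.Lib.H21T.Z2
import Pool.Agent.Lib.H21T.Z3
import Pool.Agent.Lib.H21T.M7
import Pool.Agent.Lib.H21T.M6

/-!
# Chunk Z4A (M): the model on the minor arcs
-/

namespace Pool.Agent.Lib.H21T

open Finset Pool.Agent.SZW

/-- `m6` with `β = α`, `θ = 0`, `L = max 0 (..)` of `z2` (at most `log A2 - log A1 ≤ log 2 ≤ 1`), `ε = 24 / A1`, `B = u ^ 2` (`m1_g`, `z3_div`: `x + H ≤ u ^ 20003`; `1 + log Q ≤ 1 + log u ≤ u`),
and `m7` with `c = 1 / u ^ 9754` (`Q ≤ u ≤ u ^ 131`, `¬ Maj`): norm at most `H * u ^ 2 * 24 / u ^ 9999 + u * u * u ^ 9754 / 2 ≤ H / (4 u)`. -/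
theorem z4_model : ∃ U0 : ℝ, 1 ≤ U0 ∧ ∀ u : ℝ, U0 ≤ u → ∀ (Q A1 A2 B1 B2 x H : ℕ) (α : ℝ), 1 ≤ Q → (Q : ℝ) ≤ u → u ^ 9999 ≤ A1 →
    A1 ≤ B1 → A1 ≤ A2 → A2 ≤ 2 * A1 → B1 ≤ B2 → B2 ≤ 2 * B1 → ((A1 * B1 : ℕ) : ℝ) ≤ u ^ 20000 → A1 * B1 ≤ 2 * x → x ≤ 4 * (A1 * B1) →
    u ^ 9999 ≤ H → (H : ℝ) ≤ 3 * u ^ 9999 → ¬ Maj u α →
    ‖∑ m ∈ Ico x (x + H), (Mbox Q A1 A2 B1 B2 m : ℂ) * ee (α * m)‖ ≤ H / (4 * u) := by
  obtain ⟨U1, hU1, hdiv⟩ := z3_div
  refine ⟨max U1 200, le_max_of_le_left hU1, ?_⟩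
  intro u hu Q A1 A2 B1 B2 x H α hQ hQu hA1 hAB hA2 hA2' hB2 hB2' hN hx hx' hH hH' hMaj
  have huU : U1 ≤ u := (le_max_left _ _).trans hu
  have hu2 : (200 : ℝ) ≤ u := (le_max_right _ _).trans hu
  have hu1 : (1 : ℝ) ≤ u := by linarith
  have hu0 : (0 : ℝ) < u := by linarith
  have hpm : ∀ {a b : ℕ}, a ≤ b → u ^ a ≤ u ^ b := fun h => pow_le_pow_right₀ hu1 h
  have hA1r : (8 : ℝ) ≤ A1 := by
    have h1 : u ^ 1 ≤ u ^ 9999 := hpm (by norm_num)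
    rw [pow_one] at h1
    linarith
  have hA18 : 8 ≤ A1 := by exact_mod_cast hA1r
  have hH3 : H ≤ 3 * A1 := by
    have h1 : (H : ℝ) ≤ 3 * A1 := by linarith
    exact_mod_cast h1
  obtain ⟨L, hL⟩ : ∃ L : ℝ, L = max 0 (Real.log (min A2 (x / B1 + 1) : ℕ) -
    Real.log (max A1 (x / B2 + 1) : ℕ)) := ⟨_, rfl⟩
  have hL0 : 0 ≤ L := by
    rw [hL]
    exact le_max_left _ _
  have hL1 : L ≤ 1 := by
    rw [hL]
    refine max_le zero_le_one ?_
    have h1 : Real.log (min A2 (x / B1 + 1) : ℕ) ≤ Real.log A2 := by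
      refine Real.log_le_log ?_ ?_
      · have : 0 < min A2 (x / B1 + 1) := lt_min (by omega) (Nat.succ_pos _)
        exact_mod_cast this
      · exact_mod_cast min_le_left _ _
    have h2 : Real.log A1 ≤ Real.log (max A1 (x / B2 + 1) : ℕ) := by
      refine Real.log_le_log (by linarith) ?_
      exact_mod_cast le_max_left _ _
    have h3 : Real.log A2 ≤ Real.log 2 + Real.log A1 := by
      rw [← Real.log_mul two_ne_zero (by linarith : (A1 : ℝ) ≠ 0)]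
      refine Real.log_le_log ?_ ?_
      · have : 0 < A2 := by omega
        exact_mod_cast this
      · exact_mod_cast hA2'
    have h4 := Real.log_two_lt_d9
    linarith
  have hlogQ : 1 + Real.log Q ≤ u := by
    have h1 : Real.log Q ≤ Real.log u := Real.log_le_log (by exact_mod_cast hQ) hQu
    have h2 : Real.log u ≤ u - 1 := Real.log_le_sub_one_of_pos hu0
    linarith
  have hlogQ0 : 0 ≤ 1 + Real.log Q := by
    have : 0 ≤ Real.log Q := Real.log_nonneg (by exact_mod_cast hQ)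
    linarith
  have hxH : ((x + H : ℕ) : ℝ) ≤ u ^ 20003 := by
    have h1 : (x : ℝ) ≤ 4 * ((A1 * B1 : ℕ) : ℝ) := by exact_mod_cast hx'
    have h2 : u ^ 9999 ≤ u ^ 20000 := hpm (by norm_num)
    have h3 : (x : ℝ) + H ≤ 7 * u ^ 20000 := by linarith
    have h4 : (7 : ℝ) * u ^ 20000 ≤ u ^ 1 * u ^ 20000 := by
      refine mul_le_mul_of_nonneg_right ?_ (by positivity)
      rw [pow_one]
      linarith
    rw [← pow_add] at h4
    have h5 : u ^ (1 + 20000) ≤ u ^ 20003 := hpm (by norm_num)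
    push_cast
    linarith
  have hx1 : 1 ≤ x := by
    have h1 : 1 ≤ A1 * B1 := Nat.mul_pos (by omega) (by omega)
    omega
  have hgb : ∀ m, x ≤ m → m < x + H → |gQ Q m| ≤ u ^ 2 := by
    intro m h1 h2
    have hm0 : 1 ≤ m := by omega
    have h3 := hdiv u huU m hm0 (by
      have : (m : ℝ) ≤ ((x + H : ℕ) : ℝ) := by exact_mod_cast h2.le
      exact this.trans hxH)
    have h4 : (m.divisors.card : ℝ) ≤ u := by
      have h5 : (m.divisors.card : ℝ) ≤ (⌊u⌋₊ : ℝ) := by exact_mod_cast h3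
      exact h5.trans (Nat.floor_le hu0.le)
    refine (m1_g Q m hQ hm0).trans ?_
    rw [pow_two]
    exact mul_le_mul h4 hlogQ hlogQ0 hu0.le
  have hm6 := m6 x H α 0 L (24 / A1) (u ^ 2) (fun m => lbox A1 A2 B1 B2 m) (fun m => gQ Q m)
    (by rw [abs_of_nonneg hL0]; exact hL1) (by positivity) (by positivity)
    (fun m h1 h2 => by
      rw [hL]
      exact z2 A1 A2 B1 B2 x H m hA18 hAB hA2 hB2 hB2' hx hH3 h1 h2) hgb
  have hm7 := m7 x H Q α (1 / u ^ 9754) hQ (by positivity) (fun d hd1 hd2 => by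
    by_contra hcon
    rw [not_le] at hcon
    apply hMaj
    refine ⟨d, hd1, ?_, ?_⟩
    · have h1 : (d : ℝ) ≤ Q := by exact_mod_cast hd2
      have h2 : u ^ 1 ≤ u ^ 131 := hpm (by norm_num)
      rw [pow_one] at h2
      linarith
    · rw [lt_div_iff₀ (by positivity)] at hcon
      exact hcon.le)
  obtain ⟨Sg, hSg⟩ : ∃ Sg : ℂ, Sg = ∑ m ∈ Ico x (x + H), (gQ Q m : ℂ) * ee (α * m) := ⟨_, rfl⟩
  rw [← hSg] at hm6 hm7
  simp only [add_zero, abs_zero, mul_zero, zero_mul] at hm6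
  obtain ⟨Sm, hSm⟩ : ∃ Sm : ℂ, Sm = ∑ m ∈ Ico x (x + H),
    ((lbox A1 A2 B1 B2 m * gQ Q m : ℝ) : ℂ) * ee (α * m) := ⟨_, rfl⟩
  rw [← hSm] at hm6
  have hgoal : ∑ m ∈ Ico x (x + H), (Mbox Q A1 A2 B1 B2 m : ℂ) * ee (α * m) = Sm := by
    rw [hSm]
    rfl
  rw [hgoal]
  have hLS : ‖(L : ℂ) * ee 0 * Sg‖ ≤ u * u * u ^ 9754 / 2 := by
    rw [norm_mul, norm_mul, norm_ee, Complex.norm_real, Real.norm_eq_abs, abs_of_nonneg hL0, mul_one]
    have h1 : L * ‖Sg‖ ≤ 1 * ‖Sg‖ := mul_le_mul_of_nonneg_right hL1 (norm_nonneg _)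
    rw [one_mul] at h1
    refine h1.trans (hm7.trans ?_)
    have e : (Q : ℝ) * (1 + Real.log Q) / (2 * (1 / u ^ 9754)) =
        Q * (1 + Real.log Q) * (u ^ 9754 / 2) := by
      field_simp
    rw [e, mul_div_assoc]
    refine mul_le_mul_of_nonneg_right ?_ (by positivity)
    exact mul_le_mul hQu hlogQ hlogQ0 hu0.le
  have h1 : ‖Sm‖ ≤ ‖Sm - (L : ℂ) * ee 0 * Sg‖ + ‖(L : ℂ) * ee 0 * Sg‖ := by
    have := norm_add_le (Sm - (L : ℂ) * ee 0 * Sg) ((L : ℂ) * ee 0 * Sg)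
    rwa [sub_add_cancel] at this
  have hH0 : (0 : ℝ) ≤ H := Nat.cast_nonneg _
  have h2 : (H : ℝ) * u ^ 2 * (24 / A1) ≤ H / (8 * u) := by
    have h3 : u ^ 2 * (24 / A1) ≤ 1 / (8 * u) := by
      rw [mul_div_assoc', div_le_div_iff₀ (by linarith) (by positivity)]
      have h4 : u ^ 4 ≤ u ^ 9999 := hpm (by norm_num)
      have h5 : u ^ 2 * 24 * (8 * u) = 192 * u ^ 3 := by ring
      have h6 : 192 * u ^ 3 ≤ u * u ^ 3 := mul_le_mul_of_nonneg_right (by linarith) (by positivity)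
      have h7 : u * u ^ 3 = u ^ 4 := by ring
      rw [h5, one_mul]
      linarith
    calc (H : ℝ) * u ^ 2 * (24 / A1) = H * (u ^ 2 * (24 / A1)) := by ring
      _ ≤ H * (1 / (8 * u)) := mul_le_mul_of_nonneg_left h3 hH0
      _ = H / (8 * u) := by ring
  have h3 : u * u * u ^ 9754 / 2 ≤ H / (8 * u) := by
    rw [div_le_div_iff₀ (by norm_num) (by positivity)]
    have e : u * u * u ^ 9754 * (8 * u) = 8 * u ^ 9757 := by
      have e1 : u ^ 9757 = u ^ 9754 * u ^ 3 := (pow_add u 9754 3)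
      obtain ⟨E, hE⟩ : ∃ E, E = u ^ 9754 := ⟨_, rfl⟩
      rw [e1, ← hE]
      ring
    have h4 : 4 * u ^ 9757 ≤ u * u ^ 9757 := mul_le_mul_of_nonneg_right (by linarith) (by positivity)
    have h5 : u * u ^ 9757 = u ^ 9758 := by
      rw [mul_comm]
      exact (pow_succ u 9757).symm
    have h6 : u ^ 9758 ≤ u ^ 9999 := hpm (by norm_num)
    rw [e]
    linarith
  have h4 : (H : ℝ) / (4 * u) = H / (8 * u) + H / (8 * u) := by
    field_simp
    ring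
  rw [h4]
  linarith

end Pool.Agent.Lib.H21T
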