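import Pool.Agent.Lib.H21T.Z0
import Pool.Agent.Lib.H21T.Z1
import Pool.Agent.Lib.H21T.Z4A

/-!
# Chunk Z4 (M): minor arcs
-/

namespace Pool.Agent.Lib.H21T

open Finset Pool.Agent.SZW

/-- The final inequality. -/
theorem z4_fin {u h : ℝ} (hu : 64 ≤ u) (hh : 64 * u ≤ h) : h / (4 * u) + 32 + h / (8 * u) ≤ h / u := by
  have hu0 : 0 < u := by linarith
  have e : h / u - (h / (4 * u) + h / (8 * u)) = 5 / 8 * (h / u) := by
    field_simp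
    ring
  have h1 : 64 ≤ h / u := by
    rw [le_div_iff₀ hu0]
    exact hh
  linarith

/-- `2 (H / B + 1) (H / A + 1) ≤ 32` if `H ≤ 3 A ≤ 3 B`. -/
theorem z4_err {A B H : ℝ} (hA : 0 < A) (hAB : A ≤ B) (hH : H ≤ 3 * A) (h0 : 0 ≤ H) : 2 * ((H / B + 1) * (H / A + 1)) ≤ 32 := by
  have hB : 0 < B := lt_of_lt_of_le hA hAB
  have h1 : H / A ≤ 3 := by
    rw [div_le_iff₀ hA]
    exact hH
  have h2 : H / B ≤ 3 := by
    rw [div_le_iff₀ hB]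
    linarith
  have h3 : 0 ≤ H / A := by positivity
  have h4 : 0 ≤ H / B := by positivity
  nlinarith

/-- The position: if `x < A1 B1 / 2` then the interval is below `A1 B1`. -/
theorem z4_low {P A1 B1 x H : ℝ} (hP : 6 ≤ P) (hA : P ≤ A1) (hB : P ≤ B1) (hx : 2 * x < A1 * B1) (hH : H ≤ 3 * P) : x + H ≤ A1 * B1 := by
  have h1 : P * P ≤ A1 * B1 := mul_le_mul hA hB (by linarith) (by linarith)
  nlinarith

theorem z4_size {u P R A B : ℝ} (hu : 1 ≤ u) (hR : R = u ^ 2 * (P * P)) (hP : 0 < P) (hA : P ≤ A) (hAB : A * B ≤ R) : A * B ≤ u ^ 2 * A ^ 2 := by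
  have h1 : P * P ≤ A * A := mul_le_mul hA hA hP.le (by linarith)
  have h2 : u ^ 2 * (P * P) ≤ u ^ 2 * (A * A) := mul_le_mul_of_nonneg_left h1 (by positivity)
  calc A * B ≤ u ^ 2 * (P * P) := by rw [← hR]; exact hAB
    _ ≤ u ^ 2 * (A * A) := h2
    _ = u ^ 2 * A ^ 2 := by rw [pow_two A]

theorem z4_sqrt {Q A B : ℝ} (hA : 0 ≤ A) (hQ : 0 ≤ Q) (hAB : A ≤ B) (h : A * B ≤ Q * Q) : A ≤ Q := by
  by_contra hcon
  have h1 : Q < A := not_le.1 hcon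
  have h2 : Q * Q < A * A := mul_self_lt_mul_self hQ h1
  have h3 : A * A ≤ A * B := mul_le_mul_of_nonneg_left hAB hA
  linarith

/-- If `2 x < A1 B1` then `x + H ≤ A1 B1` (`A1 B1 ≥ u ^ 19998`) and everything vanishes (`z0_low`); if `x ≥ A2 B2` too (`z0_high`). Otherwise `x ≤ A2 B2 ≤ 4 A1 B1`,
`A1 ^ 2 ≤ A1 B1 ≤ 2 x`, `A1 ≤ u ^ 10000`, `x ≤ 4 u ^ 20000 ≤ 4 u ^ 2 A1 ^ 2`. `z1` (error at most `2 * 4 * 4`), `z3` with `A = A1` for the modified ends, `z4_model`. -/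
theorem z4 : ∃ U0 : ℝ, 1 ≤ U0 ∧ ∀ u : ℝ, U0 ≤ u → ∀ (Q A1 A2 B1 B2 x H : ℕ) (α : ℝ), 1 ≤ Q → (Q : ℝ) ≤ u → u ^ 9999 ≤ A1 →
    A1 ≤ B1 → A1 ≤ A2 → A2 ≤ 2 * A1 → B1 ≤ B2 → B2 ≤ 2 * B1 → ((A1 * B1 : ℕ) : ℝ) ≤ u ^ 20000 →
    u ^ 9999 ≤ H → (H : ℝ) ≤ 3 * u ^ 9999 → ¬ Maj u α →
    ‖∑ m ∈ Ico x (x + H), ((dbox A1 A2 B1 B2 m : ℂ) - (Mbox Q A1 A2 B1 B2 m : ℂ)) * ee (α * m)‖ ≤ H / u := by
  obtain ⟨Ua, _, ha⟩ := z4_model
  obtain ⟨Ub, _, hb⟩ := z3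
  refine ⟨max (max Ua Ub) 64, le_max_of_le_right (by norm_num), ?_⟩
  intro u hu Q A1 A2 B1 B2 x H α hQ hQu hA hAB hA12 hA2 hB12 hB2 hABu hH1 hH2 hmaj
  have hua : Ua ≤ u := ((le_max_left _ _).trans (le_max_left _ _)).trans hu
  have hub : Ub ≤ u := ((le_max_right _ _).trans (le_max_left _ _)).trans hu
  have hu64 : (64 : ℝ) ≤ u := (le_max_right _ _).trans hu
  have hu1 : (1 : ℝ) ≤ u := by linarith
  have hu0 : (0 : ℝ) < u := by linarith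
  have hp1 : 64 * u ≤ u ^ 9999 := by
    have h1 : u ^ 2 ≤ u ^ 9999 := pow_le_pow_right₀ hu1 (by norm_num)
    have h2 : 64 * u ≤ u ^ 2 := by nlinarith
    exact h2.trans h1
  have hp3 : u ^ 20000 = u ^ 2 * (u ^ 9999 * u ^ 9999) := by rw [← pow_add, ← pow_add]
  have hp4 : u ^ 20000 = u ^ 10000 * u ^ 10000 := by rw [← pow_add]
  have hP0 : 0 < u ^ 9999 := by positivity
  have hQ0 : 0 ≤ u ^ 10000 := by positivity
  have hP6 : 6 ≤ u ^ 9999 := by linarith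
  have hABr : (A1 : ℝ) ≤ B1 := by exact_mod_cast hAB
  have hA0 : (0 : ℝ) < A1 := lt_of_lt_of_le hP0 hA
  have hA1n : 1 ≤ A1 := by
    have : 0 < A1 := by exact_mod_cast hA0
    exact this
  have hB1n : 1 ≤ B1 := hA1n.trans hAB
  have hzero : (∀ m ∈ Ico x (x + H), dbox A1 A2 B1 B2 m = 0 ∧ lbox A1 A2 B1 B2 m = 0) →
      ‖∑ m ∈ Ico x (x + H), ((dbox A1 A2 B1 B2 m : ℂ) - (Mbox Q A1 A2 B1 B2 m : ℂ)) * ee (α * m)‖ ≤ H / u := by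
    intro h
    have h1 : ∑ m ∈ Ico x (x + H), ((dbox A1 A2 B1 B2 m : ℂ) - (Mbox Q A1 A2 B1 B2 m : ℂ)) * ee (α * m) = 0 := by
      refine Finset.sum_eq_zero fun m hm => ?_
      obtain ⟨h2, h3⟩ := h m hm
      unfold Mbox
      rw [h2, h3, zero_mul]
      push_cast
      ring
    rw [h1, norm_zero]
    positivity
  by_cases hlow : 2 * x < A1 * B1
  · refine hzero fun m hm => ?_
    rw [mem_Ico] at hm
    refine z0_low hA1n hB1n ?_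
    have h1 : (x : ℝ) + H ≤ A1 * B1 := z4_low hP6 hA (hA.trans hABr) (by exact_mod_cast hlow) hH2
    have h2 : x + H ≤ A1 * B1 := by exact_mod_cast h1
    omega
  by_cases hhigh : A2 * B2 ≤ x
  · refine hzero fun m hm => ?_
    rw [mem_Ico] at hm
    exact z0_high (hA1n.trans hA12) (hB1n.trans hB12) (hhigh.trans hm.1)
  have hx1 : A1 * B1 ≤ 2 * x := not_lt.1 hlow
  have hx2 : x ≤ 4 * (A1 * B1) := by
    have h1 : A2 * B2 ≤ (2 * A1) * (2 * B1) := Nat.mul_le_mul hA2 hB2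
    have h2 : (2 * A1) * (2 * B1) = 4 * (A1 * B1) := by ring
    have h3 : x < A2 * B2 := not_le.1 hhigh
    omega
  have hxpos : 1 ≤ x := by
    have : 1 ≤ A1 * B1 := Nat.mul_pos hA1n hB1n
    omega
  have hABu' : (A1 : ℝ) * B1 ≤ u ^ 20000 := by exact_mod_cast hABu
  have hAu : (A1 : ℝ) ≤ u ^ 10000 := z4_sqrt hA0.le hQ0 hABr (by rw [← hp4]; exact hABu')
  have hA2x : A1 ^ 2 ≤ 2 * x := by
    have h1 : A1 ^ 2 ≤ A1 * B1 := by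
      rw [pow_two]
      exact Nat.mul_le_mul_left _ hAB
    exact h1.trans hx1
  have hx3 : (x : ℝ) ≤ 4 * u ^ 2 * (A1 : ℝ) ^ 2 := by
    have h1 : (x : ℝ) ≤ 4 * ((A1 : ℝ) * B1) := by exact_mod_cast hx2
    have h2 := z4_size hu1 hp3 hP0 hA hABu'
    calc (x : ℝ) ≤ 4 * ((A1 : ℝ) * B1) := h1
      _ ≤ 4 * (u ^ 2 * (A1 : ℝ) ^ 2) := mul_le_mul_of_nonneg_left h2 (by norm_num)
      _ = 4 * u ^ 2 * (A1 : ℝ) ^ 2 := by rw [mul_assoc]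
  have e1 := ha u hua Q A1 A2 B1 B2 x H α hQ hQu hA hAB hA12 hA2 hB12 hB2 hABu hx1 hx2 hH1 hH2 hmaj
  have e2 := hb u hub A1 (max A1 (x / B2 + 1)) (min A2 (x / B1 + 1)) x H α hA hAu (le_max_left _ _)
    ((min_le_left _ _).trans hA2) hA2x hx3 hH1 hH2 hmaj
  have e3 := z1 A1 A2 B1 B2 x H α hA1n hB1n hB12 hxpos
  have e4 : 2 * (((H : ℝ) / B1 + 1) * ((H : ℝ) / A1 + 1)) ≤ 32 :=
    z4_err hA0 hABr (hH2.trans (by linarith)) (Nat.cast_nonneg H)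
  have e5 := z4_fin hu64 (hp1.trans hH1)
  have e6 : ∑ m ∈ Ico x (x + H), ((dbox A1 A2 B1 B2 m : ℂ) - (Mbox Q A1 A2 B1 B2 m : ℂ)) * ee (α * m) =
      (∑ m ∈ Ico x (x + H), (dbox A1 A2 B1 B2 m : ℂ) * ee (α * m) -
        SR α (max A1 (x / B2 + 1)) (min A2 (x / B1 + 1)) x H) +
      SR α (max A1 (x / B2 + 1)) (min A2 (x / B1 + 1)) x H -
      ∑ m ∈ Ico x (x + H), (Mbox Q A1 A2 B1 B2 m : ℂ) * ee (α * m) := by
    rw [sub_add_cancel, ← Finset.sum_sub_distrib]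
    refine Finset.sum_congr rfl fun m _ => ?_
    ring
  rw [e6]
  refine (norm_sub_le _ _).trans ((add_le_add_left (norm_add_le _ _) _).trans ?_)
  linarith

end Pool.Agent.Lib.H21T
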